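import Pool.Agent.Helper479_gq.Semi

/-!
A dense set of characters of a finite abelian group with a large elementary abelian quotient spans
a function of small support.
-/

set_option autoImplicit false

open Finset Module Matrix

namespace Pool.Agent.Helper479_gq

open Helper479_mod (pull pull_apply card_preimage_pull)

theorem dense_char (K : Type) [Field K] [Fintype K] [DecidableEq K] (n : ℕ) [NeZero n]
    [HasEnoughRootsOfUnity K n] (d e0 r ℓ : ℕ) [hℓ : Fact ℓ.Prime] (G : Type) [AddCommGroup G]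
    [Fintype G] (π : G →+ (Fin r → ZMod ℓ)) (hℓn : ℓ ∣ n) (hπ : Function.Surjective π)
    (hG : ∀ g : G, n • g = 0) (T : Finset (AddChar G K))
    (hT : Fintype.card G ≤ 2 ^ e0 * T.card)
    (hr1 : (2 * ℓ + 1) * (d + 1) + 2 ^ (d + 1) * (e0 + 1) ≤ r) :
    ∃ F ∈ Submodule.span K ((fun χ : AddChar G K => (χ : G → K)) '' (T : Set (AddChar G K))),
      F ≠ 0 ∧ (univ.filter fun x => F x ≠ 0).card * ℓ ^ (d + 1) ≤
        (ℓ - 1) ^ (d + 1) * Fintype.card G := by
  classical
  have hcard : ∀ n : ℕ, Fintype.card (Fin n → ZMod ℓ) = ℓ ^ n := by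
    intro n
    rw [Fintype.card_fun, Fintype.card_fin, ZMod.card]
  let Y := Fin r → ZMod ℓ
  have hGpos : 0 < Fintype.card G := Fintype.card_pos_iff.2 ⟨0⟩
  have hTpos : 0 < T.card := by
    by_contra h0
    have : T.card = 0 := by omega
    rw [this, mul_zero] at hT
    omega
  let _ : Fintype (AddChar G K) :=
    Fintype.ofInjective (fun χ => (χ : G → K)) DFunLike.coe_injective
  obtain ⟨ζ, hζ⟩ := (HasEnoughRootsOfUnity.of_dvd K hℓn).prim
  -- averaging over the cosets
  obtain ⟨x0, hx0⟩ : ∃ x0 : AddChar G K, Fintype.card Y * T.card ≤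
      Fintype.card G * (univ.filter fun y : Y => x0 * om hζ π y ∈ T).card := by
    by_contra hcon
    push Not at hcon
    have h1 : ∑ x0 : AddChar G K,
        Fintype.card G * (univ.filter fun y : Y => x0 * om hζ π y ∈ T).card <
        ∑ x0 : AddChar G K, Fintype.card Y * T.card :=
      sum_lt_sum_of_nonempty univ_nonempty fun x0 _ => hcon x0
    rw [sum_const, card_univ, smul_eq_mul, card_char (n := n) hG, ← mul_sum] at h1
    have h2 : ∑ x0 : AddChar G K, (univ.filter fun y : Y => x0 * om hζ π y ∈ T).card =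
        Fintype.card Y * T.card := by
      simp_rw [card_filter]
      rw [sum_comm]
      have h3 : ∀ y : Y, ∑ x0 : AddChar G K, (if x0 * om hζ π y ∈ T then 1 else 0) =
          T.card := by
        intro y
        rw [← Equiv.sum_comp (Equiv.mulRight (om hζ π y)⁻¹)
          (fun x0 => if x0 * om hζ π y ∈ T then 1 else 0)]
        simp only [Equiv.coe_mulRight, inv_mul_cancel_right]
        rw [sum_ite_mem, univ_inter, card_eq_sum_ones]
      rw [sum_congr rfl fun y _ => h3 y, sum_const, card_univ, smul_eq_mul]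
    rw [h2] at h1
    exact lt_irrefl _ h1
  set S := univ.filter fun y : Y => x0 * om hζ π y ∈ T with hS
  have hScard : Fintype.card Y ≤ 2 ^ e0 * S.card := by
    have h1 : T.card * Fintype.card Y ≤ T.card * (2 ^ e0 * S.card) := by
      calc T.card * Fintype.card Y = Fintype.card Y * T.card := mul_comm _ _
        _ ≤ Fintype.card G * S.card := hx0
        _ ≤ (2 ^ e0 * T.card) * S.card := Nat.mul_le_mul_right _ hT
        _ = _ := by ring
    exact Nat.le_of_mul_le_mul_left h1 hTpos
  -- the tuples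
  let E : Finset (Fin (d + 1) → Y) := univ.filter fun e => ∑ i, e i ∈ S
  have hEcard : E.card = Fintype.card Y ^ d * S.card := by
    have h1 : E.card = ∑ e : Fin (d + 1) → Y, if ∑ i, e i ∈ S then 1 else 0 := by
      rw [card_filter]
    rw [h1, ← (Fin.consEquiv (fun _ : Fin (d + 1) => Y)).sum_comp, Fintype.sum_prod_type,
      sum_comm]
    have h2 : ∀ e : Fin d → Y, ∑ y : Y,
        (if ∑ i, (Fin.consEquiv (fun _ : Fin (d + 1) => Y)) (y, e) i ∈ S then 1 else 0) =
          S.card := by
      intro e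
      have h3 : ∀ y : Y, ∑ i, (Fin.consEquiv (fun _ : Fin (d + 1) => Y)) (y, e) i =
          y + ∑ i, e i := by
        intro y
        rw [Fin.sum_univ_succ]
        rfl
      simp_rw [h3]
      rw [← Equiv.sum_comp (Equiv.subRight (∑ i, e i))
        (fun y => if y + ∑ i, e i ∈ S then 1 else 0)]
      simp only [Equiv.subRight_apply, sub_add_cancel]
      rw [sum_ite_mem, univ_inter, card_eq_sum_ones]
    rw [sum_congr rfl fun e _ => h2 e, sum_const, card_univ, smul_eq_mul, Fintype.card_fun,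
      Fintype.card_fin]
  obtain ⟨u, v, huv, hind⟩ := exists_box (p := ℓ) (d + 1) {0} E e0
    (by
      rw [hEcard, pow_succ]
      calc Fintype.card Y ^ d * Fintype.card Y ≤
            Fintype.card Y ^ d * (2 ^ e0 * S.card) := Nat.mul_le_mul_left _ hScard
        _ = _ := by ring)
    (by
      rw [card_singleton, mul_one, hcard]
      calc (2 * ℓ ^ 2) ^ (d + 1) * 2 ^ (2 ^ (d + 1) * (e0 + 1))
          ≤ (2 ^ (2 * ℓ + 1)) ^ (d + 1) * 2 ^ (2 ^ (d + 1) * (e0 + 1)) := by
            apply Nat.mul_le_mul_right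
            apply Nat.pow_le_pow_left
            calc 2 * ℓ ^ 2 ≤ 2 * (2 ^ ℓ) ^ 2 :=
                  Nat.mul_le_mul_left _ (Nat.pow_le_pow_left (Nat.lt_two_pow_self).le 2)
              _ = 2 ^ (2 * ℓ + 1) := by rw [← pow_mul, pow_succ, mul_comm ℓ 2, mul_comm]
        _ = 2 ^ ((2 * ℓ + 1) * (d + 1) + 2 ^ (d + 1) * (e0 + 1)) := by
            rw [← pow_mul, ← pow_add]
        _ ≤ 2 ^ r := Nat.pow_le_pow_right (by norm_num) hr1
        _ ≤ ℓ ^ r := Nat.pow_le_pow_left hℓ.out.two_le r)
  have hdiff := diff_indep hind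
  -- the word
  have hmem : ∀ t : Finset (Fin (d + 1)),
      x0 * om hζ π (∑ i, if i ∈ t then v i else u i) ∈ T := by
    intro t
    have h1 := (mem_filter.1 (huv t)).2
    exact (mem_filter.1 h1).2
  let F : G → K := ∑ t ∈ (univ : Finset (Fin (d + 1))).powerset, ((-1 : K) ^ t.card) •
    ((x0 * om hζ π (∑ i, if i ∈ t then v i else u i) : AddChar G K) : G → K)
  have hFval : ∀ x : G, F x = x0 x * ∏ i, (om hζ π (u i) x - om hζ π (v i) x) := by
    intro x
    have h1 : ∏ i, (om hζ π (u i) x - om hζ π (v i) x) =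
        ∏ i, (- om hζ π (v i) x + om hζ π (u i) x) := by
      apply prod_congr rfl
      intro i _
      ring
    rw [h1, Finset.prod_add, mul_sum]
    simp only [F, Finset.sum_apply]
    apply sum_congr rfl
    intro t _
    rw [Pi.smul_apply, smul_eq_mul]
    rw [AddChar.mul_apply, om_sum]
    have h2 : ∏ i, om hζ π (if i ∈ t then v i else u i) x =
        (∏ i ∈ t, om hζ π (v i) x) * ∏ i ∈ univ \ t, om hζ π (u i) x := by
      rw [← Finset.prod_sdiff (subset_univ t), mul_comm]
      congr 1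
      · apply prod_congr rfl
        intro i hi
        rw [if_pos hi]
      · apply prod_congr rfl
        intro i hi
        rw [if_neg (mem_sdiff.1 hi).2]
    have h3 : ∏ i ∈ t, (- om hζ π (v i) x) = (-1) ^ t.card * ∏ i ∈ t, om hζ π (v i) x := by
      rw [Finset.prod_neg]
    rw [h2, h3]
    ring
  have hvan : ∀ x, F x ≠ 0 → ∀ i, (v i - u i) ⬝ᵥ π x ≠ 0 := by
    intro x hx i h0
    apply hx
    rw [hFval]
    rw [prod_eq_zero (mem_univ i), mul_zero]
    rw [sub_dotProduct, sub_eq_zero] at h0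
    rw [om_apply, om_apply, h0, sub_self]
  refine ⟨F, ?_, ?_, ?_⟩
  · exact Submodule.sum_mem _ fun t _ => Submodule.smul_mem _ _
      (Submodule.subset_span ⟨_, hmem t, rfl⟩)
  · obtain ⟨z, hz⟩ := Helper479_codes.exists_dot hdiff (fun _ => 1)
    obtain ⟨a, ha⟩ := hπ z
    intro h0
    have h1 : F a = 0 := by rw [h0]; rfl
    rw [hFval] at h1
    rcases mul_eq_zero.1 h1 with h2 | h2
    · exact char_ne_zero _ _ h2
    · obtain ⟨i, -, hi⟩ := prod_eq_zero_iff.1 h2
      rw [sub_eq_zero, om_apply, om_apply] at hi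
      have h3 := psi_inj hζ hi
      have h4 := hz i
      rw [sub_dotProduct, ← ha, h3, sub_self] at h4
      exact zero_ne_one h4
  · have h1 := card_nonvanish hdiff univ
    rw [card_univ, Fintype.card_fin] at h1
    set B := (univ.filter fun x : Y => ∀ i ∈ (univ : Finset (Fin (d + 1))),
      (v i - u i) ⬝ᵥ x ≠ 0) with hB
    have h2 := card_preimage_pull (J := Fin 1) π hπ (univ ×ˢ B)
    rw [card_product, card_univ, Fintype.card_fin, hcard, one_mul] at h2
    have h3 : (univ.filter fun x => F x ≠ 0).card ≤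
        (univ.filter fun x : Fin 1 × G => (x.1, π x.2) ∈ univ ×ˢ B).card := by
      apply card_le_card_of_injOn (fun x => ((0 : Fin 1), x))
      · intro x hx
        refine mem_coe.2 (mem_filter.2 ⟨mem_univ _, mem_product.2 ⟨mem_univ _, ?_⟩⟩)
        exact mem_filter.2 ⟨mem_univ _, fun i _ => hvan x (mem_filter.1 (mem_coe.1 hx)).2 i⟩
      · intro x _ y _ hxy
        exact (Prod.mk.inj hxy).2
    have h4 : ℓ ^ r * ((univ.filter fun x => F x ≠ 0).card * ℓ ^ (d + 1)) ≤
        ℓ ^ r * ((ℓ - 1) ^ (d + 1) * Fintype.card G) := by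
      calc ℓ ^ r * ((univ.filter fun x => F x ≠ 0).card * ℓ ^ (d + 1))
          ≤ ℓ ^ r * ((univ.filter fun x : Fin 1 × G => (x.1, π x.2) ∈ univ ×ˢ B).card *
            ℓ ^ (d + 1)) := Nat.mul_le_mul_left _ (Nat.mul_le_mul_right _ h3)
        _ = ((univ.filter fun x : Fin 1 × G => (x.1, π x.2) ∈ univ ×ˢ B).card * ℓ ^ r) *
            ℓ ^ (d + 1) := by ring
        _ = (B.card * ℓ ^ (d + 1)) * Fintype.card G := by rw [h2]; ring
        _ = _ := by rw [h1]; ring
    exact Nat.le_of_mul_le_mul_left h4 (pow_pos hℓ.out.pos _)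

end Pool.Agent.Helper479_gq
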