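import Mathlib

/-!
Extension of scalars of a linear code (as in `Pool.Agent.Y338.AC.Free`).
-/

set_option autoImplicit false

open Finset Module

namespace Pool.Agent.Helper479_gq

section BaseChange

variable {F K Z : Type} [Field F] [Field K] [Algebra F K] [Fintype Z]

variable (K) in
/-- Extension of scalars of a code. -/
def extC (C : Submodule F (Z → F)) : Submodule K (Z → K) where
  carrier := {f | ∀ l : K →ₗ[F] F, (fun z => l (f z)) ∈ C}
  add_mem' := by
    intro f g hf hg l
    have := C.add_mem (hf l) (hg l)
    convert this using 1
    funext z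
    simp
  zero_mem' := by
    intro l
    convert C.zero_mem using 1
    funext z
    simp
  smul_mem' := by
    intro c f hf l
    have := hf (l ∘ₗ LinearMap.mulLeft F c)
    simpa using this

theorem mem_extC {C : Submodule F (Z → F)} {f : Z → K} :
    f ∈ extC K C ↔ ∀ l : K →ₗ[F] F, (fun z => l (f z)) ∈ C := Iff.rfl

theorem finrank_extC [Module.Finite F K] (C : Submodule F (Z → F)) :
    finrank F C ≤ finrank K (extC K C) := by
  classical
  let b := Module.finBasis F K
  set m := finrank F K with hm
  have hmpos : 0 < m := Module.finrank_pos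
  let Ψ : (Fin m → C) →ₗ[F] (extC K C) :=
    { toFun := fun c => ⟨fun z => ∑ j, (c j).1 z • b j, by
        intro l
        have h1 : (fun z => l (∑ j, (c j).1 z • b j)) = ∑ j, l (b j) • (c j).1 := by
          funext z
          rw [map_sum, Finset.sum_apply]
          refine Finset.sum_congr rfl fun j _ => ?_
          rw [map_smul, Pi.smul_apply, smul_eq_mul, smul_eq_mul, mul_comm]
        rw [h1]
        exact Submodule.sum_mem _ fun j _ => C.smul_mem _ (c j).2⟩
      map_add' := by
        intro c c'
        apply Subtype.ext
        funext z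
        simp [add_smul, Finset.sum_add_distrib]
      map_smul' := by
        intro a c
        apply Subtype.ext
        funext z
        change ∑ j, (a * (c j).1 z) • b j = a • ∑ j, (c j).1 z • b j
        rw [Finset.smul_sum]
        refine Finset.sum_congr rfl fun j _ => ?_
        rw [mul_smul] }
  have hinj : Function.Injective Ψ := by
    rw [← LinearMap.ker_eq_bot, LinearMap.ker_eq_bot']
    intro c hc
    funext j
    apply Subtype.ext
    funext z
    have h1 : ∑ j, (c j).1 z • b j = 0 := congrFun (congrArg Subtype.val hc) z
    exact Fintype.linearIndependent_iff.1 b.linearIndependent _ h1 j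
  haveI : Module.Finite F (extC K C) := Module.Finite.trans K _
  have h1 := LinearMap.finrank_le_finrank_of_injective hinj
  rw [Module.finrank_pi_fintype, ← Module.finrank_mul_finrank F K (extC K C)] at h1
  simp only [sum_const, card_univ, Fintype.card_fin, smul_eq_mul] at h1
  exact Nat.le_of_mul_le_mul_left h1 hmpos

theorem descend [DecidableEq F] [DecidableEq K] {C : Submodule F (Z → F)} {f : Z → K}
    (hf : f ∈ extC K C) (h0 : f ≠ 0) : ∃ g ∈ C, g ≠ 0 ∧ hammingNorm g ≤ hammingNorm f := by
  obtain ⟨z, hz⟩ := Function.ne_iff.1 h0
  obtain ⟨l, hl⟩ : ∃ l : K →ₗ[F] F, l (f z) ≠ 0 := by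
    by_contra hcon
    push Not at hcon
    exact hz ((Module.forall_dual_apply_eq_zero_iff F (f z)).1 hcon)
  refine ⟨_, hf l, ?_, ?_⟩
  · intro h
    exact hl (congrFun h z)
  · unfold hammingNorm
    apply Finset.card_le_card
    intro x hx
    simp only [mem_filter, mem_univ, true_and] at hx ⊢
    intro h
    apply hx
    rw [h, map_zero]

end BaseChange

end Pool.Agent.Helper479_gq
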