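import Pool.Agent.Helper479_gq.Semi
import Pool.Agent.Helper479_gq.Ext
import Pool.Agent.Helper479_qa.Rank

/-!
The index of a good quasi-abelian code over a finite field.
-/

set_option autoImplicit false

open Finset Module

namespace Pool.Agent.Helper479_gq

open Helper479_mod (pull pull_apply card_preimage_pull)
open Helper479_qa (exists_quotient)

/-- translation invariance -/
def InvT {F : Type} [Field F] {l : ℕ} {A : Type} [AddCommGroup A]
    (C : Submodule F (Fin l × A → F)) : Prop :=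
  ∀ c ∈ C, ∀ g : A, (fun x : Fin l × A => c (x.1, x.2 + g)) ∈ C

lemma contra {ℓ b q : ℕ} {δ N w : ℝ} (hℓ : 2 ≤ ℓ) (hb : ℓ ≤ b)
    (hq : (1 - 1 / (b : ℝ)) ^ q < δ) (hN : 0 < N) (hw : δ * N ≤ w)
    (h : w * ℓ ^ q ≤ ((ℓ : ℝ) - 1) ^ q * N) : False := by
  have hℓ' : (2 : ℝ) ≤ ℓ := by exact_mod_cast hℓ
  have hb' : (ℓ : ℝ) ≤ b := by exact_mod_cast hb
  have hℓ0 : (0 : ℝ) < ℓ := by linarith
  have h1 : δ * N * ℓ ^ q ≤ ((ℓ : ℝ) - 1) ^ q * N :=
    (mul_le_mul_of_nonneg_right hw (by positivity)).trans h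
  have h2 : δ * ℓ ^ q ≤ ((ℓ : ℝ) - 1) ^ q := by
    have h3 : (δ * ℓ ^ q) * N ≤ ((ℓ : ℝ) - 1) ^ q * N := by
      calc _ = δ * N * ℓ ^ q := by ring
        _ ≤ _ := h1
    exact le_of_mul_le_mul_right h3 hN
  have h4 : ((ℓ : ℝ) - 1) ^ q = (1 - 1 / (ℓ : ℝ)) ^ q * ℓ ^ q := by
    rw [← mul_pow]
    congr 1
    field_simp
  have h5 : (1 - 1 / (ℓ : ℝ)) ^ q ≤ (1 - 1 / (b : ℝ)) ^ q := by
    apply pow_le_pow_left₀
    · rw [sub_nonneg, div_le_one hℓ0]; linarith
    · have : 1 / (b : ℝ) ≤ 1 / ℓ := one_div_le_one_div_of_le hℓ0 hb'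
      linarith
  have h6 : (1 - 1 / (ℓ : ℝ)) ^ q * ℓ ^ q < δ * ℓ ^ q :=
    mul_lt_mul_of_pos_right (h5.trans_lt hq) (by positivity)
  rw [h4] at h2
  linarith

/-! ### The part prime to the characteristic -/

lemma prime_part (p : ℕ) [hp : Fact p.Prime] (K : Type) [Field K] [Fintype K] [DecidableEq K]
    [CharP K p] (n : ℕ) [NeZero n] [HasEnoughRootsOfUnity K n] (hn : (n : K) ≠ 0) {R δ : ℝ}
    (hR : 0 < R) (hδ : 0 < δ) :
    ∃ c : ℝ, 0 < c ∧ ∀ (l : ℕ) (P Q : Type) [AddCommGroup P] [Fintype P] [AddCommGroup Q]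
      [Fintype Q], 0 < l → (∀ g : P, ∃ k : ℕ, p ^ k • g = 0) → (∀ g : Q, n • g = 0) →
      ∀ W : Submodule K (Fin l × (P × Q) → K), InvT W →
      R * (l * (Fintype.card P * Fintype.card Q)) ≤ finrank K W →
      (∀ w ∈ W, w ≠ 0 → δ * (l * (Fintype.card P * Fintype.card Q)) ≤ hammingNorm w) →
      c * Real.logb 2 (Fintype.card Q) ≤ l := by
  classical
  have hn0 : 0 < n := Nat.pos_of_ne_zero (NeZero.ne n)
  have hnr : (1 : ℝ) ≤ n := by exact_mod_cast hn0
  obtain ⟨d, hd⟩ : ∃ d : ℕ, (1 - 1 / (n : ℝ)) ^ d < δ := by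
    apply exists_pow_lt_of_lt_one hδ
    have : 0 < 1 / (n : ℝ) := by positivity
    linarith
  have hd' : (1 - 1 / (n : ℝ)) ^ (d + 1) < δ := by
    refine lt_of_le_of_lt ?_ hd
    rw [pow_succ]
    have h0 : 0 ≤ 1 - 1 / (n : ℝ) := by
      rw [sub_nonneg, div_le_one (by linarith)]; exact hnr
    have h1 : 1 - 1 / (n : ℝ) ≤ 1 := by
      have : 0 < 1 / (n : ℝ) := by positivity
      linarith
    calc (1 - 1 / (n : ℝ)) ^ d * (1 - 1 / (n : ℝ)) ≤ (1 - 1 / (n : ℝ)) ^ d * 1 :=
          mul_le_mul_of_nonneg_left h1 (pow_nonneg h0 _)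
      _ = _ := mul_one _
  obtain ⟨C0, hC0⟩ := semi_part K n hn d hR
  refine ⟨1 / (n ^ 2 * C0 + 1), by positivity, ?_⟩
  intro l P Q _ _ _ _ hl hP hQ W hW hdim hdist
  have hPpos : (0 : ℝ) < Fintype.card P := by
    exact_mod_cast Fintype.card_pos_iff.2 ⟨(0 : P)⟩
  have hQpos : (0 : ℝ) < Fintype.card Q := by
    exact_mod_cast Fintype.card_pos_iff.2 ⟨(0 : Q)⟩
  have hl' : (1 : ℝ) ≤ l := by exact_mod_cast hl
  by_cases hn1 : n = 1
  · have hsub : ∀ g : Q, g = 0 := by
      intro g
      have := hQ g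
      rwa [hn1, one_smul] at this
    have : Subsingleton Q := ⟨fun a b => by rw [hsub a, hsub b]⟩
    have hcard : Fintype.card Q = 1 := Fintype.card_eq_one_iff.2 ⟨0, fun g => hsub g⟩
    rw [hcard]
    simp
  -- reduction to `Q`
  let π0 : P × Q →+ Q := AddMonoidHom.snd P Q
  have hπ0 : Function.Surjective π0 := Prod.snd_surjective
  have h1 := finrank_pull (K := K) (J := Fin l) π0 hπ0 p
    (fun g hg => by
      obtain ⟨k, hk⟩ := hP g.1
      have hg2 : g.2 = 0 := hg
      refine ⟨k, Prod.ext hk ?_⟩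
      change p ^ k • g.2 = 0
      rw [hg2, smul_zero])
    W (fun F hF g _ => hW F hF g)
  set M := W.comap (pull K (Fin l) π0) with hM
  have hMinv : ∀ F ∈ M, ∀ g : Q, (fun x : Fin l × Q => F (x.1, x.2 + g)) ∈ M := by
    intro F hF g
    have h3 := hW _ hF (0, g)
    have h4 : pull K (Fin l) π0 (fun x : Fin l × Q => F (x.1, x.2 + g)) =
        fun x : Fin l × (P × Q) => pull K (Fin l) π0 F (x.1, x.2 + (0, g)) := by
      funext x
      rfl
    rw [hM, Submodule.mem_comap, h4]
    exact h3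
  have hMdim : R * (l * Fintype.card Q) ≤ finrank K M := by
    have h3 : (finrank K W : ℝ) * Fintype.card Q ≤
        (Fintype.card P * Fintype.card Q) * finrank K M := by
      have := h1
      rw [Fintype.card_prod] at this
      exact_mod_cast this
    have h5 : (Fintype.card P * Fintype.card Q : ℝ) * (R * (l * Fintype.card Q)) ≤
        (Fintype.card P * Fintype.card Q) * finrank K M := by
      calc _ = R * (l * (Fintype.card P * Fintype.card Q)) * Fintype.card Q := by ring
        _ ≤ finrank K W * Fintype.card Q := mul_le_mul_of_nonneg_right hdim hQpos.le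
        _ ≤ _ := h3
    exact le_of_mul_le_mul_left h5 (by positivity)
  -- the quotient
  obtain ⟨ℓ, r, π, hℓ, hℓn, hπ, hcard⟩ := exists_quotient (m := n) hn0.ne' hn1 Q hQ
  have : Fact ℓ.Prime := ⟨hℓ⟩
  have hℓle : ℓ ≤ n := Nat.le_of_dvd hn0 hℓn
  have hr : r ≤ C0 * l := by
    by_contra hcon
    push Not at hcon
    obtain ⟨F, hF, hF0, hsupp⟩ := hC0 l r ℓ Q π hl hℓn hπ hQ M hMinv hMdim hcon
    have hne' : pull K (Fin l) π0 F ≠ 0 := by
      intro h0
      apply hF0
      funext x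
      exact congrFun h0 (x.1, (0, x.2))
    have h3 := hdist _ hF hne'
    have h4 := card_preimage_pull (J := Fin l) π0 hπ0 (univ.filter fun x => F x ≠ 0)
    have h5 : hammingNorm (pull K (Fin l) π0 F) =
        (univ.filter fun x : Fin l × (P × Q) =>
          (x.1, π0 x.2) ∈ univ.filter fun x => F x ≠ 0).card := by
      unfold hammingNorm
      congr 1
      ext x
      simp only [mem_filter, mem_univ, true_and]
      rfl
    rw [← h5, Fintype.card_prod] at h4
    have h6 : (hammingNorm (pull K (Fin l) π0 F) : ℝ) * Fintype.card Q =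
        (univ.filter fun x => F x ≠ 0).card * (Fintype.card P * Fintype.card Q) := by
      exact_mod_cast h4
    have h7 : (hammingNorm (pull K (Fin l) π0 F) : ℝ) =
        (univ.filter fun x => F x ≠ 0).card * Fintype.card P := by
      have : (hammingNorm (pull K (Fin l) π0 F) : ℝ) * Fintype.card Q =
          ((univ.filter fun x => F x ≠ 0).card * Fintype.card P) * Fintype.card Q := by
        rw [h6]; ring
      exact mul_right_cancel₀ hQpos.ne' this
    rw [h7] at h3
    have h8 : δ * (l * Fintype.card Q) ≤ (univ.filter fun x => F x ≠ 0).card := by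
      have h9 : δ * (l * Fintype.card Q) * Fintype.card P ≤
          (univ.filter fun x => F x ≠ 0).card * Fintype.card P := by
        calc _ = δ * (l * (Fintype.card P * Fintype.card Q)) := by ring
          _ ≤ _ := h3
      exact le_of_mul_le_mul_right h9 hPpos
    have h10 : ((univ.filter fun x => F x ≠ 0).card : ℝ) * ℓ ^ (d + 1) ≤
        ((ℓ : ℝ) - 1) ^ (d + 1) * (l * Fintype.card Q) := by
      have : ((ℓ - 1 : ℕ) : ℝ) = (ℓ : ℝ) - 1 := by
        rw [Nat.cast_sub hℓ.one_le]; push_cast; rfl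
      rw [← this]
      exact_mod_cast hsupp
    exact contra hℓ.two_le hℓle hd' (by positivity) h8 h10
  -- the conclusion
  have hlog : Real.logb 2 (Fintype.card Q) ≤ n ^ 2 * r := by
    have h3 : (Fintype.card Q : ℝ) ≤ (2 : ℝ) ^ (n ^ 2 * r) := by
      rw [Nat.card_eq_fintype_card] at hcard
      have h4 : (ℓ ^ r) ^ n ≤ 2 ^ (n ^ 2 * r) := by
        calc (ℓ ^ r) ^ n ≤ ((2 ^ n) ^ r) ^ n :=
              Nat.pow_le_pow_left (Nat.pow_le_pow_left (hℓle.trans (Nat.lt_two_pow_self).le) r) n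
          _ = 2 ^ (n ^ 2 * r) := by
              rw [← pow_mul, ← pow_mul]
              congr 1
              ring
      exact_mod_cast hcard.trans h4
    have h4 := Real.logb_le_logb_of_le (b := 2) (by norm_num) hQpos h3
    rw [Real.logb_pow, Real.logb_self_eq_one (by norm_num), mul_one] at h4
    push_cast at h4
    exact h4
  have h3 : (r : ℝ) ≤ C0 * l := by exact_mod_cast hr
  rw [one_div, inv_mul_le_iff₀ (by positivity)]
  have h4 : (n : ℝ) ^ 2 * r ≤ n ^ 2 * (C0 * l) := mul_le_mul_of_nonneg_left h3 (by positivity)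
  nlinarith

/-! ### The part of order a power of the characteristic -/

lemma power_part (p : ℕ) [hp : Fact p.Prime] (s : ℕ) (K : Type) [Field K] [Fintype K]
    [DecidableEq K]
    [CharP K p] (n : ℕ) [NeZero n] [HasEnoughRootsOfUnity K n] (hn : (n : K) ≠ 0) {R δ : ℝ}
    (hR : 0 < R) (hδ : 0 < δ) :
    ∃ c : ℝ, 0 < c ∧ ∀ (l : ℕ) (P Q : Type) [AddCommGroup P] [Fintype P] [AddCommGroup Q]
      [Fintype Q], 0 < l → (∀ g : P, p ^ s • g = 0) → (∀ g : Q, n • g = 0) →
      ∀ W : Submodule K (Fin l × (P × Q) → K), InvT W →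
      R * (l * (Fintype.card P * Fintype.card Q)) ≤ finrank K W →
      (∀ w ∈ W, w ≠ 0 → δ * (l * (Fintype.card P * Fintype.card Q)) ≤ hammingNorm w) →
      c * Real.logb 2 (Fintype.card P) ≤ l := by
  classical
  have hppos : 0 < p := hp.out.pos
  have hpr : (2 : ℝ) ≤ p := by exact_mod_cast hp.out.two_le
  obtain ⟨q, hq⟩ : ∃ q : ℕ, (1 - 1 / (p : ℝ)) ^ q < δ := by
    apply exists_pow_lt_of_lt_one hδ
    have : 0 < 1 / (p : ℝ) := by positivity
    linarith
  obtain ⟨C0, hC0⟩ := mod_part p K q hR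
  refine ⟨1 / (p * p ^ (s + 1) * C0 + 1), by positivity, ?_⟩
  intro l P Q _ _ _ _ hl hP hQ W hW hdim hdist
  have hPpos : (0 : ℝ) < Fintype.card P := by
    exact_mod_cast Fintype.card_pos_iff.2 ⟨(0 : P)⟩
  have hQpos : (0 : ℝ) < Fintype.card Q := by
    exact_mod_cast Fintype.card_pos_iff.2 ⟨(0 : Q)⟩
  have hl' : (1 : ℝ) ≤ l := by exact_mod_cast hl
  -- the component of a character
  let _ : Fintype (AddChar Q K) :=
    Fintype.ofInjective (fun χ => (χ : Q → K)) DFunLike.coe_injective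
  obtain ⟨a, ha⟩ := exists_comp (n := n) hn hQ W hW
  set M := W.comap (twist (Fin l) P a) with hM
  have hMinv : ∀ F ∈ M, ∀ g : P, (fun x : Fin l × P => F (x.1, x.2 + g)) ∈ M := by
    intro F hF g
    have h1 := hW _ hF (g, 0)
    have h2 : twist (Fin l) P a (fun x : Fin l × P => F (x.1, x.2 + g)) =
        fun x : Fin l × (P × Q) => twist (Fin l) P a F (x.1, x.2 + (g, 0)) := by
      funext x
      change a x.2.2 * F (x.1, x.2.1 + g) = a (x.2.2 + 0) * F (x.1, x.2.1 + g)
      rw [add_zero]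
    rw [hM, Submodule.mem_comap, h2]
    exact h1
  have hMdim : R * (l * Fintype.card P) ≤ finrank K M := by
    have h1 : (finrank K W : ℝ) ≤ Fintype.card Q * finrank K M := by
      exact_mod_cast ha
    have h2 : Fintype.card Q * (R * (l * Fintype.card P)) ≤ Fintype.card Q * finrank K M := by
      calc _ = R * (l * (Fintype.card P * Fintype.card Q)) := by ring
        _ ≤ _ := hdim.trans h1
    exact le_of_mul_le_mul_left h2 hQpos
  -- the quotient
  have hps1 : p ^ (s + 1) ≠ 1 := by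
    have h1 : p ≤ p ^ (s + 1) := by
      rw [pow_succ]
      exact Nat.le_mul_of_pos_left _ (pow_pos hppos _)
    have := hp.out.two_le
    omega
  obtain ⟨p', r, π, hp', hpe, hπ, hcard⟩ := exists_quotient (m := p ^ (s + 1))
    (pow_pos hppos _).ne' hps1 P
    (fun g => by rw [pow_succ, mul_comm, mul_smul, hP g, smul_zero])
  have hp2 : p' = p := (Nat.prime_dvd_prime_iff_eq hp' hp.out).1 (hp'.dvd_of_dvd_pow hpe)
  subst hp2
  have hV : Fintype.card (Fin r → ZMod p') = p' ^ r := by
    rw [Fintype.card_fun, Fintype.card_fin, ZMod.card]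
  have hfp := finrank_pull (J := Fin l) π hπ p' (fun g _ => ⟨s, hP g⟩) M
    (fun F hF g _ => hMinv F hF g)
  set M' := M.comap (pull K (Fin l) π) with hM'
  rw [hV] at hfp
  have hM'inv : ∀ F ∈ M', ∀ g : Fin r → ZMod p',
      (fun x : Fin l × (Fin r → ZMod p') => F (x.1, x.2 + g)) ∈ M' := by
    intro F hF g
    obtain ⟨g', rfl⟩ := hπ g
    have h1 := hMinv _ hF g'
    have h2 : pull K (Fin l) π (fun x : Fin l × (Fin r → ZMod p') => F (x.1, x.2 + π g')) =
        fun x : Fin l × P => pull K (Fin l) π F (x.1, x.2 + g') := by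
      funext x
      rw [pull_apply, pull_apply, map_add]
    rw [hM', Submodule.mem_comap, h2]
    exact h1
  have hM'dim : R * (l * p' ^ r) ≤ finrank K M' := by
    have h1 : (finrank K M : ℝ) * p' ^ r ≤ Fintype.card P * finrank K M' := by
      exact_mod_cast hfp
    have h2 : Fintype.card P * (R * (l * p' ^ r)) ≤ Fintype.card P * finrank K M' := by
      calc _ = R * (l * Fintype.card P) * p' ^ r := by ring
        _ ≤ finrank K M * p' ^ r := mul_le_mul_of_nonneg_right hMdim (by positivity)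
        _ ≤ _ := h1
    exact le_of_mul_le_mul_left h2 hPpos
  have hr : r ≤ C0 * l := by
    by_contra hcon
    push Not at hcon
    obtain ⟨F, hF, hF0, hsupp⟩ := hC0 l r hl M' hM'inv hM'dim hcon
    obtain ⟨x0, hx0⟩ := Function.ne_iff.1 hF0
    obtain ⟨y0, hy0⟩ := hπ x0.2
    let F2 : Fin l × (P × Q) → K := twist (Fin l) P a (pull K (Fin l) π F)
    have hF2 : F2 ∈ W := hF
    have hF2ne : F2 ≠ 0 := by
      intro h0
      have h1 : F2 (x0.1, (y0, 0)) = 0 := by rw [h0]; rfl
      change a 0 * F (x0.1, π y0) = 0 at h1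
      rw [hy0] at h1
      rcases mul_eq_zero.1 h1 with h2 | h2
      · exact char_ne_zero a 0 h2
      · exact hx0 h2
    have h1 := hdist F2 hF2 hF2ne
    have hπ' : Function.Surjective (π.comp (AddMonoidHom.fst P Q)) :=
      hπ.comp Prod.fst_surjective
    have h2 := card_preimage_pull (J := Fin l) (π.comp (AddMonoidHom.fst P Q)) hπ'
      (univ.filter fun x => F x ≠ 0)
    have h3 : hammingNorm F2 ≤ (univ.filter fun x : Fin l × (P × Q) =>
        (x.1, (π.comp (AddMonoidHom.fst P Q)) x.2) ∈ univ.filter fun x => F x ≠ 0).card := by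
      unfold hammingNorm
      apply card_le_card
      intro x hx
      have h4 := (mem_filter.1 hx).2
      refine mem_filter.2 ⟨mem_univ _, mem_filter.2 ⟨mem_univ _, ?_⟩⟩
      intro h5
      apply h4
      change a x.2.2 * F (x.1, π x.2.1) = 0
      change F (x.1, π x.2.1) = 0 at h5
      rw [h5, mul_zero]
    rw [hV, Fintype.card_prod] at h2
    have h4 : hammingNorm F2 * p' ^ q * p' ^ r ≤
        (p' - 1) ^ q * (l * (Fintype.card P * Fintype.card Q)) * p' ^ r := by
      calc hammingNorm F2 * p' ^ q * p' ^ r ≤ (univ.filter fun x : Fin l × (P × Q) =>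
            (x.1, (π.comp (AddMonoidHom.fst P Q)) x.2) ∈
              univ.filter fun x => F x ≠ 0).card * p' ^ q * p' ^ r :=
            Nat.mul_le_mul_right _ (Nat.mul_le_mul_right _ h3)
        _ = ((univ.filter fun x : Fin l × (P × Q) =>
            (x.1, (π.comp (AddMonoidHom.fst P Q)) x.2) ∈
              univ.filter fun x => F x ≠ 0).card * p' ^ r) * p' ^ q := by ring
        _ = (univ.filter fun x => F x ≠ 0).card * (Fintype.card P * Fintype.card Q) * p' ^ q := by
            rw [h2]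
        _ = ((univ.filter fun x => F x ≠ 0).card * p' ^ q) *
            (Fintype.card P * Fintype.card Q) := by ring
        _ ≤ ((p' - 1) ^ q * (l * p' ^ r)) * (Fintype.card P * Fintype.card Q) :=
            Nat.mul_le_mul_right _ hsupp
        _ = _ := by ring
    have h5 : hammingNorm F2 * p' ^ q ≤
        (p' - 1) ^ q * (l * (Fintype.card P * Fintype.card Q)) :=
      Nat.le_of_mul_le_mul_right h4 (pow_pos hppos _)
    have h6 : (hammingNorm F2 : ℝ) * p' ^ q ≤
        ((p' : ℝ) - 1) ^ q * (l * (Fintype.card P * Fintype.card Q)) := by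
      have : ((p' - 1 : ℕ) : ℝ) = (p' : ℝ) - 1 := by
        rw [Nat.cast_sub hp.out.one_le]; push_cast; rfl
      rw [← this]
      exact_mod_cast h5
    exact contra hp.out.two_le le_rfl hq (by positivity) h1 h6
  -- the conclusion
  have hlog : Real.logb 2 (Fintype.card P) ≤ p' * p' ^ (s + 1) * r := by
    have h3 : (Fintype.card P : ℝ) ≤ (2 : ℝ) ^ (p' * p' ^ (s + 1) * r) := by
      rw [Nat.card_eq_fintype_card] at hcard
      have h4 : (p' ^ r) ^ p' ^ (s + 1) ≤ 2 ^ (p' * p' ^ (s + 1) * r) := by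
        calc (p' ^ r) ^ p' ^ (s + 1) ≤ ((2 ^ p') ^ r) ^ p' ^ (s + 1) :=
              Nat.pow_le_pow_left (Nat.pow_le_pow_left (Nat.lt_two_pow_self).le r) _
          _ = 2 ^ (p' * p' ^ (s + 1) * r) := by
              rw [← pow_mul, ← pow_mul]
              congr 1
              ring
      exact_mod_cast hcard.trans h4
    have h4 := Real.logb_le_logb_of_le (b := 2) (by norm_num) hPpos h3
    rw [Real.logb_pow, Real.logb_self_eq_one (by norm_num), mul_one] at h4
    push_cast at h4
    exact h4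
  have h3 : (r : ℝ) ≤ C0 * l := by exact_mod_cast hr
  rw [one_div, inv_mul_le_iff₀ (by positivity)]
  have h4 : (p' : ℝ) * p' ^ (s + 1) * r ≤ p' * p' ^ (s + 1) * (C0 * l) :=
    mul_le_mul_of_nonneg_left h3 (by positivity)
  nlinarith

/-! ### Both parts -/

lemma product_case (p : ℕ) [hp : Fact p.Prime] (s : ℕ) (K : Type) [Field K] [Fintype K]
    [DecidableEq K]
    [CharP K p] (n : ℕ) [NeZero n] [HasEnoughRootsOfUnity K n] (hn : (n : K) ≠ 0) {R δ : ℝ}
    (hR : 0 < R) (hδ : 0 < δ) :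
    ∃ c : ℝ, 0 < c ∧ ∀ (l : ℕ) (P Q : Type) [AddCommGroup P] [Fintype P] [AddCommGroup Q]
      [Fintype Q], 0 < l → (∀ g : P, p ^ s • g = 0) → (∀ g : Q, n • g = 0) →
      ∀ W : Submodule K (Fin l × (P × Q) → K), InvT W →
      R * (l * (Fintype.card P * Fintype.card Q)) ≤ finrank K W →
      (∀ w ∈ W, w ≠ 0 → δ * (l * (Fintype.card P * Fintype.card Q)) ≤ hammingNorm w) →
      c * Real.logb 2 (Fintype.card P * Fintype.card Q) ≤ l := by
  obtain ⟨c1, hc1, h1⟩ := prime_part p K n hn hR hδ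
  obtain ⟨c2, hc2, h2⟩ := power_part p s K n hn hR hδ
  refine ⟨(1 / c1 + 1 / c2)⁻¹, by positivity, ?_⟩
  intro l P Q _ _ _ _ hl hP hQ W hW hdim hdist
  have h3 := h1 l P Q hl (fun g => ⟨s, hP g⟩) hQ W hW hdim hdist
  have h4 := h2 l P Q hl hP hQ W hW hdim hdist
  have hPpos : (0 : ℝ) < Fintype.card P := by
    exact_mod_cast Fintype.card_pos_iff.2 ⟨(0 : P)⟩
  have hQpos : (0 : ℝ) < Fintype.card Q := by
    exact_mod_cast Fintype.card_pos_iff.2 ⟨(0 : Q)⟩
  rw [Real.logb_mul hPpos.ne' hQpos.ne', inv_mul_le_iff₀ (by positivity)]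
  have h5 : Real.logb 2 (Fintype.card Q) ≤ 1 / c1 * l := by
    rw [one_div, ← div_eq_inv_mul, le_div_iff₀ hc1, mul_comm]; exact h3
  have h6 : Real.logb 2 (Fintype.card P) ≤ 1 / c2 * l := by
    rw [one_div, ← div_eq_inv_mul, le_div_iff₀ hc2, mul_comm]; exact h4
  linarith

/-- the decomposition into the part of order a power of `p` and the part of order prime to `p` -/
lemma exists_split (A : Type) [AddCommGroup A] {b m : ℕ} (hcop : Nat.Coprime b m)
    (hA : ∀ g : A, (b * m) • g = 0) :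
    ∃ P Q : AddSubgroup A, (∀ g ∈ P, b • g = 0) ∧ (∀ g ∈ Q, m • g = 0) ∧
      Nonempty (P × Q ≃+ A) := by
  let P : AddSubgroup A := (nsmulAddMonoidHom (α := A) b).ker
  let Q : AddSubgroup A := (nsmulAddMonoidHom (α := A) m).ker
  have hP : ∀ g ∈ P, b • g = 0 := fun g hg => hg
  have hQ : ∀ g ∈ Q, m • g = 0 := fun g hg => hg
  refine ⟨P, Q, hP, hQ, ?_⟩
  have hbez : ∀ g : A, g = (Nat.gcdA b m) • (b • g) + (Nat.gcdB b m) • (m • g) := by
    intro g
    have h1 := Nat.gcd_eq_gcd_ab b m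
    rw [hcop.gcd_eq_one] at h1
    have h2 : (Nat.gcdA b m) • (b • g) + (Nat.gcdB b m) • (m • g) =
        ((b : ℤ) * Nat.gcdA b m + (m : ℤ) * Nat.gcdB b m) • g := by
      rw [add_smul, mul_comm, mul_smul, mul_comm (m : ℤ), mul_smul, natCast_zsmul, natCast_zsmul]
    rw [h2, ← h1]
    simp
  let f : P × Q →+ A := AddMonoidHom.coprod P.subtype Q.subtype
  have hf : Function.Bijective f := by
    constructor
    · rw [injective_iff_map_eq_zero]
      rintro ⟨x, y⟩ hxy
      have h1 : (x : A) + (y : A) = 0 := hxy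
      have hx : (x : A) = 0 := by
        have h2 : (x : A) = -(y : A) := eq_neg_of_add_eq_zero_left h1
        have h3 : m • (x : A) = 0 := by rw [h2, smul_neg, hQ y y.2, neg_zero]
        rw [hbez (x : A), hP x x.2, h3, smul_zero, smul_zero, add_zero]
      have hy : (y : A) = 0 := by rw [hx, zero_add] at h1; exact h1
      exact Prod.ext (Subtype.ext hx) (Subtype.ext hy)
    · intro g
      refine ⟨(⟨(Nat.gcdB b m) • (m • g), ?_⟩, ⟨(Nat.gcdA b m) • (b • g), ?_⟩), ?_⟩
      · change b • ((Nat.gcdB b m) • (m • g)) = 0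
        rw [smul_comm, ← mul_smul b m g, hA, smul_zero]
      · change m • ((Nat.gcdA b m) • (b • g)) = 0
        rw [smul_comm, ← mul_smul m b g, mul_comm, hA, smul_zero]
      · change (Nat.gcdB b m) • (m • g) + (Nat.gcdA b m) • (b • g) = g
        rw [add_comm, ← hbez]
  exact ⟨AddEquiv.ofBijective f hf⟩

/-- the index of a good quasi-abelian code is at least a constant times the logarithm of the order
of the group -/
theorem index_lower (F : Type) [Field F] [Fintype F] [DecidableEq F] (m : ℕ) (hm : 0 < m)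
    {R δ : ℝ} (hR : 0 < R) (hδ : 0 < δ) :
    ∃ c : ℝ, 0 < c ∧ ∀ (A : Type) [AddCommGroup A] [Fintype A] (l : ℕ), 0 < l →
      (∀ g : A, m • g = 0) →
      ∀ C : Submodule F (Fin l × A → F), InvT C →
      R * (l * Fintype.card A) ≤ finrank F C →
      (∀ w ∈ C, w ≠ 0 → δ * (l * Fintype.card A) ≤ hammingNorm w) →
      c * Real.logb 2 (Fintype.card A) ≤ l := by
  classical
  obtain ⟨p, hchar⟩ := CharP.exists F
  have hp : p.Prime := CharP.char_is_prime F p
  have : Fact p.Prime := ⟨hp⟩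
  obtain ⟨s, n, hpn, hen⟩ := Nat.exists_eq_pow_mul_and_not_dvd hm.ne' p hp.ne_one
  have hnF : (n : F) ≠ 0 := by
    rw [Ne, CharP.cast_eq_zero_iff F p]
    exact hpn
  have hn0 : n ≠ 0 := by
    rintro rfl
    simp at hpn
  have : NeZero (n : F) := ⟨hnF⟩
  have : NeZero n := ⟨hn0⟩
  let K := CyclotomicField n F
  let _ : DecidableEq K := Classical.decEq _
  have : Module.Finite F K := IsCyclotomicExtension.finiteDimensional {n} F K
  have : Finite K := Module.finite_of_finite F
  let _ : Fintype K := Fintype.ofFinite K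
  have hnK : (n : K) ≠ 0 := by
    intro h
    apply hnF
    apply (algebraMap F K).injective
    simpa using h
  have : NeZero (n : K) := ⟨hnK⟩
  have hprim : IsPrimitiveRoot (IsCyclotomicExtension.zeta n F K) n :=
    IsCyclotomicExtension.zeta_spec n F K
  have : HasEnoughRootsOfUnity K n := ⟨⟨_, hprim⟩, rootsOfUnity.isCyclic _ _⟩
  have : CharP K p := charP_of_injective_algebraMap (algebraMap F K).injective p
  obtain ⟨c, hc, h⟩ := product_case p s K n hnK hR hδ
  refine ⟨c, hc, ?_⟩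
  intro A _ _ l hl hA C hC hdim hdist
  have hcop : Nat.Coprime (p ^ s) n :=
    Nat.Coprime.pow_left s ((Nat.Prime.coprime_iff_not_dvd hp).2 hpn)
  obtain ⟨P, Q, hP, hQ, ⟨f⟩⟩ := exists_split A hcop (fun g => by rw [← hen]; exact hA g)
  have : Fintype P := Fintype.ofFinite P
  have : Fintype Q := Fintype.ofFinite Q
  have hcard : (Fintype.card A : ℝ) = Fintype.card P * Fintype.card Q := by
    rw [← Fintype.card_congr f.toEquiv, Fintype.card_prod]; push_cast; rfl
  let E : (Fin l × A → K) ≃ₗ[K] (Fin l × (P × Q) → K) :=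
    LinearEquiv.funCongrLeft K K (Equiv.prodCongr (Equiv.refl (Fin l)) f.toEquiv)
  have hE : ∀ c x, E c x = c (x.1, f x.2) := fun c x => rfl
  let C' : Submodule K (Fin l × (P × Q) → K) := (extC K C).map (E : _ →ₗ[K] _)
  have hmem : ∀ c', c' ∈ C' ↔ ∃ c ∈ extC K C, E c = c' := fun c' => Iff.rfl
  rw [hcard]
  apply h l P Q hl (fun g => Subtype.ext (hP g g.2)) (fun g => Subtype.ext (hQ g g.2)) C'
  · intro c' hc' g
    obtain ⟨c, hc, rfl⟩ := (hmem c').1 hc'
    refine (hmem _).2 ⟨fun x => c (x.1, x.2 + f g), ?_, ?_⟩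
    · intro φ
      exact hC _ (hc φ) (f g)
    · funext x
      rw [hE, hE]
      change c (x.1, f x.2 + f g) = c (x.1, f (x.2 + g))
      rw [map_add]
  · rw [← hcard]
    have h1 : finrank K C' = finrank K (extC K C) := LinearEquiv.finrank_map_eq E _
    rw [h1]
    have h2 : (finrank F C : ℝ) ≤ finrank K (extC K C) := by exact_mod_cast finrank_extC C
    exact hdim.trans h2
  · intro c' hc' hne
    obtain ⟨c, hc, rfl⟩ := (hmem c').1 hc'
    rw [← hcard]
    have hne' : c ≠ 0 := by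
      rintro rfl
      exact hne (map_zero _)
    have h1 : hammingNorm (E c) = hammingNorm c := by
      unfold hammingNorm
      apply Finset.card_equiv (Equiv.prodCongr (Equiv.refl (Fin l)) f.toEquiv)
      intro x
      simp only [mem_filter, mem_univ, true_and]
      rfl
    rw [h1]
    obtain ⟨g, hg, hg0, hgc⟩ := descend hc hne'
    refine (hdist g hg hg0).trans ?_
    exact_mod_cast hgc

end Pool.Agent.Helper479_gq
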