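import Pool.Agent.Helper479_gq.Block
import Pool.Agent.Helper479_gq.Dense
import Pool.Agent.Helper479_gq.Index

/-!
Invariant spaces of functions on the disjoint union of the groups `P × Q / H j`: `P` is a `p`-group,
`Q` has order prime to `p`.
-/

set_option autoImplicit false

open Finset Module

namespace Pool.Agent.Helper479_gq

open Helper479_mod (pull pull_apply card_preimage_pull)
open Helper479_qa (exists_quotient)

/-- the functions are invariant under `H j` on the block `j` -/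
def BInv {K : Type} [Field K] {l : ℕ} {P Q : Type} [AddCommGroup P] [AddCommGroup Q]
    (H : Fin l → AddSubgroup Q) (W : Submodule K (Fin l × (P × Q) → K)) : Prop :=
  ∀ F ∈ W, ∀ (j : Fin l), ∀ h ∈ H j, ∀ (x : P) (y : Q), F (j, (x, y + h)) = F (j, (x, y))

/-- the number of points -/
noncomputable def tot {l : ℕ} {Q : Type} [AddCommGroup Q] (H : Fin l → AddSubgroup Q) : ℕ :=
  ∑ j, Nat.card (Q ⧸ H j)

lemma card_pre {G V : Type} [AddCommGroup G] [Fintype G] [AddCommGroup V] [Fintype V]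
    [DecidableEq V] (π : G →+ V) (hπ : Function.Surjective π) (B : Finset V) :
    (univ.filter fun x : G => π x ∈ B).card * Fintype.card V = B.card * Fintype.card G := by
  classical
  have h2 := card_preimage_pull (J := Fin 1) π hπ (univ ×ˢ B)
  rw [card_product, card_univ, Fintype.card_fin, one_mul] at h2
  rw [← h2]
  congr 1
  apply card_bij (fun x _ => ((0 : Fin 1), x))
  · intro x hx
    exact mem_filter.2 ⟨mem_univ _, mem_product.2 ⟨mem_univ _, (mem_filter.1 hx).2⟩⟩
  · intro x _ y _ hxy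
    exact (Prod.mk.inj hxy).2
  · intro x hx
    refine ⟨x.2, mem_filter.2 ⟨mem_univ _, (mem_product.1 (mem_filter.1 hx).2).2⟩, ?_⟩
    exact Prod.ext (Subsingleton.elim _ _) rfl

/-! ### The characters of a quotient -/

section quot

variable {K : Type} [Field K] {Q : Type} [AddCommGroup Q]

/-- the common kernel of a set of characters -/
def annK (S : Finset (AddChar Q K)) : AddSubgroup Q where
  carrier := {h | ∀ a ∈ S, a h = 1}
  add_mem' := by
    intro x y hx hy a ha
    rw [AddChar.map_add_eq_mul, hx a ha, hy a ha, one_mul]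
  zero_mem' := by
    intro a _
    exact AddChar.map_zero_eq_one a
  neg_mem' := by
    intro x hx a ha
    rw [AddChar.map_neg_eq_inv, hx a ha, inv_one]

lemma mem_annK (S : Finset (AddChar Q K)) (h : Q) : h ∈ annK S ↔ ∀ a ∈ S, a h = 1 := Iff.rfl

/-- the pullback of a character of the quotient -/
def pullc (H : AddSubgroup Q) (b : AddChar (Q ⧸ H) K) : AddChar Q K :=
  b.compAddMonoidHom (QuotientAddGroup.mk' H)

lemma pullc_apply (H : AddSubgroup Q) (b : AddChar (Q ⧸ H) K) (g : Q) :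
    pullc H b g = b (QuotientAddGroup.mk' H g) := rfl

lemma pullc_injective (H : AddSubgroup Q) :
    Function.Injective (pullc H : AddChar (Q ⧸ H) K → AddChar Q K) := by
  intro b b' h
  ext x
  obtain ⟨g, rfl⟩ := QuotientAddGroup.mk'_surjective H x
  have := congrArg (fun f : AddChar Q K => f g) h
  exact this

lemma exists_pullc (H : AddSubgroup Q) {a : AddChar Q K} (ha : ∀ h ∈ H, a h = 1) :
    ∃ b : AddChar (Q ⧸ H) K, pullc H b = a := by
  refine ⟨AddChar.toAddMonoidHomEquiv.symm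
    (QuotientAddGroup.lift H a.toAddMonoidHom ?_), ?_⟩
  · intro h hh
    rw [AddMonoidHom.mem_ker]
    have := ha h hh
    rw [AddChar.toAddMonoidHom_apply, this]
    rfl
  · ext g
    rfl

lemma card_pullc (S : Finset (AddChar Q K)) [Fintype (AddChar (Q ⧸ annK S) K)] :
    ∃ T : Finset (AddChar (Q ⧸ annK S) K), T.card = S.card ∧
      ∀ b ∈ T, pullc (annK S) b ∈ S := by
  classical
  refine ⟨univ.filter fun b => pullc (annK S) b ∈ S, ?_, fun b hb => (mem_filter.1 hb).2⟩
  apply card_bij (fun b _ => pullc (annK S) b)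
  · intro b hb
    exact (mem_filter.1 hb).2
  · intro b _ b' _ h
    exact pullc_injective _ h
  · intro a ha
    obtain ⟨b, hb⟩ := exists_pullc (annK S) (fun h hh => hh a ha)
    exact ⟨b, mem_filter.2 ⟨mem_univ _, by rw [hb]; exact ha⟩, hb⟩

/-- the number of characters that are trivial on a subgroup -/
lemma card_trivial {n : ℕ} [NeZero n] [HasEnoughRootsOfUnity K n] [Fintype Q]
    [Fintype (AddChar Q K)] (hQ : ∀ g : Q, n • g = 0) (H : AddSubgroup Q)
    [DecidablePred fun a : AddChar Q K => ∀ h ∈ H, a h = 1] :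
    (univ.filter fun a : AddChar Q K => ∀ h ∈ H, a h = 1).card ≤ Nat.card (Q ⧸ H) := by
  classical
  have : Finite (Q ⧸ H) := Quotient.finite _
  have : Fintype (Q ⧸ H) := Fintype.ofFinite _
  let _ : DecidableEq (Q ⧸ H) := Classical.decEq _
  have hfin : Finite K ∨ True := Or.inr trivial
  let _ : Fintype (AddChar (Q ⧸ H) K) := Fintype.ofInjective _ (pullc_injective H)
  rw [Nat.card_eq_fintype_card, ← card_char (K := K) (n := n) (G := Q ⧸ H) (by
    intro x
    obtain ⟨g, rfl⟩ := QuotientAddGroup.mk'_surjective H x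
    rw [← map_nsmul, hQ, map_zero])]
  rw [← card_univ]
  apply card_le_card_of_surjOn (pullc H)
  intro a ha
  obtain ⟨b, hb⟩ := exists_pullc H (mem_filter.1 (mem_coe.1 ha)).2
  exact ⟨b, mem_coe.2 (mem_univ _), hb⟩

end quot

lemma one_sub_pow_le {ℓ n d : ℕ} {δ : ℝ} (hℓ : 2 ≤ ℓ) (hℓn : ℓ ≤ n)
    (hd : (1 - 1 / (n : ℝ)) ^ d < δ) : (1 - 1 / (ℓ : ℝ)) ^ d < δ := by
  have hℓ0 : (0 : ℝ) < ℓ := by
    have : 0 < ℓ := by omega
    exact_mod_cast this
  have hb' : (ℓ : ℝ) ≤ n := by exact_mod_cast hℓn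
  have h1 : (1 : ℝ) ≤ ℓ := by
    have : 1 ≤ ℓ := by omega
    exact_mod_cast this
  refine lt_of_le_of_lt ?_ hd
  apply pow_le_pow_left₀
  · rw [sub_nonneg, div_le_one hℓ0]; exact h1
  · have : 1 / (n : ℝ) ≤ 1 / ℓ := one_div_le_one_div_of_le hℓ0 hb'
    linarith

/-- the proportion -/
lemma prop_le {ℓ q : ℕ} {x B V G : ℕ} (hℓ : 1 ≤ ℓ) (hV : 0 < V) (h1 : x * V = B * G)
    (h2 : B * ℓ ^ q ≤ (ℓ - 1) ^ q * V) : (x : ℝ) ≤ (1 - 1 / (ℓ : ℝ)) ^ q * G := by
  have hℓ0 : (0 : ℝ) < ℓ := by exact_mod_cast hℓ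
  have hV' : (0 : ℝ) < V := by exact_mod_cast hV
  have h3 : (B : ℝ) * ℓ ^ q ≤ ((ℓ : ℝ) - 1) ^ q * V := by
    have h4 : ((B * ℓ ^ q : ℕ) : ℝ) ≤ (((ℓ - 1) ^ q * V : ℕ) : ℝ) := by exact_mod_cast h2
    push_cast [Nat.cast_sub hℓ] at h4
    exact h4
  have h4 : ((ℓ : ℝ) - 1) ^ q = (1 - 1 / (ℓ : ℝ)) ^ q * ℓ ^ q := by
    rw [← mul_pow]
    congr 1
    field_simp
  have h5 : (B : ℝ) ≤ (1 - 1 / (ℓ : ℝ)) ^ q * V := by
    rw [h4] at h3
    have h6 : (B : ℝ) * ℓ ^ q ≤ ((1 - 1 / (ℓ : ℝ)) ^ q * V) * ℓ ^ q := by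
      calc _ ≤ _ := h3
        _ = _ := by ring
    exact le_of_mul_le_mul_right h6 (by positivity)
  have h6 : (x : ℝ) * V ≤ ((1 - 1 / (ℓ : ℝ)) ^ q * G) * V := by
    have h7 : (x : ℝ) * V = B * G := by exact_mod_cast h1
    rw [h7]
    calc (B : ℝ) * G ≤ ((1 - 1 / (ℓ : ℝ)) ^ q * V) * G :=
          mul_le_mul_of_nonneg_right h5 (by positivity)
      _ = _ := by ring
  exact le_of_mul_le_mul_right h6 hV'

/-! ### The part prime to the characteristic -/

lemma act_prime (p : ℕ) [hp : Fact p.Prime] (K : Type) [Field K] [Fintype K] [DecidableEq K]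
    [CharP K p] (n : ℕ) [NeZero n] [HasEnoughRootsOfUnity K n] (hn : (n : K) ≠ 0) {R δ : ℝ}
    (hR : 0 < R) (hδ : 0 < δ) :
    ∃ c : ℝ, 0 < c ∧ ∀ (l : ℕ) (P Q : Type) [AddCommGroup P] [Fintype P] [AddCommGroup Q]
      [Fintype Q], 0 < l → (∀ g : P, ∃ k : ℕ, p ^ k • g = 0) → (∀ g : Q, n • g = 0) →
      ∀ (H : Fin l → AddSubgroup Q) (W : Submodule K (Fin l × (P × Q) → K)), InvT W → BInv H W →
      R * (Fintype.card P * tot H) ≤ finrank K W →
      (∀ w ∈ W, w ≠ 0 → ∀ θ : ℝ, (∀ j, ((univ.filter fun a : P × Q => w (j, a) ≠ 0).card : ℝ) ≤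
        θ * (Fintype.card P * Fintype.card Q : ℕ)) → δ ≤ θ) →
      c * Real.logb 2 (tot H) ≤ l := by
  classical
  have hn0 : 0 < n := Nat.pos_of_ne_zero (NeZero.ne n)
  have hnr : (1 : ℝ) ≤ n := by exact_mod_cast hn0
  obtain ⟨d, hd⟩ : ∃ d : ℕ, (1 - 1 / (n : ℝ)) ^ d < δ := by
    apply exists_pow_lt_of_lt_one hδ
    have : 0 < 1 / (n : ℝ) := by positivity
    linarith
  have hd' : (1 - 1 / (n : ℝ)) ^ (d + 1) < δ := by
    refine lt_of_le_of_lt ?_ hd
    rw [pow_succ]
    have h0 : 0 ≤ 1 - 1 / (n : ℝ) := by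
      rw [sub_nonneg, div_le_one (by linarith)]; exact hnr
    have h1 : 1 - 1 / (n : ℝ) ≤ 1 := by
      have : 0 < 1 / (n : ℝ) := by positivity
      linarith
    calc (1 - 1 / (n : ℝ)) ^ d * (1 - 1 / (n : ℝ)) ≤ (1 - 1 / (n : ℝ)) ^ d * 1 :=
          mul_le_mul_of_nonneg_left h1 (pow_nonneg h0 _)
      _ = _ := mul_one _
  obtain ⟨c, hc⟩ : ∃ c : ℕ, 1 / R ≤ 2 ^ c := by
    obtain ⟨c, hc⟩ := pow_unbounded_of_one_lt (1 / R) (one_lt_two)
    exact ⟨c, hc.le⟩
  set κ := Fintype.card K with hκ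
  set E := c + κ + 1 with hE
  set C0 := (2 * n + 1) * (d + 1) + 2 ^ (d + 1) * (E + 1) with hC0
  refine ⟨1 / (E + n ^ 2 * C0 + 1), by positivity, ?_⟩
  intro l P Q _ _ _ _ hl hP hQ H W hW hB hdim hdist
  have hPpos : (0 : ℝ) < Fintype.card P := by
    exact_mod_cast Fintype.card_pos_iff.2 ⟨(0 : P)⟩
  have hQpos : (0 : ℝ) < Fintype.card Q := by
    exact_mod_cast Fintype.card_pos_iff.2 ⟨(0 : Q)⟩
  have hl' : (1 : ℝ) ≤ l := by exact_mod_cast hl
  have hfinq : ∀ H : AddSubgroup Q, Finite (Q ⧸ H) := fun H => Quotient.finite _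
  have hN : 0 < tot H := by
    unfold tot
    have h1 : Nat.card (Q ⧸ H ⟨0, hl⟩) ≤ ∑ j, Nat.card (Q ⧸ H j) :=
      single_le_sum (f := fun j => Nat.card (Q ⧸ H j)) (fun _ _ => Nat.zero_le _) (mem_univ _)
    have := hfinq (H ⟨0, hl⟩)
    have h2 : 0 < Nat.card (Q ⧸ H ⟨0, hl⟩) := Nat.card_pos
    omega
  have hNpos : (0 : ℝ) < tot H := by exact_mod_cast hN
  -- reduction to `Q`
  let π0 : P × Q →+ Q := AddMonoidHom.snd P Q
  have hπ0 : Function.Surjective π0 := Prod.snd_surjective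
  have h1 := finrank_pull (K := K) (J := Fin l) π0 hπ0 p
    (fun g hg => by
      obtain ⟨k, hk⟩ := hP g.1
      have hg2 : g.2 = 0 := hg
      refine ⟨k, Prod.ext hk ?_⟩
      change p ^ k • g.2 = 0
      rw [hg2, smul_zero])
    W (fun F hF g _ => hW F hF g)
  set M := W.comap (pull K (Fin l) π0) with hM
  have hMinv : ∀ F ∈ M, ∀ g : Q, (fun x : Fin l × Q => F (x.1, x.2 + g)) ∈ M := by
    intro F hF g
    have h3 := hW _ hF (0, g)
    have h4 : pull K (Fin l) π0 (fun x : Fin l × Q => F (x.1, x.2 + g)) =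
        fun x : Fin l × (P × Q) => pull K (Fin l) π0 F (x.1, x.2 + (0, g)) := by
      funext x
      rfl
    rw [hM, Submodule.mem_comap, h4]
    exact h3
  have hMdim : R * tot H ≤ finrank K M := by
    have h3 : (finrank K W : ℝ) * Fintype.card Q ≤
        (Fintype.card P * Fintype.card Q) * finrank K M := by
      have := h1
      rw [Fintype.card_prod] at this
      exact_mod_cast this
    have h5 : (Fintype.card P * Fintype.card Q : ℝ) * (R * tot H) ≤
        (Fintype.card P * Fintype.card Q) * finrank K M := by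
      calc _ = R * (Fintype.card P * tot H) * Fintype.card Q := by ring
        _ ≤ finrank K W * Fintype.card Q := mul_le_mul_of_nonneg_right hdim hQpos.le
        _ ≤ _ := h3
    exact le_of_mul_le_mul_left h5 (by positivity)
  -- the characters that occur
  let _ : Fintype (AddChar Q K) :=
    Fintype.ofInjective (fun χ => (χ : Q → K)) DFunLike.coe_injective
  let T : Finset (AddChar Q K) := univ.filter fun χ => ∃ w : Fin l → K, w ≠ 0 ∧ wd χ w ∈ M
  have hTc : finrank K M ≤ T.card * l :=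
    finrank_le_char hn hQ hMinv T fun χ hχ => mem_filter.2 ⟨mem_univ _, hχ⟩
  have hwex : ∀ χ : AddChar Q K, ∃ w : Fin l → K, χ ∈ T → w ≠ 0 ∧ wd χ w ∈ M := by
    intro χ
    by_cases hχ : χ ∈ T
    · obtain ⟨w, hw⟩ := (mem_filter.1 hχ).2
      exact ⟨w, fun _ => hw⟩
    · exact ⟨0, fun h => (hχ h).elim⟩
  choose wf hwf using hwex
  obtain ⟨w, hw⟩ := exists_popular T wf
  set Tw := T.filter fun χ => wf χ = w with hTw
  have hTwmem : ∀ χ ∈ Tw, w ≠ 0 ∧ wd χ w ∈ M := by
    intro χ hχ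
    rw [hTw, mem_filter] at hχ
    have := hwf χ hχ.1
    rwa [hχ.2] at this
  -- the density
  have hdens : (tot H : ℝ) ≤ 2 ^ (E * l) * Tw.card := by
    have h2 : (T.card : ℝ) ≤ 2 ^ (κ * l) * Tw.card := by
      have h3 : T.card ≤ 2 ^ (κ * l) * Tw.card := by
        refine hw.trans (Nat.mul_le_mul_right _ ?_)
        rw [Fintype.card_fun, Fintype.card_fin, ← hκ, pow_mul]
        exact Nat.pow_le_pow_left (Nat.lt_two_pow_self).le _
      exact_mod_cast h3
    have h3 : R * tot H ≤ 2 ^ (κ * l) * Tw.card * 2 ^ l := by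
      have h4 : (finrank K M : ℝ) ≤ T.card * l := by exact_mod_cast hTc
      have h5 : (l : ℝ) ≤ 2 ^ l := by exact_mod_cast (Nat.lt_two_pow_self (n := l)).le
      calc R * tot H ≤ T.card * l := hMdim.trans h4
        _ ≤ (2 ^ (κ * l) * Tw.card) * 2 ^ l :=
            mul_le_mul h2 h5 (by positivity) (by positivity)
    calc (tot H : ℝ) = 1 / R * (R * tot H) := by field_simp
      _ ≤ 2 ^ c * (2 ^ (κ * l) * Tw.card * 2 ^ l) :=
          mul_le_mul hc h3 (by positivity) (by positivity)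
      _ = 2 ^ (c + κ * l + l) * Tw.card := by rw [pow_add, pow_add]; ring
      _ ≤ 2 ^ (E * l) * Tw.card := by
          apply mul_le_mul_of_nonneg_right _ (by positivity)
          apply pow_le_pow_right₀ (by norm_num)
          rw [hE]
          nlinarith
  have hTwpos : 0 < Tw.card := by
    by_contra h0
    have : Tw.card = 0 := by omega
    rw [this] at hdens
    simp only [Nat.cast_zero, mul_zero] at hdens
    linarith
  obtain ⟨χ0, hχ0⟩ := card_pos.1 hTwpos
  have hw0 : w ≠ 0 := (hTwmem _ hχ0).1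
  obtain ⟨j0, hj0⟩ := Function.ne_iff.1 hw0
  simp only [Pi.zero_apply] at hj0
  have hann : H j0 ≤ annK Tw := by
    intro h hh
    rw [mem_annK]
    intro χ hχ
    have h2 := hB _ (hTwmem χ hχ).2 j0 h hh 0 0
    change χ (0 + h) * w j0 = χ 0 * w j0 at h2
    have h3 := mul_right_cancel₀ hj0 h2
    rwa [zero_add, AddChar.map_zero_eq_one] at h3
  -- the quotient
  let Γ := Q ⧸ annK Tw
  have : Finite Γ := Quotient.finite _
  let _ : Fintype Γ := Fintype.ofFinite Γ
  let _ : Fintype (AddChar Γ K) :=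
    Fintype.ofInjective (fun χ => (χ : Γ → K)) DFunLike.coe_injective
  have hΓ : ∀ g : Γ, n • g = 0 := by
    intro x
    obtain ⟨g, rfl⟩ := QuotientAddGroup.mk'_surjective (annK Tw) x
    rw [← map_nsmul, hQ, map_zero]
  have hΓN : Fintype.card Γ ≤ tot H := by
    have h2 : Fintype.card Γ ≤ Nat.card (Q ⧸ H j0) := by
      rw [← Nat.card_eq_fintype_card]
      have := hfinq (H j0)
      apply Nat.card_le_card_of_surjective
        (QuotientAddGroup.map (H j0) (annK Tw) (AddMonoidHom.id Q) hann)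
      intro x
      obtain ⟨g, rfl⟩ := QuotientAddGroup.mk'_surjective (annK Tw) x
      exact ⟨QuotientAddGroup.mk' _ g, rfl⟩
    exact h2.trans
      (single_le_sum (f := fun j => Nat.card (Q ⧸ H j)) (fun _ _ => Nat.zero_le _) (mem_univ _))
  obtain ⟨T', hT', hT'S⟩ := card_pullc Tw
  have hdensΓ : Fintype.card Γ ≤ 2 ^ (E * l) * T'.card := by
    have h2 : (Fintype.card Γ : ℝ) ≤ 2 ^ (E * l) * T'.card := by
      rw [hT']
      exact le_trans (by exact_mod_cast hΓN) hdens
    exact_mod_cast h2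
  have hT'le : T'.card ≤ Fintype.card Γ := by
    rw [← card_char (K := K) (n := n) hΓ]
    exact card_le_univ _
  have hlog2 : ∀ X : ℕ, tot H ≤ 2 ^ X → (X : ℝ) ≤ (E + n ^ 2 * C0) * l →
      1 / (E + n ^ 2 * C0 + 1) * Real.logb 2 (tot H) ≤ l := by
    intro X hX hX'
    have h3 : (tot H : ℝ) ≤ (2 : ℝ) ^ X := by exact_mod_cast hX
    have h4 := Real.logb_le_logb_of_le (b := 2) (by norm_num) hNpos h3
    rw [Real.logb_pow, Real.logb_self_eq_one (by norm_num), mul_one] at h4
    rw [one_div, inv_mul_le_iff₀ (by positivity)]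
    nlinarith
  by_cases hn1 : n = 1
  · have hsub : ∀ g : Γ, g = 0 := by
      intro g
      have := hΓ g
      rwa [hn1, one_smul] at this
    have hcard : Fintype.card Γ = 1 := Fintype.card_eq_one_iff.2 ⟨0, fun g => hsub g⟩
    apply hlog2 (E * l)
    · have h2 : (tot H : ℝ) ≤ 2 ^ (E * l) * 1 := by
        refine hdens.trans (mul_le_mul_of_nonneg_left ?_ (by positivity))
        rw [← hT']
        rw [hcard] at hT'le
        exact_mod_cast hT'le
      rw [mul_one] at h2
      exact_mod_cast h2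
    · push_cast
      have : (0 : ℝ) ≤ n ^ 2 * C0 * l := by positivity
      nlinarith
  obtain ⟨ℓ, r, π, hℓ, hℓn, hπ, hcard⟩ := exists_quotient (m := n) hn0.ne' hn1 Γ hΓ
  have : Fact ℓ.Prime := ⟨hℓ⟩
  have hℓle : ℓ ≤ n := Nat.le_of_dvd hn0 hℓn
  have hr : r ≤ C0 * l := by
    by_contra hcon
    push Not at hcon
    obtain ⟨F, hF, hF0, hsupp⟩ := dense_char K n d (E * l) r ℓ Γ π hℓn hπ hΓ T' hdensΓ (by
      have h2 : (2 * ℓ + 1) * (d + 1) ≤ (2 * n + 1) * (d + 1) * l := by
        calc (2 * ℓ + 1) * (d + 1) ≤ (2 * n + 1) * (d + 1) := Nat.mul_le_mul_right _ (by omega)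
          _ ≤ _ := Nat.le_mul_of_pos_right _ hl
      have h3 : 2 ^ (d + 1) * (E * l + 1) ≤ 2 ^ (d + 1) * (E + 1) * l := by
        have h4 : E * l + 1 ≤ (E + 1) * l := by nlinarith
        calc 2 ^ (d + 1) * (E * l + 1) ≤ 2 ^ (d + 1) * ((E + 1) * l) :=
              Nat.mul_le_mul_left _ h4
          _ = _ := by ring
      have h5 : C0 * l = (2 * n + 1) * (d + 1) * l + 2 ^ (d + 1) * (E + 1) * l := by
        rw [hC0]; ring
      omega)
    let Θ : (Γ → K) →ₗ[K] (Fin l × Q → K) :=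
      { toFun := fun F x => F (QuotientAddGroup.mk' (annK Tw) x.2) * w x.1
        map_add' := by
          intro F F'
          funext x
          simp only [Pi.add_apply, add_mul]
        map_smul' := by
          intro k F
          funext x
          simp only [Pi.smul_apply, smul_eq_mul, RingHom.id_apply, mul_assoc] }
    have hΘ : Θ F ∈ M := by
      have h2 : Submodule.span K ((fun χ : AddChar Γ K => (χ : Γ → K)) ''
          (T' : Set (AddChar Γ K))) ≤ M.comap Θ := by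
        rw [Submodule.span_le]
        rintro _ ⟨χ, hχ, rfl⟩
        exact (hTwmem _ (hT'S χ hχ)).2
      exact h2 hF
    have hne' : pull K (Fin l) π0 (Θ F) ≠ 0 := by
      obtain ⟨γ, hγ⟩ := Function.ne_iff.1 hF0
      obtain ⟨y, rfl⟩ := QuotientAddGroup.mk'_surjective (annK Tw) γ
      intro h0
      have h2 : pull K (Fin l) π0 (Θ F) (j0, (0, y)) = 0 := by rw [h0]; rfl
      exact mul_ne_zero hγ hj0 h2
    let π1 : P × Q →+ Γ := (QuotientAddGroup.mk' (annK Tw)).comp π0
    have hπ1 : Function.Surjective π1 := (QuotientAddGroup.mk'_surjective _).comp hπ0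
    have h2 := card_pre π1 hπ1 (univ.filter fun x => F x ≠ 0)
    have hΓpos : 0 < Fintype.card Γ := Fintype.card_pos_iff.2 ⟨0⟩
    rw [Fintype.card_prod] at h2
    have h3 := prop_le hℓ.one_le hΓpos h2 hsupp
    have h4 := hdist _ hΘ hne' ((1 - 1 / (ℓ : ℝ)) ^ (d + 1)) (by
      intro j
      refine le_trans ?_ h3
      have h5 : (univ.filter fun a : P × Q => pull K (Fin l) π0 (Θ F) (j, a) ≠ 0).card ≤
          (univ.filter fun x => π1 x ∈ univ.filter fun x => F x ≠ 0).card := by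
        apply card_le_card
        intro a ha
        refine mem_filter.2 ⟨mem_univ _, mem_filter.2 ⟨mem_univ _, ?_⟩⟩
        exact left_ne_zero_of_mul (mem_filter.1 ha).2
      exact_mod_cast h5)
    have h5 := one_sub_pow_le hℓ.two_le hℓle hd'
    linarith
  -- the conclusion
  apply hlog2 (E * l + n ^ 2 * r)
  · have h3 : tot H ≤ 2 ^ (E * l) * Fintype.card Γ := by
      have h4 : (tot H : ℝ) ≤ 2 ^ (E * l) * Fintype.card Γ := by
        refine hdens.trans (mul_le_mul_of_nonneg_left ?_ (by positivity))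
        rw [← hT']
        exact_mod_cast hT'le
      exact_mod_cast h4
    refine h3.trans ?_
    rw [pow_add]
    apply Nat.mul_le_mul_left
    rw [Nat.card_eq_fintype_card] at hcard
    refine hcard.trans ?_
    calc (ℓ ^ r) ^ n ≤ ((2 ^ n) ^ r) ^ n :=
          Nat.pow_le_pow_left (Nat.pow_le_pow_left (hℓle.trans (Nat.lt_two_pow_self).le) r) n
      _ = 2 ^ (n ^ 2 * r) := by
          rw [← pow_mul, ← pow_mul]
          congr 1
          ring
  · have h3 : (r : ℝ) ≤ C0 * l := by exact_mod_cast hr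
    push_cast
    have h4 : (n : ℝ) ^ 2 * r ≤ n ^ 2 * (C0 * l) := mul_le_mul_of_nonneg_left h3 (by positivity)
    nlinarith

end Pool.Agent.Helper479_gq
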