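import Pool.Agent.Helper479_gq.Act

/-!
Invariant spaces of functions on the disjoint union of the groups `P × Q / H j`: the part of order
a power of the characteristic.
-/

set_option autoImplicit false

open Finset Module

namespace Pool.Agent.Helper479_gq

open Helper479_mod (pull pull_apply card_preimage_pull)
open Helper479_qa (exists_quotient)

/-- the sum of the dimensions of the components -/
lemma finrank_le_sum {K : Type} [Field K] {n : ℕ} {J P Q : Type} [AddCommGroup P] [AddCommGroup Q]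
    [Fintype Q] [DecidableEq Q] [Fintype J] [Fintype P] [NeZero n] [HasEnoughRootsOfUnity K n]
    [Fintype (AddChar Q K)] (hn : (n : K) ≠ 0) (hQ : ∀ g : Q, n • g = 0)
    (W : Submodule K (J × (P × Q) → K))
    (hW : ∀ F ∈ W, ∀ g : P × Q, (fun x : J × (P × Q) => F (x.1, x.2 + g)) ∈ W) :
    finrank K W ≤ ∑ a : AddChar Q K, finrank K (W.comap (twist J P a)) := by
  classical
  let L : W →ₗ[K] (∀ a : AddChar Q K, W.comap (twist J P a)) :=
    { toFun := fun F a => ⟨coef F.1 a, twist_coef W hW F.2 a⟩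
      map_add' := by
        intro F G
        funext a
        apply Subtype.ext
        funext x
        simp only [coef, hat, Submodule.coe_add, Pi.add_apply, mul_add, sum_add_distrib]
      map_smul' := by
        intro k F
        funext a
        apply Subtype.ext
        funext x
        simp only [coef, hat, Submodule.coe_smul, Pi.smul_apply, smul_eq_mul, RingHom.id_apply,
          mul_sum]
        apply sum_congr rfl
        intro y _
        ring }
  have hL : Function.Injective L := by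
    rw [injective_iff_map_eq_zero]
    intro F hF
    apply Subtype.ext
    funext x
    obtain ⟨j, x, z⟩ := x
    have h1 : (fun y => F.1 (j, (x, y))) = 0 := by
      apply hat_eq_zero (n := n) hn hQ
      intro a
      have h2 := congrArg (fun f : (∀ a : AddChar Q K, W.comap (twist J P a)) =>
        (f a).1 (j, x)) hF
      exact h2
    exact congrFun h1 z
  have h1 := LinearMap.finrank_le_finrank_of_injective hL
  rwa [Module.finrank_pi_fintype] at h1

/-- the blocks on which a character lives -/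
noncomputable def blk {K : Type} [Field K] {l : ℕ} {Q : Type} [AddCommGroup Q]
    (H : Fin l → AddSubgroup Q) (a : AddChar Q K) : Finset (Fin l) := by
  classical
  exact univ.filter fun j => ∀ h ∈ H j, a h = 1

lemma mem_blk {K : Type} [Field K] {l : ℕ} {Q : Type} [AddCommGroup Q]
    (H : Fin l → AddSubgroup Q) (a : AddChar Q K) (j : Fin l) :
    j ∈ blk H a ↔ ∀ h ∈ H j, a h = 1 := by
  classical
  simp [blk]

lemma comp_supp {K : Type} [Field K] {l : ℕ} {P Q : Type} [AddCommGroup P] [AddCommGroup Q]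
    {H : Fin l → AddSubgroup Q} {W : Submodule K (Fin l × (P × Q) → K)} (hB : BInv H W)
    {a : AddChar Q K} {F : Fin l × P → K} (hF : F ∈ W.comap (twist (Fin l) P a))
    {j : Fin l} (hj : j ∉ blk H a) (x : P) : F (j, x) = 0 := by
  rw [mem_blk] at hj
  push Not at hj
  obtain ⟨h, hh, hne⟩ := hj
  have h1 := hB _ hF j h hh x 0
  change a (0 + h) * F (j, x) = a 0 * F (j, x) at h1
  rw [zero_add, AddChar.map_zero_eq_one] at h1
  have h2 : (a h - 1) * F (j, x) = 0 := by rw [sub_mul, h1]; ring
  rcases mul_eq_zero.1 h2 with h3 | h3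
  · exact absurd (sub_eq_zero.1 h3) hne
  · exact h3

/-- a component of large dimension -/
lemma exists_compH {K : Type} [Field K] [Fintype K] {n : ℕ} {l : ℕ} {P Q : Type} [AddCommGroup P]
    [AddCommGroup Q] [Fintype Q] [Fintype P] [NeZero n] [HasEnoughRootsOfUnity K n]
    (hn : (n : K) ≠ 0) (hQ : ∀ g : Q, n • g = 0) (hl : 0 < l)
    (H : Fin l → AddSubgroup Q) (W : Submodule K (Fin l × (P × Q) → K)) (hW : InvT W)
    (hB : BInv H W) {R : ℝ} (hR : 0 < R)
    (hdim : R * (Fintype.card P * tot H) ≤ finrank K W) :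
    ∃ a : AddChar Q K, (blk H a).Nonempty ∧
      R * ((blk H a).card * Fintype.card P) ≤ finrank K (W.comap (twist (Fin l) P a)) := by
  classical
  let _ : Fintype (AddChar Q K) :=
    Fintype.ofInjective (fun χ => (χ : Q → K)) DFunLike.coe_injective
  have hPpos : (0 : ℝ) < Fintype.card P := by
    exact_mod_cast Fintype.card_pos_iff.2 ⟨(0 : P)⟩
  by_contra hcon
  push Not at hcon
  have h1 : ∀ a : AddChar Q K, (finrank K (W.comap (twist (Fin l) P a)) : ℝ) ≤
      R * ((blk H a).card * Fintype.card P) := by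
    intro a
    by_cases ha : (blk H a).Nonempty
    · exact (hcon a ha).le
    · rw [not_nonempty_iff_eq_empty] at ha
      have h2 : W.comap (twist (Fin l) P a) = ⊥ := by
        rw [eq_bot_iff]
        intro F hF
        rw [Submodule.mem_bot]
        funext x
        exact comp_supp hB hF (by rw [ha]; exact notMem_empty x.1) x.2
      rw [h2, finrank_bot, ha]
      simp
  have h0 : (0 : AddChar Q K) ∈ (univ : Finset (AddChar Q K)) := mem_univ _
  have hne : (blk H (0 : AddChar Q K)).Nonempty :=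
    ⟨⟨0, hl⟩, (mem_blk H 0 _).2 fun h _ => AddChar.zero_apply h⟩
  have h2 : ∑ a : AddChar Q K, (finrank K (W.comap (twist (Fin l) P a)) : ℝ) <
      ∑ a : AddChar Q K, R * ((blk H a).card * Fintype.card P) :=
    sum_lt_sum (fun a _ => h1 a) ⟨0, mem_univ _, hcon 0 hne⟩
  have h3 : (finrank K W : ℝ) ≤
      ∑ a : AddChar Q K, (finrank K (W.comap (twist (Fin l) P a)) : ℝ) := by
    exact_mod_cast finrank_le_sum (n := n) hn hQ W hW
  have h4 : ∑ a : AddChar Q K, (blk H a).card ≤ tot H := by
    have h5 : ∑ a : AddChar Q K, (blk H a).card =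
        ∑ j : Fin l, (univ.filter fun a : AddChar Q K => ∀ h ∈ H j, a h = 1).card := by
      have h6 : ∀ a : AddChar Q K, (blk H a).card =
          ∑ j : Fin l, if (∀ h ∈ H j, a h = 1) then 1 else 0 := by
        intro a
        rw [← card_filter]
        congr 1
        ext j
        rw [mem_blk, mem_filter]
        simp
      rw [sum_congr rfl fun a _ => h6 a, sum_comm]
      apply sum_congr rfl
      intro j _
      rw [card_filter]
    rw [h5]
    apply sum_le_sum
    intro j _
    exact card_trivial (n := n) hQ (H j)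
  have h5 : ∑ a : AddChar Q K, R * ((blk H a).card * Fintype.card P : ℝ) ≤
      R * (Fintype.card P * tot H) := by
    rw [← mul_sum, ← sum_mul]
    apply mul_le_mul_of_nonneg_left _ hR.le
    rw [mul_comm]
    apply mul_le_mul_of_nonneg_left _ hPpos.le
    exact_mod_cast h4
  linarith

lemma act_power (p : ℕ) [hp : Fact p.Prime] (s : ℕ) (K : Type) [Field K] [Fintype K]
    [DecidableEq K]
    [CharP K p] (n : ℕ) [NeZero n] [HasEnoughRootsOfUnity K n] (hn : (n : K) ≠ 0) {R δ : ℝ}
    (hR : 0 < R) (hδ : 0 < δ) :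
    ∃ c : ℝ, 0 < c ∧ ∀ (l : ℕ) (P Q : Type) [AddCommGroup P] [Fintype P] [AddCommGroup Q]
      [Fintype Q], 0 < l → (∀ g : P, p ^ s • g = 0) → (∀ g : Q, n • g = 0) →
      ∀ (H : Fin l → AddSubgroup Q) (W : Submodule K (Fin l × (P × Q) → K)), InvT W → BInv H W →
      R * (Fintype.card P * tot H) ≤ finrank K W →
      (∀ w ∈ W, w ≠ 0 → ∀ θ : ℝ, (∀ j, ((univ.filter fun a : P × Q => w (j, a) ≠ 0).card : ℝ) ≤
        θ * (Fintype.card P * Fintype.card Q : ℕ)) → δ ≤ θ) →
      c * Real.logb 2 (Fintype.card P) ≤ l := by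
  classical
  have hppos : 0 < p := hp.out.pos
  have hpr : (2 : ℝ) ≤ p := by exact_mod_cast hp.out.two_le
  obtain ⟨q, hq⟩ : ∃ q : ℕ, (1 - 1 / (p : ℝ)) ^ q < δ := by
    apply exists_pow_lt_of_lt_one hδ
    have : 0 < 1 / (p : ℝ) := by positivity
    linarith
  obtain ⟨C0, hC0⟩ := mod_block p K q hR
  refine ⟨1 / (p * p ^ (s + 1) * C0 + 1), by positivity, ?_⟩
  intro l P Q _ _ _ _ hl hP hQ H W hW hB hdim hdist
  have hPpos : (0 : ℝ) < Fintype.card P := by
    exact_mod_cast Fintype.card_pos_iff.2 ⟨(0 : P)⟩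
  have hQpos : (0 : ℝ) < Fintype.card Q := by
    exact_mod_cast Fintype.card_pos_iff.2 ⟨(0 : Q)⟩
  have hl' : (1 : ℝ) ≤ l := by exact_mod_cast hl
  -- the component of a character
  obtain ⟨a, hane, ha⟩ := exists_compH hn hQ hl H W hW hB hR hdim
  set M := W.comap (twist (Fin l) P a) with hM
  have hMinv : ∀ F ∈ M, ∀ g : P, (fun x : Fin l × P => F (x.1, x.2 + g)) ∈ M := by
    intro F hF g
    have h1 := hW _ hF (g, 0)
    have h2 : twist (Fin l) P a (fun x : Fin l × P => F (x.1, x.2 + g)) =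
        fun x : Fin l × (P × Q) => twist (Fin l) P a F (x.1, x.2 + (g, 0)) := by
      funext x
      change a x.2.2 * F (x.1, x.2.1 + g) = a (x.2.2 + 0) * F (x.1, x.2.1 + g)
      rw [add_zero]
    rw [hM, Submodule.mem_comap, h2]
    exact h1
  -- restriction to the blocks
  set l' := (blk H a).card with hl'def
  have hl'pos : 0 < l' := card_pos.2 hane
  have hl'le : l' ≤ l := by
    have := card_le_univ (blk H a)
    rwa [Fintype.card_fin] at this
  let e : Fin l' ↪o Fin l := (blk H a).orderEmbOfFin rfl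
  have hmemE : ∀ i, e i ∈ blk H a := fun i => orderEmbOfFin_mem _ _ i
  have hsurjE : ∀ j ∈ blk H a, ∃ i, e i = j := by
    intro j hj
    have h1 : Set.range e = (blk H a : Set (Fin l)) := range_orderEmbOfFin _ _
    have h2 : j ∈ Set.range e := by rw [h1]; exact hj
    exact h2
  let restr : (Fin l × P → K) →ₗ[K] (Fin l' × P → K) :=
    LinearMap.funLeft K K (fun x : Fin l' × P => (e x.1, x.2))
  have hrestr : ∀ F x, restr F x = F (e x.1, x.2) := fun _ _ => rfl
  let M1 : Submodule K (Fin l' × P → K) := M.map restr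
  have hM1inv : ∀ F ∈ M1, ∀ g : P, (fun x : Fin l' × P => F (x.1, x.2 + g)) ∈ M1 := by
    rintro _ ⟨F, hF, rfl⟩ g
    exact ⟨_, hMinv F hF g, rfl⟩
  have hM1dim : R * (l' * Fintype.card P) ≤ finrank K M1 := by
    have h1 : Function.Injective (restr.submoduleMap M) := by
      rw [injective_iff_map_eq_zero]
      intro F hF
      apply Subtype.ext
      funext x
      obtain ⟨j, x⟩ := x
      by_cases hj : j ∈ blk H a
      · obtain ⟨i, rfl⟩ := hsurjE j hj
        have h2 := congrArg (fun f : M.map restr => (f : Fin l' × P → K) (i, x)) hF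
        exact h2
      · exact comp_supp hB F.2 hj x
    have h2 := LinearMap.finrank_le_finrank_of_injective h1
    refine ha.trans ?_
    exact_mod_cast h2
  -- the quotient
  have hps1 : p ^ (s + 1) ≠ 1 := by
    have h1 : p ≤ p ^ (s + 1) := by
      rw [pow_succ]
      exact Nat.le_mul_of_pos_left _ (pow_pos hppos _)
    have := hp.out.two_le
    omega
  obtain ⟨p', r, π, hp', hpe, hπ, hcard⟩ := exists_quotient (m := p ^ (s + 1))
    (pow_pos hppos _).ne' hps1 P
    (fun g => by rw [pow_succ, mul_comm, mul_smul, hP g, smul_zero])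
  have hp2 : p' = p := (Nat.prime_dvd_prime_iff_eq hp' hp.out).1 (hp'.dvd_of_dvd_pow hpe)
  subst hp2
  have hV : Fintype.card (Fin r → ZMod p') = p' ^ r := by
    rw [Fintype.card_fun, Fintype.card_fin, ZMod.card]
  have hfp := finrank_pull (J := Fin l') π hπ p' (fun g _ => ⟨s, hP g⟩) M1
    (fun F hF g _ => hM1inv F hF g)
  set M' := M1.comap (pull K (Fin l') π) with hM'
  rw [hV] at hfp
  have hM'inv : ∀ F ∈ M', ∀ g : Fin r → ZMod p',
      (fun x : Fin l' × (Fin r → ZMod p') => F (x.1, x.2 + g)) ∈ M' := by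
    intro F hF g
    obtain ⟨g', rfl⟩ := hπ g
    have h1 := hM1inv _ hF g'
    have h2 : pull K (Fin l') π (fun x : Fin l' × (Fin r → ZMod p') => F (x.1, x.2 + π g')) =
        fun x : Fin l' × P => pull K (Fin l') π F (x.1, x.2 + g') := by
      funext x
      rw [pull_apply, pull_apply, map_add]
    rw [hM', Submodule.mem_comap, h2]
    exact h1
  have hM'dim : R * (l' * p' ^ r) ≤ finrank K M' := by
    have h1 : (finrank K M1 : ℝ) * p' ^ r ≤ Fintype.card P * finrank K M' := by
      exact_mod_cast hfp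
    have h2 : Fintype.card P * (R * (l' * p' ^ r)) ≤ Fintype.card P * finrank K M' := by
      calc _ = R * (l' * Fintype.card P) * p' ^ r := by ring
        _ ≤ finrank K M1 * p' ^ r := mul_le_mul_of_nonneg_right hM1dim (by positivity)
        _ ≤ _ := h1
    exact le_of_mul_le_mul_left h2 hPpos
  have hr : r ≤ C0 * l' := by
    by_contra hcon
    push Not at hcon
    obtain ⟨F, hF, hF0, B, hBc, hBs⟩ := hC0 l' r hl'pos M' hM'inv hM'dim hcon
    obtain ⟨x0, hx0⟩ := Function.ne_iff.1 hF0
    obtain ⟨y0, hy0⟩ := hπ x0.2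
    obtain ⟨F1, hF1, hF1r⟩ : ∃ F1 ∈ M, restr F1 = pull K (Fin l') π F := hF
    let F2 : Fin l × (P × Q) → K := twist (Fin l) P a F1
    have hF2 : F2 ∈ W := hF1
    have hval : ∀ i x, F1 (e i, x) = F (i, π x) := fun i x => congrFun hF1r (i, x)
    have hF2ne : F2 ≠ 0 := by
      intro h0
      have h1 : F2 (e x0.1, (y0, 0)) = 0 := by rw [h0]; rfl
      change a 0 * F1 (e x0.1, y0) = 0 at h1
      rw [hval, hy0] at h1
      rcases mul_eq_zero.1 h1 with h2 | h2
      · exact char_ne_zero a 0 h2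
      · exact hx0 h2
    let π1 : P × Q →+ (Fin r → ZMod p') := π.comp (AddMonoidHom.fst P Q)
    have hπ1 : Function.Surjective π1 := hπ.comp Prod.fst_surjective
    have h2 := card_pre π1 hπ1 B
    rw [hV, Fintype.card_prod] at h2
    have h3 := prop_le hp.out.one_le (pow_pos hppos r) h2 hBc
    have h4 := hdist F2 hF2 hF2ne ((1 - 1 / (p' : ℝ)) ^ q) (by
      intro j
      refine le_trans ?_ h3
      have h5 : (univ.filter fun b : P × Q => F2 (j, b) ≠ 0).card ≤
          (univ.filter fun x => π1 x ∈ B).card := by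
        apply card_le_card
        intro b hb
        have h6 : a b.2 * F1 (j, b.1) ≠ 0 := (mem_filter.1 hb).2
        have h7 := right_ne_zero_of_mul h6
        have h8 : j ∈ blk H a := by
          by_contra hj
          exact h7 (comp_supp hB hF1 hj b.1)
        obtain ⟨i, rfl⟩ := hsurjE j h8
        rw [hval] at h7
        exact mem_filter.2 ⟨mem_univ _, hBs _ h7⟩
      exact_mod_cast h5)
    linarith
  -- the conclusion
  have hlog : Real.logb 2 (Fintype.card P) ≤ p' * p' ^ (s + 1) * r := by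
    have h3 : (Fintype.card P : ℝ) ≤ (2 : ℝ) ^ (p' * p' ^ (s + 1) * r) := by
      rw [Nat.card_eq_fintype_card] at hcard
      have h4 : (p' ^ r) ^ p' ^ (s + 1) ≤ 2 ^ (p' * p' ^ (s + 1) * r) := by
        calc (p' ^ r) ^ p' ^ (s + 1) ≤ ((2 ^ p') ^ r) ^ p' ^ (s + 1) :=
              Nat.pow_le_pow_left (Nat.pow_le_pow_left (Nat.lt_two_pow_self).le r) _
          _ = 2 ^ (p' * p' ^ (s + 1) * r) := by
              rw [← pow_mul, ← pow_mul]
              congr 1
              ring
      exact_mod_cast hcard.trans h4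
    have h4 := Real.logb_le_logb_of_le (b := 2) (by norm_num) hPpos h3
    rw [Real.logb_pow, Real.logb_self_eq_one (by norm_num), mul_one] at h4
    push_cast at h4
    exact h4
  have h3 : (r : ℝ) ≤ C0 * l := by exact_mod_cast hr.trans (Nat.mul_le_mul_left _ hl'le)
  rw [one_div, inv_mul_le_iff₀ (by positivity)]
  have h4 : (p' : ℝ) * p' ^ (s + 1) * r ≤ p' * p' ^ (s + 1) * (C0 * l) :=
    mul_le_mul_of_nonneg_left h3 (by positivity)
  nlinarith

/-- both parts -/
theorem act_index (p : ℕ) [hp : Fact p.Prime] (s : ℕ) (K : Type) [Field K] [Fintype K]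
    [DecidableEq K]
    [CharP K p] (n : ℕ) [NeZero n] [HasEnoughRootsOfUnity K n] (hn : (n : K) ≠ 0) {R δ : ℝ}
    (hR : 0 < R) (hδ : 0 < δ) :
    ∃ c : ℝ, 0 < c ∧ ∀ (l : ℕ) (P Q : Type) [AddCommGroup P] [Fintype P] [AddCommGroup Q]
      [Fintype Q], 0 < l → (∀ g : P, p ^ s • g = 0) → (∀ g : Q, n • g = 0) →
      ∀ (H : Fin l → AddSubgroup Q) (W : Submodule K (Fin l × (P × Q) → K)), InvT W → BInv H W →
      R * (Fintype.card P * tot H) ≤ finrank K W →
      (∀ w ∈ W, w ≠ 0 → ∀ θ : ℝ, (∀ j, ((univ.filter fun a : P × Q => w (j, a) ≠ 0).card : ℝ) ≤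
        θ * (Fintype.card P * Fintype.card Q : ℕ)) → δ ≤ θ) →
      c * Real.logb 2 (Fintype.card P * tot H) ≤ l := by
  obtain ⟨c1, hc1, h1⟩ := act_prime p K n hn hR hδ
  obtain ⟨c2, hc2, h2⟩ := act_power p s K n hn hR hδ
  refine ⟨(1 / c1 + 1 / c2)⁻¹, by positivity, ?_⟩
  intro l P Q _ _ _ _ hl hP hQ H W hW hB hdim hdist
  have h3 := h1 l P Q hl (fun g => ⟨s, hP g⟩) hQ H W hW hB hdim hdist
  have h4 := h2 l P Q hl hP hQ H W hW hB hdim hdist
  have hPpos : (0 : ℝ) < Fintype.card P := by
    exact_mod_cast Fintype.card_pos_iff.2 ⟨(0 : P)⟩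
  have hfin : Finite (Q ⧸ H ⟨0, hl⟩) := Quotient.finite _
  have hN : 0 < tot H := by
    unfold tot
    have h1 : Nat.card (Q ⧸ H ⟨0, hl⟩) ≤ ∑ j, Nat.card (Q ⧸ H j) :=
      single_le_sum (f := fun j => Nat.card (Q ⧸ H j)) (fun _ _ => Nat.zero_le _) (mem_univ _)
    have h2 : 0 < Nat.card (Q ⧸ H ⟨0, hl⟩) := Nat.card_pos
    omega
  have hQpos : (0 : ℝ) < tot H := by exact_mod_cast hN
  rw [Real.logb_mul hPpos.ne' hQpos.ne', inv_mul_le_iff₀ (by positivity)]
  have h5 : Real.logb 2 (tot H) ≤ 1 / c1 * l := by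
    rw [one_div, ← div_eq_inv_mul, le_div_iff₀ hc1, mul_comm]; exact h3
  have h6 : Real.logb 2 (Fintype.card P) ≤ 1 / c2 * l := by
    rw [one_div, ← div_eq_inv_mul, le_div_iff₀ hc2, mul_comm]; exact h4
  linarith

end Pool.Agent.Helper479_gq
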