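import Pool.Agent.Helper479_gq.ActP

/-!
Abelian groups of automorphisms of bounded exponent in which no element of order `p`, the
characteristic of the field, fixes a coordinate: at least a constant times `log n` orbits.
-/

set_option autoImplicit false

open Finset Module

namespace Pool.Agent.Helper479_gq

section fixed

variable {Ω : Type} {G : Subgroup (Equiv.Perm Ω)} {p : ℕ}

lemma pow_fix {g : Equiv.Perm Ω} {x : Ω} (h : g x = x) (k : ℕ) : (g ^ k) x = x := by
  induction k with
  | zero => rfl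
  | succ k ih => rw [pow_succ, Equiv.Perm.mul_apply, h, ih]

lemma fix_of_prime (hfix : ∀ g ∈ G, g ^ p = 1 → ∀ x : Ω, g x = x → g = 1) (k : ℕ) :
    ∀ g ∈ G, g ^ p ^ k = 1 → ∀ x : Ω, g x = x → g = 1 := by
  induction k with
  | zero =>
    intro g _ h x _
    rwa [pow_zero, pow_one] at h
  | succ k ih =>
    intro g hg h x hx
    apply ih g hg _ x hx
    apply hfix (g ^ p ^ k) (G.pow_mem hg _) _ x (pow_fix hx _)
    rw [← pow_mul, ← pow_succ]
    exact h

end fixed

/-- the size of `Ω` and the weights -/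
lemma orbit_struct {Ω : Type} [Fintype Ω] {P Q : Type} [AddCommGroup P] [AddCommGroup Q]
    [Fintype P] [Fintype Q] {l : ℕ} (σ : P × Q → Equiv.Perm Ω)
    (hσ : ∀ a b, σ (a + b) = σ a * σ b) (rep : Fin l → Ω) (H : Fin l → AddSubgroup Q)
    (hH : ∀ j y, y ∈ H j ↔ σ (0, y) (rep j) = rep j)
    (hfix : ∀ j a, σ a (rep j) = rep j → a.1 = 0)
    (hrep : ∀ x, ∃ j a, σ a (rep j) = x)
    (hinj : ∀ j j' a, σ a (rep j) = rep j' → j = j') :
    Fintype.card Ω = Fintype.card P * tot H := by
  classical
  have hσ0 : σ 0 = 1 := by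
    have h1 := hσ 0 0
    rw [add_zero] at h1
    exact (mul_eq_left.1 h1.symm)
  have hσneg : ∀ a, σ (-a) = (σ a)⁻¹ := by
    intro a
    rw [eq_inv_iff_mul_eq_one, ← hσ, neg_add_cancel, hσ0]
  have hfinq : ∀ j, Finite (Q ⧸ H j) := fun j => Quotient.finite _
  let g : (Σ j : Fin l, P × (Q ⧸ H j)) → Ω := fun z => σ (z.2.1, z.2.2.out) (rep z.1)
  have hg : Function.Bijective g := by
    constructor
    · rintro ⟨j, x, q⟩ ⟨j', x', q'⟩ h
      change σ (x, q.out) (rep j) = σ (x', q'.out) (rep j') at h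
      have h1 : σ (-(x', q'.out) + (x, q.out)) (rep j) = rep j' := by
        rw [hσ, Equiv.Perm.mul_apply, h, hσneg]
        exact Equiv.symm_apply_apply _ _
      have hj := hinj _ _ _ h1
      subst hj
      have h2 := hfix _ _ h1
      have h3 : x = x' := by
        change -x' + x = 0 at h2
        rw [neg_add_eq_zero] at h2
        exact h2.symm
      subst h3
      have h4 : -q'.out + q.out ∈ H j := by
        rw [hH]
        have h5 : -((x, q'.out) : P × Q) + (x, q.out) = (0, -q'.out + q.out) := by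
          apply Prod.ext
          · change -x + x = 0
            exact neg_add_cancel x
          · rfl
        rw [← h5]
        exact h1
      have h5 : (QuotientAddGroup.mk q'.out : Q ⧸ H j) = QuotientAddGroup.mk q.out :=
        QuotientAddGroup.eq.2 h4
      have h6 : (QuotientAddGroup.mk q.out : Q ⧸ H j) = q := Quotient.out_eq q
      have h7 : (QuotientAddGroup.mk q'.out : Q ⧸ H j) = q' := Quotient.out_eq q'
      rw [← h6, ← h5, h7]
    · intro ω
      obtain ⟨j, a, rfl⟩ := hrep ω
      obtain ⟨x, y⟩ := a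
      refine ⟨⟨j, x, QuotientAddGroup.mk y⟩, ?_⟩
      change σ (x, (QuotientAddGroup.mk y : Q ⧸ H j).out) (rep j) = _
      set y' := (QuotientAddGroup.mk y : Q ⧸ H j).out with hy'
      have h1 : (QuotientAddGroup.mk y' : Q ⧸ H j) = QuotientAddGroup.mk y := Quotient.out_eq _
      have h2 : -y + y' ∈ H j := QuotientAddGroup.eq.1 h1.symm
      have h3 : ((x, y') : P × Q) = (x, y) + (0, -y + y') := by
        apply Prod.ext
        · change x = x + 0
          rw [add_zero]
        · change y' = y + (-y + y')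
          abel
      rw [h3, hσ, Equiv.Perm.mul_apply, (hH j _).1 h2]
  have h1 := Nat.card_congr (Equiv.ofBijective g hg)
  rw [Nat.card_sigma] at h1
  rw [← Nat.card_eq_fintype_card, ← h1]
  unfold tot
  rw [mul_sum]
  apply sum_congr rfl
  intro j _
  rw [Nat.card_prod, Nat.card_eq_fintype_card]

/-- the weight of a function is bounded by the proportion of its support in every orbit -/
lemma weight_le {Ω K : Type} [Fintype Ω] [Field K] [DecidableEq K] {P Q : Type} [AddCommGroup P]
    [AddCommGroup Q] [Fintype P] [Fintype Q] {l : ℕ} (σ : P × Q → Equiv.Perm Ω)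
    (hσ : ∀ a b, σ (a + b) = σ a * σ b) (rep : Fin l → Ω)
    (hrep : ∀ x, ∃ j a, σ a (rep j) = x) (c : Ω → K) (θ : ℝ)
    (hθ : ∀ j, ((univ.filter fun a : P × Q => c (σ a (rep j)) ≠ 0).card : ℝ) ≤
      θ * (Fintype.card P * Fintype.card Q : ℕ)) :
    (hammingNorm c : ℝ) ≤ θ * Fintype.card Ω := by
  classical
  have hpos : 0 < Fintype.card P * Fintype.card Q :=
    Nat.mul_pos (Fintype.card_pos_iff.2 ⟨0⟩) (Fintype.card_pos_iff.2 ⟨0⟩)
  have hdouble : (univ.filter fun ω => c ω ≠ 0).card * (Fintype.card P * Fintype.card Q) =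
      ∑ ω : Ω, (univ.filter fun a : P × Q => c (σ a ω) ≠ 0).card := by
    simp_rw [card_filter]
    rw [sum_comm]
    have h1 : ∀ a : P × Q, ∑ ω : Ω, (if c (σ a ω) ≠ 0 then 1 else 0) =
        ∑ ω : Ω, (if c ω ≠ 0 then 1 else 0) := fun a =>
      Fintype.sum_equiv (σ a) _ _ (fun ω => rfl)
    rw [sum_congr rfl fun a _ => h1 a, sum_const, card_univ, smul_eq_mul, mul_comm,
      Fintype.card_prod]
  have hfib : ∀ ω, ((univ.filter fun a : P × Q => c (σ a ω) ≠ 0).card : ℝ) ≤
      θ * (Fintype.card P * Fintype.card Q : ℕ) := by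
    intro ω
    obtain ⟨j, b, rfl⟩ := hrep ω
    refine le_trans ?_ (hθ j)
    have h1 : (univ.filter fun a : P × Q => c (σ a (σ b (rep j))) ≠ 0).card ≤
        (univ.filter fun a : P × Q => c (σ a (rep j)) ≠ 0).card := by
      apply card_le_card_of_injOn (fun a => a + b)
      · intro a ha
        refine mem_coe.2 (mem_filter.2 ⟨mem_univ _, ?_⟩)
        have h2 := (mem_filter.1 (mem_coe.1 ha)).2
        rw [hσ, Equiv.Perm.mul_apply]
        exact h2
      · intro a _ a' _ h
        exact add_right_cancel h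
    exact_mod_cast h1
  have h1 : ((univ.filter fun ω => c ω ≠ 0).card : ℝ) * (Fintype.card P * Fintype.card Q : ℕ) ≤
      (θ * Fintype.card Ω) * (Fintype.card P * Fintype.card Q : ℕ) := by
    have h2 : ((univ.filter fun ω => c ω ≠ 0).card : ℝ) * (Fintype.card P * Fintype.card Q : ℕ) =
        ∑ ω : Ω, ((univ.filter fun a : P × Q => c (σ a ω) ≠ 0).card : ℝ) := by
      exact_mod_cast hdouble
    rw [h2]
    calc ∑ ω : Ω, ((univ.filter fun a : P × Q => c (σ a ω) ≠ 0).card : ℝ)
        ≤ ∑ ω : Ω, θ * (Fintype.card P * Fintype.card Q : ℕ) := sum_le_sum fun ω _ => hfib ω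
      _ = _ := by
          rw [sum_const, card_univ, nsmul_eq_mul]
          ring
  exact le_of_mul_le_mul_right h1 (by exact_mod_cast hpos)

/-- good codes with an abelian group of automorphisms of bounded exponent, in which no element of
order the characteristic fixes a coordinate, have at least a constant times `log n` orbits -/
theorem act_orbits (F : Type) [Field F] [Fintype F] [DecidableEq F] (m : ℕ) (hm : 0 < m)
    {ρ δ : ℝ} (hρ : 0 < ρ) (hδ : 0 < δ) :
    ∃ κ : ℝ, 0 < κ ∧ ∀ (Ω : Type) [Fintype Ω] (C : Submodule F (Ω → F))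
      (G : Subgroup (Equiv.Perm Ω)),
      (∀ g ∈ G, ∀ c ∈ C, (fun x => c (g x)) ∈ C) →
      (∀ g ∈ G, ∀ h ∈ G, g * h = h * g) → (∀ g ∈ G, g ^ m = 1) →
      (∀ g ∈ G, g ^ ringChar F = 1 → ∀ x : Ω, g x = x → g = 1) →
      ρ * (Fintype.card Ω : ℝ) ≤ finrank F C →
      (∀ c ∈ C, c ≠ 0 → δ * (Fintype.card Ω : ℝ) ≤ hammingNorm c) →
      κ * Real.logb 2 (Fintype.card Ω) ≤ Nat.card (MulAction.orbitRel.Quotient G Ω) := by
  classical
  have hchar : CharP F (ringChar F) := ringChar.charP F
  generalize ringChar F = p at hchar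
  have hp : p.Prime := CharP.char_is_prime F p
  have : Fact p.Prime := ⟨hp⟩
  obtain ⟨s, n, hpn, hen⟩ := Nat.exists_eq_pow_mul_and_not_dvd hm.ne' p hp.ne_one
  have hnF : (n : F) ≠ 0 := by
    rw [Ne, CharP.cast_eq_zero_iff F p]
    exact hpn
  have hn0 : n ≠ 0 := by
    rintro rfl
    simp at hpn
  have : NeZero (n : F) := ⟨hnF⟩
  have : NeZero n := ⟨hn0⟩
  let K := CyclotomicField n F
  let _ : DecidableEq K := Classical.decEq _
  have : Module.Finite F K := IsCyclotomicExtension.finiteDimensional {n} F K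
  have : Finite K := Module.finite_of_finite F
  let _ : Fintype K := Fintype.ofFinite K
  have hnK : (n : K) ≠ 0 := by
    intro h
    apply hnF
    apply (algebraMap F K).injective
    simpa using h
  have : NeZero (n : K) := ⟨hnK⟩
  have hprim : IsPrimitiveRoot (IsCyclotomicExtension.zeta n F K) n :=
    IsCyclotomicExtension.zeta_spec n F K
  have : HasEnoughRootsOfUnity K n := ⟨⟨_, hprim⟩, rootsOfUnity.isCyclic _ _⟩
  have : CharP K p := charP_of_injective_algebraMap (algebraMap F K).injective p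
  obtain ⟨κ, hκ, h⟩ := act_index p s K n hnK hρ hδ
  refine ⟨κ, hκ, ?_⟩
  intro Ω _ C G hC hcomm hexp hfixp hdim hdist
  set l := Nat.card (MulAction.orbitRel.Quotient G Ω) with hl
  rcases Nat.eq_zero_or_pos l with hl0 | hlpos
  · have hempty : IsEmpty Ω := by
      rw [hl, Nat.card_eq_zero] at hl0
      rcases hl0 with h0 | h0
      · exact ⟨fun x => h0.false (Quotient.mk'' x)⟩
      · exact absurd (inferInstance : Finite (MulAction.orbitRel.Quotient G Ω))
          (not_finite_iff_infinite.2 h0)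
    rw [Fintype.card_eq_zero, hl0]
    simp
  -- the group
  let instC : CommGroup G :=
    { (inferInstance : Group G) with
      mul_comm := fun g h => Subtype.ext (hcomm g g.2 h h.2) }
  let A := Additive G
  have hcop : Nat.Coprime (p ^ s) n :=
    Nat.Coprime.pow_left s ((Nat.Prime.coprime_iff_not_dvd hp).2 hpn)
  obtain ⟨P, Q, hP, hQ, ⟨f⟩⟩ := exists_split A hcop (fun g => by
    rw [← hen]
    apply Additive.toMul.injective
    apply Subtype.ext
    exact hexp _ (Additive.toMul g).2)
  have : Fintype P := Fintype.ofFinite P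
  have : Fintype Q := Fintype.ofFinite Q
  have hP' : ∀ g : P, p ^ s • g = 0 := fun g => Subtype.ext (hP g g.2)
  have hQ' : ∀ g : Q, n • g = 0 := fun g => Subtype.ext (hQ g g.2)
  let σ : P × Q → Equiv.Perm Ω := fun a => ((Additive.toMul (f a) : G) : Equiv.Perm Ω)
  have hσdef : ∀ a, σ a = ((Additive.toMul (f a) : G) : Equiv.Perm Ω) := fun _ => rfl
  have hσG : ∀ a, σ a ∈ G := fun a => (Additive.toMul (f a) : G).2
  have hσ : ∀ a b, σ (a + b) = σ a * σ b := by
    intro a b
    rw [hσdef, map_add, toMul_add, Subgroup.coe_mul]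
  have hσsm : ∀ (k : ℕ) a, σ (k • a) = σ a ^ k := by
    intro k a
    rw [hσdef, map_nsmul, toMul_nsmul, Subgroup.coe_pow]
  have hσ0 : ∀ a, σ a = 1 → a = 0 := by
    intro a ha
    have h1 : (Additive.toMul (f a) : G) = 1 := Subtype.ext ha
    have h2 : f a = 0 := Additive.toMul.injective h1
    exact (map_eq_zero_iff f f.injective).1 h2
  have hσsurj : ∀ g : G, ∃ a, σ a = g := by
    intro g
    refine ⟨f.symm (Additive.ofMul g), ?_⟩
    rw [hσdef, AddEquiv.apply_symm_apply]
    rfl
  have hσ1 : σ 0 = 1 := by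
    have h1 := hσ 0 0
    rw [add_zero] at h1
    exact (mul_eq_left.1 h1.symm)
  -- the representatives
  let e : MulAction.orbitRel.Quotient G Ω ≃ Fin l := Finite.equivFin _
  let rep : Fin l → Ω := fun j => (e.symm j).out
  have hrepq : ∀ j, (Quotient.mk'' (rep j) : MulAction.orbitRel.Quotient G Ω) = e.symm j :=
    fun j => Quotient.out_eq' _
  have hrep : ∀ x, ∃ j a, σ a (rep j) = x := by
    intro x
    have h1 : (Quotient.mk'' (rep (e (Quotient.mk'' x))) : MulAction.orbitRel.Quotient G Ω) =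
        Quotient.mk'' x := by rw [hrepq, e.symm_apply_apply]
    obtain ⟨g, hg⟩ := Quotient.exact' h1.symm
    obtain ⟨a, ha⟩ := hσsurj g
    refine ⟨e (Quotient.mk'' x), a, ?_⟩
    rw [ha]
    exact hg
  have hinj : ∀ j j' a, σ a (rep j) = rep j' → j = j' := by
    intro j j' a ha
    have h1 : (Quotient.mk'' (rep j') : MulAction.orbitRel.Quotient G Ω) =
        Quotient.mk'' (rep j) := by
      apply Quotient.sound'
      exact ⟨⟨σ a, hσG a⟩, ha⟩
    rw [hrepq, hrepq] at h1
    exact (e.symm.injective h1).symm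
  let H : Fin l → AddSubgroup Q := fun j =>
    { carrier := {y | σ (0, y) (rep j) = rep j}
      add_mem' := by
        intro y y' hy hy'
        change σ (0, y + y') (rep j) = rep j
        have h1 : ((0, y + y') : P × Q) = (0, y) + (0, y') := by
          apply Prod.ext
          · exact (add_zero (0 : P)).symm
          · rfl
        rw [h1, hσ, Equiv.Perm.mul_apply]
        rw [(hy' : σ (0, y') (rep j) = rep j)]
        exact hy
      zero_mem' := by
        change σ (0 : P × Q) (rep j) = rep j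
        rw [hσ1]
        rfl
      neg_mem' := by
        intro y hy
        change σ (0, -y) (rep j) = rep j
        have h1 : σ ((0, -y) + (0, y) : P × Q) = 1 := by
          have h2 : ((0, -y) + (0, y) : P × Q) = 0 := by
            apply Prod.ext
            · exact add_zero (0 : P)
            · exact neg_add_cancel y
          rw [h2, hσ1]
        rw [hσ] at h1
        have h2 : (σ (0, -y) * σ (0, y)) (rep j) = rep j := by rw [h1]; rfl
        rw [Equiv.Perm.mul_apply, (hy : σ (0, y) (rep j) = rep j)] at h2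
        exact h2 }
  have hH : ∀ j y, y ∈ H j ↔ σ (0, y) (rep j) = rep j := fun _ _ => Iff.rfl
  have hfix : ∀ j a, σ a (rep j) = rep j → a.1 = 0 := by
    intro j a ha
    have h1 : σ (n • a) (rep j) = rep j := by
      rw [hσsm]
      exact pow_fix ha n
    have h2 : σ (n • a) ^ p ^ s = 1 := by
      rw [← hσsm]
      have h3 : p ^ s • n • a = 0 := by
        apply Prod.ext
        · change p ^ s • n • a.1 = 0
          rw [smul_comm, hP', smul_zero]
        · change p ^ s • n • a.2 = 0
          rw [hQ', smul_zero]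
      rw [h3, hσ1]
    have h3 := fix_of_prime hfixp s _ (hσG _) h2 _ h1
    have h4 := hσ0 _ h3
    have h5 : n • a.1 = 0 := congrArg Prod.fst h4
    have h6 := hP' a.1
    have h7 : addOrderOf a.1 ∣ Nat.gcd (p ^ s) n :=
      Nat.dvd_gcd (addOrderOf_dvd_of_nsmul_eq_zero h6) (addOrderOf_dvd_of_nsmul_eq_zero h5)
    rw [hcop.gcd_eq_one, Nat.dvd_one, AddMonoid.addOrderOf_eq_one_iff] at h7
    exact h7
  have hcardΩ : Fintype.card Ω = Fintype.card P * tot H :=
    orbit_struct σ hσ rep H hH hfix hrep hinj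
  have hcardΩ' : (Fintype.card Ω : ℝ) = Fintype.card P * tot H := by
    rw [hcardΩ]; push_cast; rfl
  have hΩpos : (0 : ℝ) < Fintype.card Ω := by
    exact_mod_cast Fintype.card_pos_iff.2 ⟨rep ⟨0, hlpos⟩⟩
  -- the space of functions
  let φ : Fin l × (P × Q) → Ω := fun z => σ z.2 (rep z.1)
  have hφ : Function.Surjective φ := by
    intro x
    obtain ⟨j, a, ha⟩ := hrep x
    exact ⟨(j, a), ha⟩
  let Φ : (Ω → K) →ₗ[K] (Fin l × (P × Q) → K) := LinearMap.funLeft K K φ
  have hΦ : Function.Injective Φ := LinearMap.funLeft_injective_of_surjective K K φ hφ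
  let W : Submodule K (Fin l × (P × Q) → K) := (extC K C).map Φ
  rw [hcardΩ']
  apply h l P Q hlpos hP' hQ' H W
  · rintro _ ⟨c, hc, rfl⟩ g
    refine ⟨fun x => c (σ g x), ?_, ?_⟩
    · intro φ'
      exact hC _ (hσG g) _ (hc φ')
    · funext x
      change c (σ g (σ x.2 (rep x.1))) = c (σ (x.2 + g) (rep x.1))
      rw [add_comm x.2 g, hσ, Equiv.Perm.mul_apply]
  · rintro _ ⟨c, hc, rfl⟩ j y' hy' x y
    change c (σ (x, y + y') (rep j)) = c (σ (x, y) (rep j))
    have h1 : ((x, y + y') : P × Q) = (x, y) + (0, y') := by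
      apply Prod.ext
      · exact (add_zero x).symm
      · rfl
    rw [h1, hσ, Equiv.Perm.mul_apply, (hH j y').1 hy']
  · rw [← hcardΩ']
    have h1 : finrank K W = finrank K (extC K C) :=
      (Submodule.equivMapOfInjective Φ hΦ (extC K C)).finrank_eq.symm
    rw [h1]
    have h2 : (finrank F C : ℝ) ≤ finrank K (extC K C) := by exact_mod_cast finrank_extC C
    exact hdim.trans h2
  · rintro _ ⟨c, hc, rfl⟩ hne θ hθ
    have hne' : c ≠ 0 := by
      rintro rfl
      exact hne (map_zero _)
    obtain ⟨g, hg, hg0, hgc⟩ := descend hc hne'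
    have h1 := hdist g hg hg0
    have h2 : (hammingNorm g : ℝ) ≤ hammingNorm c := by exact_mod_cast hgc
    have h3 := weight_le σ hσ rep hrep c θ hθ
    have h4 : δ * (Fintype.card Ω : ℝ) ≤ θ * Fintype.card Ω := h1.trans (h2.trans h3)
    exact le_of_mul_le_mul_right h4 hΩpos

end Pool.Agent.Helper479_gq
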