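import Pool.Agent.Helper479_gq.Modular

/-!
The words of small support of `Modular`, with the same bound for the support in every block.
-/

set_option autoImplicit false

open Finset Module Matrix

namespace Pool.Agent.Helper479_gq

open Helper479_mod (pull pull_apply card_preimage_pull)

section

variable {K : Type} [Field K] {p s : ℕ} [hp : Fact p.Prime] [DecidableEq K]

/-- the structural part: a type that is common to a dense set of tuples gives a small word -/
lemma word_block {l r q : ℕ} {M : Submodule K (Fin l × (Fin r → ZMod p) → K)}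
    {P : Fin l × (Fin s → ZMod p) → K} (hP : Good q P) {u v : Fin s → (Fin r → ZMod p)}
    (huv : ∀ T : Finset (Fin s),
      pull K (Fin l) (form fun i => if i ∈ T then v i else u i) P ∈ M)
    (hind : LinearIndependent (ZMod p) (Sum.elim u v))
    (hdiff : LinearIndependent (ZMod p) fun i => v i - u i) :
    ∃ F ∈ M, F ≠ 0 ∧ ∃ B : Finset (Fin r → ZMod p), B.card * p ^ q ≤ (p - 1) ^ q * p ^ r ∧
      ∀ x, F x ≠ 0 → x.2 ∈ B := by
  classical
  obtain ⟨j0, S, y0, hSq, hne⟩ := hP
  let F : Fin l × (Fin r → ZMod p) → K := ∑ T ∈ S.powerset, ((-1 : K) ^ T.card) •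
    pull K (Fin l) (form fun i => if i ∈ T then v i else u i) P
  have hFval : ∀ x : Fin l × (Fin r → ZMod p), F x = ∑ T ∈ S.powerset, (-1 : K) ^ T.card *
      P (x.1, fun i => if i ∈ T then v i ⬝ᵥ x.2 else u i ⬝ᵥ x.2) := by
    intro x
    simp only [F, Finset.sum_apply]
    apply sum_congr rfl
    intro T _
    rw [Pi.smul_apply, smul_eq_mul, pull_apply]
    congr 3
    funext i
    change (if i ∈ T then v i else u i) ⬝ᵥ x.2 = _
    split_ifs <;> rfl
  refine ⟨F, ?_, ?_, ?_⟩
  · exact Submodule.sum_mem _ fun T _ => Submodule.smul_mem _ _ (huv T)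
  · -- a point where it does not vanish
    obtain ⟨x, hx⟩ := Helper479_codes.exists_dot (hind.comp _ (finSumFinEquiv (m := s) (n := s)).symm.injective)
      ((Sum.elim (fun i => if i ∈ S then y0 i else 0) 0) ∘ (finSumFinEquiv (m := s) (n := s)).symm)
    have hu : ∀ i, u i ⬝ᵥ x = if i ∈ S then y0 i else 0 := by
      intro i
      have := hx (finSumFinEquiv (Sum.inl i))
      rw [Function.comp_apply, Function.comp_apply, Equiv.symm_apply_apply] at this
      exact this
    have hv : ∀ i, v i ⬝ᵥ x = 0 := by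
      intro i
      have := hx (finSumFinEquiv (Sum.inr i))
      rw [Function.comp_apply, Function.comp_apply, Equiv.symm_apply_apply] at this
      exact this
    intro h0
    apply hne
    have h1 : F (j0, x) = 0 := by rw [h0]; rfl
    rw [hFval] at h1
    rw [← h1]
    unfold alt
    apply sum_congr rfl
    intro T _
    congr 3
    funext i
    rw [hu, hv]
    by_cases hT : i ∈ T
    · rw [if_pos hT, if_neg]
      intro h
      exact (mem_sdiff.1 h).2 hT
    · rw [if_neg hT]
      by_cases hS : i ∈ S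
      · rw [if_pos hS, if_pos (mem_sdiff.2 ⟨hS, hT⟩)]
      · rw [if_neg hS, if_neg]
        intro h
        exact hS (mem_sdiff.1 h).1
  · -- the support
    have hvan : ∀ x, F x ≠ 0 → ∀ i ∈ S, (v i - u i) ⬝ᵥ x.2 ≠ 0 := by
      intro x hx i0 hi0 h0
      apply hx
      rw [sub_dotProduct, sub_eq_zero] at h0
      rw [hFval, ← insert_erase hi0, sum_powerset_insert (notMem_erase i0 S), ← sum_add_distrib]
      apply sum_eq_zero
      intro T hT
      have hi0T : i0 ∉ T := fun h => notMem_erase i0 S (mem_powerset.1 hT h)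
      rw [card_insert_of_notMem hi0T, pow_succ]
      have h4 : (fun i => if i ∈ insert i0 T then v i ⬝ᵥ x.2 else u i ⬝ᵥ x.2) =
          fun i => if i ∈ T then v i ⬝ᵥ x.2 else u i ⬝ᵥ x.2 := by
        funext i
        by_cases hi : i = i0
        · subst hi
          rw [if_pos (mem_insert_self _ _), if_neg hi0T, h0]
        · simp [mem_insert, hi]
      rw [h4]
      ring
    exact ⟨_, card_nonvanish_le hdiff S hSq,
      fun x hx => mem_filter.2 ⟨mem_univ _, hvan x hx⟩⟩

end

theorem mod_block (p : ℕ) [hp : Fact p.Prime] (K : Type) [Field K] [Fintype K] [DecidableEq K]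
    [CharP K p] (q : ℕ) {R : ℝ} (hR : 0 < R) : ∃ C0 : ℕ, ∀ (l r : ℕ), 0 < l →
    ∀ M : Submodule K (Fin l × (Fin r → ZMod p) → K),
      (∀ F ∈ M, ∀ g : Fin r → ZMod p,
        (fun x : Fin l × (Fin r → ZMod p) => F (x.1, x.2 + g)) ∈ M) →
      R * (l * p ^ r) ≤ finrank K M → C0 * l < r →
      ∃ F ∈ M, F ≠ 0 ∧ ∃ B : Finset (Fin r → ZMod p), B.card * p ^ q ≤ (p - 1) ^ q * p ^ r ∧
        ∀ x, F x ≠ 0 → x.2 ∈ B := by
  classical
  have hp2 : (2 : ℝ) ≤ p := by exact_mod_cast hp.out.two_le
  -- the number of forms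
  obtain ⟨s, hs⟩ : ∃ s : ℕ, (q : ℝ) * ((s : ℝ) + 1) ^ q * p ^ q < R * p ^ s := by
    have h1 : Filter.Tendsto (fun n : ℕ => (n : ℝ) ^ q / 2 ^ n) Filter.atTop (nhds 0) :=
      tendsto_pow_const_div_const_pow_of_one_lt q (by norm_num)
    have h2 : (0 : ℝ) < R / (2 * ((q + 1) * p ^ q)) := by positivity
    have h3 := (h1.comp (Filter.tendsto_add_atTop_nat 1)).eventually (gt_mem_nhds h2)
    obtain ⟨s, hs⟩ := h3.exists
    refine ⟨s, ?_⟩
    simp only [Function.comp_apply] at hs
    push_cast at hs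
    rw [div_lt_div_iff₀ (by positivity) (by positivity)] at hs
    have h4 : (0 : ℝ) < ((s : ℝ) + 1) ^ q * p ^ q := by positivity
    rw [pow_succ] at hs
    have h5 : ((s : ℝ) + 1) ^ q * ((q + 1) * p ^ q) < R * 2 ^ s := by nlinarith
    have h6 : (2 : ℝ) ^ s ≤ p ^ s := pow_le_pow_left₀ (by norm_num) hp2 s
    have h7 : R * 2 ^ s ≤ R * p ^ s := mul_le_mul_of_nonneg_left h6 hR.le
    nlinarith
  set κ := Fintype.card K with hκ
  refine ⟨s + 1 + (2 * p + 1) * s + 2 ^ s * (κ * p ^ s + 2), ?_⟩
  intro l r hl M hM hdim hr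
  have hr1 : (2 * p + 1) * s + 2 ^ s * (κ * l * p ^ s + 2) ≤ r ∧ s + 1 ≤ r := by
    have h1 : s + 1 ≤ (s + 1) * l := Nat.le_mul_of_pos_right _ hl
    have h1' : (2 * p + 1) * s ≤ (2 * p + 1) * s * l := Nat.le_mul_of_pos_right _ hl
    have h2 : 2 ^ s * (κ * l * p ^ s + 2) ≤ 2 ^ s * (κ * p ^ s + 2) * l := by
      have h3 : κ * l * p ^ s + 2 ≤ (κ * p ^ s + 2) * l := by nlinarith
      calc 2 ^ s * (κ * l * p ^ s + 2) ≤ 2 ^ s * ((κ * p ^ s + 2) * l) :=
            Nat.mul_le_mul_left _ h3
        _ = _ := by ring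
    have h4 : (s + 1 + (2 * p + 1) * s + 2 ^ s * (κ * p ^ s + 2)) * l =
        (s + 1) * l + (2 * p + 1) * s * l + 2 ^ s * (κ * p ^ s + 2) * l := by ring
    rw [h4] at hr
    constructor <;> omega
  have hcard : ∀ n : ℕ, Fintype.card (Fin n → ZMod p) = p ^ n := by
    intro n
    rw [Fintype.card_fun, Fintype.card_fin, ZMod.card]
  -- every independent tuple has a good type
  have hgood : ∀ α : Fin s → (Fin r → ZMod p), ∃ P : Fin l × (Fin s → ZMod p) → K,
      LinearIndependent (ZMod p) α → Good q P ∧ pull K (Fin l) (form α) P ∈ M := by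
    intro α
    by_cases hα : LinearIndependent (ZMod p) α
    · have h1 := finrank_pull (form α) (form_surjective hα) p
        (fun g _ => ⟨1, by
          rw [pow_one]
          funext i
          simp⟩) M
        (fun F hF g _ => hM F hF g)
      rw [hcard, hcard] at h1
      set M' := M.comap (pull K (Fin l) (form α)) with hM'
      have h2 : l * (q * (s + 1) ^ q * p ^ q) < finrank K M' := by
        have h3 : (finrank K M : ℝ) * p ^ s ≤ p ^ r * finrank K M' := by exact_mod_cast h1
        have h4 : R * (l * p ^ r) * p ^ s ≤ p ^ r * finrank K M' :=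
          (mul_le_mul_of_nonneg_right hdim (by positivity)).trans h3
        have h5 : (p : ℝ) ^ r * (l * (R * p ^ s)) ≤ p ^ r * finrank K M' := by
          calc (p : ℝ) ^ r * (l * (R * p ^ s)) = R * (l * p ^ r) * p ^ s := by ring
            _ ≤ _ := h4
        have h6 : (l : ℝ) * (R * p ^ s) ≤ finrank K M' :=
          le_of_mul_le_mul_left h5 (by positivity)
        have hl' : (0 : ℝ) < l := by exact_mod_cast hl
        have h7 : (l : ℝ) * (q * ((s : ℝ) + 1) ^ q * p ^ q) < finrank K M' :=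
          (mul_lt_mul_of_pos_left hs hl').trans_le h6
        exact_mod_cast h7
      obtain ⟨P, hP, hg⟩ := exists_good M' h2
      exact ⟨P, fun _ => ⟨hg, hP⟩⟩
    · exact ⟨0, fun h => absurd h hα⟩
  choose f hf using hgood
  obtain ⟨P, hP⟩ := exists_popular (univ.filter fun α : Fin s → (Fin r → ZMod p) =>
      LinearIndependent (ZMod p) α) f
  set E := (univ.filter fun α : Fin s → (Fin r → ZMod p) =>
      LinearIndependent (ZMod p) α).filter fun α => f α = P with hE
  have hEmem : ∀ α ∈ E, Good q P ∧ pull K (Fin l) (form α) P ∈ M := by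
    intro α hα
    rw [hE, mem_filter, mem_filter] at hα
    rw [← hα.2]
    exact hf α hα.1.2
  have hEcard : Fintype.card (Fin r → ZMod p) ^ s ≤ 2 ^ (κ * l * p ^ s + 1) * E.card := by
    have h1 := card_indep (p := p) s r hr1.2
    have h2 : Fintype.card (Fin l × (Fin s → ZMod p) → K) ≤ 2 ^ (κ * l * p ^ s) := by
      rw [Fintype.card_fun, Fintype.card_prod, hcard,
        Fintype.card_fin, ← hκ, mul_assoc, pow_mul 2]
      exact Nat.pow_le_pow_left (Nat.lt_two_pow_self).le _
    rw [hcard]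
    calc (p ^ r) ^ s ≤ 2 * (univ.filter fun α : Fin s → (Fin r → ZMod p) =>
          LinearIndependent (ZMod p) α).card := h1
      _ ≤ 2 * (Fintype.card (Fin l × (Fin s → ZMod p) → K) * E.card) :=
          Nat.mul_le_mul_left _ hP
      _ ≤ 2 * (2 ^ (κ * l * p ^ s) * E.card) :=
          Nat.mul_le_mul_left _ (Nat.mul_le_mul_right _ h2)
      _ = _ := by ring
  obtain ⟨u, v, huv, hind⟩ := exists_box (p := p) s {0} E (κ * l * p ^ s + 1) hEcard (by
    rw [card_singleton, mul_one, hcard]
    calc (2 * p ^ 2) ^ s * 2 ^ (2 ^ s * (κ * l * p ^ s + 1 + 1))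
        ≤ (2 ^ (2 * p + 1)) ^ s * 2 ^ (2 ^ s * (κ * l * p ^ s + 1 + 1)) := by
          apply Nat.mul_le_mul_right
          apply Nat.pow_le_pow_left
          calc 2 * p ^ 2 ≤ 2 * (2 ^ p) ^ 2 :=
                Nat.mul_le_mul_left _ (Nat.pow_le_pow_left (Nat.lt_two_pow_self).le 2)
            _ = 2 ^ (2 * p + 1) := by rw [← pow_mul, pow_succ, mul_comm p 2, mul_comm]
      _ = 2 ^ ((2 * p + 1) * s + 2 ^ s * (κ * l * p ^ s + 2)) := by
          rw [← pow_mul, ← pow_add]
      _ ≤ 2 ^ r := Nat.pow_le_pow_right (by norm_num) hr1.1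
      _ ≤ p ^ r := Nat.pow_le_pow_left hp.out.two_le r)
  have hPgood : Good q P := (hEmem _ (huv ∅)).1
  exact word_block hPgood (fun T => (hEmem _ (huv T)).2) (box_indep hind) (diff_indep hind)

end Pool.Agent.Helper479_gq
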