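import Mathlib

/-!
A dense set of tuples of vectors over `ZMod p` contains a box with jointly independent corners.
-/

set_option autoImplicit false

open Finset

namespace Pool.Agent.Helper479_gq

variable {p : ℕ} [hp : Fact p.Prime] {Y : Type} [AddCommGroup Y] [Module (ZMod p) Y] [Fintype Y]
  [DecidableEq Y]

lemma card_ker (c : ZMod p) (hc : c ≠ 0) (z : Y) (Γ : Finset Y) :
    (univ.filter fun y : Y => c • y + z ∈ Γ).card = Γ.card := by
  apply card_bij' (fun y _ => c • y + z) (fun g _ => c⁻¹ • (g - z))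
  · intro y hy
    exact (mem_filter.1 hy).2
  · intro g hg
    refine mem_filter.2 ⟨mem_univ _, ?_⟩
    rw [smul_inv_smul₀ hc, sub_add_cancel]
    exact hg
  · intro y _
    rw [add_sub_cancel_right, inv_smul_smul₀ hc]
  · intro g _
    rw [smul_inv_smul₀ hc, sub_add_cancel]

/-- the number of bad pairs -/
lemma card_bad (Γ : Finset Y) :
    (univ.filter fun x : Y × Y => ∃ c : ZMod p × ZMod p, c ≠ 0 ∧
      c.1 • x.1 + c.2 • x.2 ∈ Γ).card ≤ p ^ 2 * (Γ.card * Fintype.card Y) := by
  classical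
  have h1 : (univ.filter fun x : Y × Y => ∃ c : ZMod p × ZMod p, c ≠ 0 ∧
      c.1 • x.1 + c.2 • x.2 ∈ Γ) ⊆
      (univ.filter fun c : ZMod p × ZMod p => c ≠ 0).biUnion fun c =>
        univ.filter fun x : Y × Y => c.1 • x.1 + c.2 • x.2 ∈ Γ := by
    intro x hx
    obtain ⟨c, hc, hx'⟩ := (mem_filter.1 hx).2
    exact mem_biUnion.2 ⟨c, mem_filter.2 ⟨mem_univ _, hc⟩, mem_filter.2 ⟨mem_univ _, hx'⟩⟩
  have h2 : ∀ c : ZMod p × ZMod p, c ≠ 0 →
      (univ.filter fun x : Y × Y => c.1 • x.1 + c.2 • x.2 ∈ Γ).card =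
        Γ.card * Fintype.card Y := by
    rintro ⟨c, c'⟩ hcc
    by_cases hc : c = 0
    · have hc' : c' ≠ 0 := by
        intro h
        exact hcc (by rw [hc, h]; rfl)
      rw [card_filter, Fintype.sum_prod_type]
      have h3 : ∀ y : Y, ∑ y' : Y, (if c • y + c' • y' ∈ Γ then 1 else 0) = Γ.card := by
        intro y
        rw [← card_filter, ← card_ker c' hc' (c • y) Γ]
        congr 1
        ext y'
        simp only [mem_filter, mem_univ, true_and]
        rw [add_comm]
      rw [sum_congr rfl fun y _ => h3 y, sum_const, card_univ, smul_eq_mul, mul_comm]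
    · rw [card_filter, Fintype.sum_prod_type_right]
      have h3 : ∀ y' : Y, ∑ y : Y, (if c • y + c' • y' ∈ Γ then 1 else 0) = Γ.card := by
        intro y'
        rw [← card_filter, card_ker c hc (c' • y') Γ]
      rw [sum_congr rfl fun y _ => h3 y, sum_const, card_univ, smul_eq_mul, mul_comm]
  calc _ ≤ _ := card_le_card h1
    _ ≤ ∑ c ∈ (univ.filter fun c : ZMod p × ZMod p => c ≠ 0),
        (univ.filter fun x : Y × Y => c.1 • x.1 + c.2 • x.2 ∈ Γ).card := card_biUnion_le
    _ = ∑ c ∈ (univ.filter fun c : ZMod p × ZMod p => c ≠ 0), Γ.card * Fintype.card Y :=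
        sum_congr rfl fun c hc => h2 c (mem_filter.1 hc).2
    _ = (univ.filter fun c : ZMod p × ZMod p => c ≠ 0).card * (Γ.card * Fintype.card Y) := by
        rw [sum_const, smul_eq_mul]
    _ ≤ p ^ 2 * (Γ.card * Fintype.card Y) := by
        apply Nat.mul_le_mul_right
        refine (card_le_card (filter_subset _ _)).trans ?_
        rw [card_univ, Fintype.card_prod, ZMod.card, sq]

/-- one step: a good pair of values for the first coordinate -/
lemma exists_pair (q : ℕ) (Γ : Finset Y) (E : Finset (Fin (q + 1) → Y)) (a : ℕ)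
    (hE : Fintype.card Y ^ (q + 1) ≤ 2 ^ a * E.card)
    (hN : p ^ 2 * Γ.card * 2 ^ (2 * a + 3) ≤ Fintype.card Y) :
    ∃ y y' : Y, (∀ c c' : ZMod p, c ≠ 0 ∨ c' ≠ 0 → c • y + c' • y' ∉ Γ) ∧
      Fintype.card Y ^ q ≤ 2 ^ (2 * a + 1) *
      (univ.filter fun e : Fin q → Y => (Fin.cons y e : Fin (q + 1) → Y) ∈ E ∧
        (Fin.cons y' e : Fin (q + 1) → Y) ∈ E).card := by
  classical
  set N := Fintype.card Y with hNdef
  have hNpos : 0 < N := Fintype.card_pos_iff.2 ⟨0⟩
  by_contra hcon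
  push Not at hcon
  let B : Finset (Y × Y) := univ.filter fun x : Y × Y => ∃ c : ZMod p × ZMod p, c ≠ 0 ∧
      c.1 • x.1 + c.2 • x.2 ∈ Γ
  have hB : B.card ≤ p ^ 2 * (Γ.card * N) := card_bad Γ
  let I : Y → (Fin q → Y) → ℕ := fun y e => if (Fin.cons y e : Fin (q + 1) → Y) ∈ E then 1 else 0
  let G : Y → Y → ℕ := fun y y' => (univ.filter fun e : Fin q → Y =>
      (Fin.cons y e : Fin (q + 1) → Y) ∈ E ∧ (Fin.cons y' e : Fin (q + 1) → Y) ∈ E).card
  have hcardY : Fintype.card (Fin q → Y) = N ^ q := by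
    rw [Fintype.card_fun, Fintype.card_fin]
  have h1 : ∑ e, ∑ y, I y e = E.card := by
    have h2 : E.card = ∑ x : Fin (q + 1) → Y, if x ∈ E then 1 else 0 := by
      rw [sum_ite_mem, univ_inter, card_eq_sum_ones]
    rw [h2, ← (Fin.consEquiv (fun _ : Fin (q + 1) => Y)).sum_comp, Fintype.sum_prod_type,
      sum_comm]
    rfl
  have h3 : (E.card) ^ 2 ≤ N ^ q * ∑ e, (∑ y, I y e) ^ 2 := by
    rw [← h1, ← hcardY, ← card_univ]
    exact sq_sum_le_card_mul_sum_sq
  have h4 : ∑ e, (∑ y, I y e) ^ 2 = ∑ x : Y × Y, G x.1 x.2 := by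
    have h5 : ∀ e, (∑ y, I y e) ^ 2 = ∑ y, ∑ y', I y e * I y' e := by
      intro e
      rw [sq, sum_mul_sum]
    rw [sum_congr rfl fun e _ => h5 e, sum_comm, Fintype.sum_prod_type]
    apply sum_congr rfl
    intro y _
    rw [sum_comm]
    apply sum_congr rfl
    intro y' _
    change _ = (univ.filter fun e : Fin q → Y =>
      (Fin.cons y e : Fin (q + 1) → Y) ∈ E ∧ (Fin.cons y' e : Fin (q + 1) → Y) ∈ E).card
    rw [card_filter]
    apply sum_congr rfl
    intro e _
    simp only [I, ite_and]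
    split_ifs <;> simp
  have hG : ∀ y y', G y y' ≤ N ^ q := by
    intro y y'
    rw [← hcardY, ← card_univ]
    exact card_le_card (filter_subset _ _)
  have h6 : 2 ^ (2 * a + 1) * ∑ e, (∑ y, I y e) ^ 2 ≤
      N ^ (q + 2) + 2 ^ (2 * a + 1) * (N ^ q * B.card) := by
    rw [h4, mul_sum]
    have h8 : ∀ x : Y × Y, 2 ^ (2 * a + 1) * G x.1 x.2 ≤
        N ^ q + if x ∈ B then 2 ^ (2 * a + 1) * N ^ q else 0 := by
      intro x
      by_cases h : x ∈ B
      · rw [if_pos h]
        apply le_add_left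
        exact Nat.mul_le_mul_left _ (hG _ _)
      · rw [if_neg h, add_zero]
        refine (hcon x.1 x.2 ?_).le
        intro c c' hcc hmem
        apply h
        refine mem_filter.2 ⟨mem_univ _, (c, c'), ?_, hmem⟩
        intro h0
        rw [Prod.mk_eq_zero] at h0
        rcases hcc with h1 | h1
        · exact h1 h0.1
        · exact h1 h0.2
    refine (sum_le_sum fun x _ => h8 x).trans ?_
    rw [sum_add_distrib, sum_const, card_univ, smul_eq_mul, sum_ite_mem, univ_inter, sum_const,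
      smul_eq_mul, Fintype.card_prod]
    apply le_of_eq
    ring
  have h10 : N ^ (q + 2) ≤ 2 ^ (2 * a) * ∑ e, (∑ y, I y e) ^ 2 := by
    have h11 : N ^ q * N ^ (q + 2) ≤ N ^ q * (2 ^ (2 * a) * ∑ e, (∑ y, I y e) ^ 2) := by
      calc N ^ q * N ^ (q + 2) = (N ^ (q + 1)) ^ 2 := by ring
        _ ≤ (2 ^ a * E.card) ^ 2 := Nat.pow_le_pow_left hE 2
        _ = 2 ^ (2 * a) * E.card ^ 2 := by rw [mul_pow, ← pow_mul, mul_comm a 2]
        _ ≤ 2 ^ (2 * a) * (N ^ q * ∑ e, (∑ y, I y e) ^ 2) := Nat.mul_le_mul_left _ h3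
        _ = _ := by ring
    exact Nat.le_of_mul_le_mul_left h11 (pow_pos hNpos q)
  have h12 : N ^ (q + 2) ≤ 2 ^ (2 * a + 1) * (N ^ q * B.card) := by
    have : 2 * N ^ (q + 2) ≤ 2 ^ (2 * a + 1) * ∑ e, (∑ y, I y e) ^ 2 := by
      calc 2 * N ^ (q + 2) ≤ 2 * (2 ^ (2 * a) * ∑ e, (∑ y, I y e) ^ 2) :=
            Nat.mul_le_mul_left _ h10
        _ = _ := by ring
    omega
  have h13 : N ≤ 2 ^ (2 * a + 1) * (p ^ 2 * Γ.card) := by
    have h14 : N ^ (q + 1) * N ≤ N ^ (q + 1) * (2 ^ (2 * a + 1) * (p ^ 2 * Γ.card)) := by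
      calc N ^ (q + 1) * N = N ^ (q + 2) := by ring
        _ ≤ _ := h12
        _ ≤ 2 ^ (2 * a + 1) * (N ^ q * (p ^ 2 * (Γ.card * N))) :=
            Nat.mul_le_mul_left _ (Nat.mul_le_mul_left _ hB)
        _ = _ := by ring
    exact Nat.le_of_mul_le_mul_left h14 (pow_pos hNpos _)
  have h15 : 4 * (2 ^ (2 * a + 1) * (p ^ 2 * Γ.card)) ≤ N := by
    calc 4 * (2 ^ (2 * a + 1) * (p ^ 2 * Γ.card)) = p ^ 2 * Γ.card * 2 ^ (2 * a + 3) := by ring
      _ ≤ N := hN
  omega

/-- the box lemma -/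
lemma exists_box : ∀ (q : ℕ) (Γ : Finset Y) (E : Finset (Fin q → Y)) (a : ℕ),
    Fintype.card Y ^ q ≤ 2 ^ a * E.card →
    (2 * p ^ 2) ^ q * Γ.card * 2 ^ (2 ^ q * (a + 1)) ≤ Fintype.card Y →
    ∃ u v : Fin q → Y, (∀ T : Finset (Fin q), (fun i => if i ∈ T then v i else u i) ∈ E) ∧
      ∀ c c' : Fin q → ZMod p, c ≠ 0 ∨ c' ≠ 0 → ∑ i, (c i • u i + c' i • v i) ∉ Γ := by
  intro q
  induction q with
  | zero =>
    intro Γ E a hE _
    have hpos : 0 < E.card := by
      by_contra h
      have : E.card = 0 := by omega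
      rw [this] at hE
      simp at hE
    obtain ⟨e, he⟩ := card_pos.1 hpos
    refine ⟨e, e, fun T => ?_, fun c c' hc => ?_⟩
    · rw [Subsingleton.elim (fun i => if i ∈ T then e i else e i) e]; exact he
    · rcases hc with h | h
      · exact absurd (Subsingleton.elim c 0) h
      · exact absurd (Subsingleton.elim c' 0) h
  | succ q ih =>
    intro Γ E a hE hN
    have hp1 : 1 ≤ p ^ 2 := Nat.one_le_pow _ _ hp.out.pos
    have hNa : p ^ 2 * Γ.card * 2 ^ (2 * a + 3) ≤ Fintype.card Y := by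
      refine le_trans ?_ hN
      have h1 : 2 * a + 2 ≤ 2 ^ (q + 1) * (a + 1) := by
        have h2 : 2 ≤ 2 ^ (q + 1) := by
          rw [pow_succ]; have := Nat.one_le_two_pow (n := q); omega
        have h3 : 2 * (a + 1) ≤ 2 ^ (q + 1) * (a + 1) := Nat.mul_le_mul_right _ h2
        omega
      have h4 : 2 * p ^ 2 ≤ (2 * p ^ 2) ^ (q + 1) := by
        rw [pow_succ]
        exact Nat.le_mul_of_pos_left _ (pow_pos (by have := hp.out.pos; positivity) _)
      calc p ^ 2 * Γ.card * 2 ^ (2 * a + 3) = (2 * p ^ 2) * Γ.card * 2 ^ (2 * a + 2) := by ring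
        _ ≤ (2 * p ^ 2) ^ (q + 1) * Γ.card * 2 ^ (2 ^ (q + 1) * (a + 1)) :=
            Nat.mul_le_mul (Nat.mul_le_mul_right _ h4) (Nat.pow_le_pow_right (by norm_num) h1)
    obtain ⟨y, y', hyy, hcard⟩ := exists_pair (p := p) q Γ E a hE hNa
    set E' := univ.filter fun e : Fin q → Y => (Fin.cons y e : Fin (q + 1) → Y) ∈ E ∧
        (Fin.cons y' e : Fin (q + 1) → Y) ∈ E with hE'
    let Γ' : Finset Y := (Γ ×ˢ (univ : Finset (ZMod p × ZMod p))).image
      fun x => x.1 - (x.2.1 • y + x.2.2 • y')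
    have hΓ' : Γ'.card ≤ Γ.card * p ^ 2 := by
      refine card_image_le.trans ?_
      rw [card_product, card_univ, Fintype.card_prod, ZMod.card, sq]
    obtain ⟨u, v, huv, hind⟩ := ih Γ' E' (2 * a + 1) hcard (by
      refine le_trans ?_ hN
      calc (2 * p ^ 2) ^ q * Γ'.card * 2 ^ (2 ^ q * (2 * a + 1 + 1))
          ≤ (2 * p ^ 2) ^ q * (Γ.card * p ^ 2) * 2 ^ (2 ^ q * (2 * a + 1 + 1)) :=
            Nat.mul_le_mul_right _ (Nat.mul_le_mul_left _ hΓ')
        _ = ((2 * p ^ 2) ^ q * p ^ 2) * Γ.card * 2 ^ (2 ^ (q + 1) * (a + 1)) := by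
            have : 2 ^ q * (2 * a + 1 + 1) = 2 ^ (q + 1) * (a + 1) := by ring
            rw [this]; ring
        _ ≤ (2 * p ^ 2) ^ (q + 1) * Γ.card * 2 ^ (2 ^ (q + 1) * (a + 1)) := by
            apply Nat.mul_le_mul_right
            apply Nat.mul_le_mul_right
            rw [pow_succ]
            apply Nat.mul_le_mul_left
            omega)
    refine ⟨Fin.cons y u, Fin.cons y' v, fun T => ?_, fun c c' hc => ?_⟩
    · have h1 := huv (univ.filter fun i => i.succ ∈ T)
      rw [hE', mem_filter] at h1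
      have h2 : (fun i : Fin (q + 1) => if i ∈ T then (Fin.cons y' v : Fin (q + 1) → Y) i else
          (Fin.cons y u : Fin (q + 1) → Y) i) =
          Fin.cons (if (0 : Fin (q + 1)) ∈ T then y' else y)
            (fun i => if i ∈ (univ.filter fun i : Fin q => i.succ ∈ T) then v i else u i) := by
        funext i
        refine Fin.cases ?_ (fun i => ?_) i
        · simp
        · simp
      rw [h2]
      by_cases h0 : (0 : Fin (q + 1)) ∈ T
      · rw [if_pos h0]; exact h1.2.2
      · rw [if_neg h0]; exact h1.2.1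
    · rw [Fin.sum_univ_succ]
      simp only [Fin.cons_zero, Fin.cons_succ]
      by_cases hc' : (fun i : Fin q => c i.succ) = 0 ∧ (fun i : Fin q => c' i.succ) = 0
      · have h1 : ∀ i : Fin q, c i.succ = 0 := fun i => congrFun hc'.1 i
        have h2 : ∀ i : Fin q, c' i.succ = 0 := fun i => congrFun hc'.2 i
        simp only [h1, h2, zero_smul, add_zero, sum_const_zero]
        apply hyy
        rcases hc with h | h
        · left
          intro h0
          apply h
          funext i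
          refine Fin.cases h0 (fun i => h1 i) i
        · right
          intro h0
          apply h
          funext i
          refine Fin.cases h0 (fun i => h2 i) i
      · have h3 := hind (fun i => c i.succ) (fun i => c' i.succ) (by
          by_contra h
          push Not at h
          exact hc' h)
        intro hmem
        apply h3
        refine mem_image.2 ⟨(_, (c 0, c' 0)), mem_product.2 ⟨hmem, mem_univ _⟩, ?_⟩
        simp only
        abel

/-- the corners of the box are jointly independent -/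
lemma box_indep {q : ℕ} {u v : Fin q → Y}
    (h : ∀ c c' : Fin q → ZMod p, c ≠ 0 ∨ c' ≠ 0 →
      ∑ i, (c i • u i + c' i • v i) ∉ ({0} : Finset Y)) :
    LinearIndependent (ZMod p) (Sum.elim u v) := by
  rw [Fintype.linearIndependent_iff]
  intro g hg
  rw [Fintype.sum_sum_type, ← sum_add_distrib] at hg
  simp only [Sum.elim_inl, Sum.elim_inr] at hg
  have h1 : (fun i => g (Sum.inl i)) = 0 ∧ (fun i => g (Sum.inr i)) = 0 := by
    by_contra hcon
    exact h (fun i => g (Sum.inl i)) (fun i => g (Sum.inr i)) (by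
      by_contra h2
      push Not at h2
      exact hcon h2) (mem_singleton.2 hg)
  rintro (i | i)
  · exact congrFun h1.1 i
  · exact congrFun h1.2 i

lemma diff_indep {q : ℕ} {u v : Fin q → Y}
    (h : ∀ c c' : Fin q → ZMod p, c ≠ 0 ∨ c' ≠ 0 →
      ∑ i, (c i • u i + c' i • v i) ∉ ({0} : Finset Y)) :
    LinearIndependent (ZMod p) fun i => v i - u i := by
  rw [Fintype.linearIndependent_iff]
  intro g hg
  by_contra hcon
  have hg0 : g ≠ 0 := by
    intro h0
    apply hcon
    intro i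
    rw [h0]; rfl
  refine h (fun i => - g i) g (Or.inr hg0) (mem_singleton.2 ?_)
  rw [← hg]
  apply sum_congr rfl
  intro i _
  rw [smul_sub, neg_smul]
  abel

end Pool.Agent.Helper479_gq
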