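import Pool.Agent.Helper479_gq.Index

/-!
Concatenation of an invariant code over a large field with a good code over a small field.
-/

set_option autoImplicit false

open Finset Module

namespace Pool.Agent.Helper479_gq

/-! ### Good inner codes -/

section inner

variable {F : Type} [Field F] [Fintype F] [DecidableEq F] {l : ℕ}

omit [Field F] in
lemma sum_weight [Zero F] (x : ℝ) :
    ∑ v : Fin l → F, x ^ hammingNorm v = (1 + (Fintype.card F - 1) * x) ^ l := by
  classical
  have h1 : ∀ v : Fin l → F, x ^ hammingNorm v = ∏ i, if v i ≠ 0 then x else 1 := by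
    intro v
    unfold hammingNorm
    rw [prod_ite, prod_const, prod_const_one, mul_one]
  simp_rw [h1]
  have h2 := Fintype.prod_sum (fun (_ : Fin l) (a : F) => if a ≠ 0 then x else (1 : ℝ))
  rw [← h2, prod_const, card_univ, Fintype.card_fin]
  congr 1
  rw [← add_sum_erase univ _ (mem_univ (0 : F)), if_neg (by simp)]
  congr 1
  rw [sum_congr rfl (g := fun _ => x) (fun a ha => if_pos (mem_erase.1 ha).1), sum_const,
    card_erase_of_mem (mem_univ _), card_univ, nsmul_eq_mul,
    Nat.cast_sub (Fintype.card_pos_iff.2 ⟨0⟩)]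
  push_cast
  rfl

/-- the size of a ball -/
lemma card_ball : ((univ.filter fun v : Fin l → F => 16 * hammingNorm v ≤ l).card) ^ 2 ≤
    Fintype.card F ^ l := by
  classical
  set B := univ.filter fun v : Fin l → F => 16 * hammingNorm v ≤ l with hB
  set q := Fintype.card F with hq
  have hq2 : 2 ≤ q := Fintype.one_lt_card
  have hqr : (2 : ℝ) ≤ q := by exact_mod_cast hq2
  set d := l / 16 with hd
  set x : ℝ := 1 / (8 * (q - 1)) with hx
  have hq1 : (0 : ℝ) < q - 1 := by linarith
  have hx0 : 0 < x := by positivity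
  have hx1 : x ≤ 1 := by
    rw [hx, div_le_one (by positivity)]
    linarith
  have h1 : (B.card : ℝ) * x ^ d ≤ (9 / 8) ^ l := by
    have h2 : (1 : ℝ) + (q - 1) * x = 9 / 8 := by
      rw [hx]; field_simp; norm_num
    have h3 := sum_weight (F := F) (l := l) x
    rw [← hq, h2] at h3
    rw [← h3]
    calc (B.card : ℝ) * x ^ d = ∑ v ∈ B, x ^ d := by rw [sum_const, nsmul_eq_mul]
      _ ≤ ∑ v ∈ B, x ^ hammingNorm v := by
          apply sum_le_sum
          intro v hv
          apply pow_le_pow_of_le_one hx0.le hx1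
          have := (mem_filter.1 hv).2
          omega
      _ ≤ ∑ v : Fin l → F, x ^ hammingNorm v :=
          sum_le_sum_of_subset_of_nonneg (subset_univ _) fun v _ _ => by positivity
  have h2 : (B.card : ℝ) ≤ (9 / 8) ^ l * (8 * (q - 1)) ^ d := by
    have h3 : x ^ d * (8 * ((q : ℝ) - 1)) ^ d = 1 := by
      rw [← mul_pow, hx, one_div, inv_mul_cancel₀ (by positivity), one_pow]
    calc (B.card : ℝ) = (B.card * x ^ d) * (8 * ((q : ℝ) - 1)) ^ d := by
          rw [mul_assoc, h3, mul_one]
      _ ≤ _ := mul_le_mul_of_nonneg_right h1 (by positivity)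
  have h3 : (8 * ((q : ℝ) - 1)) ^ d ≤ (q : ℝ) ^ (4 * d) := by
    rw [pow_mul]
    apply pow_le_pow_left₀ (by positivity)
    have h4 : (8 : ℝ) ≤ q ^ 3 := by
      calc (8 : ℝ) = 2 ^ 3 := by norm_num
        _ ≤ q ^ 3 := pow_le_pow_left₀ (by norm_num) hqr 3
    calc 8 * ((q : ℝ) - 1) ≤ q ^ 3 * q := mul_le_mul h4 (by linarith) hq1.le (by positivity)
      _ = q ^ 4 := by ring
  have h4 : (B.card : ℝ) ^ 4 ≤ (q : ℝ) ^ (2 * l) := by
    have h5 : ((9 / 8 : ℝ) ^ l) ^ 4 ≤ (q : ℝ) ^ l := by
      rw [← pow_mul, mul_comm, pow_mul]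
      apply pow_le_pow_left₀ (by norm_num)
      norm_num
      linarith
    have h6 : ((q : ℝ) ^ (4 * d)) ^ 4 ≤ (q : ℝ) ^ l := by
      rw [← pow_mul]
      apply pow_le_pow_right₀ (by linarith)
      omega
    calc (B.card : ℝ) ^ 4 ≤ ((9 / 8) ^ l * (q : ℝ) ^ (4 * d)) ^ 4 := by
          apply pow_le_pow_left₀ (by positivity)
          exact h2.trans (mul_le_mul_of_nonneg_left h3 (by positivity))
      _ = ((9 / 8 : ℝ) ^ l) ^ 4 * ((q : ℝ) ^ (4 * d)) ^ 4 := by rw [mul_pow]
      _ ≤ (q : ℝ) ^ l * (q : ℝ) ^ l := mul_le_mul h5 h6 (by positivity) (by positivity)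
      _ = _ := by rw [← pow_add]; congr 1; ring
  have h5 : ((B.card : ℝ) ^ 2) ^ 2 ≤ ((q : ℝ) ^ l) ^ 2 := by
    rw [← pow_mul, ← pow_mul, mul_comm l 2]
    exact h4
  have h6 : (B.card : ℝ) ^ 2 ≤ (q : ℝ) ^ l :=
    le_of_sq_le_sq h5 (by positivity)
  exact_mod_cast h6

/-- the Gilbert-Varshamov argument -/
lemma inner_code (F : Type) [Field F] [Fintype F] [DecidableEq F] (l : ℕ) :
    ∃ C : Submodule F (Fin l → F), l ≤ 2 * finrank F C ∧
      ∀ w ∈ C, w ≠ 0 → l < 16 * hammingNorm w := by
  classical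
  let 𝒞 : Set (Submodule F (Fin l → F)) := {C | ∀ w ∈ C, w ≠ 0 → l < 16 * hammingNorm w}
  have hne : (⊥ : Submodule F (Fin l → F)) ∈ 𝒞 := by
    intro w hw hw0
    exact absurd ((Submodule.mem_bot F).1 hw) hw0
  obtain ⟨C, hC, hmax⟩ := Set.Finite.exists_maximalFor (fun C : Submodule F (Fin l → F) => finrank F C) 𝒞
    (Set.toFinite 𝒞) ⟨_, hne⟩
  refine ⟨C, ?_, hC⟩
  set B := univ.filter fun v : Fin l → F => 16 * hammingNorm v ≤ l with hB
  have hcover : ∀ v : Fin l → F, ∃ c ∈ C, ∃ b ∈ B, c + b = v := by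
    intro v
    by_cases hv : v ∈ C
    · refine ⟨v, hv, 0, ?_, add_zero v⟩
      rw [hB, mem_filter]
      simp
    · have hlt : C < C ⊔ F ∙ v := by
        refine lt_of_le_of_ne le_sup_left ?_
        intro h
        apply hv
        rw [h]
        exact Submodule.mem_sup_right (Submodule.mem_span_singleton_self v)
      have hnot : C ⊔ F ∙ v ∉ 𝒞 := by
        intro h
        have h1 := Submodule.finrank_lt_finrank_of_lt hlt
        have h2 := hmax h h1.le
        exact absurd h2 (not_le.2 h1)
      have hnot' : ∃ w ∈ C ⊔ F ∙ v, w ≠ 0 ∧ 16 * hammingNorm w ≤ l := by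
        by_contra hcon
        push Not at hcon
        exact hnot fun w hw hw0 => hcon w hw hw0
      obtain ⟨w, hw, hw0, hwl⟩ := hnot'
      obtain ⟨c, hc, z, hz, hczw⟩ := Submodule.mem_sup.1 hw
      obtain ⟨a, ha⟩ := Submodule.mem_span_singleton.1 hz
      have ha0 : a ≠ 0 := by
        rintro rfl
        rw [zero_smul] at ha
        rw [← ha, add_zero] at hczw
        have h1 := hC c hc (by rw [hczw]; exact hw0)
        rw [hczw] at h1
        omega
      refine ⟨-(a⁻¹ • c), C.neg_mem (C.smul_mem _ hc), a⁻¹ • w, ?_, ?_⟩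
      · rw [hB, mem_filter]
        refine ⟨mem_univ _, ?_⟩
        have h1 : hammingNorm (a⁻¹ • w) ≤ hammingNorm w := hammingNorm_smul_le_hammingNorm
        omega
      · rw [← hczw, smul_add, neg_add_cancel_left, ← ha, inv_smul_smul₀ ha0]
  have hcard : Fintype.card F ^ l ≤ Fintype.card F ^ finrank F C * B.card := by
    have h1 : Fintype.card (Fin l → F) = Fintype.card F ^ l := by
      rw [Fintype.card_fun, Fintype.card_fin]
    have h2 : Fintype.card C = Fintype.card F ^ finrank F C :=
      Module.card_eq_pow_finrank (K := F) (V := C)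
    rw [← h1, ← h2, ← Fintype.card_coe B, ← Fintype.card_prod]
    apply Fintype.card_le_of_surjective (fun x : C × B => (x.1 : Fin l → F) + (x.2 : Fin l → F))
    intro v
    obtain ⟨c, hc, b, hb, h⟩ := hcover v
    exact ⟨(⟨c, hc⟩, ⟨b, hb⟩), h⟩
  have h1 := card_ball (F := F) (l := l)
  rw [← hB] at h1
  have hq2 : 1 < Fintype.card F := Fintype.one_lt_card
  have h2 : Fintype.card F ^ l * Fintype.card F ^ l ≤
      Fintype.card F ^ (2 * finrank F C) * Fintype.card F ^ l := by
    calc Fintype.card F ^ l * Fintype.card F ^ l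
        ≤ (Fintype.card F ^ finrank F C * B.card) * (Fintype.card F ^ finrank F C * B.card) :=
          Nat.mul_le_mul hcard hcard
      _ = Fintype.card F ^ (2 * finrank F C) * B.card ^ 2 := by
          rw [two_mul, pow_add]; ring
      _ ≤ _ := Nat.mul_le_mul_left _ h1
  have h3 : Fintype.card F ^ l ≤ Fintype.card F ^ (2 * finrank F C) :=
    Nat.le_of_mul_le_mul_right h2 (pow_pos (by omega) _)
  exact (Nat.pow_le_pow_iff_right hq2).1 h3

end inner

/-! ### Concatenation -/

section conc

variable {F : Type} [Field F] [Fintype F] [DecidableEq F] {L : Type} [Field L] [Fintype L]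
  [DecidableEq L] [Algebra F L] {J A : Type} [Fintype J] [DecidableEq J] [AddCommGroup A]
  [Fintype A] [DecidableEq A] {t l : ℕ}

/-- the concatenated code as a linear map -/
def enc (C : Submodule L (J × A → L)) (φ : (Fin t → J → L) →ₗ[F] (Fin l → F)) :
    (Fin t → C) →ₗ[F] (Fin l × A → F) where
  toFun f x := φ (fun i j => (f i : J × A → L) (j, x.2)) x.1
  map_add' f g := by
    funext x
    have : (fun i j => ((f + g) i : J × A → L) (j, x.2)) =
        (fun i j => (f i : J × A → L) (j, x.2)) + fun i j => (g i : J × A → L) (j, x.2) := rfl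
    rw [this, map_add]
    rfl
  map_smul' c f := by
    funext x
    have : (fun i j => ((c • f) i : J × A → L) (j, x.2)) =
        c • fun i j => (f i : J × A → L) (j, x.2) := by
      funext i j
      rfl
    rw [this, map_smul]
    rfl

omit [Fintype F] [DecidableEq F] [Fintype L] [DecidableEq L] [Fintype J] [DecidableEq J]
  [Fintype A] [DecidableEq A] in
lemma enc_inv (C : Submodule L (J × A → L)) (φ : (Fin t → J → L) →ₗ[F] (Fin l → F))
    (hC : ∀ f ∈ C, ∀ g : A, (fun x : J × A => f (x.1, x.2 + g)) ∈ C) :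
    InvT (LinearMap.range (enc C φ)) := by
  rintro _ ⟨f, rfl⟩ g
  exact ⟨fun i => ⟨fun x : J × A => (f i : J × A → L) (x.1, x.2 + g), hC _ (f i).2 g⟩, rfl⟩

omit [Fintype F] [Fintype L] in
/-- the weight of a nonzero codeword -/
lemma enc_weight {C : Submodule L (J × A → L)} {φ : (Fin t → J → L) →ₗ[F] (Fin l → F)}
    {d e : ℝ} (hd : 0 ≤ d) (hφ : ∀ v, v ≠ 0 → d ≤ hammingNorm (φ v))
    (hC : ∀ f ∈ C, f ≠ 0 → e ≤ (univ.filter fun a : A => ∃ j, f (j, a) ≠ 0).card)
    {f : Fin t → C} (hf : f ≠ 0) : d * e ≤ hammingNorm (enc C φ f) := by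
  obtain ⟨i, hi⟩ := Function.ne_iff.1 hf
  have hi' : (f i : J × A → L) ≠ 0 := fun h => hi (Subtype.ext h)
  set S := univ.filter fun a : A => ∃ j, (f i : J × A → L) (j, a) ≠ 0 with hS
  have hSe : e ≤ S.card := hC _ (f i).2 hi'
  -- the weight is the sum of the weights of the columns
  have h1 : (hammingNorm (enc C φ f) : ℝ) =
      ∑ a : A, (hammingNorm (φ fun i j => (f i : J × A → L) (j, a)) : ℝ) := by
    have h2 : hammingNorm (enc C φ f) =
        ∑ a : A, hammingNorm (φ fun i j => (f i : J × A → L) (j, a)) := by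
      unfold hammingNorm
      rw [card_eq_sum_card_fiberwise (f := fun x : Fin l × A => x.2) (t := univ)
        (fun _ _ => mem_coe.2 (mem_univ _))]
      apply sum_congr rfl
      intro a _
      refine card_bij' (fun x _ => x.1) (fun j _ => (j, a)) ?_ ?_ ?_ ?_
      · intro x hx
        simp only [mem_filter, mem_univ, true_and] at hx ⊢
        obtain ⟨h3, rfl⟩ := hx
        exact h3
      · intro j hj
        simp only [mem_filter, mem_univ, true_and] at hj ⊢
        exact ⟨hj, trivial⟩
      · intro x hx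
        simp only [mem_filter, mem_univ, true_and] at hx
        rw [← hx.2]
      · intro j _; rfl
    rw [h2]
    push_cast
    rfl
  rw [h1]
  have h2 : ∑ a : A, (if a ∈ S then d else 0) ≤
      ∑ a : A, (hammingNorm (φ fun i j => (f i : J × A → L) (j, a)) : ℝ) := by
    apply sum_le_sum
    intro a _
    split_ifs with h
    · apply hφ
      intro h0
      obtain ⟨j, hj⟩ := (mem_filter.1 h).2
      exact hj (congrFun (congrFun h0 i) j)
    · positivity
  refine le_trans ?_ h2
  rw [sum_ite_mem, univ_inter, sum_const, nsmul_eq_mul, mul_comm]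
  exact mul_le_mul_of_nonneg_right hSe hd

/-- concatenation with a good inner code -/
theorem conc [Nonempty J] [Module.Finite F L] (C : Submodule L (J × A → L)) {ρ δ : ℝ}
    (hδ : 0 < δ)
    (hC : ∀ f ∈ C, ∀ g : A, (fun x : J × A => f (x.1, x.2 + g)) ∈ C)
    (hdim : ρ * (Fintype.card J * Fintype.card A) ≤ finrank L C)
    (hdist : ∀ f ∈ C, f ≠ 0 →
      δ * Fintype.card A ≤ (univ.filter fun a : A => ∃ j, f (j, a) ≠ 0).card)
    (l : ℕ) (hl : 2 * (Fintype.card J * finrank F L) ≤ l) :
    ∃ C' : Submodule F (Fin l × A → F), InvT C' ∧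
      ρ / 4 * (l * Fintype.card A) ≤ finrank F C' ∧
      ∀ w ∈ C', w ≠ 0 → δ / 16 * (l * Fintype.card A) ≤ hammingNorm w := by
  classical
  obtain ⟨I, hI1, hI2⟩ := inner_code F l
  set d := finrank F I with hd
  set r := Fintype.card J * finrank F L with hr
  have hApos : (0 : ℝ) < Fintype.card A := by
    exact_mod_cast Fintype.card_pos_iff.2 ⟨(0 : A)⟩
  have hLpos : 0 < finrank F L := Module.finrank_pos
  have hJpos : 0 < Fintype.card J := Fintype.card_pos
  have hrpos : 0 < r := Nat.mul_pos hJpos hLpos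
  have hlpos : 0 < l := by omega
  have hl' : (0 : ℝ) < l := by exact_mod_cast hlpos
  set t := d / r with ht
  have hrd : r ≤ d := by omega
  have ht1 : 1 ≤ t := (Nat.one_le_div_iff hrpos).2 hrd
  have ht2 : t * r ≤ d := Nat.div_mul_le_self d r
  have ht3 : d ≤ 2 * (t * r) := by
    have h1 := Nat.lt_div_mul_add (a := d) hrpos
    rw [← ht] at h1
    have h2 : r ≤ t * r := Nat.le_mul_of_pos_left r ht1
    omega
  -- an injective linear map into the inner code
  have hfin : finrank F (Fin t → J → L) ≤ finrank F I := by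
    rw [Module.finrank_pi_fintype, sum_const, card_univ, Fintype.card_fin, smul_eq_mul,
      Module.finrank_pi_fintype, sum_const, card_univ, smul_eq_mul]
    exact ht2
  obtain ⟨ι, hι⟩ := finrank_le_iff_exists_linearMap.1 hfin
  let φ : (Fin t → J → L) →ₗ[F] (Fin l → F) := I.subtype ∘ₗ ι
  have hφ : Function.Injective φ := I.injective_subtype.comp hι
  have hφ2 : ∀ v, v ≠ 0 → (l : ℝ) / 16 ≤ hammingNorm (φ v) := by
    intro v hv
    have h1 := hI2 _ (ι v).2 (by
      intro h0
      exact hv (hφ (by rw [map_zero]; exact h0)))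
    have h2 : ((l : ℕ) : ℝ) < ((16 * hammingNorm ((ι v : I) : Fin l → F) : ℕ) : ℝ) := by
      exact_mod_cast h1
    push_cast at h2
    change (l : ℝ) / 16 ≤ hammingNorm ((ι v : I) : Fin l → F)
    linarith
  have hwt : ∀ f : Fin t → C, f ≠ 0 → (l : ℝ) / 16 * (δ * Fintype.card A) ≤
      hammingNorm (enc C φ f) := fun f hf => enc_weight (by positivity) hφ2 hdist hf
  have hinj : Function.Injective (enc C φ) := by
    rw [injective_iff_map_eq_zero]
    intro f hf
    by_contra hne
    have h1 := hwt f hne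
    rw [hf, hammingNorm_zero] at h1
    have h2 : (0 : ℝ) < (l : ℝ) / 16 * (δ * Fintype.card A) := by positivity
    push_cast at h1
    linarith
  refine ⟨LinearMap.range (enc C φ), enc_inv C φ hC, ?_, ?_⟩
  · rw [LinearMap.finrank_range_of_inj hinj, Module.finrank_pi_fintype, sum_const, card_univ,
      Fintype.card_fin, smul_eq_mul, ← Module.finrank_mul_finrank F L C]
    have h1 : (l : ℝ) ≤ 2 * (2 * (t * (Fintype.card J * finrank F L))) := by
      have : l ≤ 2 * (2 * (t * (Fintype.card J * finrank F L))) := by rw [← hr]; omega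
      exact_mod_cast this
    push_cast
    have hJr : (0 : ℝ) < Fintype.card J := by exact_mod_cast hJpos
    have h2 : (0 : ℝ) ≤ finrank L C := by positivity
    have h3 : ρ * Fintype.card A ≤ finrank L C / Fintype.card J := by
      rw [le_div_iff₀ hJr]
      calc ρ * Fintype.card A * Fintype.card J = ρ * (Fintype.card J * Fintype.card A) := by ring
        _ ≤ _ := hdim
    calc ρ / 4 * (l * Fintype.card A) = l / 4 * (ρ * Fintype.card A) := by ring
      _ ≤ l / 4 * (finrank L C / Fintype.card J) :=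
          mul_le_mul_of_nonneg_left h3 (by positivity)
      _ ≤ (t * (Fintype.card J * finrank F L)) * (finrank L C / Fintype.card J) :=
          mul_le_mul_of_nonneg_right (by linarith) (by positivity)
      _ = _ := by field_simp
  · rintro w ⟨f, rfl⟩ hne
    have hf : f ≠ 0 := by
      rintro rfl
      exact hne (map_zero _)
    refine le_trans (le_of_eq ?_) (hwt f hf)
    ring

end conc

end Pool.Agent.Helper479_gq
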