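import Pool.Agent.Helper479_gq.ActP

/-!
Elementary abelian `p`-groups in characteristic `p` with an arbitrary action: a generic subgroup
acts freely outside a small set.
-/

set_option autoImplicit false

open Finset Module

namespace Pool.Agent.Helper479_gq

section generic

variable {p : ℕ} [hp : Fact p.Prime] {P : Type} [AddCommGroup P] [Fintype P]
  [Module (ZMod p) P] {l : ℕ}

omit [Fintype P] in
lemma card_affine [Finite P] (H : AddSubgroup P) {u : ZMod p} (hu : u ≠ 0) (t : P) [Fintype P]
    [DecidablePred fun v : P => u • v + t ∈ H] :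
    (univ.filter fun v : P => u • v + t ∈ H).card = Nat.card H := by
  classical
  rw [Nat.card_eq_fintype_card, Fintype.card_of_subtype (univ.filter fun v : P => v ∈ H)
    (by simp)]
  let e : P ≃ P :=
    { toFun := fun v => u • v + t
      invFun := fun v => u⁻¹ • (v - t)
      left_inv := fun v => by
        change u⁻¹ • (u • v + t - t) = v
        rw [add_sub_cancel_right, smul_smul, inv_mul_cancel₀ hu, one_smul]
      right_inv := fun v => by
        change u • u⁻¹ • (v - t) + t = v
        rw [smul_smul, mul_inv_cancel₀ hu, one_smul, sub_add_cancel] }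
  apply card_equiv e
  intro v
  simp only [mem_filter, mem_univ, true_and]
  rfl

/-- the blocks on which the subgroup generated by `T` does not act freely -/
noncomputable def bad (p : ℕ) [Fact p.Prime] {P : Type} [AddCommGroup P] [Module (ZMod p) P]
    {l b : ℕ} (H : Fin l → AddSubgroup P) (T : Fin b → P) : Finset (Fin l) := by
  classical
  exact univ.filter fun j => ∃ c : Fin b → ZMod p, c ≠ 0 ∧ ∑ i, c i • T i ∈ H j

omit [Fintype P] in
lemma mem_bad {b : ℕ} (H : Fin l → AddSubgroup P) (T : Fin b → P) (j : Fin l) :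
    j ∈ bad p H T ↔ ∃ c : Fin b → ZMod p, c ≠ 0 ∧ ∑ i, c i • T i ∈ H j := by
  classical
  simp [bad]

lemma exists_generic (H : Fin l → AddSubgroup P) (b : ℕ) :
    ∃ T : Fin b → P, ∑ j ∈ bad p H T, Nat.card (P ⧸ H j) ≤ p ^ b * l := by
  classical
  induction b with
  | zero =>
    refine ⟨Fin.elim0, ?_⟩
    have : bad p H (Fin.elim0 : Fin 0 → P) = ∅ := by
      apply eq_empty_of_forall_notMem
      intro j hj
      obtain ⟨c, hc, -⟩ := (mem_bad H _ j).1 hj
      exact hc (Subsingleton.elim _ _)
    rw [this, sum_empty]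
    exact Nat.zero_le _
  | succ b ih =>
    obtain ⟨T, hT⟩ := ih
    have hPpos : 0 < Fintype.card P := Fintype.card_pos_iff.2 ⟨0⟩
    let Z := ZMod p × (Fin b → ZMod p)
    let f : P → ℕ := fun v => ∑ j : Fin l, ∑ z : Z,
      if z.1 ≠ 0 ∧ z.1 • v + ∑ i, z.2 i • T i ∈ H j then Nat.card (P ⧸ H j) else 0
    have hZ : (univ.filter fun z : Z => z.1 ≠ 0).card = (p - 1) * p ^ b := by
      have h1 : (univ.filter fun z : Z => z.1 ≠ 0) =
          (univ.erase (0 : ZMod p)) ×ˢ (univ : Finset (Fin b → ZMod p)) := by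
        ext z
        constructor
        · intro h
          exact mem_product.2 ⟨mem_erase.2 ⟨(mem_filter.1 h).2, mem_univ _⟩, mem_univ _⟩
        · intro h
          exact mem_filter.2 ⟨mem_univ _, (mem_erase.1 (mem_product.1 h).1).1⟩
      rw [h1, card_product, card_erase_of_mem (mem_univ _), card_univ, card_univ, ZMod.card,
        Fintype.card_fun, ZMod.card, Fintype.card_fin]
    have hsum : ∑ v : P, f v = l * ((p - 1) * p ^ b) * Fintype.card P := by
      have h1 : ∑ v : P, f v = ∑ j : Fin l, ∑ z : Z, ∑ v : P,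
          if z.1 ≠ 0 ∧ z.1 • v + ∑ i, z.2 i • T i ∈ H j then Nat.card (P ⧸ H j) else 0 := by
        rw [sum_comm]
        apply sum_congr rfl
        intro j _
        rw [sum_comm]
      rw [h1]
      have h2 : ∀ j : Fin l, ∀ z : Z, ∑ v : P,
          (if z.1 ≠ 0 ∧ z.1 • v + ∑ i, z.2 i • T i ∈ H j then Nat.card (P ⧸ H j) else 0) =
          if z.1 ≠ 0 then Fintype.card P else 0 := by
        intro j z
        by_cases hz : z.1 ≠ 0
        · simp only [hz, ne_eq, not_false_eq_true, true_and, if_true]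
          rw [← sum_filter, sum_const, card_affine (H j) hz, smul_eq_mul,
            ← Nat.card_eq_fintype_card,
            AddSubgroup.card_eq_card_quotient_mul_card_addSubgroup (H j), mul_comm]
        · simp only [hz, false_and, if_false, sum_const_zero]
      rw [sum_congr rfl fun j _ => sum_congr rfl fun z _ => h2 j z]
      rw [sum_const, card_univ, Fintype.card_fin, smul_eq_mul, ← sum_filter, sum_const, hZ,
        smul_eq_mul]
      ring
    obtain ⟨v, hv⟩ : ∃ v : P, f v ≤ l * ((p - 1) * p ^ b) := by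
      by_contra hcon
      push Not at hcon
      have h1 : ∑ v : P, l * ((p - 1) * p ^ b) < ∑ v : P, f v :=
        sum_lt_sum_of_nonempty ⟨0, mem_univ _⟩ fun v _ => hcon v
      rw [hsum, sum_const, card_univ, smul_eq_mul, mul_comm] at h1
      exact lt_irrefl _ h1
    refine ⟨Fin.cons v T, ?_⟩
    let new : Finset (Fin l) := univ.filter fun j =>
      ∃ z : Z, z.1 ≠ 0 ∧ z.1 • v + ∑ i, z.2 i • T i ∈ H j
    have hsub : bad p H (Fin.cons v T : Fin (b + 1) → P) ⊆ bad p H T ∪ new := by
      intro j hj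
      obtain ⟨c, hc, hcj⟩ := (mem_bad H _ j).1 hj
      rw [Fin.sum_univ_succ] at hcj
      simp only [Fin.cons_zero, Fin.cons_succ] at hcj
      by_cases h0 : c 0 = 0
      · apply mem_union_left
        rw [h0, zero_smul, zero_add] at hcj
        rw [mem_bad]
        refine ⟨fun i => c i.succ, ?_, hcj⟩
        intro h1
        apply hc
        funext i
        refine Fin.cases h0 (fun i => ?_) i
        exact congrFun h1 i
      · apply mem_union_right
        exact mem_filter.2 ⟨mem_univ _, (c 0, fun i => c i.succ), h0, hcj⟩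
    have hnew : ∑ j ∈ new, Nat.card (P ⧸ H j) ≤ f v := by
      calc ∑ j ∈ new, Nat.card (P ⧸ H j) ≤ ∑ j ∈ new, ∑ z : Z,
            (if z.1 ≠ 0 ∧ z.1 • v + ∑ i, z.2 i • T i ∈ H j then Nat.card (P ⧸ H j) else 0) := by
            apply sum_le_sum
            intro j hj
            obtain ⟨z, hz⟩ := (mem_filter.1 hj).2
            have h1 := single_le_sum (f := fun z : Z =>
              if z.1 ≠ 0 ∧ z.1 • v + ∑ i, z.2 i • T i ∈ H j then Nat.card (P ⧸ H j) else 0)
              (fun _ _ => Nat.zero_le _) (mem_univ z)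
            simp only [if_pos hz] at h1
            exact h1
        _ ≤ f v := sum_le_sum_of_subset (subset_univ _)
    calc ∑ j ∈ bad p H (Fin.cons v T : Fin (b + 1) → P), Nat.card (P ⧸ H j)
        ≤ ∑ j ∈ bad p H T ∪ new, Nat.card (P ⧸ H j) := sum_le_sum_of_subset hsub
      _ ≤ ∑ j ∈ bad p H T, Nat.card (P ⧸ H j) + ∑ j ∈ new, Nat.card (P ⧸ H j) := by
          rw [← sum_union_inter]
          exact Nat.le_add_right _ _
      _ ≤ p ^ b * l + l * ((p - 1) * p ^ b) := Nat.add_le_add hT (hnew.trans hv)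
      _ = p ^ (b + 1) * l := by
          obtain ⟨k, hk⟩ : ∃ k, p = k + 1 := ⟨p - 1, by have := hp.out.one_le; omega⟩
          rw [hk, Nat.add_sub_cancel]
          ring

end generic

/-- the part for elementary abelian `p`-groups -/
lemma elem_part (p : ℕ) [hp : Fact p.Prime] (K : Type) [Field K] [Fintype K] [DecidableEq K]
    [CharP K p] {R δ : ℝ} (hR : 0 < R) (hδ : 0 < δ) :
    ∃ C1 : ℕ, ∀ (l : ℕ) (P : Type) [AddCommGroup P] [Fintype P] [Module (ZMod p) P]
      (H : Fin l → AddSubgroup P) (J : Finset (Fin l)) (M : Submodule K (Fin l × P → K)),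
      J.Nonempty →
      (∀ F ∈ M, ∀ g : P, (fun x : Fin l × P => F (x.1, x.2 + g)) ∈ M) →
      (∀ F ∈ M, ∀ j, ∀ h ∈ H j, ∀ x, F (j, x + h) = F (j, x)) →
      (∀ F ∈ M, ∀ j, j ∉ J → ∀ x, F (j, x) = 0) →
      R * (∑ j ∈ J, Nat.card (P ⧸ H j) : ℕ) ≤ finrank K M →
      (∀ F ∈ M, F ≠ 0 → ∀ θ : ℝ, (∀ j, ((univ.filter fun x => F (j, x) ≠ 0).card : ℝ) ≤
        θ * Fintype.card P) → δ ≤ θ) →
      ∑ j ∈ J, Nat.card (P ⧸ H j) ≤ 2 ^ (C1 * l) := by
  classical
  have hpr : (2 : ℝ) ≤ p := by exact_mod_cast hp.out.two_le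
  have hppos : (0 : ℝ) < p := by linarith
  obtain ⟨q, hq⟩ : ∃ q : ℕ, (1 - 1 / (p : ℝ)) ^ q < δ := by
    apply exists_pow_lt_of_lt_one hδ
    have : 0 < 1 / (p : ℝ) := by positivity
    linarith
  obtain ⟨C0, hC0⟩ := mod_block p K q (half_pos hR)
  obtain ⟨c, hc⟩ : ∃ c : ℕ, 2 / R ≤ 2 ^ c := by
    obtain ⟨c, hc⟩ := pow_unbounded_of_one_lt (2 / R) (one_lt_two)
    exact ⟨c, hc.le⟩
  obtain ⟨c2, hc2⟩ := exists_nat_ge (2 * p / R)
  refine ⟨c + p + p * (C0 * c2) + 1, ?_⟩
  intro l P _ _ _ H J M hJ hM hMH hMJ hdim hdist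
  have hlpos : 0 < l := by
    obtain ⟨j, _⟩ := hJ
    exact lt_of_le_of_lt (Nat.zero_le _) j.2
  have hl' : (1 : ℝ) ≤ l := by exact_mod_cast hlpos
  have hl2 : (l : ℝ) ≤ 2 ^ l := by exact_mod_cast (Nat.lt_two_pow_self (n := l)).le
  have hfinq : ∀ H : AddSubgroup P, Finite (P ⧸ H) := fun H => Quotient.finite _
  set S := ∑ j ∈ J, Nat.card (P ⧸ H j) with hS
  have hSpos : 0 < S := by
    obtain ⟨j, hj⟩ := hJ
    have h1 : Nat.card (P ⧸ H j) ≤ S :=
      single_le_sum (f := fun j => Nat.card (P ⧸ H j)) (fun _ _ => Nat.zero_le _) hj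
    have := hfinq (H j)
    have h2 : 0 < Nat.card (P ⧸ H j) := Nat.card_pos
    omega
  have hSpos' : (0 : ℝ) < S := by exact_mod_cast hSpos
  by_cases hsmall : R / 2 * S < l
  · have h1 : (S : ℝ) ≤ 2 ^ ((c + p + p * (C0 * c2) + 1) * l) := by
      calc (S : ℝ) = 2 / R * (R / 2 * S) := by field_simp
        _ ≤ 2 ^ c * 2 ^ l := mul_le_mul hc (hsmall.le.trans hl2) (by positivity) (by positivity)
        _ = 2 ^ (c + l) := by rw [pow_add]
        _ ≤ _ := pow_le_pow_right₀ (by norm_num) (by
          calc c + l ≤ c * l + l := Nat.add_le_add_right (Nat.le_mul_of_pos_right _ hlpos) _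
            _ ≤ c * l + l + (p + p * (C0 * c2)) * l := Nat.le_add_right _ _
            _ = _ := by ring)
    exact_mod_cast h1
  push Not at hsmall
  obtain ⟨b, hb1, hb2⟩ := exists_nat_pow_near (x := R / 2 * S / l) (y := (p : ℝ))
    (by rw [le_div_iff₀ (by linarith), one_mul]; exact hsmall) (by linarith)
  rw [le_div_iff₀ (by linarith)] at hb1
  rw [div_lt_iff₀ (by linarith)] at hb2
  obtain ⟨T, hT⟩ := exists_generic (p := p) H b
  let B : AddSubgroup P :=
    (AddMonoidHom.mk' (fun c : Fin b → ZMod p => ∑ i, c i • T i) (by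
      intro c c'
      simp only [Pi.add_apply, add_smul, sum_add_distrib])).range
  have hB : ∀ x, x ∈ B ↔ ∃ c : Fin b → ZMod p, ∑ i, c i • T i = x := fun x => Iff.rfl
  let cmb : (Fin b → ZMod p) → P := fun c => ∑ i, c i • T i
  have hcmb : ∀ c c', cmb (c + c') = cmb c + cmb c' := by
    intro c c'
    simp only [cmb, Pi.add_apply, add_smul, sum_add_distrib]
  have hcmbsub : ∀ c c', cmb (c - c') = cmb c - cmb c' := by
    intro c c'
    simp only [cmb, Pi.sub_apply, sub_smul, sum_sub_distrib]
  -- the subspace of the words that vanish on the bad blocks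
  let Vg : Submodule K (Fin l × P → K) :=
    { carrier := {F | ∀ j ∈ bad p H T, ∀ x, F (j, x) = 0}
      add_mem' := by
        intro F F' h1 h2 j hj x
        rw [Pi.add_apply, h1 j hj, h2 j hj, add_zero]
      zero_mem' := fun _ _ _ => rfl
      smul_mem' := by
        intro k F h1 j hj x
        rw [Pi.smul_apply, h1 j hj, smul_zero] }
  let Mg : Submodule K (Fin l × P → K) := M ⊓ Vg
  have hMg : R / 2 * S ≤ finrank K Mg := by
    let Z := Σ j : {j : Fin l // j ∈ bad p H T}, P ⧸ H j
    have : Fintype Z := Fintype.ofFinite Z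
    let L : M →ₗ[K] (Z → K) :=
      { toFun := fun F z => F.1 (z.1, Quotient.out z.2)
        map_add' := fun F G => rfl
        map_smul' := fun k F => rfl }
    have h1 := LinearMap.finrank_range_add_finrank_ker L
    have h2 : finrank K (LinearMap.range L) ≤ p ^ b * l := by
      refine (Submodule.finrank_le _).trans ?_
      rw [finrank_fintype_fun_eq_card, ← Nat.card_eq_fintype_card, Nat.card_sigma]
      refine le_trans (le_of_eq ?_) hT
      exact sum_coe_sort (bad p H T) (fun j => Nat.card (P ⧸ H j))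
    have h3 : finrank K (LinearMap.ker L) ≤ finrank K Mg := by
      let I : LinearMap.ker L →ₗ[K] Mg :=
        { toFun := fun F => ⟨F.1.1, F.1.2, by
            intro j hj x
            have h4 : F.1.1 (j, Quotient.out (QuotientAddGroup.mk x : P ⧸ H j)) = 0 :=
              congrFun (LinearMap.mem_ker.1 F.2) ⟨⟨j, hj⟩, QuotientAddGroup.mk x⟩
            have h5 : (QuotientAddGroup.mk (Quotient.out (QuotientAddGroup.mk x : P ⧸ H j)) :
                P ⧸ H j) = QuotientAddGroup.mk x := Quotient.out_eq _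
            have h6 := QuotientAddGroup.eq.1 h5
            have h7 := hMH F.1.1 F.1.2 j _ h6
              (Quotient.out (QuotientAddGroup.mk x : P ⧸ H j))
            rw [add_neg_cancel_left, h4] at h7
            exact h7⟩
          map_add' := fun F G => rfl
          map_smul' := fun k F => rfl }
      apply LinearMap.finrank_le_finrank_of_injective (f := I)
      intro F G h
      apply Subtype.ext
      apply Subtype.ext
      exact congrArg (fun z : Mg => (z : Fin l × P → K)) h
    have h4 : (finrank K M : ℝ) ≤ p ^ b * l + finrank K Mg := by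
      have : finrank K M ≤ p ^ b * l + finrank K Mg := by omega
      exact_mod_cast this
    linarith
  -- representatives
  let I := Σ j : {j : Fin l // j ∈ J \ bad p H T}, P ⧸ (H j ⊔ B)
  have hfinI : ∀ j : {j : Fin l // j ∈ J \ bad p H T}, Finite (P ⧸ (H j ⊔ B)) :=
    fun j => Quotient.finite _
  have : Fintype I := Fintype.ofFinite I
  set l2 := Fintype.card I with hl2def
  let e : Fin l2 ≃ I := (Fintype.equivFin I).symm
  let rep : Fin l2 → P := fun i => Quotient.out (e i).2
  let blk' : Fin l2 → Fin l := fun i => ((e i).1 : Fin l)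
  have hcover : ∀ j ∈ J \ bad p H T, ∀ x, ∃ i, blk' i = j ∧
      ∃ c, ∃ h ∈ H j, x = rep i + cmb c + h := by
    intro j hj x
    let z : I := ⟨⟨j, hj⟩, QuotientAddGroup.mk x⟩
    refine ⟨e.symm z, ?_, ?_⟩
    · change ((e (e.symm z)).1 : Fin l) = j
      rw [e.apply_symm_apply]
    · have h1 : rep (e.symm z) = Quotient.out (QuotientAddGroup.mk x : P ⧸ (H j ⊔ B)) := by
        change Quotient.out (e (e.symm z)).2 = _
        rw [e.apply_symm_apply]
      have h2 : (QuotientAddGroup.mk (Quotient.out (QuotientAddGroup.mk x : P ⧸ (H j ⊔ B))) :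
          P ⧸ (H j ⊔ B)) = QuotientAddGroup.mk x := Quotient.out_eq _
      have h3 := QuotientAddGroup.eq.1 h2
      obtain ⟨h, hh, y, hy, hhy⟩ := AddSubgroup.mem_sup.1 h3
      obtain ⟨c, hc⟩ := (hB y).1 hy
      refine ⟨c, h, hh, ?_⟩
      rw [h1]
      have h4 : cmb c = y := hc
      rw [h4, add_assoc, add_comm y h, hhy, add_neg_cancel_left]
  let Φ : (Fin l × P → K) →ₗ[K] (Fin l2 × (Fin b → ZMod p) → K) :=
    LinearMap.funLeft K K (fun z => (blk' z.1, rep z.1 + cmb z.2))
  have hΦ : ∀ F z, Φ F z = F (blk' z.1, rep z.1 + cmb z.2) := fun _ _ => rfl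
  let M2 : Submodule K (Fin l2 × (Fin b → ZMod p) → K) := Mg.map Φ
  have hM2inv : ∀ F ∈ M2, ∀ g : Fin b → ZMod p,
      (fun x : Fin l2 × (Fin b → ZMod p) => F (x.1, x.2 + g)) ∈ M2 := by
    rintro _ ⟨F, hF, rfl⟩ g
    refine ⟨fun x => F (x.1, x.2 + cmb g), ⟨hM F hF.1 (cmb g), ?_⟩, ?_⟩
    · intro j hj x
      exact hF.2 j hj _
    · funext z
      rw [hΦ, hΦ, hcmb, add_assoc]
  have hMg0 : ∀ F ∈ Mg, (∀ z, Φ F z = 0) → F = 0 := by
    intro F hF h0
    funext x
    obtain ⟨j, x⟩ := x
    by_cases hj : j ∈ J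
    · by_cases hjb : j ∈ bad p H T
      · exact hF.2 j hjb x
      · obtain ⟨i, hi, c, h, hh, rfl⟩ := hcover j (mem_sdiff.2 ⟨hj, hjb⟩) x
        rw [hMH F hF.1 j h hh]
        have h1 := h0 (i, c)
        rw [hΦ, hi] at h1
        exact h1
    · exact hMJ F hF.1 j hj x
  have hM2dim : finrank K Mg ≤ finrank K M2 := by
    apply LinearMap.finrank_le_finrank_of_injective (f := Φ.submoduleMap Mg)
    rw [injective_iff_map_eq_zero]
    intro F hF
    apply Subtype.ext
    apply hMg0 F.1 F.2
    intro z
    exact congrArg (fun f : Mg.map Φ => (f : Fin l2 × (Fin b → ZMod p) → K) z) hF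
  -- the number of representatives
  have hl2S : l2 * p ^ b ≤ S := by
    have h1 : ∀ j : {j : Fin l // j ∈ J \ bad p H T},
        Nat.card (P ⧸ (H j ⊔ B)) * p ^ b ≤ Nat.card (P ⧸ H j) := by
      intro j
      have := hfinq (H j)
      have h2 : Nat.card ((P ⧸ (H j ⊔ B)) × (Fin b → ZMod p)) ≤ Nat.card (P ⧸ H j) := by
        apply Nat.card_le_card_of_injective (fun z : (P ⧸ (H j ⊔ B)) × (Fin b → ZMod p) =>
          (QuotientAddGroup.mk (Quotient.out z.1 + cmb z.2) : P ⧸ H j))
        rintro ⟨z, c⟩ ⟨z', c'⟩ h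
        have h3 : -(Quotient.out z + cmb c) + (Quotient.out z' + cmb c') ∈ H j :=
          QuotientAddGroup.eq.1 h
        have h4 : z = z' := by
          have h5 : (QuotientAddGroup.mk (Quotient.out z) : P ⧸ (H j ⊔ B)) =
              QuotientAddGroup.mk (Quotient.out z') := by
            rw [QuotientAddGroup.eq]
            have h6 : -(Quotient.out z) + Quotient.out z' =
                (-(Quotient.out z + cmb c) + (Quotient.out z' + cmb c')) + cmb (c - c') := by
              rw [hcmbsub]
              abel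
            rw [h6]
            exact AddSubgroup.mem_sup.2 ⟨_, h3, _, ⟨c - c', rfl⟩, rfl⟩
          have h7 : (QuotientAddGroup.mk (Quotient.out z) : P ⧸ (H j ⊔ B)) = z :=
            Quotient.out_eq z
          have h8 : (QuotientAddGroup.mk (Quotient.out z') : P ⧸ (H j ⊔ B)) = z' :=
            Quotient.out_eq z'
          rw [← h7, h5, h8]
        subst h4
        have h5 : cmb (c' - c) ∈ H j := by
          rw [hcmbsub]
          have h6 : cmb c' - cmb c = -(Quotient.out z + cmb c) + (Quotient.out z + cmb c') := by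
            abel
          rw [h6]
          exact h3
        have h6 : c' - c = 0 := by
          by_contra hne
          exact (mem_sdiff.1 j.2).2 ((mem_bad H T j).2 ⟨c' - c, hne, h5⟩)
        rw [sub_eq_zero.1 h6]
      rwa [Nat.card_prod, Nat.card_eq_fintype_card (α := Fin b → ZMod p), Fintype.card_fun,
        ZMod.card, Fintype.card_fin] at h2
    have h2 : l2 = ∑ j : {j : Fin l // j ∈ J \ bad p H T}, Nat.card (P ⧸ (H j ⊔ B)) := by
      rw [hl2def, ← Nat.card_eq_fintype_card, Nat.card_sigma]
    rw [h2, sum_mul]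
    calc ∑ j : {j : Fin l // j ∈ J \ bad p H T}, Nat.card (P ⧸ (H j ⊔ B)) * p ^ b
        ≤ ∑ j : {j : Fin l // j ∈ J \ bad p H T}, Nat.card (P ⧸ H j) :=
          sum_le_sum fun j _ => h1 j
      _ = ∑ j ∈ J \ bad p H T, Nat.card (P ⧸ H j) :=
          sum_coe_sort (J \ bad p H T) (fun j => Nat.card (P ⧸ H j))
      _ ≤ S := sum_le_sum_of_subset sdiff_subset
  have hl2S' : (l2 : ℝ) * p ^ b ≤ S := by exact_mod_cast hl2S
  have hM2R : R / 2 * (l2 * p ^ b) ≤ finrank K M2 := by
    have h1 : (finrank K Mg : ℝ) ≤ finrank K M2 := by exact_mod_cast hM2dim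
    calc _ ≤ R / 2 * S := mul_le_mul_of_nonneg_left hl2S' (by positivity)
      _ ≤ _ := hMg.trans h1
  have hl2pos : 0 < l2 := by
    by_contra h0
    have h1 : l2 = 0 := by omega
    have h2 : IsEmpty (Fin l2) := by rw [h1]; infer_instance
    have h3 : finrank K M2 ≤ 0 := by
      refine (Submodule.finrank_le _).trans ?_
      rw [finrank_fintype_fun_eq_card, Fintype.card_prod, Fintype.card_fin, h1, zero_mul]
    have h4 : (finrank K Mg : ℝ) ≤ 0 := by
      have : finrank K Mg ≤ 0 := hM2dim.trans h3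
      exact_mod_cast this
    have h5 : 0 < R / 2 * S := by positivity
    linarith
  have hbC : b ≤ C0 * l2 := by
    by_contra hcon
    push Not at hcon
    obtain ⟨F2, hF2, hF20, B', hB'c, hB's⟩ := hC0 l2 b hl2pos M2 hM2inv hM2R hcon
    obtain ⟨F, hF, rfl⟩ := hF2
    have hFne : F ≠ 0 := by
      rintro rfl
      exact hF20 (map_zero _)
    have h1 := hdist F hF.1 hFne ((1 - 1 / (p : ℝ)) ^ q) (by
      intro j
      have hfib : ∀ x, (univ.filter fun c : Fin b → ZMod p => F (j, x + cmb c) ≠ 0).card ≤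
          B'.card := by
        intro x
        by_cases hj : j ∈ J
        · by_cases hjb : j ∈ bad p H T
          · have : (univ.filter fun c : Fin b → ZMod p => F (j, x + cmb c) ≠ 0) = ∅ := by
              apply eq_empty_of_forall_notMem
              intro c hc
              exact (mem_filter.1 hc).2 (hF.2 j hjb _)
            rw [this, card_empty]
            exact Nat.zero_le _
          · obtain ⟨i, hi, c0, h, hh, rfl⟩ := hcover j (mem_sdiff.2 ⟨hj, hjb⟩) x
            apply card_le_card_of_injOn (fun c => c0 + c)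
            · intro c hc
              have h2 := (mem_filter.1 (mem_coe.1 hc)).2
              apply mem_coe.2
              apply hB's (i, c0 + c)
              rw [hΦ]
              change F (blk' i, rep i + cmb (c0 + c)) ≠ 0
              have h3 : rep i + cmb c0 + h + cmb c = rep i + cmb (c0 + c) + h := by
                rw [hcmb]; abel
              rw [h3, hMH F hF.1 j h hh] at h2
              rw [hi]
              exact h2
            · intro c _ c' _ hcc
              exact add_left_cancel hcc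
        · have : (univ.filter fun c : Fin b → ZMod p => F (j, x + cmb c) ≠ 0) = ∅ := by
            apply eq_empty_of_forall_notMem
            intro c hc
            exact (mem_filter.1 hc).2 (hMJ F hF.1 j hj _)
          rw [this, card_empty]
          exact Nat.zero_le _
      have hdouble : (univ.filter fun x => F (j, x) ≠ 0).card * p ^ b =
          ∑ x : P, (univ.filter fun c : Fin b → ZMod p => F (j, x + cmb c) ≠ 0).card := by
        simp_rw [card_filter]
        rw [sum_comm]
        have h2 : ∀ c : Fin b → ZMod p, ∑ x : P, (if F (j, x + cmb c) ≠ 0 then 1 else 0) =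
            ∑ x : P, (if F (j, x) ≠ 0 then 1 else 0) := fun c =>
          Fintype.sum_equiv (Equiv.addRight (cmb c)) _ _ (fun x => rfl)
        rw [sum_congr rfl fun c _ => h2 c, sum_const, card_univ, smul_eq_mul,
          Fintype.card_fun, ZMod.card, Fintype.card_fin, mul_comm]
      have h2 : (univ.filter fun x => F (j, x) ≠ 0).card * p ^ b ≤ B'.card * Fintype.card P := by
        rw [hdouble]
        calc _ ≤ ∑ x : P, B'.card := sum_le_sum fun x _ => hfib x
          _ = _ := by rw [sum_const, card_univ, smul_eq_mul, mul_comm]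
      have hpb : (0 : ℝ) < (p : ℝ) ^ b := by positivity
      -- the proportion
      have h3 : (B'.card : ℝ) ≤ (1 - 1 / (p : ℝ)) ^ q * p ^ b := by
        have h4 : B'.card * p ^ b = B'.card * p ^ b := rfl
        have := prop_le (ℓ := p) (q := q) (x := B'.card) (B := B'.card) (V := p ^ b)
          (G := p ^ b) hp.out.one_le (pow_pos hp.out.pos _) h4 hB'c
        push_cast at this
        exact this
      have h4 : ((univ.filter fun x => F (j, x) ≠ 0).card : ℝ) * p ^ b ≤
          ((1 - 1 / (p : ℝ)) ^ q * Fintype.card P) * p ^ b := by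
        have h5 : ((univ.filter fun x => F (j, x) ≠ 0).card : ℝ) * p ^ b ≤
            B'.card * Fintype.card P := by exact_mod_cast h2
        refine h5.trans ?_
        calc (B'.card : ℝ) * Fintype.card P ≤ ((1 - 1 / (p : ℝ)) ^ q * p ^ b) * Fintype.card P :=
              mul_le_mul_of_nonneg_right h3 (by positivity)
          _ = _ := by ring
      exact le_of_mul_le_mul_right h4 hpb)
    linarith
  -- the conclusion
  have hl2c : l2 ≤ c2 * l := by
    have h1 : (l2 : ℝ) * p ^ b ≤ (2 * p / R * l) * p ^ b := by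
      have h2 : (S : ℝ) ≤ 2 / R * (p ^ (b + 1) * l) := by
        calc (S : ℝ) = 2 / R * (R / 2 * S) := by field_simp
          _ ≤ _ := mul_le_mul_of_nonneg_left hb2.le (by positivity)
      calc _ ≤ (S : ℝ) := hl2S'
        _ ≤ _ := h2
        _ = _ := by rw [pow_succ]; ring
    have h2 : (l2 : ℝ) ≤ 2 * p / R * l := le_of_mul_le_mul_right h1 (by positivity)
    have h3 : (l2 : ℝ) ≤ c2 * l := h2.trans (mul_le_mul_of_nonneg_right hc2 (by positivity))
    exact_mod_cast h3
  have hb' : b ≤ C0 * c2 * l := by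
    calc b ≤ C0 * l2 := hbC
      _ ≤ C0 * (c2 * l) := Nat.mul_le_mul_left _ hl2c
      _ = _ := by ring
  have h1 : (S : ℝ) ≤ 2 ^ (c + p * (b + 1) + l) := by
    have h2 : (p : ℝ) ^ (b + 1) ≤ 2 ^ (p * (b + 1)) := by
      rw [pow_mul]
      apply pow_le_pow_left₀ hppos.le
      exact_mod_cast (Nat.lt_two_pow_self (n := p)).le
    calc (S : ℝ) = 2 / R * (R / 2 * S) := by field_simp
      _ ≤ 2 ^ c * (2 ^ (p * (b + 1)) * 2 ^ l) := by
          apply mul_le_mul hc _ (by positivity) (by positivity)
          exact hb2.le.trans (mul_le_mul h2 hl2 (by positivity) (by positivity))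
      _ = _ := by rw [pow_add, pow_add]; ring
  have h2 : S ≤ 2 ^ (c + p * (b + 1) + l) := by exact_mod_cast h1
  refine h2.trans (Nat.pow_le_pow_right (by norm_num) ?_)
  have h3 : p * (b + 1) ≤ p * (C0 * c2) * l + p := by
    calc p * (b + 1) = p * b + p := by ring
      _ ≤ p * (C0 * c2 * l) + p := Nat.add_le_add_right (Nat.mul_le_mul_left _ hb') _
      _ = _ := by ring
  have h4 : c + p ≤ (c + p) * l := Nat.le_mul_of_pos_right _ hlpos
  have h5 : (c + p + p * (C0 * c2) + 1) * l = (c + p) * l + p * (C0 * c2) * l + l := by ring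
  omega

end Pool.Agent.Helper479_gq
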