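import Mathlib

/-!
Fourier analysis on finite abelian groups with values in a field that contains enough roots of
unity, and the components of an invariant space of functions.
-/

set_option autoImplicit false

open Finset Module

namespace Pool.Agent.Helper479_gq

section

variable {K : Type} [Field K] {n : ℕ} {G : Type} [AddCommGroup G] [Fintype G] [DecidableEq G]

omit [Fintype G] [DecidableEq G] in
lemma exp_dvd (hG : ∀ g : G, n • g = 0) : Monoid.exponent (Multiplicative G) ∣ n := by
  apply Monoid.exponent_dvd_of_forall_pow_eq_one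
  intro g
  have := hG (Multiplicative.toAdd g)
  exact this

omit [Fintype G] [DecidableEq G] in
lemma exists_char [Finite G] [NeZero n] [HasEnoughRootsOfUnity K n] (hG : ∀ g : G, n • g = 0)
    {x : G} (hx : x ≠ 0) : ∃ χ : AddChar G K, χ x ≠ 1 := by
  have := HasEnoughRootsOfUnity.of_dvd K (exp_dvd hG)
  have hx' : Multiplicative.ofAdd x ≠ 1 := by simpa using hx
  obtain ⟨φ, hφ⟩ := CommGroup.exists_apply_ne_one_of_hasEnoughRootsOfUnity
    (Multiplicative G) K hx'
  refine ⟨AddChar.toMonoidHomEquiv.symm ((Units.coeHom K).comp φ), ?_⟩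
  intro h
  apply hφ
  apply Units.ext
  exact h

omit [DecidableEq G] in
lemma card_char [NeZero n] [HasEnoughRootsOfUnity K n] [Fintype (AddChar G K)]
    (hG : ∀ g : G, n • g = 0) : Fintype.card (AddChar G K) = Fintype.card G := by
  have := HasEnoughRootsOfUnity.of_dvd K (exp_dvd hG)
  have h := CommGroup.card_monoidHom_of_hasEnoughRootsOfUnity (Multiplicative G) K
  rw [← Nat.card_eq_fintype_card, ← Nat.card_eq_fintype_card]
  have h2 : Nat.card (Multiplicative G) = Nat.card G := Nat.card_congr Multiplicative.toAdd
  rw [← h2, ← h]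
  apply Nat.card_congr
  refine AddChar.toMonoidHomEquiv.trans ?_
  exact { toFun := fun f => f.toHomUnits
          invFun := fun φ => (Units.coeHom K).comp φ
          left_inv := fun f => by ext; simp
          right_inv := fun φ => by ext; simp }

omit [DecidableEq G] in
lemma card_cast_ne (hn : (n : K) ≠ 0) (hG : ∀ g : G, n • g = 0) : (Fintype.card G : K) ≠ 0 := by
  intro h
  obtain ⟨p, hp⟩ := CharP.exists K
  rw [CharP.cast_eq_zero_iff K p] at h
  have hG0 : Fintype.card G ≠ 0 := Fintype.card_ne_zero
  rcases CharP.char_is_prime_or_zero K p with h1 | h1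
  · have : Fact p.Prime := ⟨h1⟩
    obtain ⟨g, hg⟩ := exists_prime_addOrderOf_dvd_card p h
    have h2 : p ∣ n := by rw [← hg]; exact addOrderOf_dvd_of_nsmul_eq_zero (hG g)
    exact hn ((CharP.cast_eq_zero_iff K p n).2 h2)
  · subst h1
    exact hG0 (Nat.eq_zero_of_zero_dvd h)

lemma sum_ch [NeZero n] [HasEnoughRootsOfUnity K n] [Fintype (AddChar G K)]
    (hG : ∀ g : G, n • g = 0) (x : G) :
    ∑ a : AddChar G K, a x = if x = 0 then (Fintype.card G : K) else 0 := by
  classical
  have h := AddChar.sum_eq_ite (AddChar.doubleDualEmb x : AddChar (AddChar G K) K)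
  simp only [AddChar.doubleDualEmb_apply] at h
  rw [h, card_char (n := n) hG]
  by_cases hx : x = 0
  · subst hx; simp
  · rw [if_neg hx, if_neg]
    intro h0
    obtain ⟨χ, hχ⟩ := exists_char (K := K) hG hx
    apply hχ
    have := congrArg (fun f : AddChar (AddChar G K) K => f χ) h0
    simpa using this

/-- the Fourier transform -/
def hat (F : G → K) (a : AddChar G K) : K := ∑ y, a (-y) * F y

lemma hat_inv [NeZero n] [HasEnoughRootsOfUnity K n] [Fintype (AddChar G K)]
    (hG : ∀ g : G, n • g = 0) (F : G → K) (x : G) :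
    ∑ a : AddChar G K, a x * hat F a = Fintype.card G * F x := by
  unfold hat
  have h1 : ∀ a : AddChar G K, a x * ∑ y, a (-y) * F y = ∑ y, a (x - y) * F y := by
    intro a
    rw [mul_sum]
    apply sum_congr rfl
    intro y _
    rw [← mul_assoc, ← AddChar.map_add_eq_mul, sub_eq_add_neg]
  simp_rw [h1]
  rw [sum_comm]
  simp_rw [← sum_mul]
  simp_rw [sum_ch (n := n) hG]
  rw [Finset.sum_eq_single x]
  · simp
  · intro y _ hy
    rw [if_neg (sub_ne_zero.2 (Ne.symm hy)), zero_mul]
  · simp

lemma hat_eq_zero [NeZero n] [HasEnoughRootsOfUnity K n] [Fintype (AddChar G K)]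
    (hn : (n : K) ≠ 0) (hG : ∀ g : G, n • g = 0) (F : G → K)
    (h : ∀ a : AddChar G K, hat F a = 0) : F = 0 := by
  funext x
  have h1 := hat_inv (n := n) hG F x
  simp only [h, mul_zero, sum_const_zero] at h1
  exact (mul_eq_zero.1 h1.symm).resolve_left (card_cast_ne hn hG)

omit [DecidableEq G] in
lemma hat_translate (F : G → K) (a : AddChar G K) (x : G) :
    ∑ y, a (-y) * F (x + y) = a x * hat F a := by
  unfold hat
  rw [mul_sum]
  rw [← Equiv.sum_comp (Equiv.addLeft x) (fun y => a x * (a (-y) * F y))]
  apply sum_congr rfl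
  intro y _
  simp only [Equiv.coe_addLeft]
  rw [← mul_assoc, ← AddChar.map_add_eq_mul]
  congr 2
  abel

omit [Fintype G] [DecidableEq G] in
lemma char_ne_zero (a : AddChar G K) (y : G) : a y ≠ 0 := by
  intro h
  have h1 : a y * a (-y) = 1 := by
    rw [← AddChar.map_add_eq_mul, add_neg_cancel, AddChar.map_zero_eq_one]
  rw [h, zero_mul] at h1
  exact zero_ne_one h1

end

/-! ### The component of a character -/

section comp

variable {K : Type} [Field K] {n : ℕ} {J P Q : Type} [AddCommGroup P] [AddCommGroup Q]
  [Fintype Q] [DecidableEq Q]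

/-- multiply with a character of the second factor -/
def twist (J P : Type) (a : AddChar Q K) : (J × P → K) →ₗ[K] (J × (P × Q) → K) where
  toFun f x := a x.2.2 * f (x.1, x.2.1)
  map_add' f g := by funext x; simp [mul_add]
  map_smul' k f := by
    funext x
    simp only [Pi.smul_apply, smul_eq_mul, RingHom.id_apply]
    ring

/-- the Fourier coefficients of a function with respect to the second factor -/
def coef (F : J × (P × Q) → K) (a : AddChar Q K) : J × P → K :=
  fun x => hat (fun y => F (x.1, (x.2, y))) a

omit [DecidableEq Q] in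
lemma twist_coef (W : Submodule K (J × (P × Q) → K))
    (hW : ∀ F ∈ W, ∀ g : P × Q, (fun x : J × (P × Q) => F (x.1, x.2 + g)) ∈ W)
    {F : J × (P × Q) → K} (hF : F ∈ W) (a : AddChar Q K) :
    twist J P a (coef F a) ∈ W := by
  have h1 : twist J P a (coef F a) =
      ∑ y : Q, a (-y) • (fun x : J × (P × Q) => F (x.1, x.2 + (0, y))) := by
    funext x
    obtain ⟨j, x, z⟩ := x
    rw [Finset.sum_apply]
    change a z * hat (fun y => F (j, (x, y))) a = ∑ y : Q, a (-y) * F (j, (x, z) + (0, y))
    rw [← hat_translate (fun y => F (j, (x, y))) a z]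
    apply sum_congr rfl
    intro y _
    rw [Prod.mk_add_mk, add_zero]
  rw [h1]
  exact Submodule.sum_mem _ fun y _ => Submodule.smul_mem _ _ (hW F hF (0, y))

lemma exists_comp [Fintype J] [Fintype P] [NeZero n] [HasEnoughRootsOfUnity K n]
    [Fintype (AddChar Q K)] (hn : (n : K) ≠ 0) (hQ : ∀ g : Q, n • g = 0)
    (W : Submodule K (J × (P × Q) → K))
    (hW : ∀ F ∈ W, ∀ g : P × Q, (fun x : J × (P × Q) => F (x.1, x.2 + g)) ∈ W) :
    ∃ a : AddChar Q K, finrank K W ≤
      Fintype.card Q * finrank K (W.comap (twist J P a)) := by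
  classical
  let L : W →ₗ[K] (∀ a : AddChar Q K, W.comap (twist J P a)) :=
    { toFun := fun F a => ⟨coef F.1 a, twist_coef W hW F.2 a⟩
      map_add' := by
        intro F G
        funext a
        apply Subtype.ext
        funext x
        simp only [coef, hat, Submodule.coe_add, Pi.add_apply, mul_add, sum_add_distrib]
      map_smul' := by
        intro k F
        funext a
        apply Subtype.ext
        funext x
        simp only [coef, hat, Submodule.coe_smul, Pi.smul_apply, smul_eq_mul, RingHom.id_apply,
          mul_sum]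
        apply sum_congr rfl
        intro y _
        ring }
  have hL : Function.Injective L := by
    rw [injective_iff_map_eq_zero]
    intro F hF
    apply Subtype.ext
    funext x
    obtain ⟨j, x, z⟩ := x
    have h1 : (fun y => F.1 (j, (x, y))) = 0 := by
      apply hat_eq_zero (n := n) hn hQ
      intro a
      have h2 := congrArg (fun f : (∀ a : AddChar Q K, W.comap (twist J P a)) =>
        (f a).1 (j, x)) hF
      exact h2
    exact congrFun h1 z
  have h1 := LinearMap.finrank_le_finrank_of_injective hL
  rw [Module.finrank_pi_fintype] at h1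
  by_contra hcon
  push Not at hcon
  have h2 : ∑ a : AddChar Q K, Fintype.card Q * finrank K (W.comap (twist J P a)) <
      ∑ a : AddChar Q K, finrank K W :=
    sum_lt_sum_of_nonempty univ_nonempty fun a _ => hcon a
  rw [← mul_sum, sum_const, card_univ, smul_eq_mul, card_char (n := n) hQ] at h2
  have h3 := lt_of_mul_lt_mul_left h2 (Nat.zero_le _)
  omega

end comp

end Pool.Agent.Helper479_gq
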