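import Pool.Agent.Helper479_gq.Elem

/-!
Abelian groups with an arbitrary action whose Sylow `p`-subgroup is elementary abelian.
-/

set_option autoImplicit false

open Finset Module

namespace Pool.Agent.Helper479_gq

open Helper479_qa (exists_quotient)

/-- the functions are invariant under `HP j × HQ j` on the block `j` -/
def BInv2 {K : Type} [Field K] {l : ℕ} {P Q : Type} [AddCommGroup P] [AddCommGroup Q]
    (HP : Fin l → AddSubgroup P) (HQ : Fin l → AddSubgroup Q)
    (W : Submodule K (Fin l × (P × Q) → K)) : Prop :=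
  ∀ F ∈ W, ∀ (j : Fin l), ∀ h ∈ HP j, ∀ h' ∈ HQ j, ∀ (x : P) (y : Q),
    F (j, (x + h, y + h')) = F (j, (x, y))

/-- the number of points -/
noncomputable def tot2 {l : ℕ} {P Q : Type} [AddCommGroup P] [AddCommGroup Q]
    (HP : Fin l → AddSubgroup P) (HQ : Fin l → AddSubgroup Q) : ℕ :=
  ∑ j, Nat.card (P ⧸ HP j) * Nat.card (Q ⧸ HQ j)

/-- the number of points on the blocks of a character -/
noncomputable def Sch {K : Type} [Field K] {l : ℕ} {P Q : Type} [AddCommGroup P] [AddCommGroup Q]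
    (HP : Fin l → AddSubgroup P) (HQ : Fin l → AddSubgroup Q) (a : AddChar Q K) : ℕ :=
  ∑ j ∈ blk HQ a, Nat.card (P ⧸ HP j)

lemma sum_Sch {K : Type} [Field K] {n : ℕ} [NeZero n] [HasEnoughRootsOfUnity K n] {l : ℕ}
    {P Q : Type} [AddCommGroup P] [AddCommGroup Q] [Fintype Q] [Fintype (AddChar Q K)]
    (hQ : ∀ g : Q, n • g = 0)
    (HP : Fin l → AddSubgroup P) (HQ : Fin l → AddSubgroup Q) :
    ∑ a : AddChar Q K, Sch HP HQ a ≤ tot2 HP HQ := by
  classical
  have h1 : ∀ a : AddChar Q K, Sch HP HQ a =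
      ∑ j : Fin l, if (∀ h ∈ HQ j, a h = 1) then Nat.card (P ⧸ HP j) else 0 := by
    intro a
    unfold Sch
    rw [← sum_filter]
    apply sum_congr
    · ext j
      rw [mem_blk, mem_filter]
      simp
    · intro _ _
      rfl
  rw [sum_congr rfl fun a _ => h1 a, sum_comm]
  unfold tot2
  apply sum_le_sum
  intro j _
  rw [← sum_filter, sum_const, smul_eq_mul, mul_comm]
  exact Nat.mul_le_mul_left _ (card_trivial (n := n) hQ (HQ j))

lemma finrank_le_Sch {K : Type} [Field K] {l : ℕ} {P Q : Type} [AddCommGroup P] [Fintype P]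
    [AddCommGroup Q] {HP : Fin l → AddSubgroup P} {HQ : Fin l → AddSubgroup Q} {a : AddChar Q K}
    (M : Submodule K (Fin l × P → K))
    (hMH : ∀ F ∈ M, ∀ j, ∀ h ∈ HP j, ∀ x, F (j, x + h) = F (j, x))
    (hMJ : ∀ F ∈ M, ∀ j, j ∉ blk HQ a → ∀ x, F (j, x) = 0) :
    finrank K M ≤ Sch HP HQ a := by
  classical
  let Z := Σ j : {j : Fin l // j ∈ blk HQ a}, P ⧸ HP j
  have hfinq : ∀ j : {j : Fin l // j ∈ blk HQ a}, Finite (P ⧸ HP j) := fun j => Quotient.finite _
  have : Fintype Z := Fintype.ofFinite Z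
  let L : M →ₗ[K] (Z → K) :=
    { toFun := fun F z => F.1 (z.1, Quotient.out z.2)
      map_add' := fun F G => rfl
      map_smul' := fun k F => rfl }
  have hL : Function.Injective L := by
    rw [injective_iff_map_eq_zero]
    intro F hF
    apply Subtype.ext
    funext x
    obtain ⟨j, x⟩ := x
    by_cases hj : j ∈ blk HQ a
    · have h4 : F.1 (j, Quotient.out (QuotientAddGroup.mk x : P ⧸ HP j)) = 0 :=
        congrFun hF ⟨⟨j, hj⟩, QuotientAddGroup.mk x⟩
      have h5 : (QuotientAddGroup.mk (Quotient.out (QuotientAddGroup.mk x : P ⧸ HP j)) :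
          P ⧸ HP j) = QuotientAddGroup.mk x := Quotient.out_eq _
      have h6 := QuotientAddGroup.eq.1 h5
      have h7 := hMH F.1 F.2 j _ h6 (Quotient.out (QuotientAddGroup.mk x : P ⧸ HP j))
      rw [add_neg_cancel_left, h4] at h7
      exact h7
    · exact hMJ F.1 F.2 j hj x
  refine (LinearMap.finrank_le_finrank_of_injective hL).trans ?_
  rw [finrank_fintype_fun_eq_card, ← Nat.card_eq_fintype_card, Nat.card_sigma]
  exact le_of_eq (sum_coe_sort (blk HQ a) (fun j => Nat.card (P ⧸ HP j)))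

theorem gen_index (p : ℕ) [hp : Fact p.Prime] (K : Type) [Field K] [Fintype K] [DecidableEq K]
    [CharP K p] (n : ℕ) [NeZero n] [HasEnoughRootsOfUnity K n] (hn : (n : K) ≠ 0) {R δ : ℝ}
    (hR : 0 < R) (hδ : 0 < δ) :
    ∃ c : ℝ, 0 < c ∧ ∀ (l : ℕ) (P Q : Type) [AddCommGroup P] [Fintype P] [AddCommGroup Q]
      [Fintype Q], 0 < l → (∀ g : P, p • g = 0) → (∀ g : Q, n • g = 0) →
      ∀ (HP : Fin l → AddSubgroup P) (HQ : Fin l → AddSubgroup Q)
        (W : Submodule K (Fin l × (P × Q) → K)), InvT W → BInv2 HP HQ W →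
      R * tot2 HP HQ ≤ finrank K W →
      (∀ w ∈ W, w ≠ 0 → ∀ θ : ℝ, (∀ j, ((univ.filter fun a : P × Q => w (j, a) ≠ 0).card : ℝ) ≤
        θ * (Fintype.card P * Fintype.card Q : ℕ)) → δ ≤ θ) →
      c * Real.logb 2 (tot2 HP HQ) ≤ l := by
  classical
  have hn0 : 0 < n := Nat.pos_of_ne_zero (NeZero.ne n)
  have hnr : (1 : ℝ) ≤ n := by exact_mod_cast hn0
  obtain ⟨d, hd⟩ : ∃ d : ℕ, (1 - 1 / (n : ℝ)) ^ d < δ := by
    apply exists_pow_lt_of_lt_one hδ
    have : 0 < 1 / (n : ℝ) := by positivity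
    linarith
  have hd' : (1 - 1 / (n : ℝ)) ^ (d + 1) < δ := by
    refine lt_of_le_of_lt ?_ hd
    rw [pow_succ]
    have h0 : 0 ≤ 1 - 1 / (n : ℝ) := by
      rw [sub_nonneg, div_le_one (by linarith)]; exact hnr
    have h1 : 1 - 1 / (n : ℝ) ≤ 1 := by
      have : 0 < 1 / (n : ℝ) := by positivity
      linarith
    calc (1 - 1 / (n : ℝ)) ^ d * (1 - 1 / (n : ℝ)) ≤ (1 - 1 / (n : ℝ)) ^ d * 1 :=
          mul_le_mul_of_nonneg_left h1 (pow_nonneg h0 _)
      _ = _ := mul_one _
  obtain ⟨C1, hC1⟩ := elem_part p K (half_pos hR) hδ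
  obtain ⟨c, hc⟩ : ∃ c : ℕ, 2 / R ≤ 2 ^ c := by
    obtain ⟨c, hc⟩ := pow_unbounded_of_one_lt (2 / R) (one_lt_two)
    exact ⟨c, hc.le⟩
  set κ := Fintype.card K with hκ
  set E := c + C1 + κ with hE
  set C0 := (2 * n + 1) * (d + 1) + 2 ^ (d + 1) * (E + 1) with hC0
  refine ⟨1 / (E + n ^ 2 * C0 + 1), by positivity, ?_⟩
  intro l P Q _ _ _ _ hl hP hQ HP HQ W hW hB hdim hdist
  have hPpos : 0 < Fintype.card P := Fintype.card_pos_iff.2 ⟨(0 : P)⟩
  have hQpos : 0 < Fintype.card Q := Fintype.card_pos_iff.2 ⟨(0 : Q)⟩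
  have hl' : (1 : ℝ) ≤ l := by exact_mod_cast hl
  have hfinq : ∀ H : AddSubgroup Q, Finite (Q ⧸ H) := fun H => Quotient.finite _
  have hfinp : ∀ H : AddSubgroup P, Finite (P ⧸ H) := fun H => Quotient.finite _
  have hNj : ∀ j, Nat.card (Q ⧸ HQ j) ≤ tot2 HP HQ := by
    intro j
    have := hfinp (HP j)
    have h2 : 0 < Nat.card (P ⧸ HP j) := Nat.card_pos
    calc Nat.card (Q ⧸ HQ j) ≤ Nat.card (P ⧸ HP j) * Nat.card (Q ⧸ HQ j) :=
          Nat.le_mul_of_pos_left _ h2
      _ ≤ _ := single_le_sum (f := fun j => Nat.card (P ⧸ HP j) * Nat.card (Q ⧸ HQ j))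
          (fun _ _ => Nat.zero_le _) (mem_univ _)
  have hN : 0 < tot2 HP HQ := by
    have := hfinq (HQ ⟨0, hl⟩)
    have h2 : 0 < Nat.card (Q ⧸ HQ ⟨0, hl⟩) := Nat.card_pos
    exact lt_of_lt_of_le h2 (hNj _)
  have hNpos : (0 : ℝ) < tot2 HP HQ := by exact_mod_cast hN
  let _ : Module (ZMod p) P := AddCommGroup.zmodModule hP
  let _ : Fintype (AddChar Q K) :=
    Fintype.ofInjective (fun χ => (χ : Q → K)) DFunLike.coe_injective
  have hBQ : BInv HQ W := by
    intro F hF j h hh x y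
    have h1 := hB F hF j 0 (HP j).zero_mem h hh x y
    rwa [add_zero] at h1
  -- the components
  let M : AddChar Q K → Submodule K (Fin l × P → K) := fun χ => W.comap (twist (Fin l) P χ)
  have hMinv : ∀ χ, ∀ F ∈ M χ, ∀ g : P, (fun x : Fin l × P => F (x.1, x.2 + g)) ∈ M χ := by
    intro χ F hF g
    have h1 := hW _ hF (g, 0)
    have h2 : twist (Fin l) P χ (fun x : Fin l × P => F (x.1, x.2 + g)) =
        fun x : Fin l × (P × Q) => twist (Fin l) P χ F (x.1, x.2 + (g, 0)) := by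
      funext x
      change χ x.2.2 * F (x.1, x.2.1 + g) = χ (x.2.2 + 0) * F (x.1, x.2.1 + g)
      rw [add_zero]
    change twist (Fin l) P χ (fun x : Fin l × P => F (x.1, x.2 + g)) ∈ W
    rw [h2]
    exact h1
  have hMJ : ∀ χ, ∀ F ∈ M χ, ∀ j, j ∉ blk HQ χ → ∀ x, F (j, x) = 0 :=
    fun χ F hF j hj x => comp_supp hBQ hF hj x
  have hMH : ∀ χ, ∀ F ∈ M χ, ∀ j, ∀ h ∈ HP j, ∀ x, F (j, x + h) = F (j, x) := by
    intro χ F hF j h hh x
    have h1 := hB _ hF j h hh 0 (HQ j).zero_mem x 0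
    change χ (0 + 0) * F (j, x + h) = χ 0 * F (j, x) at h1
    rw [add_zero, AddChar.map_zero_eq_one, one_mul, one_mul] at h1
    exact h1
  let D : Finset (AddChar Q K) :=
    univ.filter fun χ => R / 2 * Sch HP HQ χ < finrank K (M χ)
  have hDne : ∀ χ ∈ D, M χ ≠ ⊥ := by
    intro χ hχ h0
    have h1 := (mem_filter.1 hχ).2
    rw [h0, finrank_bot] at h1
    have : 0 ≤ R / 2 * (Sch HP HQ χ : ℝ) := by positivity
    simp only [Nat.cast_zero] at h1
    linarith
  have hDS : ∀ χ ∈ D, Sch HP HQ χ ≤ 2 ^ (C1 * l) := by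
    intro χ hχ
    have hJ : (blk HQ χ).Nonempty := by
      by_contra h0
      rw [not_nonempty_iff_eq_empty] at h0
      apply hDne χ hχ
      rw [eq_bot_iff]
      intro F hF
      rw [Submodule.mem_bot]
      funext x
      exact hMJ χ F hF x.1 (by rw [h0]; exact notMem_empty _) x.2
    apply hC1 l P HP (blk HQ χ) (M χ) hJ (hMinv χ) (hMH χ) (hMJ χ) (mem_filter.1 hχ).2.le
    intro F hF hne θ hθ
    have hne' : twist (Fin l) P χ F ≠ 0 := by
      obtain ⟨x, hx⟩ := Function.ne_iff.1 hne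
      intro h0
      have h1 : twist (Fin l) P χ F (x.1, (x.2, 0)) = 0 := by rw [h0]; rfl
      exact mul_ne_zero (char_ne_zero χ 0) hx h1
    apply hdist _ hF hne' θ
    intro j
    have h1 : (univ.filter fun a : P × Q => twist (Fin l) P χ F (j, a) ≠ 0).card ≤
        (univ.filter fun x : P => F (j, x) ≠ 0).card * Fintype.card Q := by
      rw [← card_univ (α := Q), ← card_product]
      apply card_le_card
      intro a ha
      exact mem_product.2 ⟨mem_filter.2 ⟨mem_univ _, right_ne_zero_of_mul (mem_filter.1 ha).2⟩,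
        mem_univ _⟩
    have h2 : ((univ.filter fun a : P × Q => twist (Fin l) P χ F (j, a) ≠ 0).card : ℝ) ≤
        (univ.filter fun x : P => F (j, x) ≠ 0).card * Fintype.card Q := by exact_mod_cast h1
    refine h2.trans ?_
    push_cast
    calc _ ≤ (θ * Fintype.card P) * (Fintype.card Q : ℝ) :=
          mul_le_mul_of_nonneg_right (hθ j) (by positivity)
      _ = _ := by ring
  -- the number of dense components
  have hD : (tot2 HP HQ : ℝ) ≤ 2 ^ (c + C1 * l) * D.card := by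
    have h1 : (finrank K W : ℝ) ≤ ∑ χ : AddChar Q K, (finrank K (M χ) : ℝ) := by
      exact_mod_cast finrank_le_sum (n := n) hn hQ W hW
    have h2 : ∀ χ : AddChar Q K, (finrank K (M χ) : ℝ) ≤
        (if χ ∈ D then (2 : ℝ) ^ (C1 * l) else 0) + R / 2 * Sch HP HQ χ := by
      intro χ
      have h3 : 0 ≤ R / 2 * (Sch HP HQ χ : ℝ) := by positivity
      by_cases hχ : χ ∈ D
      · rw [if_pos hχ]
        have h4 : (finrank K (M χ) : ℝ) ≤ 2 ^ (C1 * l) := by
          exact_mod_cast (finrank_le_Sch (M χ) (hMH χ) (hMJ χ)).trans (hDS χ hχ)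
        linarith
      · rw [if_neg hχ, zero_add]
        by_contra h4
        push Not at h4
        exact hχ (mem_filter.2 ⟨mem_univ _, h4⟩)
    have h3 : ∑ χ : AddChar Q K, (finrank K (M χ) : ℝ) ≤
        D.card * (2 : ℝ) ^ (C1 * l) + R / 2 * tot2 HP HQ := by
      calc ∑ χ : AddChar Q K, (finrank K (M χ) : ℝ)
          ≤ ∑ χ : AddChar Q K, ((if χ ∈ D then (2 : ℝ) ^ (C1 * l) else 0) +
            R / 2 * Sch HP HQ χ) := sum_le_sum fun χ _ => h2 χ
        _ = D.card * (2 : ℝ) ^ (C1 * l) + R / 2 * ∑ χ : AddChar Q K, (Sch HP HQ χ : ℝ) := by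
            rw [sum_add_distrib, ← mul_sum, sum_ite_mem, univ_inter, sum_const, nsmul_eq_mul]
        _ ≤ _ := by
            have h4 : ∑ χ : AddChar Q K, (Sch HP HQ χ : ℝ) ≤ tot2 HP HQ := by
              exact_mod_cast sum_Sch (n := n) hQ HP HQ
            have := mul_le_mul_of_nonneg_left h4 (half_pos hR).le
            linarith
    have h4 : R / 2 * tot2 HP HQ ≤ D.card * (2 : ℝ) ^ (C1 * l) := by linarith
    calc (tot2 HP HQ : ℝ) = 2 / R * (R / 2 * tot2 HP HQ) := by field_simp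
      _ ≤ 2 ^ c * (D.card * (2 : ℝ) ^ (C1 * l)) :=
          mul_le_mul hc h4 (by positivity) (by positivity)
      _ = _ := by rw [pow_add]; ring
  -- words constant on the orbits of `P`
  have hwex : ∀ χ : AddChar Q K, ∃ w : Fin l → K, χ ∈ D → w ≠ 0 ∧
      (fun x : Fin l × (P × Q) => χ x.2.2 * w x.1) ∈ W := by
    intro χ
    by_cases hχ : χ ∈ D
    · obtain ⟨F, hF, hF0, hFfix⟩ := exists_fixed (N := P) (X := Fin l × P) p
        (fun g => ⟨1, by rw [pow_one]; exact hP g⟩)
        (fun g x => (x.1, x.2 + g)) (fun x => by rw [add_zero])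
        (fun g h x => by rw [add_assoc]) (M χ) (hMinv χ) (hDne χ hχ)
      refine ⟨fun j => F (j, 0), fun _ => ⟨?_, ?_⟩⟩
      · obtain ⟨x, hx⟩ := Function.ne_iff.1 hF0
        intro h0
        apply hx
        have h1 := hFfix x.2 (x.1, 0)
        simp only [zero_add] at h1
        change F (x.1, x.2) = 0
        rw [h1]
        exact congrFun h0 x.1
      · have h1 : (fun x : Fin l × (P × Q) => χ x.2.2 * (fun j => F (j, 0)) x.1) =
            twist (Fin l) P χ F := by
          funext x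
          have h2 := hFfix x.2.1 (x.1, 0)
          simp only [zero_add] at h2
          change χ x.2.2 * F (x.1, 0) = χ x.2.2 * F (x.1, x.2.1)
          rw [h2]
        rw [h1]
        exact hF
    · exact ⟨0, fun h => (hχ h).elim⟩
  choose wf hwf using hwex
  obtain ⟨w, hw⟩ := exists_popular D wf
  set Tw := D.filter fun χ => wf χ = w with hTw
  have hTwmem : ∀ χ ∈ Tw, w ≠ 0 ∧ (fun x : Fin l × (P × Q) => χ x.2.2 * w x.1) ∈ W := by
    intro χ hχ
    rw [hTw, mem_filter] at hχ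
    have := hwf χ hχ.1
    rwa [hχ.2] at this
  have hdens : (tot2 HP HQ : ℝ) ≤ 2 ^ (E * l) * Tw.card := by
    have h2 : (D.card : ℝ) ≤ 2 ^ (κ * l) * Tw.card := by
      have h3 : D.card ≤ 2 ^ (κ * l) * Tw.card := by
        refine hw.trans (Nat.mul_le_mul_right _ ?_)
        rw [Fintype.card_fun, Fintype.card_fin, ← hκ, pow_mul]
        exact Nat.pow_le_pow_left (Nat.lt_two_pow_self).le _
      exact_mod_cast h3
    calc (tot2 HP HQ : ℝ) ≤ 2 ^ (c + C1 * l) * D.card := hD
      _ ≤ 2 ^ (c + C1 * l) * (2 ^ (κ * l) * Tw.card) :=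
          mul_le_mul_of_nonneg_left h2 (by positivity)
      _ = 2 ^ (c + C1 * l + κ * l) * Tw.card := by rw [pow_add _ (c + C1 * l)]; ring
      _ ≤ 2 ^ (E * l) * Tw.card := by
          apply mul_le_mul_of_nonneg_right _ (by positivity)
          apply pow_le_pow_right₀ (by norm_num)
          rw [hE]
          calc c + C1 * l + κ * l ≤ c * l + C1 * l + κ * l := by
                have := Nat.le_mul_of_pos_right c hl
                omega
            _ = _ := by ring
  have hTwpos : 0 < Tw.card := by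
    by_contra h0
    have : Tw.card = 0 := by omega
    rw [this] at hdens
    simp only [Nat.cast_zero, mul_zero] at hdens
    linarith
  obtain ⟨χ0, hχ0⟩ := card_pos.1 hTwpos
  have hw0 : w ≠ 0 := (hTwmem _ hχ0).1
  obtain ⟨j0, hj0⟩ := Function.ne_iff.1 hw0
  simp only [Pi.zero_apply] at hj0
  have hann : HQ j0 ≤ annK Tw := by
    intro h hh
    rw [mem_annK]
    intro χ hχ
    have h2 := hBQ _ (hTwmem χ hχ).2 j0 h hh 0 0
    change χ (0 + h) * w j0 = χ 0 * w j0 at h2
    have h3 := mul_right_cancel₀ hj0 h2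
    rwa [zero_add, AddChar.map_zero_eq_one] at h3
  -- the quotient
  let Γ := Q ⧸ annK Tw
  have : Finite Γ := Quotient.finite _
  let _ : Fintype Γ := Fintype.ofFinite Γ
  let _ : Fintype (AddChar Γ K) :=
    Fintype.ofInjective (fun χ => (χ : Γ → K)) DFunLike.coe_injective
  have hΓ : ∀ g : Γ, n • g = 0 := by
    intro x
    obtain ⟨g, rfl⟩ := QuotientAddGroup.mk'_surjective (annK Tw) x
    rw [← map_nsmul, hQ, map_zero]
  have hΓN : Fintype.card Γ ≤ tot2 HP HQ := by
    have h2 : Fintype.card Γ ≤ Nat.card (Q ⧸ HQ j0) := by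
      rw [← Nat.card_eq_fintype_card]
      have := hfinq (HQ j0)
      apply Nat.card_le_card_of_surjective
        (QuotientAddGroup.map (HQ j0) (annK Tw) (AddMonoidHom.id Q) hann)
      intro x
      obtain ⟨g, rfl⟩ := QuotientAddGroup.mk'_surjective (annK Tw) x
      exact ⟨QuotientAddGroup.mk' _ g, rfl⟩
    exact h2.trans (hNj j0)
  obtain ⟨T', hT', hT'S⟩ := card_pullc Tw
  have hdensΓ : Fintype.card Γ ≤ 2 ^ (E * l) * T'.card := by
    have h2 : (Fintype.card Γ : ℝ) ≤ 2 ^ (E * l) * T'.card := by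
      rw [hT']
      exact le_trans (by exact_mod_cast hΓN) hdens
    exact_mod_cast h2
  have hT'le : T'.card ≤ Fintype.card Γ := by
    rw [← card_char (K := K) (n := n) hΓ]
    exact card_le_univ _
  have hlog2 : ∀ X : ℕ, tot2 HP HQ ≤ 2 ^ X → (X : ℝ) ≤ (E + n ^ 2 * C0) * l →
      1 / (E + n ^ 2 * C0 + 1) * Real.logb 2 (tot2 HP HQ) ≤ l := by
    intro X hX hX'
    have h3 : (tot2 HP HQ : ℝ) ≤ (2 : ℝ) ^ X := by exact_mod_cast hX
    have h4 := Real.logb_le_logb_of_le (b := 2) (by norm_num) hNpos h3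
    rw [Real.logb_pow, Real.logb_self_eq_one (by norm_num), mul_one] at h4
    rw [one_div, inv_mul_le_iff₀ (by positivity)]
    nlinarith
  by_cases hn1 : n = 1
  · have hsub : ∀ g : Γ, g = 0 := by
      intro g
      have := hΓ g
      rwa [hn1, one_smul] at this
    have hcard : Fintype.card Γ = 1 := Fintype.card_eq_one_iff.2 ⟨0, fun g => hsub g⟩
    apply hlog2 (E * l)
    · have h2 : (tot2 HP HQ : ℝ) ≤ 2 ^ (E * l) * 1 := by
        refine hdens.trans (mul_le_mul_of_nonneg_left ?_ (by positivity))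
        rw [← hT']
        rw [hcard] at hT'le
        exact_mod_cast hT'le
      rw [mul_one] at h2
      exact_mod_cast h2
    · push_cast
      have : (0 : ℝ) ≤ n ^ 2 * C0 * l := by positivity
      nlinarith
  obtain ⟨ℓ, r, π, hℓ, hℓn, hπ, hcard⟩ := exists_quotient (m := n) hn0.ne' hn1 Γ hΓ
  have : Fact ℓ.Prime := ⟨hℓ⟩
  have hℓle : ℓ ≤ n := Nat.le_of_dvd hn0 hℓn
  have hr : r ≤ C0 * l := by
    by_contra hcon
    push Not at hcon
    obtain ⟨F, hF, hF0, hsupp⟩ := dense_char K n d (E * l) r ℓ Γ π hℓn hπ hΓ T' hdensΓ (by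
      have h2 : (2 * ℓ + 1) * (d + 1) ≤ (2 * n + 1) * (d + 1) * l := by
        calc (2 * ℓ + 1) * (d + 1) ≤ (2 * n + 1) * (d + 1) := Nat.mul_le_mul_right _ (by omega)
          _ ≤ _ := Nat.le_mul_of_pos_right _ hl
      have h3 : 2 ^ (d + 1) * (E * l + 1) ≤ 2 ^ (d + 1) * (E + 1) * l := by
        have h4 : E * l + 1 ≤ (E + 1) * l := by nlinarith
        calc 2 ^ (d + 1) * (E * l + 1) ≤ 2 ^ (d + 1) * ((E + 1) * l) :=
              Nat.mul_le_mul_left _ h4
          _ = _ := by ring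
      have h5 : C0 * l = (2 * n + 1) * (d + 1) * l + 2 ^ (d + 1) * (E + 1) * l := by
        rw [hC0]; ring
      omega)
    let Θ : (Γ → K) →ₗ[K] (Fin l × (P × Q) → K) :=
      { toFun := fun F x => F (QuotientAddGroup.mk' (annK Tw) x.2.2) * w x.1
        map_add' := by
          intro F F'
          funext x
          simp only [Pi.add_apply, add_mul]
        map_smul' := by
          intro k F
          funext x
          simp only [Pi.smul_apply, smul_eq_mul, RingHom.id_apply, mul_assoc] }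
    have hΘ : Θ F ∈ W := by
      have h2 : Submodule.span K ((fun χ : AddChar Γ K => (χ : Γ → K)) ''
          (T' : Set (AddChar Γ K))) ≤ W.comap Θ := by
        rw [Submodule.span_le]
        rintro _ ⟨χ, hχ, rfl⟩
        exact (hTwmem _ (hT'S χ hχ)).2
      exact h2 hF
    have hne' : Θ F ≠ 0 := by
      obtain ⟨γ, hγ⟩ := Function.ne_iff.1 hF0
      obtain ⟨y, rfl⟩ := QuotientAddGroup.mk'_surjective (annK Tw) γ
      intro h0
      have h2 : Θ F (j0, (0, y)) = 0 := by rw [h0]; rfl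
      exact mul_ne_zero hγ hj0 h2
    let π1 : P × Q →+ Γ := (QuotientAddGroup.mk' (annK Tw)).comp (AddMonoidHom.snd P Q)
    have hπ1 : Function.Surjective π1 :=
      (QuotientAddGroup.mk'_surjective _).comp Prod.snd_surjective
    have h2 := card_pre π1 hπ1 (univ.filter fun x => F x ≠ 0)
    have hΓpos : 0 < Fintype.card Γ := Fintype.card_pos_iff.2 ⟨0⟩
    rw [Fintype.card_prod] at h2
    have h3 := prop_le hℓ.one_le hΓpos h2 hsupp
    have h4 := hdist _ hΘ hne' ((1 - 1 / (ℓ : ℝ)) ^ (d + 1)) (by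
      intro j
      refine le_trans ?_ h3
      have h5 : (univ.filter fun a : P × Q => Θ F (j, a) ≠ 0).card ≤
          (univ.filter fun x => π1 x ∈ univ.filter fun x => F x ≠ 0).card := by
        apply card_le_card
        intro a ha
        refine mem_filter.2 ⟨mem_univ _, mem_filter.2 ⟨mem_univ _, ?_⟩⟩
        exact left_ne_zero_of_mul (mem_filter.1 ha).2
      exact_mod_cast h5)
    have h5 := one_sub_pow_le hℓ.two_le hℓle hd'
    linarith
  -- the conclusion
  apply hlog2 (E * l + n ^ 2 * r)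
  · have h3 : tot2 HP HQ ≤ 2 ^ (E * l) * Fintype.card Γ := by
      have h4 : (tot2 HP HQ : ℝ) ≤ 2 ^ (E * l) * Fintype.card Γ := by
        refine hdens.trans (mul_le_mul_of_nonneg_left ?_ (by positivity))
        rw [← hT']
        exact_mod_cast hT'le
      exact_mod_cast h4
    refine h3.trans ?_
    rw [pow_add]
    apply Nat.mul_le_mul_left
    rw [Nat.card_eq_fintype_card] at hcard
    refine hcard.trans ?_
    calc (ℓ ^ r) ^ n ≤ ((2 ^ n) ^ r) ^ n :=
          Nat.pow_le_pow_left (Nat.pow_le_pow_left (hℓle.trans (Nat.lt_two_pow_self).le) r) n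
      _ = 2 ^ (n ^ 2 * r) := by
          rw [← pow_mul, ← pow_mul]
          congr 1
          ring
  · have h3 : (r : ℝ) ≤ C0 * l := by exact_mod_cast hr
    push_cast
    have h4 : (n : ℝ) ^ 2 * r ≤ n ^ 2 * (C0 * l) := mul_le_mul_of_nonneg_left h3 (by positivity)
    nlinarith

end Pool.Agent.Helper479_gq
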