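import Pool.Agent.Helper479_gq.ActPerm

/-!
Groups of automorphisms with a normal `p`-subgroup `N` whose quotient is abelian of bounded
exponent: at least a constant times `log (n / |N|)` orbits.
-/

set_option autoImplicit false

open Finset Module

namespace Pool.Agent.Helper479_gq

open Helper479_mod (exists_infoK finrank_le_of_info)

section

variable {Ω : Type} [Fintype Ω]

/-- the orbits of `N` -/
abbrev Orb (N : Subgroup (Equiv.Perm Ω)) : Type := MulAction.orbitRel.Quotient N Ω

/-- the orbit of a point -/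
def toOrb (N : Subgroup (Equiv.Perm Ω)) (x : Ω) : Orb N := Quotient.mk'' x

lemma toOrb_eq {N : Subgroup (Equiv.Perm Ω)} {x y : Ω} :
    toOrb N x = toOrb N y ↔ ∃ g ∈ N, g y = x := by
  constructor
  · intro h
    obtain ⟨g, hg⟩ := Quotient.exact' h
    exact ⟨g, g.2, hg⟩
  · rintro ⟨g, hg, h⟩
    exact Quotient.sound' ⟨⟨g, hg⟩, h⟩

lemma toOrb_surj (N : Subgroup (Equiv.Perm Ω)) : Function.Surjective (toOrb N) :=
  Quotient.mk''_surjective

/-- the points of a set of orbits of a group that acts freely -/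
lemma card_orb_pre [DecidableEq Ω] (N : Subgroup (Equiv.Perm Ω)) [DecidableEq (Orb N)]
    (hfree : ∀ g ∈ N, ∀ x : Ω, g x = x → g = 1) (I : Finset (Orb N)) :
    (univ.filter fun x : Ω => toOrb N x ∈ I).card = I.card * Nat.card N := by
  classical
  have hfin : Fintype N := Fintype.ofFinite N
  let f : Orb N × N → Ω := fun z => (z.2 : Equiv.Perm Ω) (Quotient.out z.1)
  have hout : ∀ q : Orb N, toOrb N (Quotient.out q) = q := fun q => Quotient.out_eq' q
  have hfq : ∀ z, toOrb N (f z) = z.1 := by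
    intro z
    rw [← hout z.1]
    exact toOrb_eq.2 ⟨z.2, z.2.2, rfl⟩
  have hf : Function.Bijective f := by
    constructor
    · rintro ⟨q, g⟩ ⟨q', g'⟩ h
      have h1 : q = q' := by
        have := congrArg (toOrb N) h
        rwa [hfq, hfq] at this
      subst h1
      have h2 : ((g⁻¹ * g' : N) : Equiv.Perm Ω) (Quotient.out q) = Quotient.out q := by
        rw [Subgroup.coe_mul, Equiv.Perm.mul_apply]
        have h3 : (g' : Equiv.Perm Ω) (Quotient.out q) = (g : Equiv.Perm Ω) (Quotient.out q) :=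
          h.symm
        rw [h3, Subgroup.coe_inv]
        exact Equiv.symm_apply_apply _ _
      have h3 := hfree _ (g⁻¹ * g' : N).2 _ h2
      have h4 : (g⁻¹ * g' : N) = 1 := Subtype.ext h3
      rw [inv_mul_eq_one.1 h4]
    · intro x
      obtain ⟨g, hg, h⟩ := toOrb_eq.1 (hout (toOrb N x)).symm
      exact ⟨(toOrb N x, ⟨g, hg⟩), h⟩
  rw [Nat.card_eq_fintype_card, ← card_univ, ← card_product]
  symm
  apply card_equiv (Equiv.ofBijective f hf)
  intro z
  rw [mem_product, mem_filter]
  change _ ↔ _ ∧ toOrb N (f z) ∈ I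
  rw [hfq]
  simp

variable {K : Type} [Field K] [Fintype K]

/-- a nonzero space invariant under a `p`-group has a nonzero invariant element -/
lemma exists_fixedG (N : Subgroup (Equiv.Perm Ω)) (p : ℕ) [hp : Fact p.Prime] [CharP K p]
    (hN : IsPGroup p N) (M : Submodule K (Ω → K))
    (hM : ∀ F ∈ M, ∀ g ∈ N, (fun x => F (g x)) ∈ M)
    (hne : M ≠ ⊥) : ∃ F ∈ M, F ≠ 0 ∧ ∀ g ∈ N, ∀ x, F (g x) = F x := by
  classical
  let _ : MulAction N M :=
    { smul := fun g F => ⟨fun x => F.1 (((g⁻¹ : N) : Equiv.Perm Ω) x), hM F.1 F.2 _ (g⁻¹ : N).2⟩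
      one_smul := by
        intro F
        apply Subtype.ext
        funext x
        change F.1 ((((1 : N)⁻¹ : N) : Equiv.Perm Ω) x) = F.1 x
        rw [inv_one]
        rfl
      mul_smul := by
        intro g h F
        apply Subtype.ext
        funext x
        change F.1 ((((g * h)⁻¹ : N) : Equiv.Perm Ω) x) =
          F.1 (((h⁻¹ : N) : Equiv.Perm Ω) (((g⁻¹ : N) : Equiv.Perm Ω) x))
        rw [mul_inv_rev]
        rfl }
  have : Nontrivial M := Submodule.nontrivial_iff_ne_bot.2 hne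
  have : Finite M := inferInstance
  have hcard : p ∣ Nat.card M := by
    have h1 : Nat.card M = Nat.card K ^ finrank K M := Module.natCard_eq_pow_finrank
    have h2 : p ∣ Nat.card K := by
      rw [Nat.card_eq_fintype_card, ← CharP.cast_eq_zero_iff K p]
      exact Nat.cast_card_eq_zero K
    have h5 : finrank K M ≠ 0 := by
      have : 0 < finrank K M := Module.finrank_pos
      omega
    rw [h1]
    exact h2.trans (dvd_pow_self _ h5)
  have h0 : (0 : M) ∈ MulAction.fixedPoints N M := by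
    intro g
    apply Subtype.ext
    funext x
    rfl
  obtain ⟨F, hF, hF0⟩ := hN.exists_fixed_point_of_prime_dvd_card_of_fixed_point M hcard h0
  refine ⟨F.1, F.2, fun h => hF0 (Subtype.ext h.symm), ?_⟩
  intro g hg x
  have h1 := hF (⟨g, hg⟩⁻¹ : N)
  have h2 := congrArg (fun F : M => F.1 x) h1
  change F.1 ((((⟨g, hg⟩⁻¹ : N)⁻¹ : N) : Equiv.Perm Ω) x) = F.1 x at h2
  rwa [inv_inv] at h2

/-- functions of the orbits -/
def pullO (K : Type) [Field K] (N : Subgroup (Equiv.Perm Ω)) : (Orb N → K) →ₗ[K] (Ω → K) :=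
  LinearMap.funLeft K K (toOrb N)

omit [Fintype Ω] [Fintype K] in
lemma pullO_apply (N : Subgroup (Equiv.Perm Ω)) (c : Orb N → K) (x : Ω) :
    pullO K N c x = c (toOrb N x) := rfl

/-- the dimension bound -/
lemma finrank_pullO (N : Subgroup (Equiv.Perm Ω)) (p : ℕ) [hp : Fact p.Prime] [CharP K p]
    (hN : IsPGroup p N) (hfree : ∀ g ∈ N, ∀ x : Ω, g x = x → g = 1)
    (M : Submodule K (Ω → K)) (hM : ∀ F ∈ M, ∀ g ∈ N, (fun x => F (g x)) ∈ M) :
    finrank K M ≤ finrank K (M.comap (pullO K N)) * Nat.card N := by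
  classical
  have : Fintype (Orb N) := Fintype.ofFinite _
  obtain ⟨I, hI, hIcard⟩ := exists_infoK (M.comap (pullO K N))
  let Jset : Finset Ω := univ.filter fun x => toOrb N x ∈ I
  have hinfo : ∀ w ∈ M, (∀ i ∈ Jset, w i = 0) → w = 0 := by
    intro w hw h0
    let M' : Submodule K (Ω → K) :=
      { carrier := {F | F ∈ M ∧ ∀ i ∈ Jset, F i = 0}
        add_mem' := by
          rintro F F' ⟨h1, h2⟩ ⟨h3, h4⟩
          exact ⟨M.add_mem h1 h3, fun i hi => by
            rw [Pi.add_apply, h2 i hi, h4 i hi, add_zero]⟩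
        zero_mem' := ⟨M.zero_mem, fun _ _ => rfl⟩
        smul_mem' := by
          rintro k F ⟨h1, h2⟩
          exact ⟨M.smul_mem k h1, fun i hi => by
            rw [Pi.smul_apply, h2 i hi, smul_zero]⟩ }
    by_contra hne
    have hM'ne : M' ≠ ⊥ := by
      intro hbot
      have : w ∈ M' := ⟨hw, h0⟩
      rw [hbot, Submodule.mem_bot] at this
      exact hne this
    obtain ⟨F, hF, hFne, hFfix⟩ := exists_fixedG N p hN M'
      (by
        rintro F ⟨hF1, hF2⟩ g hg
        refine ⟨hM F hF1 g hg, ?_⟩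
        intro i hi
        apply hF2
        have h1 := (mem_filter.1 hi).2
        refine mem_filter.2 ⟨mem_univ _, ?_⟩
        have h2 : toOrb N (g i) = toOrb N i := toOrb_eq.2 ⟨g, hg, rfl⟩
        rw [h2]
        exact h1)
      hM'ne
    let P : Orb N → K := fun q => F (Quotient.out q)
    have hout : ∀ q : Orb N, toOrb N (Quotient.out q) = q := fun q => Quotient.out_eq' q
    have hPF : pullO K N P = F := by
      funext x
      obtain ⟨g, hg, h⟩ := toOrb_eq.1 (hout (toOrb N x))
      rw [pullO_apply]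
      change F (Quotient.out (toOrb N x)) = F x
      rw [← h, hFfix g hg]
    have hPmem : P ∈ M.comap (pullO K N) := by
      rw [Submodule.mem_comap, hPF]
      exact hF.1
    have hP0 : P = 0 := by
      apply hI P hPmem
      intro i hi
      apply hF.2 (Quotient.out i)
      refine mem_filter.2 ⟨mem_univ _, ?_⟩
      rw [hout]
      exact hi
    apply hFne
    rw [← hPF, hP0, map_zero]
  have h1 := finrank_le_of_info hinfo
  have h2 : Jset.card = I.card * Nat.card N := card_orb_pre N hfree I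
  rw [h2, hIcard] at h1
  exact h1

end

/-- groups of automorphisms with a normal `p`-subgroup whose quotient is abelian of bounded
exponent -/
theorem by_orbits (F : Type) [Field F] [Fintype F] [DecidableEq F] (m : ℕ) (hm : 0 < m)
    {ρ δ : ℝ} (hρ : 0 < ρ) (hδ : 0 < δ) :
    ∃ κ : ℝ, 0 < κ ∧ ∀ (Ω : Type) [Fintype Ω] (C : Submodule F (Ω → F))
      (G N : Subgroup (Equiv.Perm Ω)),
      (∀ g ∈ G, ∀ c ∈ C, (fun x => c (g x)) ∈ C) →
      (∀ g ∈ G, g ^ ringChar F = 1 → ∀ x : Ω, g x = x → g = 1) →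
      N ≤ G → (∀ g ∈ G, ∀ h ∈ N, g * h * g⁻¹ ∈ N) → IsPGroup (ringChar F) N →
      (∀ g ∈ G, ∀ h ∈ G, g * h * g⁻¹ * h⁻¹ ∈ N) → (∀ g ∈ G, g ^ m ∈ N) →
      ρ * (Fintype.card Ω : ℝ) ≤ finrank F C →
      (∀ c ∈ C, c ≠ 0 → δ * (Fintype.card Ω : ℝ) ≤ hammingNorm c) →
      κ * Real.logb 2 (Fintype.card Ω / Nat.card N) ≤
        Nat.card (MulAction.orbitRel.Quotient G Ω) := by
  classical
  obtain ⟨κ, hκ, h⟩ := act_orbits F m hm hρ hδ
  refine ⟨κ, hκ, ?_⟩
  have hchar : CharP F (ringChar F) := ringChar.charP F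
  revert h
  generalize ringChar F = p at hchar
  intro h
  have hp : p.Prime := CharP.char_is_prime F p
  have : Fact p.Prime := ⟨hp⟩
  intro Ω _ C G N hC hfixp hNG hnorm hNp hcomm hexp hdim hdist
  have hfinO : Fintype (Orb N) := Fintype.ofFinite _
  -- `N` acts freely
  have hfree : ∀ g ∈ N, ∀ x : Ω, g x = x → g = 1 := by
    intro g hg x hx
    obtain ⟨k, hk⟩ := hNp ⟨g, hg⟩
    have hk' : g ^ p ^ k = 1 := congrArg (fun y : N => (y : Equiv.Perm Ω)) hk
    exact fix_of_prime hfixp k g (hNG hg) hk' x hx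
  have hNpos : (0 : ℝ) < Nat.card N := by
    have : 0 < Nat.card N := Nat.card_pos
    exact_mod_cast this
  have hcardΩ : Fintype.card Ω = Fintype.card (Orb N) * Nat.card N := by
    have h1 := card_orb_pre N hfree univ
    simpa using h1
  have hcardΩ' : (Fintype.card Ω : ℝ) = Fintype.card (Orb N) * Nat.card N := by
    rw [hcardΩ]; push_cast; rfl
  have hstep : ∀ g ∈ G, ∀ x y, toOrb N x = toOrb N y → toOrb N (g x) = toOrb N (g y) := by
    intro g hg x y hxy
    obtain ⟨n, hn, rfl⟩ := toOrb_eq.1 hxy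
    apply toOrb_eq.2
    refine ⟨g * n * g⁻¹, hnorm g hg n hn, ?_⟩
    rw [Equiv.Perm.mul_apply, Equiv.Perm.mul_apply]
    congr 2
    exact Equiv.symm_apply_apply _ _
  -- the action on the orbits
  let instA : MulAction G (Orb N) :=
    { smul := fun g q => toOrb N ((g : Equiv.Perm Ω) (Quotient.out q))
      one_smul := by
        intro q
        change toOrb N (Quotient.out q) = q
        exact Quotient.out_eq' q
      mul_smul := by
        intro g h q
        change toOrb N ((g : Equiv.Perm Ω) ((h : Equiv.Perm Ω) (Quotient.out q))) =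
          toOrb N ((g : Equiv.Perm Ω)
            (Quotient.out (toOrb N ((h : Equiv.Perm Ω) (Quotient.out q)))))
        have h1 : toOrb N (Quotient.out (toOrb N ((h : Equiv.Perm Ω) (Quotient.out q)))) =
            toOrb N ((h : Equiv.Perm Ω) (Quotient.out q)) := Quotient.out_eq' _
        exact (hstep g g.2 _ _ h1).symm }
  let τ : G →* Equiv.Perm (Orb N) := MulAction.toPermHom G (Orb N)
  have hτ : ∀ (g : G) (x : Ω), τ g (toOrb N x) = toOrb N ((g : Equiv.Perm Ω) x) := by
    intro g x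
    change toOrb N ((g : Equiv.Perm Ω) (Quotient.out (toOrb N x))) = _
    exact hstep g g.2 _ _ (Quotient.out_eq' _)
  have hτN : ∀ g : G, (g : Equiv.Perm Ω) ∈ N → τ g = 1 := by
    intro g hg
    ext q
    obtain ⟨x, rfl⟩ := toOrb_surj N q
    rw [hτ]
    exact toOrb_eq.2 ⟨g, hg, rfl⟩
  -- the code on the orbits
  let C' : Submodule F (Orb N → F) := C.comap (pullO F N)
  have hkey := h (Orb N) C' τ.range
    (by
      rintro _ ⟨g, rfl⟩ c hc
      have h1 : pullO F N (fun q => c (τ g q)) =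
          fun x => pullO F N c ((g : Equiv.Perm Ω) x) := by
        funext x
        rw [pullO_apply, pullO_apply, hτ]
      change pullO F N (fun q => c (τ g q)) ∈ C
      rw [h1]
      exact hC g g.2 _ hc)
    (by
      rintro _ ⟨g, rfl⟩ _ ⟨g', rfl⟩
      rw [← map_mul, ← map_mul, ← mul_inv_eq_one, ← map_inv, ← map_mul]
      apply hτN
      have h1 := hcomm g g.2 g' g'.2
      have h2 : ((g * g' * (g' * g)⁻¹ : G) : Equiv.Perm Ω) =
          (g : Equiv.Perm Ω) * g' * (g : Equiv.Perm Ω)⁻¹ * (g' : Equiv.Perm Ω)⁻¹ := by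
        rw [Subgroup.coe_mul, Subgroup.coe_mul, Subgroup.coe_inv, Subgroup.coe_mul]
        group
      rw [h2]
      exact h1)
    (by
      rintro _ ⟨g, rfl⟩
      rw [← map_pow]
      apply hτN
      rw [Subgroup.coe_pow]
      exact hexp g g.2)
    (by
      rintro _ ⟨g, rfl⟩ hg q hq
      obtain ⟨x, rfl⟩ := toOrb_surj N q
      rw [hτ] at hq
      obtain ⟨n, hn, hn'⟩ := toOrb_eq.1 hq
      -- `n x = g x`
      let s : G := ⟨n, hNG hn⟩⁻¹ * g
      have hs : τ s = τ g := by
        rw [map_mul, map_inv, hτN ⟨n, hNG hn⟩ hn, inv_one, one_mul]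
      have hsx : (s : Equiv.Perm Ω) x = x := by
        change (n⁻¹ * (g : Equiv.Perm Ω)) x = x
        rw [Equiv.Perm.mul_apply, ← hn']
        exact Equiv.symm_apply_apply _ _
      have hcop : Nat.Coprime p (orderOf (s : Equiv.Perm Ω)) := by
        rw [Nat.Prime.coprime_iff_not_dvd hp]
        intro hdvd
        obtain ⟨k, hk⟩ := hdvd
        have hopos : 0 < orderOf (s : Equiv.Perm Ω) := orderOf_pos _
        have hkpos : 0 < k := by
          rcases Nat.eq_zero_or_pos k with h0 | h0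
          · rw [h0, mul_zero] at hk
            omega
          · exact h0
        have h1 : ((s : Equiv.Perm Ω) ^ k) ^ p = 1 := by
          rw [← pow_mul, mul_comm, ← hk, pow_orderOf_eq_one]
        have h2 := hfixp _ (G.pow_mem s.2 k) h1 x (pow_fix hsx k)
        have h3 := orderOf_dvd_of_pow_eq_one h2
        have h4 := Nat.le_of_dvd hkpos h3
        rw [hk] at h4
        have h5 := hp.two_le
        nlinarith
      obtain ⟨k, hk⟩ := exists_pow_eq_self_of_coprime hcop
      have h1 : (s ^ p) ^ k = s := by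
        apply Subtype.ext
        rw [Subgroup.coe_pow, Subgroup.coe_pow]
        exact hk
      rw [← hs, ← h1, map_pow, map_pow, hs, hg, one_pow])
    (by
      have h1 : (finrank F C : ℝ) ≤ finrank F C' * Nat.card N := by
        exact_mod_cast finrank_pullO N p hNp hfree C (fun c hc g hg => hC g (hNG hg) c hc)
      have h2 : ρ * (Fintype.card (Orb N)) * Nat.card N ≤ finrank F C' * Nat.card N := by
        calc _ = ρ * (Fintype.card Ω : ℝ) := by rw [hcardΩ']; ring
          _ ≤ _ := hdim.trans h1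
      exact le_of_mul_le_mul_right h2 hNpos)
    (by
      intro c hc hne
      have hne' : pullO F N c ≠ 0 := by
        intro h0
        apply hne
        funext q
        obtain ⟨x, rfl⟩ := toOrb_surj N q
        exact congrFun h0 x
      have h1 := hdist _ hc hne'
      have h2 : hammingNorm (pullO F N c) = hammingNorm c * Nat.card N := by
        unfold hammingNorm
        rw [← card_orb_pre N hfree]
        congr 1
        ext x
        simp only [mem_filter, mem_univ, true_and]
        rfl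
      rw [h2, hcardΩ'] at h1
      push_cast at h1
      have h3 : δ * (Fintype.card (Orb N)) * Nat.card N ≤ hammingNorm c * Nat.card N := by
        calc _ = δ * ((Fintype.card (Orb N) : ℝ) * Nat.card N) := by ring
          _ ≤ _ := h1
      exact le_of_mul_le_mul_right h3 hNpos)
  have h1 : (Fintype.card Ω : ℝ) / Nat.card N = Fintype.card (Orb N) := by
    rw [hcardΩ', mul_div_cancel_right₀ _ hNpos.ne']
  rw [h1]
  refine hkey.trans ?_
  have h2 : Nat.card (MulAction.orbitRel.Quotient τ.range (Orb N)) ≤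
      Nat.card (MulAction.orbitRel.Quotient G Ω) := by
    have hfin2 : Finite (MulAction.orbitRel.Quotient G Ω) := Quotient.finite _
    let φ : MulAction.orbitRel.Quotient G Ω → MulAction.orbitRel.Quotient τ.range (Orb N) :=
      fun q => Quotient.mk'' (toOrb N (Quotient.out q))
    apply Nat.card_le_card_of_surjective φ
    intro r
    obtain ⟨q, rfl⟩ := Quotient.mk''_surjective r
    obtain ⟨x, rfl⟩ := toOrb_surj N q
    refine ⟨Quotient.mk'' x, ?_⟩
    apply Quotient.sound'
    have h3 : (Quotient.mk'' (Quotient.out (Quotient.mk'' x : MulAction.orbitRel.Quotient G Ω)) :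
        MulAction.orbitRel.Quotient G Ω) = Quotient.mk'' x := Quotient.out_eq' _
    obtain ⟨g, hg⟩ := Quotient.exact' h3
    refine ⟨⟨τ g, ⟨g, rfl⟩⟩, ?_⟩
    change τ g (toOrb N x) = toOrb N _
    rw [hτ]
    exact congrArg (toOrb N) hg
  exact_mod_cast h2

/-- the same with subgroups of `G` -/
theorem by_orbits' (F : Type) [Field F] [Fintype F] [DecidableEq F] (m : ℕ) (hm : 0 < m)
    {ρ δ : ℝ} (hρ : 0 < ρ) (hδ : 0 < δ) :
    ∃ κ : ℝ, 0 < κ ∧ ∀ (Ω : Type) [Fintype Ω] (C : Submodule F (Ω → F))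
      (G : Subgroup (Equiv.Perm Ω)) (P : Subgroup G),
      (∀ g ∈ G, ∀ c ∈ C, (fun x => c (g x)) ∈ C) →
      (∀ g ∈ G, g ^ ringChar F = 1 → ∀ x : Ω, g x = x → g = 1) →
      P.Normal → IsPGroup (ringChar F) P →
      (∀ g h : G, g * h * g⁻¹ * h⁻¹ ∈ P) → (∀ g : G, g ^ m ∈ P) →
      ρ * (Fintype.card Ω : ℝ) ≤ finrank F C →
      (∀ c ∈ C, c ≠ 0 → δ * (Fintype.card Ω : ℝ) ≤ hammingNorm c) →
      κ * Real.logb 2 (Fintype.card Ω / Nat.card P) ≤
        Nat.card (MulAction.orbitRel.Quotient G Ω) := by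
  obtain ⟨κ, hκ, h⟩ := by_orbits F m hm hρ hδ
  refine ⟨κ, hκ, ?_⟩
  intro Ω _ C G P hC hfix hnorm hp hcomm hexp hdim hdist
  have hcard : Nat.card (P.map G.subtype) = Nat.card P :=
    (Nat.card_congr (P.equivMapOfInjective _ G.subtype_injective).toEquiv).symm
  rw [← hcard]
  apply h Ω C G (P.map G.subtype) hC hfix
  · rintro _ ⟨g, -, rfl⟩
    exact g.2
  · rintro g hg _ ⟨n, hn, rfl⟩
    exact ⟨⟨g, hg⟩ * n * ⟨g, hg⟩⁻¹, hnorm.conj_mem n hn ⟨g, hg⟩, rfl⟩
  · exact hp.of_equiv (P.equivMapOfInjective _ G.subtype_injective)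
  · intro g hg g' hg'
    exact ⟨_, hcomm ⟨g, hg⟩ ⟨g', hg'⟩, rfl⟩
  · intro g hg
    exact ⟨_, hexp ⟨g, hg⟩, rfl⟩
  · exact hdim
  · exact hdist

end Pool.Agent.Helper479_gq
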