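import Pool.Agent.Helper479_gq.Gen
import Pool.Agent.Helper479_gq.PBy

/-!
Abelian groups of automorphisms of exponent dividing `m`, where the square of the characteristic
does not divide `m`, with an arbitrary action; extensions by normal `p`-subgroups that act freely.
-/

set_option autoImplicit false

open Finset Module

namespace Pool.Agent.Helper479_gq

/-- the size of `Ω` -/
lemma orbit_struct2 {Ω : Type} [Fintype Ω] {P Q : Type} [AddCommGroup P] [AddCommGroup Q]
    [Fintype P] [Fintype Q] {l : ℕ} (σ : P × Q → Equiv.Perm Ω)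
    (hσ : ∀ a b, σ (a + b) = σ a * σ b) (rep : Fin l → Ω) (HP : Fin l → AddSubgroup P)
    (HQ : Fin l → AddSubgroup Q)
    (hHP : ∀ j y, y ∈ HP j ↔ σ (y, 0) (rep j) = rep j)
    (hHQ : ∀ j y, y ∈ HQ j ↔ σ (0, y) (rep j) = rep j)
    (hfix : ∀ j a, σ a (rep j) = rep j → a.1 ∈ HP j ∧ a.2 ∈ HQ j)
    (hrep : ∀ x, ∃ j a, σ a (rep j) = x)
    (hinj : ∀ j j' a, σ a (rep j) = rep j' → j = j') :
    Fintype.card Ω = tot2 HP HQ := by
  classical
  have hσ0 : σ 0 = 1 := by
    have h1 := hσ 0 0
    rw [add_zero] at h1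
    exact (mul_eq_left.1 h1.symm)
  have hσneg : ∀ a, σ (-a) = (σ a)⁻¹ := by
    intro a
    rw [eq_inv_iff_mul_eq_one, ← hσ, neg_add_cancel, hσ0]
  have hfinq : ∀ j, Finite (Q ⧸ HQ j) := fun j => Quotient.finite _
  have hfinp : ∀ j, Finite (P ⧸ HP j) := fun j => Quotient.finite _
  let g : (Σ j : Fin l, (P ⧸ HP j) × (Q ⧸ HQ j)) → Ω :=
    fun z => σ (z.2.1.out, z.2.2.out) (rep z.1)
  have hg : Function.Bijective g := by
    constructor
    · rintro ⟨j, x, q⟩ ⟨j', x', q'⟩ h
      change σ (x.out, q.out) (rep j) = σ (x'.out, q'.out) (rep j') at h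
      have h1 : σ (-(x'.out, q'.out) + (x.out, q.out)) (rep j) = rep j' := by
        rw [hσ, Equiv.Perm.mul_apply, h, hσneg]
        exact Equiv.symm_apply_apply _ _
      have hj := hinj _ _ _ h1
      subst hj
      obtain ⟨h2, h4⟩ := hfix _ _ h1
      have h5 : (QuotientAddGroup.mk q'.out : Q ⧸ HQ j) = QuotientAddGroup.mk q.out :=
        QuotientAddGroup.eq.2 h4
      have h6 : (QuotientAddGroup.mk q.out : Q ⧸ HQ j) = q := Quotient.out_eq q
      have h7 : (QuotientAddGroup.mk q'.out : Q ⧸ HQ j) = q' := Quotient.out_eq q'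
      have h8 : (QuotientAddGroup.mk x'.out : P ⧸ HP j) = QuotientAddGroup.mk x.out :=
        QuotientAddGroup.eq.2 h2
      have h9 : (QuotientAddGroup.mk x.out : P ⧸ HP j) = x := Quotient.out_eq x
      have h10 : (QuotientAddGroup.mk x'.out : P ⧸ HP j) = x' := Quotient.out_eq x'
      rw [← h6, ← h5, h7, ← h9, ← h8, h10]
    · intro ω
      obtain ⟨j, a, rfl⟩ := hrep ω
      obtain ⟨x, y⟩ := a
      refine ⟨⟨j, QuotientAddGroup.mk x, QuotientAddGroup.mk y⟩, ?_⟩
      change σ ((QuotientAddGroup.mk x : P ⧸ HP j).out, (QuotientAddGroup.mk y : Q ⧸ HQ j).out)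
        (rep j) = _
      set y' := (QuotientAddGroup.mk y : Q ⧸ HQ j).out with hy'
      set x' := (QuotientAddGroup.mk x : P ⧸ HP j).out with hx'
      have h1 : (QuotientAddGroup.mk y' : Q ⧸ HQ j) = QuotientAddGroup.mk y := Quotient.out_eq _
      have h2 : -y + y' ∈ HQ j := QuotientAddGroup.eq.1 h1.symm
      have h1' : (QuotientAddGroup.mk x' : P ⧸ HP j) = QuotientAddGroup.mk x := Quotient.out_eq _
      have h2' : -x + x' ∈ HP j := QuotientAddGroup.eq.1 h1'.symm
      have h3 : ((x', y') : P × Q) = (x, y) + ((-x + x', 0) + (0, -y + y')) := by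
        apply Prod.ext
        · change x' = x + ((-x + x') + 0)
          abel
        · change y' = y + (0 + (-y + y'))
          abel
      rw [h3, hσ, hσ, Equiv.Perm.mul_apply, Equiv.Perm.mul_apply, (hHQ j _).1 h2,
        (hHP j _).1 h2']
  have h1 := Nat.card_congr (Equiv.ofBijective g hg)
  rw [Nat.card_sigma] at h1
  rw [← Nat.card_eq_fintype_card, ← h1]
  unfold tot2
  apply sum_congr rfl
  intro j _
  rw [Nat.card_prod]

/-- good codes with an abelian group of automorphisms of exponent dividing `m`, where `p ^ 2` does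
not divide `m`, have at least a constant times `log n` orbits -/
theorem gen_orbits (F : Type) [Field F] [Fintype F] [DecidableEq F] (m : ℕ) (hm : 0 < m)
    (hpm : ¬ ringChar F ^ 2 ∣ m) {ρ δ : ℝ} (hρ : 0 < ρ) (hδ : 0 < δ) :
    ∃ κ : ℝ, 0 < κ ∧ ∀ (Ω : Type) [Fintype Ω] (C : Submodule F (Ω → F))
      (G : Subgroup (Equiv.Perm Ω)),
      (∀ g ∈ G, ∀ c ∈ C, (fun x => c (g x)) ∈ C) →
      (∀ g ∈ G, ∀ h ∈ G, g * h = h * g) → (∀ g ∈ G, g ^ m = 1) →
      ρ * (Fintype.card Ω : ℝ) ≤ finrank F C →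
      (∀ c ∈ C, c ≠ 0 → δ * (Fintype.card Ω : ℝ) ≤ hammingNorm c) →
      κ * Real.logb 2 (Fintype.card Ω) ≤ Nat.card (MulAction.orbitRel.Quotient G Ω) := by
  classical
  have hchar : CharP F (ringChar F) := ringChar.charP F
  revert hpm
  generalize ringChar F = p at hchar
  intro hpm
  have hp : p.Prime := CharP.char_is_prime F p
  have : Fact p.Prime := ⟨hp⟩
  obtain ⟨s, n, hpn, hen⟩ := Nat.exists_eq_pow_mul_and_not_dvd hm.ne' p hp.ne_one
  have hs : s ≤ 1 := by
    by_contra h0
    push Not at h0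
    apply hpm
    rw [hen]
    exact Dvd.dvd.mul_right (pow_dvd_pow p h0) n
  have hnF : (n : F) ≠ 0 := by
    rw [Ne, CharP.cast_eq_zero_iff F p]
    exact hpn
  have hn0 : n ≠ 0 := by
    rintro rfl
    simp at hpn
  have : NeZero (n : F) := ⟨hnF⟩
  have : NeZero n := ⟨hn0⟩
  let K := CyclotomicField n F
  let _ : DecidableEq K := Classical.decEq _
  have : Module.Finite F K := IsCyclotomicExtension.finiteDimensional {n} F K
  have : Finite K := Module.finite_of_finite F
  let _ : Fintype K := Fintype.ofFinite K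
  have hnK : (n : K) ≠ 0 := by
    intro h
    apply hnF
    apply (algebraMap F K).injective
    simpa using h
  have : NeZero (n : K) := ⟨hnK⟩
  have hprim : IsPrimitiveRoot (IsCyclotomicExtension.zeta n F K) n :=
    IsCyclotomicExtension.zeta_spec n F K
  have : HasEnoughRootsOfUnity K n := ⟨⟨_, hprim⟩, rootsOfUnity.isCyclic _ _⟩
  have : CharP K p := charP_of_injective_algebraMap (algebraMap F K).injective p
  obtain ⟨κ, hκ, h⟩ := gen_index p K n hnK hρ hδ
  refine ⟨κ, hκ, ?_⟩
  intro Ω _ C G hC hcomm hexp hdim hdist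
  set l := Nat.card (MulAction.orbitRel.Quotient G Ω) with hl
  rcases Nat.eq_zero_or_pos l with hl0 | hlpos
  · have hempty : IsEmpty Ω := by
      rw [hl, Nat.card_eq_zero] at hl0
      rcases hl0 with h0 | h0
      · exact ⟨fun x => h0.false (Quotient.mk'' x)⟩
      · exact absurd (inferInstance : Finite (MulAction.orbitRel.Quotient G Ω))
          (not_finite_iff_infinite.2 h0)
    rw [Fintype.card_eq_zero, hl0]
    simp
  -- the group
  let instC : CommGroup G :=
    { (inferInstance : Group G) with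
      mul_comm := fun g h => Subtype.ext (hcomm g g.2 h h.2) }
  let A := Additive G
  have hcop : Nat.Coprime (p ^ s) n :=
    Nat.Coprime.pow_left s ((Nat.Prime.coprime_iff_not_dvd hp).2 hpn)
  obtain ⟨P, Q, hP, hQ, ⟨f⟩⟩ := exists_split A hcop (fun g => by
    rw [← hen]
    apply Additive.toMul.injective
    apply Subtype.ext
    exact hexp _ (Additive.toMul g).2)
  have : Fintype P := Fintype.ofFinite P
  have : Fintype Q := Fintype.ofFinite Q
  have hP' : ∀ g : P, p ^ s • g = 0 := fun g => Subtype.ext (hP g g.2)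
  have hP1 : ∀ g : P, p • g = 0 := by
    intro g
    obtain ⟨t, ht⟩ : ∃ t, p = p ^ s * t := by
      rcases Nat.le_one_iff_eq_zero_or_eq_one.1 hs with h0 | h0
      · exact ⟨p, by rw [h0, pow_zero, one_mul]⟩
      · exact ⟨1, by rw [h0, pow_one, mul_one]⟩
    rw [ht, mul_comm, mul_smul, hP', smul_zero]
  have hQ' : ∀ g : Q, n • g = 0 := fun g => Subtype.ext (hQ g g.2)
  let σ : P × Q → Equiv.Perm Ω := fun a => ((Additive.toMul (f a) : G) : Equiv.Perm Ω)
  have hσdef : ∀ a, σ a = ((Additive.toMul (f a) : G) : Equiv.Perm Ω) := fun _ => rfl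
  have hσG : ∀ a, σ a ∈ G := fun a => (Additive.toMul (f a) : G).2
  have hσ : ∀ a b, σ (a + b) = σ a * σ b := by
    intro a b
    rw [hσdef, map_add, toMul_add, Subgroup.coe_mul]
  have hσsm : ∀ (k : ℕ) a, σ (k • a) = σ a ^ k := by
    intro k a
    rw [hσdef, map_nsmul, toMul_nsmul, Subgroup.coe_pow]
  have hσ0 : ∀ a, σ a = 1 → a = 0 := by
    intro a ha
    have h1 : (Additive.toMul (f a) : G) = 1 := Subtype.ext ha
    have h2 : f a = 0 := Additive.toMul.injective h1
    exact (map_eq_zero_iff f f.injective).1 h2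
  have hσsurj : ∀ g : G, ∃ a, σ a = g := by
    intro g
    refine ⟨f.symm (Additive.ofMul g), ?_⟩
    rw [hσdef, AddEquiv.apply_symm_apply]
    rfl
  have hσ1 : σ 0 = 1 := by
    have h1 := hσ 0 0
    rw [add_zero] at h1
    exact (mul_eq_left.1 h1.symm)
  -- the representatives
  let e : MulAction.orbitRel.Quotient G Ω ≃ Fin l := Finite.equivFin _
  let rep : Fin l → Ω := fun j => (e.symm j).out
  have hrepq : ∀ j, (Quotient.mk'' (rep j) : MulAction.orbitRel.Quotient G Ω) = e.symm j :=
    fun j => Quotient.out_eq' _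
  have hrep : ∀ x, ∃ j a, σ a (rep j) = x := by
    intro x
    have h1 : (Quotient.mk'' (rep (e (Quotient.mk'' x))) : MulAction.orbitRel.Quotient G Ω) =
        Quotient.mk'' x := by rw [hrepq, e.symm_apply_apply]
    obtain ⟨g, hg⟩ := Quotient.exact' h1.symm
    obtain ⟨a, ha⟩ := hσsurj g
    refine ⟨e (Quotient.mk'' x), a, ?_⟩
    rw [ha]
    exact hg
  have hinj : ∀ j j' a, σ a (rep j) = rep j' → j = j' := by
    intro j j' a ha
    have h1 : (Quotient.mk'' (rep j') : MulAction.orbitRel.Quotient G Ω) =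
        Quotient.mk'' (rep j) := by
      apply Quotient.sound'
      exact ⟨⟨σ a, hσG a⟩, ha⟩
    rw [hrepq, hrepq] at h1
    exact (e.symm.injective h1).symm
  let HP : Fin l → AddSubgroup P := fun j =>
    { carrier := {y | σ (y, 0) (rep j) = rep j}
      add_mem' := by
        intro y y' hy hy'
        change σ (y + y', 0) (rep j) = rep j
        have h1 : ((y + y', 0) : P × Q) = (y, 0) + (y', 0) := by
          apply Prod.ext
          · rfl
          · exact (add_zero (0 : Q)).symm
        rw [h1, hσ, Equiv.Perm.mul_apply]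
        rw [(hy' : σ (y', 0) (rep j) = rep j)]
        exact hy
      zero_mem' := by
        change σ (0 : P × Q) (rep j) = rep j
        rw [hσ1]
        rfl
      neg_mem' := by
        intro y hy
        change σ (-y, 0) (rep j) = rep j
        have h1 : σ ((-y, 0) + (y, 0) : P × Q) = 1 := by
          have h2 : ((-y, 0) + (y, 0) : P × Q) = 0 := by
            apply Prod.ext
            · exact neg_add_cancel y
            · exact add_zero (0 : Q)
          rw [h2, hσ1]
        rw [hσ] at h1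
        have h2 : (σ (-y, 0) * σ (y, 0)) (rep j) = rep j := by rw [h1]; rfl
        rw [Equiv.Perm.mul_apply, (hy : σ (y, 0) (rep j) = rep j)] at h2
        exact h2 }
  let HQ : Fin l → AddSubgroup Q := fun j =>
    { carrier := {y | σ (0, y) (rep j) = rep j}
      add_mem' := by
        intro y y' hy hy'
        change σ (0, y + y') (rep j) = rep j
        have h1 : ((0, y + y') : P × Q) = (0, y) + (0, y') := by
          apply Prod.ext
          · exact (add_zero (0 : P)).symm
          · rfl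
        rw [h1, hσ, Equiv.Perm.mul_apply]
        rw [(hy' : σ (0, y') (rep j) = rep j)]
        exact hy
      zero_mem' := by
        change σ (0 : P × Q) (rep j) = rep j
        rw [hσ1]
        rfl
      neg_mem' := by
        intro y hy
        change σ (0, -y) (rep j) = rep j
        have h1 : σ ((0, -y) + (0, y) : P × Q) = 1 := by
          have h2 : ((0, -y) + (0, y) : P × Q) = 0 := by
            apply Prod.ext
            · exact add_zero (0 : P)
            · exact neg_add_cancel y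
          rw [h2, hσ1]
        rw [hσ] at h1
        have h2 : (σ (0, -y) * σ (0, y)) (rep j) = rep j := by rw [h1]; rfl
        rw [Equiv.Perm.mul_apply, (hy : σ (0, y) (rep j) = rep j)] at h2
        exact h2 }
  have hHP : ∀ j y, y ∈ HP j ↔ σ (y, 0) (rep j) = rep j := fun _ _ => Iff.rfl
  have hHQ : ∀ j y, y ∈ HQ j ↔ σ (0, y) (rep j) = rep j := fun _ _ => Iff.rfl
  obtain ⟨k, hk1, hk2⟩ := Nat.chineseRemainder hcop 1 0
  have hfix : ∀ j a, σ a (rep j) = rep j → a.1 ∈ HP j ∧ a.2 ∈ HQ j := by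
    intro j a ha
    have h1 : k • a = (a.1, 0) := by
      apply Prod.ext
      · change k • a.1 = a.1
        have h2 : k ≡ 1 [MOD addOrderOf a.1] :=
          hk1.of_dvd (addOrderOf_dvd_of_nsmul_eq_zero (hP' a.1))
        have h3 := nsmul_eq_nsmul_iff_modEq.2 h2
        rwa [one_smul] at h3
      · change k • a.2 = 0
        obtain ⟨t, ht⟩ := (Nat.modEq_zero_iff_dvd).1 hk2
        rw [ht, mul_comm, mul_smul, hQ', smul_zero]
    have h2 : σ (a.1, 0) (rep j) = rep j := by
      rw [← h1, hσsm]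
      exact pow_fix ha k
    refine ⟨h2, ?_⟩
    have h3 : a = (0, a.2) + (a.1, 0) := by
      apply Prod.ext
      · exact (zero_add a.1).symm
      · exact (add_zero a.2).symm
    change σ (0, a.2) (rep j) = rep j
    rw [h3, hσ, Equiv.Perm.mul_apply, h2] at ha
    exact ha
  have hcardΩ : Fintype.card Ω = tot2 HP HQ :=
    orbit_struct2 σ hσ rep HP HQ hHP hHQ hfix hrep hinj
  have hcardΩ' : (Fintype.card Ω : ℝ) = tot2 HP HQ := by
    rw [hcardΩ]
  have hΩpos : (0 : ℝ) < Fintype.card Ω := by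
    exact_mod_cast Fintype.card_pos_iff.2 ⟨rep ⟨0, hlpos⟩⟩
  -- the space of functions
  let φ : Fin l × (P × Q) → Ω := fun z => σ z.2 (rep z.1)
  have hφ : Function.Surjective φ := by
    intro x
    obtain ⟨j, a, ha⟩ := hrep x
    exact ⟨(j, a), ha⟩
  let Φ : (Ω → K) →ₗ[K] (Fin l × (P × Q) → K) := LinearMap.funLeft K K φ
  have hΦ : Function.Injective Φ := LinearMap.funLeft_injective_of_surjective K K φ hφ
  let W : Submodule K (Fin l × (P × Q) → K) := (extC K C).map Φ
  rw [hcardΩ']
  apply h l P Q hlpos hP1 hQ' HP HQ W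
  · rintro _ ⟨c, hc, rfl⟩ g
    refine ⟨fun x => c (σ g x), ?_, ?_⟩
    · intro φ'
      exact hC _ (hσG g) _ (hc φ')
    · funext x
      change c (σ g (σ x.2 (rep x.1))) = c (σ (x.2 + g) (rep x.1))
      rw [add_comm x.2 g, hσ, Equiv.Perm.mul_apply]
  · rintro _ ⟨c, hc, rfl⟩ j x' hx' y' hy' x y
    change c (σ (x + x', y + y') (rep j)) = c (σ (x, y) (rep j))
    have h1 : ((x + x', y + y') : P × Q) = (x, y) + ((x', 0) + (0, y')) := by
      apply Prod.ext
      · change x + x' = x + (x' + 0)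
        rw [add_zero]
      · change y + y' = y + (0 + y')
        rw [zero_add]
    rw [h1, hσ, hσ, Equiv.Perm.mul_apply, Equiv.Perm.mul_apply, (hHQ j y').1 hy',
      (hHP j x').1 hx']
  · rw [← hcardΩ']
    have h1 : finrank K W = finrank K (extC K C) :=
      (Submodule.equivMapOfInjective Φ hΦ (extC K C)).finrank_eq.symm
    rw [h1]
    have h2 : (finrank F C : ℝ) ≤ finrank K (extC K C) := by exact_mod_cast finrank_extC C
    exact hdim.trans h2
  · rintro _ ⟨c, hc, rfl⟩ hne θ hθ
    have hne' : c ≠ 0 := by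
      rintro rfl
      exact hne (map_zero _)
    obtain ⟨g, hg, hg0, hgc⟩ := descend hc hne'
    have h1 := hdist g hg hg0
    have h2 : (hammingNorm g : ℝ) ≤ hammingNorm c := by exact_mod_cast hgc
    have h3 := weight_le σ hσ rep hrep c θ hθ
    have h4 : δ * (Fintype.card Ω : ℝ) ≤ θ * Fintype.card Ω := h1.trans (h2.trans h3)
    exact le_of_mul_le_mul_right h4 hΩpos

/-- groups of automorphisms with a normal `p`-subgroup whose quotient is abelian of bounded
exponent -/
theorem gen_by (F : Type) [Field F] [Fintype F] [DecidableEq F] (m : ℕ) (hm : 0 < m)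
    (hpm : ¬ ringChar F ^ 2 ∣ m) {ρ δ : ℝ} (hρ : 0 < ρ) (hδ : 0 < δ) :
    ∃ κ : ℝ, 0 < κ ∧ ∀ (Ω : Type) [Fintype Ω] (C : Submodule F (Ω → F))
      (G N : Subgroup (Equiv.Perm Ω)),
      (∀ g ∈ G, ∀ c ∈ C, (fun x => c (g x)) ∈ C) →
      N ≤ G → (∀ g ∈ G, ∀ h ∈ N, g * h * g⁻¹ ∈ N) → IsPGroup (ringChar F) N →
      (∀ g ∈ N, ∀ x : Ω, g x = x → g = 1) →
      (∀ g ∈ G, ∀ h ∈ G, g * h * g⁻¹ * h⁻¹ ∈ N) → (∀ g ∈ G, g ^ m ∈ N) →
      ρ * (Fintype.card Ω : ℝ) ≤ finrank F C →
      (∀ c ∈ C, c ≠ 0 → δ * (Fintype.card Ω : ℝ) ≤ hammingNorm c) →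
      κ * Real.logb 2 (Fintype.card Ω / Nat.card N) ≤
        Nat.card (MulAction.orbitRel.Quotient G Ω) := by
  classical
  obtain ⟨κ, hκ, h⟩ := gen_orbits F m hm hpm hρ hδ
  refine ⟨κ, hκ, ?_⟩
  have hchar : CharP F (ringChar F) := ringChar.charP F
  clear hpm
  revert h
  generalize ringChar F = p at hchar
  intro h
  have hp : p.Prime := CharP.char_is_prime F p
  have : Fact p.Prime := ⟨hp⟩
  intro Ω _ C G N hC hNG hnorm hNp hfree hcomm hexp hdim hdist
  have hfinO : Fintype (Orb N) := Fintype.ofFinite _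
  have hNpos : (0 : ℝ) < Nat.card N := by
    have : 0 < Nat.card N := Nat.card_pos
    exact_mod_cast this
  have hcardΩ : Fintype.card Ω = Fintype.card (Orb N) * Nat.card N := by
    have h1 := card_orb_pre N hfree univ
    simpa using h1
  have hcardΩ' : (Fintype.card Ω : ℝ) = Fintype.card (Orb N) * Nat.card N := by
    rw [hcardΩ]; push_cast; rfl
  have hstep : ∀ g ∈ G, ∀ x y, toOrb N x = toOrb N y → toOrb N (g x) = toOrb N (g y) := by
    intro g hg x y hxy
    obtain ⟨n, hn, rfl⟩ := toOrb_eq.1 hxy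
    apply toOrb_eq.2
    refine ⟨g * n * g⁻¹, hnorm g hg n hn, ?_⟩
    rw [Equiv.Perm.mul_apply, Equiv.Perm.mul_apply]
    congr 2
    exact Equiv.symm_apply_apply _ _
  -- the action on the orbits
  let instA : MulAction G (Orb N) :=
    { smul := fun g q => toOrb N ((g : Equiv.Perm Ω) (Quotient.out q))
      one_smul := by
        intro q
        change toOrb N (Quotient.out q) = q
        exact Quotient.out_eq' q
      mul_smul := by
        intro g h q
        change toOrb N ((g : Equiv.Perm Ω) ((h : Equiv.Perm Ω) (Quotient.out q))) =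
          toOrb N ((g : Equiv.Perm Ω)
            (Quotient.out (toOrb N ((h : Equiv.Perm Ω) (Quotient.out q)))))
        have h1 : toOrb N (Quotient.out (toOrb N ((h : Equiv.Perm Ω) (Quotient.out q)))) =
            toOrb N ((h : Equiv.Perm Ω) (Quotient.out q)) := Quotient.out_eq' _
        exact (hstep g g.2 _ _ h1).symm }
  let τ : G →* Equiv.Perm (Orb N) := MulAction.toPermHom G (Orb N)
  have hτ : ∀ (g : G) (x : Ω), τ g (toOrb N x) = toOrb N ((g : Equiv.Perm Ω) x) := by
    intro g x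
    change toOrb N ((g : Equiv.Perm Ω) (Quotient.out (toOrb N x))) = _
    exact hstep g g.2 _ _ (Quotient.out_eq' _)
  have hτN : ∀ g : G, (g : Equiv.Perm Ω) ∈ N → τ g = 1 := by
    intro g hg
    ext q
    obtain ⟨x, rfl⟩ := toOrb_surj N q
    rw [hτ]
    exact toOrb_eq.2 ⟨g, hg, rfl⟩
  -- the code on the orbits
  let C' : Submodule F (Orb N → F) := C.comap (pullO F N)
  have hkey := h (Orb N) C' τ.range
    (by
      rintro _ ⟨g, rfl⟩ c hc
      have h1 : pullO F N (fun q => c (τ g q)) =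
          fun x => pullO F N c ((g : Equiv.Perm Ω) x) := by
        funext x
        rw [pullO_apply, pullO_apply, hτ]
      change pullO F N (fun q => c (τ g q)) ∈ C
      rw [h1]
      exact hC g g.2 _ hc)
    (by
      rintro _ ⟨g, rfl⟩ _ ⟨g', rfl⟩
      rw [← map_mul, ← map_mul, ← mul_inv_eq_one, ← map_inv, ← map_mul]
      apply hτN
      have h1 := hcomm g g.2 g' g'.2
      have h2 : ((g * g' * (g' * g)⁻¹ : G) : Equiv.Perm Ω) =
          (g : Equiv.Perm Ω) * g' * (g : Equiv.Perm Ω)⁻¹ * (g' : Equiv.Perm Ω)⁻¹ := by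
        rw [Subgroup.coe_mul, Subgroup.coe_mul, Subgroup.coe_inv, Subgroup.coe_mul]
        group
      rw [h2]
      exact h1)
    (by
      rintro _ ⟨g, rfl⟩
      rw [← map_pow]
      apply hτN
      rw [Subgroup.coe_pow]
      exact hexp g g.2)
    (by
      have h1 : (finrank F C : ℝ) ≤ finrank F C' * Nat.card N := by
        exact_mod_cast finrank_pullO N p hNp hfree C (fun c hc g hg => hC g (hNG hg) c hc)
      have h2 : ρ * (Fintype.card (Orb N)) * Nat.card N ≤ finrank F C' * Nat.card N := by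
        calc _ = ρ * (Fintype.card Ω : ℝ) := by rw [hcardΩ']; ring
          _ ≤ _ := hdim.trans h1
      exact le_of_mul_le_mul_right h2 hNpos)
    (by
      intro c hc hne
      have hne' : pullO F N c ≠ 0 := by
        intro h0
        apply hne
        funext q
        obtain ⟨x, rfl⟩ := toOrb_surj N q
        exact congrFun h0 x
      have h1 := hdist _ hc hne'
      have h2 : hammingNorm (pullO F N c) = hammingNorm c * Nat.card N := by
        unfold hammingNorm
        rw [← card_orb_pre N hfree]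
        congr 1
        ext x
        simp only [mem_filter, mem_univ, true_and]
        rfl
      rw [h2, hcardΩ'] at h1
      push_cast at h1
      have h3 : δ * (Fintype.card (Orb N)) * Nat.card N ≤ hammingNorm c * Nat.card N := by
        calc _ = δ * ((Fintype.card (Orb N) : ℝ) * Nat.card N) := by ring
          _ ≤ _ := h1
      exact le_of_mul_le_mul_right h3 hNpos)
  have h1 : (Fintype.card Ω : ℝ) / Nat.card N = Fintype.card (Orb N) := by
    rw [hcardΩ', mul_div_cancel_right₀ _ hNpos.ne']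
  rw [h1]
  refine hkey.trans ?_
  have h2 : Nat.card (MulAction.orbitRel.Quotient τ.range (Orb N)) ≤
      Nat.card (MulAction.orbitRel.Quotient G Ω) := by
    have hfin2 : Finite (MulAction.orbitRel.Quotient G Ω) := Quotient.finite _
    let φ : MulAction.orbitRel.Quotient G Ω → MulAction.orbitRel.Quotient τ.range (Orb N) :=
      fun q => Quotient.mk'' (toOrb N (Quotient.out q))
    apply Nat.card_le_card_of_surjective φ
    intro r
    obtain ⟨q, rfl⟩ := Quotient.mk''_surjective r
    obtain ⟨x, rfl⟩ := toOrb_surj N q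
    refine ⟨Quotient.mk'' x, ?_⟩
    apply Quotient.sound'
    have h3 : (Quotient.mk'' (Quotient.out (Quotient.mk'' x : MulAction.orbitRel.Quotient G Ω)) :
        MulAction.orbitRel.Quotient G Ω) = Quotient.mk'' x := Quotient.out_eq' _
    obtain ⟨g, hg⟩ := Quotient.exact' h3
    refine ⟨⟨τ g, ⟨g, rfl⟩⟩, ?_⟩
    change τ g (toOrb N x) = toOrb N _
    rw [hτ]
    exact congrArg (toOrb N) hg
  exact_mod_cast h2

/-- the same with subgroups of `G` -/
theorem gen_by' (F : Type) [Field F] [Fintype F] [DecidableEq F] (m : ℕ) (hm : 0 < m)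
    (hpm : ¬ ringChar F ^ 2 ∣ m) {ρ δ : ℝ} (hρ : 0 < ρ) (hδ : 0 < δ) :
    ∃ κ : ℝ, 0 < κ ∧ ∀ (Ω : Type) [Fintype Ω] (C : Submodule F (Ω → F))
      (G : Subgroup (Equiv.Perm Ω)) (P : Subgroup G),
      (∀ g ∈ G, ∀ c ∈ C, (fun x => c (g x)) ∈ C) →
      P.Normal → IsPGroup (ringChar F) P →
      (∀ g ∈ P, ∀ x : Ω, (g : Equiv.Perm Ω) x = x → g = 1) →
      (∀ g h : G, g * h * g⁻¹ * h⁻¹ ∈ P) → (∀ g : G, g ^ m ∈ P) →
      ρ * (Fintype.card Ω : ℝ) ≤ finrank F C →
      (∀ c ∈ C, c ≠ 0 → δ * (Fintype.card Ω : ℝ) ≤ hammingNorm c) →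
      κ * Real.logb 2 (Fintype.card Ω / Nat.card P) ≤
        Nat.card (MulAction.orbitRel.Quotient G Ω) := by
  obtain ⟨κ, hκ, h⟩ := gen_by F m hm hpm hρ hδ
  refine ⟨κ, hκ, ?_⟩
  intro Ω _ C G P hC hnorm hp hfree hcomm hexp hdim hdist
  have hcard : Nat.card (P.map G.subtype) = Nat.card P :=
    (Nat.card_congr (P.equivMapOfInjective _ G.subtype_injective).toEquiv).symm
  rw [← hcard]
  apply h Ω C G (P.map G.subtype) hC
  · rintro _ ⟨g, -, rfl⟩
    exact g.2
  · rintro g hg _ ⟨n, hn, rfl⟩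
    exact ⟨⟨g, hg⟩ * n * ⟨g, hg⟩⁻¹, hnorm.conj_mem n hn ⟨g, hg⟩, rfl⟩
  · exact hp.of_equiv (P.equivMapOfInjective _ G.subtype_injective)
  · rintro _ ⟨g, hg, rfl⟩ x hx
    rw [hfree g hg x hx]
    rfl
  · intro g hg g' hg'
    exact ⟨_, hcomm ⟨g, hg⟩ ⟨g', hg'⟩, rfl⟩
  · intro g hg
    exact ⟨_, hexp ⟨g, hg⟩, rfl⟩
  · exact hdim
  · exact hdist

end Pool.Agent.Helper479_gq
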