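import Pool.Agent.Helper479_mod.Inv

/-!
Spaces of functions with values in a field of characteristic `p` that are invariant under a
`p`-group: the dimension is controlled by the functions that are invariant.
-/

set_option autoImplicit false

open Finset Module

namespace Pool.Agent.Helper479_gq

open Helper479_mod (exists_infoK finrank_le_of_info pull pull_apply card_preimage_pull)

variable {K : Type} [Field K] [Fintype K]

/-- a nonzero space invariant under a `p`-group has a nonzero invariant element -/
lemma exists_fixed {X N : Type} [Finite X] [AddCommGroup N] [Finite N]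
    (p : ℕ) [hp : Fact p.Prime] [CharP K p]
    (hN : ∀ g : N, ∃ k : ℕ, p ^ k • g = 0)
    (act : N → X → X) (hact0 : ∀ x, act 0 x = x)
    (hact : ∀ g h x, act (g + h) x = act h (act g x))
    (M : Submodule K (X → K)) (hM : ∀ F ∈ M, ∀ g, (fun x => F (act g x)) ∈ M)
    (hne : M ≠ ⊥) : ∃ F ∈ M, F ≠ 0 ∧ ∀ g x, F (act g x) = F x := by
  classical
  have : Fintype X := Fintype.ofFinite X
  let _ : MulAction (Multiplicative N) M :=
    { smul := fun g F => ⟨fun x => F.1 (act (Multiplicative.toAdd g) x), hM F.1 F.2 _⟩
      one_smul := by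
        intro F
        apply Subtype.ext
        funext x
        change F.1 (act 0 x) = F.1 x
        rw [hact0]
      mul_smul := by
        intro g h F
        apply Subtype.ext
        funext x
        change F.1 (act (Multiplicative.toAdd g + Multiplicative.toAdd h) x) =
          F.1 (act (Multiplicative.toAdd h) (act (Multiplicative.toAdd g) x))
        rw [hact] }
  have hpg : IsPGroup p (Multiplicative N) := by
    intro g
    obtain ⟨k, hk⟩ := hN (Multiplicative.toAdd g)
    exact ⟨k, by rw [← ofAdd_toAdd g, ← ofAdd_nsmul, hk]; rfl⟩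
  have : Nontrivial M := Submodule.nontrivial_iff_ne_bot.2 hne
  have : Finite M := inferInstance
  have hcard : p ∣ Nat.card M := by
    have h1 : Nat.card M = Nat.card K ^ finrank K M := Module.natCard_eq_pow_finrank
    have h2 : p ∣ Nat.card K := by
      rw [Nat.card_eq_fintype_card, ← CharP.cast_eq_zero_iff K p]
      exact Nat.cast_card_eq_zero K
    have h5 : finrank K M ≠ 0 := by
      have : 0 < finrank K M := Module.finrank_pos
      omega
    rw [h1]
    exact h2.trans (dvd_pow_self _ h5)
  have h0 : (0 : M) ∈ MulAction.fixedPoints (Multiplicative N) M := by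
    intro g
    apply Subtype.ext
    funext x
    rfl
  obtain ⟨F, hF, hF0⟩ := hpg.exists_fixed_point_of_prime_dvd_card_of_fixed_point M hcard h0
  refine ⟨F.1, F.2, fun h => hF0 (Subtype.ext h.symm), ?_⟩
  intro g x
  have h1 := hF (Multiplicative.ofAdd g)
  have h2 := congrArg (fun F : M => F.1 x) h1
  exact h2

/-- the dimension bound -/
lemma finrank_pull {J G V : Type} [Fintype J] [AddCommGroup G] [Fintype G] [AddCommGroup V]
    [Fintype V] (π : G →+ V) (hπ : Function.Surjective π)
    (p : ℕ) [hp : Fact p.Prime] [CharP K p]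
    (hker : ∀ g, π g = 0 → ∃ k : ℕ, p ^ k • g = 0)
    (M : Submodule K (J × G → K))
    (hM : ∀ F ∈ M, ∀ g, π g = 0 → (fun x : J × G => F (x.1, x.2 + g)) ∈ M) :
    finrank K M * Fintype.card V ≤
      Fintype.card G * finrank K (M.comap (pull K J π)) := by
  classical
  obtain ⟨I, hI, hIcard⟩ := exists_infoK (M.comap (pull K J π))
  let Jset : Finset (J × G) := univ.filter fun x => (x.1, π x.2) ∈ I
  have hinfo : ∀ w ∈ M, (∀ i ∈ Jset, w i = 0) → w = 0 := by
    intro w hw h0
    let M' : Submodule K (J × G → K) :=
      { carrier := {F | F ∈ M ∧ ∀ i ∈ Jset, F i = 0}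
        add_mem' := by
          rintro F F' ⟨h1, h2⟩ ⟨h3, h4⟩
          exact ⟨M.add_mem h1 h3, fun i hi => by
            rw [Pi.add_apply, h2 i hi, h4 i hi, add_zero]⟩
        zero_mem' := ⟨M.zero_mem, fun _ _ => rfl⟩
        smul_mem' := by
          rintro k F ⟨h1, h2⟩
          exact ⟨M.smul_mem k h1, fun i hi => by
            rw [Pi.smul_apply, h2 i hi, smul_zero]⟩ }
    by_contra hne
    have hM'ne : M' ≠ ⊥ := by
      intro hbot
      have : w ∈ M' := ⟨hw, h0⟩
      rw [hbot, Submodule.mem_bot] at this
      exact hne this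
    obtain ⟨F, hF, hFne, hFfix⟩ := exists_fixed (N := π.ker) (X := J × G) p
      (fun g => by
        obtain ⟨k, hk⟩ := hker g.1 g.2
        exact ⟨k, Subtype.ext hk⟩)
      (fun g x => (x.1, x.2 + (g : G)))
      (fun x => by
        change (x.1, x.2 + ((0 : π.ker) : G)) = x
        rw [ZeroMemClass.coe_zero, add_zero])
      (fun g h x => by
        change (x.1, x.2 + ((g + h : π.ker) : G)) = (x.1, x.2 + (g : G) + (h : G))
        rw [AddMemClass.coe_add, add_assoc])
      M'
      (by
        rintro F ⟨hF1, hF2⟩ g
        refine ⟨hM F hF1 g g.2, ?_⟩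
        intro i hi
        apply hF2
        have := (mem_filter.1 hi).2
        refine mem_filter.2 ⟨mem_univ _, ?_⟩
        change (i.1, π (i.2 + (g : G))) ∈ I
        rw [map_add, (g.2 : π (g : G) = 0), add_zero]
        exact this)
      hM'ne
    -- `F` comes from below
    let s := Function.surjInv hπ
    have hs : ∀ v, π (s v) = v := Function.surjInv_eq hπ
    let P : J × V → K := fun x => F (x.1, s x.2)
    have hPF : pull K J π P = F := by
      funext x
      rw [pull_apply]
      change F (x.1, s (π x.2)) = F x
      have h1 : π (s (π x.2) - x.2) = 0 := by rw [map_sub, hs, sub_self]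
      have h2 := hFfix ⟨s (π x.2) - x.2, h1⟩ x
      change F (x.1, x.2 + (s (π x.2) - x.2)) = F x at h2
      rwa [add_sub_cancel] at h2
    have hPmem : P ∈ M.comap (pull K J π) := by
      rw [Submodule.mem_comap, hPF]
      exact hF.1
    have hP0 : P = 0 := by
      apply hI P hPmem
      intro i hi
      apply hF.2 (i.1, s i.2)
      refine mem_filter.2 ⟨mem_univ _, ?_⟩
      change (i.1, π (s i.2)) ∈ I
      rw [hs]
      exact hi
    apply hFne
    rw [← hPF, hP0, map_zero]
  have h1 := finrank_le_of_info hinfo
  -- the cardinality of `Jset`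
  have h2 : Jset.card * Fintype.card V = I.card * Fintype.card G :=
    card_preimage_pull π hπ I
  calc finrank K M * Fintype.card V ≤ Jset.card * Fintype.card V := Nat.mul_le_mul_right _ h1
    _ = I.card * Fintype.card G := h2
    _ = Fintype.card G * finrank K (M.comap (pull K J π)) := by rw [hIcard, mul_comm]

end Pool.Agent.Helper479_gq
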