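import Pool.Agent.Helper479_gq.Box
import Pool.Agent.Helper479_gq.Inv
import Pool.Agent.Helper479_mod.Anf
import Pool.Agent.Helper479_codes.Upper

/-!
Translation invariant spaces of functions on few copies of `(ZMod p)^r` with values in a field of
characteristic `p` contain nonzero functions of small support.
-/

set_option autoImplicit false

open Finset Module Matrix

namespace Pool.Agent.Helper479_gq

open Helper479_mod (pull pull_apply card_preimage_pull card_small)

/-! ### Counting -/

section counting

variable {p : ℕ} [hp : Fact p.Prime]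

/-- the points where given independent forms do not vanish -/
lemma card_nonvanish {s r : ℕ} {d : Fin s → (Fin r → ZMod p)}
    (hd : LinearIndependent (ZMod p) d) (S : Finset (Fin s)) :
    (univ.filter fun x : Fin r → ZMod p => ∀ i ∈ S, d i ⬝ᵥ x ≠ 0).card * p ^ S.card =
      (p - 1) ^ S.card * p ^ r := by
  classical
  let 𝒯 : Finset (Fin s → ZMod p) := Fintype.piFinset fun i => if i ∈ S then univ.erase 0 else univ
  have h𝒯 : 𝒯.card * p ^ S.card = (p - 1) ^ S.card * p ^ s := by
    have h1 : 𝒯.card = ∏ i : Fin s, if i ∈ S then p - 1 else p := by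
      rw [Fintype.card_piFinset]
      apply prod_congr rfl
      intro i _
      split_ifs
      · rw [card_erase_of_mem (mem_univ _), card_univ, ZMod.card]
      · rw [card_univ, ZMod.card]
    have h2 : p ^ S.card = ∏ i : Fin s, if i ∈ S then p else 1 := by
      rw [prod_ite_mem, univ_inter, prod_const]
    have h3 : (p - 1) ^ S.card = ∏ i : Fin s, if i ∈ S then p - 1 else 1 := by
      rw [prod_ite_mem, univ_inter, prod_const]
    have h4 : p ^ s = ∏ i : Fin s, p := by
      rw [prod_const, card_univ, Fintype.card_fin]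
    rw [h1, h2, h3, h4, ← prod_mul_distrib, ← prod_mul_distrib]
    apply prod_congr rfl
    intro i _
    split_ifs
    · rfl
    · rw [mul_one, one_mul]
  have h1 := Helper479_codes.card_forms hd 𝒯
  have hB : (univ.filter fun x : Fin r → ZMod p => (fun i => d i ⬝ᵥ x) ∈ 𝒯) =
      univ.filter fun x : Fin r → ZMod p => ∀ i ∈ S, d i ⬝ᵥ x ≠ 0 := by
    ext x
    simp only [mem_filter, mem_univ, true_and, 𝒯, Fintype.mem_piFinset]
    constructor
    · intro h i hi
      have := h i
      rw [if_pos hi, mem_erase] at this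
      exact this.1
    · intro h i
      split_ifs with hi
      · exact mem_erase.2 ⟨h i hi, mem_univ _⟩
      · exact mem_univ _
  rw [hB] at h1
  set B := (univ.filter fun x : Fin r → ZMod p => ∀ i ∈ S, d i ⬝ᵥ x ≠ 0) with hBdef
  have h3 : p ^ s * (B.card * p ^ S.card) = p ^ s * ((p - 1) ^ S.card * p ^ r) := by
    calc p ^ s * (B.card * p ^ S.card) = (B.card * p ^ s) * p ^ S.card := by ring
      _ = 𝒯.card * p ^ r * p ^ S.card := by rw [h1]
      _ = (𝒯.card * p ^ S.card) * p ^ r := by ring
      _ = _ := by rw [h𝒯]; ring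
  exact Nat.eq_of_mul_eq_mul_left (pow_pos hp.out.pos _) h3

/-- a weaker form for large sets -/
lemma card_nonvanish_le {s r q : ℕ} {d : Fin s → (Fin r → ZMod p)}
    (hd : LinearIndependent (ZMod p) d) (S : Finset (Fin s)) (hq : q ≤ S.card) :
    (univ.filter fun x : Fin r → ZMod p => ∀ i ∈ S, d i ⬝ᵥ x ≠ 0).card * p ^ q ≤
      (p - 1) ^ q * p ^ r := by
  have h1 := card_nonvanish hd S
  set B := (univ.filter fun x : Fin r → ZMod p => ∀ i ∈ S, d i ⬝ᵥ x ≠ 0) with hBdef
  obtain ⟨t, ht⟩ := Nat.exists_eq_add_of_le hq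
  rw [ht] at h1
  have h2 : p ^ t * (B.card * p ^ q) ≤ p ^ t * ((p - 1) ^ q * p ^ r) := by
    calc p ^ t * (B.card * p ^ q) = B.card * p ^ (q + t) := by ring
      _ = (p - 1) ^ (q + t) * p ^ r := h1
      _ = (p - 1) ^ t * ((p - 1) ^ q * p ^ r) := by ring
      _ ≤ _ := Nat.mul_le_mul_right _ (Nat.pow_le_pow_left (Nat.sub_le _ _) _)
  exact Nat.le_of_mul_le_mul_left h2 (pow_pos hp.out.pos _)

/-- most tuples are linearly independent -/
lemma card_indep (s r : ℕ) (hsr : s + 1 ≤ r)
    [DecidablePred fun α : Fin s → (Fin r → ZMod p) => LinearIndependent (ZMod p) α] :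
    (p ^ r) ^ s ≤ 2 * (univ.filter fun α : Fin s → (Fin r → ZMod p) =>
      LinearIndependent (ZMod p) α).card := by
  classical
  let Y := Fin r → ZMod p
  have hY : Fintype.card Y = p ^ r := by
    rw [Fintype.card_fun, Fintype.card_fin, ZMod.card]
  have hT : Fintype.card (Fin s → Y) = (p ^ r) ^ s := by
    rw [Fintype.card_fun, Fintype.card_fin, hY]
  set ind := univ.filter fun α : Fin s → Y => LinearIndependent (ZMod p) α with hind
  set dep := univ.filter fun α : Fin s → Y => ¬ LinearIndependent (ZMod p) α with hdep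
  have h1 : ind.card + dep.card = (p ^ r) ^ s := by
    rw [← hT, ← card_univ, hind, hdep, card_filter_add_card_filter_not]
  have h2 : dep ⊆ (univ.filter fun c : Fin s → ZMod p => c ≠ 0).biUnion fun c =>
      univ.filter fun α : Fin s → Y => ∑ i, c i • α i = 0 := by
    intro α hα
    have h3 := (mem_filter.1 hα).2
    rw [Fintype.linearIndependent_iff] at h3
    push Not at h3
    obtain ⟨g, hg, i, hi⟩ := h3
    refine mem_biUnion.2 ⟨g, mem_filter.2 ⟨mem_univ _, ?_⟩, mem_filter.2 ⟨mem_univ _, hg⟩⟩
    intro h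
    exact hi (by rw [h]; rfl)
  have h4 : ∀ c : Fin s → ZMod p, c ≠ 0 →
      (univ.filter fun α : Fin s → Y => ∑ i, c i • α i = 0).card * p ^ r ≤ (p ^ r) ^ s := by
    intro c hc
    obtain ⟨i0, hi0⟩ := Function.ne_iff.1 hc
    have hci : c i0 ≠ 0 := hi0
    have h0 : (univ.filter fun α : Fin s → Y => ∑ i, c i • α i = 0).card * p ^ r =
        ((univ.filter fun α : Fin s → Y => ∑ i, c i • α i = 0) ×ˢ (univ : Finset Y)).card := by
      rw [card_product, card_univ, hY]
    rw [h0, ← hT, ← card_univ]
    apply card_le_card_of_injOn (fun x => x.1 + Pi.single i0 x.2) (fun _ _ => mem_coe.2 (mem_univ _))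
    rintro ⟨α, y⟩ hα ⟨α', y'⟩ hα' heq
    have ha := (mem_filter.1 (mem_product.1 (mem_coe.1 hα)).1).2
    have ha' := (mem_filter.1 (mem_product.1 (mem_coe.1 hα')).1).2
    simp only at heq ha ha'
    have h5 : ∀ (β : Fin s → Y) (z : Y),
        ∑ i, c i • (β + (Pi.single i0 z : Fin s → Y) : Fin s → Y) i =
          ∑ i, c i • β i + c i0 • z := by
      intro β z
      simp only [Pi.add_apply, smul_add, sum_add_distrib]
      congr 1
      rw [sum_eq_single i0]
      · rw [Pi.single_eq_same]
      · intro i _ hi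
        rw [Pi.single_eq_of_ne hi, smul_zero]
      · intro h; exact absurd (mem_univ _) h
    have h6 : y = y' := by
      have := h5 α y
      rw [heq, h5 α' y', ha, ha', zero_add, zero_add] at this
      have h7 := congrArg (fun z => (c i0)⁻¹ • z) this
      simp only [inv_smul_smul₀ hci] at h7
      exact h7.symm
    subst h6
    have h7 : α = α' := add_right_cancel heq
    rw [h7]
  have h5 : dep.card * p ^ r ≤ p ^ s * (p ^ r) ^ s := by
    calc dep.card * p ^ r ≤ (∑ c ∈ (univ.filter fun c : Fin s → ZMod p => c ≠ 0),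
          (univ.filter fun α : Fin s → Y => ∑ i, c i • α i = 0).card) * p ^ r :=
          Nat.mul_le_mul_right _ ((card_le_card h2).trans card_biUnion_le)
      _ = ∑ c ∈ (univ.filter fun c : Fin s → ZMod p => c ≠ 0),
          (univ.filter fun α : Fin s → Y => ∑ i, c i • α i = 0).card * p ^ r := by
          rw [sum_mul]
      _ ≤ ∑ c ∈ (univ.filter fun c : Fin s → ZMod p => c ≠ 0), (p ^ r) ^ s :=
          sum_le_sum fun c hc => h4 c (mem_filter.1 hc).2
      _ = (univ.filter fun c : Fin s → ZMod p => c ≠ 0).card * (p ^ r) ^ s := by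
          rw [sum_const, smul_eq_mul]
      _ ≤ p ^ s * (p ^ r) ^ s := by
          apply Nat.mul_le_mul_right
          refine (card_le_card (filter_subset _ _)).trans ?_
          rw [card_univ, Fintype.card_fun, Fintype.card_fin, ZMod.card]
  have h6 : 2 * dep.card ≤ (p ^ r) ^ s := by
    have h7 : 2 * p ^ s ≤ p ^ r := by
      calc 2 * p ^ s ≤ p * p ^ s := Nat.mul_le_mul_right _ hp.out.two_le
        _ = p ^ (s + 1) := by rw [pow_succ, mul_comm]
        _ ≤ p ^ r := Nat.pow_le_pow_right hp.out.pos hsr
    have h8 : p ^ s * (2 * dep.card) ≤ p ^ s * (p ^ r) ^ s := by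
      calc p ^ s * (2 * dep.card) = dep.card * (2 * p ^ s) := by ring
        _ ≤ dep.card * p ^ r := Nat.mul_le_mul_left _ h7
        _ ≤ _ := h5
    exact Nat.le_of_mul_le_mul_left h8 (pow_pos hp.out.pos _)
  omega

/-- the number of points of small support -/
lemma card_few (p s q : ℕ) [hp : Fact p.Prime] :
    (univ.filter fun y : Fin s → ZMod p => (univ.filter fun i => y i ≠ 0).card < q).card ≤
      q * (s + 1) ^ q * p ^ q := by
  classical
  have h1 : (univ.filter fun y : Fin s → ZMod p => (univ.filter fun i => y i ≠ 0).card < q) ⊆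
      (univ.filter fun S : Finset (Fin s) => S.card < q).biUnion fun S =>
        Fintype.piFinset fun i => if i ∈ S then univ else {0} := by
    intro y hy
    refine mem_biUnion.2 ⟨univ.filter fun i => y i ≠ 0, ?_, ?_⟩
    · exact mem_filter.2 ⟨mem_univ _, (mem_filter.1 hy).2⟩
    · rw [Fintype.mem_piFinset]
      intro i
      split_ifs with hi
      · exact mem_univ _
      · rw [mem_singleton]
        by_contra h
        exact hi (mem_filter.2 ⟨mem_univ _, h⟩)
  refine (card_le_card h1).trans (card_biUnion_le.trans ?_)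
  calc ∑ S ∈ (univ.filter fun S : Finset (Fin s) => S.card < q),
        (Fintype.piFinset fun i : Fin s => if i ∈ S then (univ : Finset (ZMod p)) else {0}).card
      ≤ ∑ S ∈ (univ.filter fun S : Finset (Fin s) => S.card < q), p ^ q := by
        apply sum_le_sum
        intro S hS
        rw [Fintype.card_piFinset]
        have h2 : ∏ i : Fin s, (if i ∈ S then (univ : Finset (ZMod p)) else {0}).card =
            ∏ i : Fin s, if i ∈ S then p else 1 := by
          apply prod_congr rfl
          intro i _
          split_ifs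
          · rw [card_univ, ZMod.card]
          · rw [card_singleton]
        rw [h2, prod_ite_mem, univ_inter, prod_const]
        exact Nat.pow_le_pow_right hp.out.pos (mem_filter.1 hS).2.le
    _ = (univ.filter fun S : Finset (Fin s) => S.card < q).card * p ^ q := by
        rw [sum_const, smul_eq_mul]
    _ ≤ q * (s + 1) ^ q * p ^ q := Nat.mul_le_mul_right _ (card_small s q)

end counting

/-! ### Alternating sums over restrictions -/

section alternating

variable {K : Type} [Field K] {p s : ℕ} [hp : Fact p.Prime]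

/-- alternating sum over the restrictions of `y` to the subsets of `S` -/
def alt (P : (Fin s → ZMod p) → K) (S : Finset (Fin s)) (y : Fin s → ZMod p) : K :=
  ∑ T ∈ S.powerset, (-1) ^ T.card * P (fun i => if i ∈ S \ T then y i else 0)

/-- a function without components of high degree is determined by its values on points of small
support -/
lemma eq_zero_of_alt {q : ℕ} {P : (Fin s → ZMod p) → K}
    (h : ∀ (S : Finset (Fin s)) (y : Fin s → ZMod p), q ≤ S.card → alt P S y = 0)
    (h' : ∀ y : Fin s → ZMod p, (univ.filter fun i => y i ≠ 0).card < q → P y = 0) : P = 0 := by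
  classical
  have key : ∀ (n : ℕ) (y : Fin s → ZMod p), (univ.filter fun i => y i ≠ 0).card = n →
      P y = 0 := by
    intro n
    induction n using Nat.strong_induction_on with
    | _ n ih =>
      intro y hy
      by_cases hq : n < q
      · exact h' y (by omega)
      · set S := univ.filter fun i => y i ≠ 0 with hS
        have h1 := h S y (by omega)
        unfold alt at h1
        rw [← Finset.sum_erase_add _ _ (mem_powerset.2 (empty_subset S))] at h1
        have h2 : ∀ T ∈ S.powerset.erase ∅,
            (-1) ^ T.card * P (fun i => if i ∈ S \ T then y i else 0) = 0 := by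
          intro T hT
          rw [mem_erase, mem_powerset] at hT
          obtain ⟨i0, hi0⟩ := nonempty_iff_ne_empty.2 hT.1
          have h3 : (univ.filter fun i => (if i ∈ S \ T then y i else 0) ≠ 0).card < n := by
            rw [← hy]
            apply card_lt_card
            rw [Finset.ssubset_iff_of_subset]
            · refine ⟨i0, hT.2 hi0, ?_⟩
              intro h4
              apply (mem_filter.1 h4).2
              rw [if_neg]
              intro h5
              exact (mem_sdiff.1 h5).2 hi0
            · intro i hi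
              by_contra h4
              apply (mem_filter.1 hi).2
              rw [if_neg]
              intro h5
              exact h4 (mem_sdiff.1 h5).1
          rw [ih _ h3 _ rfl, mul_zero]
        rw [sum_eq_zero h2, zero_add, card_empty, pow_zero, one_mul] at h1
        rw [← h1]
        congr 1
        funext i
        rw [sdiff_empty]
        split_ifs with hi
        · rfl
        · by_contra h4
          exact hi (mem_filter.2 ⟨mem_univ _, h4⟩)
  funext y
  exact key _ y rfl

/-- some component of high degree does not vanish -/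
def Good {l : ℕ} (q : ℕ) (P : Fin l × (Fin s → ZMod p) → K) : Prop :=
  ∃ (j : Fin l) (S : Finset (Fin s)) (y : Fin s → ZMod p), q ≤ S.card ∧
    alt (fun y => P (j, y)) S y ≠ 0

lemma exists_good {l q : ℕ} (M : Submodule K (Fin l × (Fin s → ZMod p) → K))
    (hM : l * (q * (s + 1) ^ q * p ^ q) < finrank K M) : ∃ P ∈ M, Good q P := by
  classical
  by_contra hcon
  push Not at hcon
  let L : M →ₗ[K] (Fin l × {y : Fin s → ZMod p // y ∈ univ.filter fun y : Fin s → ZMod p =>
      (univ.filter fun i => y i ≠ 0).card < q} → K) :=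
    { toFun := fun P x => P.1 (x.1, x.2.1)
      map_add' := by
        intro P P'
        rfl
      map_smul' := by
        intro k P
        rfl }
  have hL : Function.Injective L := by
    rw [injective_iff_map_eq_zero]
    intro P hP
    apply Subtype.ext
    funext x
    obtain ⟨j, y⟩ := x
    have h1 : (fun y => P.1 (j, y)) = 0 := by
      apply eq_zero_of_alt (q := q)
      · intro S y hS
        by_contra h
        exact hcon P.1 P.2 ⟨j, S, y, hS, h⟩
      · intro y hy
        exact congrFun hP (j, ⟨y, mem_filter.2 ⟨mem_univ _, hy⟩⟩)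
    exact congrFun h1 y
  have h1 := LinearMap.finrank_le_finrank_of_injective hL
  rw [finrank_fintype_fun_eq_card, Fintype.card_prod, Fintype.card_fin, Fintype.card_coe] at h1
  have h2 := Nat.mul_le_mul_left l (card_few p s q)
  omega

/-- the homomorphism given by linear forms -/
def form {r : ℕ} (α : Fin s → (Fin r → ZMod p)) : (Fin r → ZMod p) →+ (Fin s → ZMod p) where
  toFun x i := α i ⬝ᵥ x
  map_zero' := by funext i; simp
  map_add' x y := by funext i; simp [dotProduct_add]

lemma form_surjective {r : ℕ} {α : Fin s → (Fin r → ZMod p)}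
    (hα : LinearIndependent (ZMod p) α) : Function.Surjective (form α) := by
  intro t
  obtain ⟨x, hx⟩ := Helper479_codes.exists_dot hα t
  exact ⟨x, funext hx⟩

variable [DecidableEq K]

/-- the structural part: a type that is common to a dense set of tuples gives a small word -/
lemma word_of_box {l r q : ℕ} {M : Submodule K (Fin l × (Fin r → ZMod p) → K)}
    {P : Fin l × (Fin s → ZMod p) → K} (hP : Good q P) {u v : Fin s → (Fin r → ZMod p)}
    (huv : ∀ T : Finset (Fin s),
      pull K (Fin l) (form fun i => if i ∈ T then v i else u i) P ∈ M)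
    (hind : LinearIndependent (ZMod p) (Sum.elim u v))
    (hdiff : LinearIndependent (ZMod p) fun i => v i - u i) :
    ∃ F ∈ M, F ≠ 0 ∧
      (univ.filter fun x => F x ≠ 0).card * p ^ q ≤ (p - 1) ^ q * (l * p ^ r) := by
  classical
  obtain ⟨j0, S, y0, hSq, hne⟩ := hP
  let F : Fin l × (Fin r → ZMod p) → K := ∑ T ∈ S.powerset, ((-1 : K) ^ T.card) •
    pull K (Fin l) (form fun i => if i ∈ T then v i else u i) P
  have hFval : ∀ x : Fin l × (Fin r → ZMod p), F x = ∑ T ∈ S.powerset, (-1 : K) ^ T.card *
      P (x.1, fun i => if i ∈ T then v i ⬝ᵥ x.2 else u i ⬝ᵥ x.2) := by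
    intro x
    simp only [F, Finset.sum_apply]
    apply sum_congr rfl
    intro T _
    rw [Pi.smul_apply, smul_eq_mul, pull_apply]
    congr 3
    funext i
    change (if i ∈ T then v i else u i) ⬝ᵥ x.2 = _
    split_ifs <;> rfl
  refine ⟨F, ?_, ?_, ?_⟩
  · exact Submodule.sum_mem _ fun T _ => Submodule.smul_mem _ _ (huv T)
  · -- a point where it does not vanish
    obtain ⟨x, hx⟩ := Helper479_codes.exists_dot (hind.comp _ (finSumFinEquiv (m := s) (n := s)).symm.injective)
      ((Sum.elim (fun i => if i ∈ S then y0 i else 0) 0) ∘ (finSumFinEquiv (m := s) (n := s)).symm)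
    have hu : ∀ i, u i ⬝ᵥ x = if i ∈ S then y0 i else 0 := by
      intro i
      have := hx (finSumFinEquiv (Sum.inl i))
      rw [Function.comp_apply, Function.comp_apply, Equiv.symm_apply_apply] at this
      exact this
    have hv : ∀ i, v i ⬝ᵥ x = 0 := by
      intro i
      have := hx (finSumFinEquiv (Sum.inr i))
      rw [Function.comp_apply, Function.comp_apply, Equiv.symm_apply_apply] at this
      exact this
    intro h0
    apply hne
    have h1 : F (j0, x) = 0 := by rw [h0]; rfl
    rw [hFval] at h1
    rw [← h1]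
    unfold alt
    apply sum_congr rfl
    intro T _
    congr 3
    funext i
    rw [hu, hv]
    by_cases hT : i ∈ T
    · rw [if_pos hT, if_neg]
      intro h
      exact (mem_sdiff.1 h).2 hT
    · rw [if_neg hT]
      by_cases hS : i ∈ S
      · rw [if_pos hS, if_pos (mem_sdiff.2 ⟨hS, hT⟩)]
      · rw [if_neg hS, if_neg]
        intro h
        exact hS (mem_sdiff.1 h).1
  · -- the support
    have hvan : ∀ x, F x ≠ 0 → ∀ i ∈ S, (v i - u i) ⬝ᵥ x.2 ≠ 0 := by
      intro x hx i0 hi0 h0
      apply hx
      rw [sub_dotProduct, sub_eq_zero] at h0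
      rw [hFval, ← insert_erase hi0, sum_powerset_insert (notMem_erase i0 S), ← sum_add_distrib]
      apply sum_eq_zero
      intro T hT
      have hi0T : i0 ∉ T := fun h => notMem_erase i0 S (mem_powerset.1 hT h)
      rw [card_insert_of_notMem hi0T, pow_succ]
      have h4 : (fun i => if i ∈ insert i0 T then v i ⬝ᵥ x.2 else u i ⬝ᵥ x.2) =
          fun i => if i ∈ T then v i ⬝ᵥ x.2 else u i ⬝ᵥ x.2 := by
        funext i
        by_cases hi : i = i0
        · subst hi
          rw [if_pos (mem_insert_self _ _), if_neg hi0T, h0]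
        · simp [mem_insert, hi]
      rw [h4]
      ring
    have h1 := card_nonvanish_le hdiff S hSq
    set B := (univ.filter fun x : Fin r → ZMod p => ∀ i ∈ S, (v i - u i) ⬝ᵥ x ≠ 0) with hB
    have h3 : (univ.filter fun x => F x ≠ 0) ⊆ univ ×ˢ B := by
      intro x hx
      exact mem_product.2 ⟨mem_univ _, mem_filter.2 ⟨mem_univ _, hvan x (mem_filter.1 hx).2⟩⟩
    have h4 := card_le_card h3
    rw [card_product, card_univ, Fintype.card_fin] at h4
    calc (univ.filter fun x => F x ≠ 0).card * p ^ q ≤ (l * B.card) * p ^ q :=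
          Nat.mul_le_mul_right _ h4
      _ = l * (B.card * p ^ q) := by ring
      _ ≤ l * ((p - 1) ^ q * p ^ r) := Nat.mul_le_mul_left _ h1
      _ = _ := by ring

end alternating

/-- pigeonhole: a popular value -/
lemma exists_popular {α β : Type} [Fintype β] [DecidableEq β] [Nonempty β]
    (s : Finset α) (f : α → β) :
    ∃ y, s.card ≤ Fintype.card β * (s.filter fun x => f x = y).card := by
  by_contra hcon
  push Not at hcon
  have h1 : ∑ y : β, Fintype.card β * (s.filter fun x => f x = y).card < ∑ y : β, s.card :=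
    sum_lt_sum_of_nonempty univ_nonempty fun y _ => hcon y
  rw [← mul_sum, sum_const, card_univ, smul_eq_mul] at h1
  have h2 : s.card = ∑ y : β, (s.filter fun x => f x = y).card :=
    card_eq_sum_card_fiberwise fun _ _ => mem_coe.2 (mem_univ _)
  rw [← h2] at h1
  exact lt_irrefl _ h1

theorem mod_part (p : ℕ) [hp : Fact p.Prime] (K : Type) [Field K] [Fintype K] [DecidableEq K]
    [CharP K p] (q : ℕ) {R : ℝ} (hR : 0 < R) : ∃ C0 : ℕ, ∀ (l r : ℕ), 0 < l →
    ∀ M : Submodule K (Fin l × (Fin r → ZMod p) → K),
      (∀ F ∈ M, ∀ g : Fin r → ZMod p,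
        (fun x : Fin l × (Fin r → ZMod p) => F (x.1, x.2 + g)) ∈ M) →
      R * (l * p ^ r) ≤ finrank K M → C0 * l < r →
      ∃ F ∈ M, F ≠ 0 ∧
        (univ.filter fun x => F x ≠ 0).card * p ^ q ≤ (p - 1) ^ q * (l * p ^ r) := by
  classical
  have hp2 : (2 : ℝ) ≤ p := by exact_mod_cast hp.out.two_le
  -- the number of forms
  obtain ⟨s, hs⟩ : ∃ s : ℕ, (q : ℝ) * ((s : ℝ) + 1) ^ q * p ^ q < R * p ^ s := by
    have h1 : Filter.Tendsto (fun n : ℕ => (n : ℝ) ^ q / 2 ^ n) Filter.atTop (nhds 0) :=
      tendsto_pow_const_div_const_pow_of_one_lt q (by norm_num)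
    have h2 : (0 : ℝ) < R / (2 * ((q + 1) * p ^ q)) := by positivity
    have h3 := (h1.comp (Filter.tendsto_add_atTop_nat 1)).eventually (gt_mem_nhds h2)
    obtain ⟨s, hs⟩ := h3.exists
    refine ⟨s, ?_⟩
    simp only [Function.comp_apply] at hs
    push_cast at hs
    rw [div_lt_div_iff₀ (by positivity) (by positivity)] at hs
    have h4 : (0 : ℝ) < ((s : ℝ) + 1) ^ q * p ^ q := by positivity
    rw [pow_succ] at hs
    have h5 : ((s : ℝ) + 1) ^ q * ((q + 1) * p ^ q) < R * 2 ^ s := by nlinarith
    have h6 : (2 : ℝ) ^ s ≤ p ^ s := pow_le_pow_left₀ (by norm_num) hp2 s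
    have h7 : R * 2 ^ s ≤ R * p ^ s := mul_le_mul_of_nonneg_left h6 hR.le
    nlinarith
  set κ := Fintype.card K with hκ
  refine ⟨s + 1 + (2 * p + 1) * s + 2 ^ s * (κ * p ^ s + 2), ?_⟩
  intro l r hl M hM hdim hr
  have hr1 : (2 * p + 1) * s + 2 ^ s * (κ * l * p ^ s + 2) ≤ r ∧ s + 1 ≤ r := by
    have h1 : s + 1 ≤ (s + 1) * l := Nat.le_mul_of_pos_right _ hl
    have h1' : (2 * p + 1) * s ≤ (2 * p + 1) * s * l := Nat.le_mul_of_pos_right _ hl
    have h2 : 2 ^ s * (κ * l * p ^ s + 2) ≤ 2 ^ s * (κ * p ^ s + 2) * l := by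
      have h3 : κ * l * p ^ s + 2 ≤ (κ * p ^ s + 2) * l := by nlinarith
      calc 2 ^ s * (κ * l * p ^ s + 2) ≤ 2 ^ s * ((κ * p ^ s + 2) * l) :=
            Nat.mul_le_mul_left _ h3
        _ = _ := by ring
    have h4 : (s + 1 + (2 * p + 1) * s + 2 ^ s * (κ * p ^ s + 2)) * l =
        (s + 1) * l + (2 * p + 1) * s * l + 2 ^ s * (κ * p ^ s + 2) * l := by ring
    rw [h4] at hr
    constructor <;> omega
  have hcard : ∀ n : ℕ, Fintype.card (Fin n → ZMod p) = p ^ n := by
    intro n
    rw [Fintype.card_fun, Fintype.card_fin, ZMod.card]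
  -- every independent tuple has a good type
  have hgood : ∀ α : Fin s → (Fin r → ZMod p), ∃ P : Fin l × (Fin s → ZMod p) → K,
      LinearIndependent (ZMod p) α → Good q P ∧ pull K (Fin l) (form α) P ∈ M := by
    intro α
    by_cases hα : LinearIndependent (ZMod p) α
    · have h1 := finrank_pull (form α) (form_surjective hα) p
        (fun g _ => ⟨1, by
          rw [pow_one]
          funext i
          simp⟩) M
        (fun F hF g _ => hM F hF g)
      rw [hcard, hcard] at h1
      set M' := M.comap (pull K (Fin l) (form α)) with hM'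
      have h2 : l * (q * (s + 1) ^ q * p ^ q) < finrank K M' := by
        have h3 : (finrank K M : ℝ) * p ^ s ≤ p ^ r * finrank K M' := by exact_mod_cast h1
        have h4 : R * (l * p ^ r) * p ^ s ≤ p ^ r * finrank K M' :=
          (mul_le_mul_of_nonneg_right hdim (by positivity)).trans h3
        have h5 : (p : ℝ) ^ r * (l * (R * p ^ s)) ≤ p ^ r * finrank K M' := by
          calc (p : ℝ) ^ r * (l * (R * p ^ s)) = R * (l * p ^ r) * p ^ s := by ring
            _ ≤ _ := h4
        have h6 : (l : ℝ) * (R * p ^ s) ≤ finrank K M' :=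
          le_of_mul_le_mul_left h5 (by positivity)
        have hl' : (0 : ℝ) < l := by exact_mod_cast hl
        have h7 : (l : ℝ) * (q * ((s : ℝ) + 1) ^ q * p ^ q) < finrank K M' :=
          (mul_lt_mul_of_pos_left hs hl').trans_le h6
        exact_mod_cast h7
      obtain ⟨P, hP, hg⟩ := exists_good M' h2
      exact ⟨P, fun _ => ⟨hg, hP⟩⟩
    · exact ⟨0, fun h => absurd h hα⟩
  choose f hf using hgood
  obtain ⟨P, hP⟩ := exists_popular (univ.filter fun α : Fin s → (Fin r → ZMod p) =>
      LinearIndependent (ZMod p) α) f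
  set E := (univ.filter fun α : Fin s → (Fin r → ZMod p) =>
      LinearIndependent (ZMod p) α).filter fun α => f α = P with hE
  have hEmem : ∀ α ∈ E, Good q P ∧ pull K (Fin l) (form α) P ∈ M := by
    intro α hα
    rw [hE, mem_filter, mem_filter] at hα
    rw [← hα.2]
    exact hf α hα.1.2
  have hEcard : Fintype.card (Fin r → ZMod p) ^ s ≤ 2 ^ (κ * l * p ^ s + 1) * E.card := by
    have h1 := card_indep (p := p) s r hr1.2
    have h2 : Fintype.card (Fin l × (Fin s → ZMod p) → K) ≤ 2 ^ (κ * l * p ^ s) := by
      rw [Fintype.card_fun, Fintype.card_prod, hcard,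
        Fintype.card_fin, ← hκ, mul_assoc, pow_mul 2]
      exact Nat.pow_le_pow_left (Nat.lt_two_pow_self).le _
    rw [hcard]
    calc (p ^ r) ^ s ≤ 2 * (univ.filter fun α : Fin s → (Fin r → ZMod p) =>
          LinearIndependent (ZMod p) α).card := h1
      _ ≤ 2 * (Fintype.card (Fin l × (Fin s → ZMod p) → K) * E.card) :=
          Nat.mul_le_mul_left _ hP
      _ ≤ 2 * (2 ^ (κ * l * p ^ s) * E.card) :=
          Nat.mul_le_mul_left _ (Nat.mul_le_mul_right _ h2)
      _ = _ := by ring
  obtain ⟨u, v, huv, hind⟩ := exists_box (p := p) s {0} E (κ * l * p ^ s + 1) hEcard (by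
    rw [card_singleton, mul_one, hcard]
    calc (2 * p ^ 2) ^ s * 2 ^ (2 ^ s * (κ * l * p ^ s + 1 + 1))
        ≤ (2 ^ (2 * p + 1)) ^ s * 2 ^ (2 ^ s * (κ * l * p ^ s + 1 + 1)) := by
          apply Nat.mul_le_mul_right
          apply Nat.pow_le_pow_left
          calc 2 * p ^ 2 ≤ 2 * (2 ^ p) ^ 2 :=
                Nat.mul_le_mul_left _ (Nat.pow_le_pow_left (Nat.lt_two_pow_self).le 2)
            _ = 2 ^ (2 * p + 1) := by rw [← pow_mul, pow_succ, mul_comm p 2, mul_comm]
      _ = 2 ^ ((2 * p + 1) * s + 2 ^ s * (κ * l * p ^ s + 2)) := by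
          rw [← pow_mul, ← pow_add]
      _ ≤ 2 ^ r := Nat.pow_le_pow_right (by norm_num) hr1.1
      _ ≤ p ^ r := Nat.pow_le_pow_left hp.out.two_le r)
  have hPgood : Good q P := (hEmem _ (huv ∅)).1
  exact word_of_box hPgood (fun T => (hEmem _ (huv T)).2) (box_indep hind) (diff_indep hind)

end Pool.Agent.Helper479_gq
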