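import Mathlib

/-!
Outer codes over large fields: Reed-Solomon codes and product codes.
-/

set_option autoImplicit false

open Finset Module Polynomial

namespace Pool.Agent.Helper479_gq

/-! ### Reed-Solomon codes -/

section rs

variable {L : Type} [Field L] {A : Type} [AddCommGroup A]

/-- the evaluation map -/
noncomputable def rsEv (θ : A →+ L) (k : ℕ) : degreeLT L k →ₗ[L] (A → L) where
  toFun f x := (f : L[X]).eval (θ x)
  map_add' f g := by funext x; simp
  map_smul' c f := by funext x; simp

lemma rsEv_inv (θ : A →+ L) (k : ℕ) :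
    ∀ f ∈ LinearMap.range (rsEv θ k), ∀ g : A, (fun x : A => f (x + g)) ∈
      LinearMap.range (rsEv θ k) := by
  rintro _ ⟨f, rfl⟩ g
  refine ⟨⟨Polynomial.taylor (θ g) (f : L[X]), ?_⟩, ?_⟩
  · rw [mem_degreeLT, degree_taylor]
    exact mem_degreeLT.1 f.2
  · funext x
    change (Polynomial.taylor (θ g) (f : L[X])).eval (θ x) = (f : L[X]).eval (θ (x + g))
    rw [taylor_eval, map_add]

lemma rsEv_weight [Fintype A] [DecidableEq L] (θ : A →+ L) (hθ : Function.Injective θ) {k : ℕ}
    (hk : 0 < k) {f : degreeLT L k} (hf : f ≠ 0) :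
    Fintype.card A + 1 ≤ (univ.filter fun a => rsEv θ k f a ≠ 0).card + k := by
  classical
  have hf' : (f : L[X]) ≠ 0 := fun h => hf (Subtype.ext h)
  let Z : Finset A := univ.filter fun a => rsEv θ k f a = 0
  have hZ : Z.card + 1 ≤ k := by
    have h1 : Z.card ≤ (f : L[X]).roots.toFinset.card := by
      apply card_le_card_of_injOn θ
      · intro a ha
        rw [mem_coe, Multiset.mem_toFinset, mem_roots hf']
        exact (mem_filter.1 (mem_coe.1 ha)).2
      · exact hθ.injOn
    have h2 : (f : L[X]).roots.toFinset.card ≤ (f : L[X]).natDegree :=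
      (Multiset.toFinset_card_le _).trans (card_roots' _)
    have h3 : (f : L[X]).natDegree < k := by
      rw [natDegree_lt_iff_degree_lt hf']
      exact mem_degreeLT.1 f.2
    omega
  have h1 : Z.card + (univ.filter fun a => rsEv θ k f a ≠ 0).card = Fintype.card A := by
    rw [← card_univ (α := A)]
    exact card_filter_add_card_filter_not _
  omega

lemma rs_code [Fintype A] [DecidableEq L] (θ : A →+ L) (hθ : Function.Injective θ) :
    ∃ C : Submodule L (A → L), (∀ f ∈ C, ∀ g : A, (fun x : A => f (x + g)) ∈ C) ∧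
      (1 / 2 * Fintype.card A : ℝ) ≤ finrank L C ∧
      ∀ f ∈ C, f ≠ 0 → (1 / 2 * Fintype.card A : ℝ) ≤ (univ.filter fun a => f a ≠ 0).card := by
  classical
  have hA : 0 < Fintype.card A := Fintype.card_pos_iff.2 ⟨0⟩
  set k := (Fintype.card A + 1) / 2 with hk
  have hk0 : 0 < k := by omega
  have hinj : Function.Injective (rsEv θ k) := by
    rw [injective_iff_map_eq_zero]
    intro f hf
    by_contra hne
    have h1 := rsEv_weight θ hθ hk0 hne
    have h2 : (univ.filter fun a => rsEv θ k f a ≠ 0).card = 0 := by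
      rw [hf, card_eq_zero, filter_eq_empty_iff]
      intro x _
      simp
    omega
  refine ⟨LinearMap.range (rsEv θ k), rsEv_inv θ k, ?_, ?_⟩
  · rw [LinearMap.finrank_range_of_inj hinj, (degreeLTEquiv L k).finrank_eq,
      Module.finrank_pi, Fintype.card_fin]
    have : Fintype.card A ≤ 2 * k := by omega
    have h2 : (Fintype.card A : ℝ) ≤ 2 * k := by exact_mod_cast this
    linarith
  · rintro _ ⟨f, rfl⟩ hne
    have hf : f ≠ 0 := by
      rintro rfl
      exact hne (map_zero _)
    have h1 := rsEv_weight θ hθ hk0 hf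
    have : Fintype.card A ≤ 2 * (univ.filter fun a => rsEv θ k f a ≠ 0).card := by omega
    have h2 : (Fintype.card A : ℝ) ≤ 2 * (univ.filter fun a => rsEv θ k f a ≠ 0).card := by
      exact_mod_cast this
    linarith

end rs

/-! ### Product codes -/

section product

variable {L : Type} [Field L] {J P Q : Type}

/-- the product code -/
def tens (C : Submodule L (P → L)) (D : Submodule L (J × Q → L)) :
    Submodule L (J × (P × Q) → L) where
  carrier := {f | (∀ j q, (fun x => f (j, (x, q))) ∈ C) ∧
    ∀ x, (fun y : J × Q => f (y.1, (x, y.2))) ∈ D}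
  add_mem' := by
    rintro f g ⟨h1, h2⟩ ⟨h3, h4⟩
    exact ⟨fun j q => C.add_mem (h1 j q) (h3 j q), fun x => D.add_mem (h2 x) (h4 x)⟩
  zero_mem' := ⟨fun _ _ => C.zero_mem, fun _ => D.zero_mem⟩
  smul_mem' := by
    rintro c f ⟨h1, h2⟩
    exact ⟨fun j q => C.smul_mem c (h1 j q), fun x => D.smul_mem c (h2 x)⟩

lemma mem_tens {C : Submodule L (P → L)} {D : Submodule L (J × Q → L)}
    {f : J × (P × Q) → L} : f ∈ tens C D ↔ (∀ j q, (fun x => f (j, (x, q))) ∈ C) ∧
    ∀ x, (fun y : J × Q => f (y.1, (x, y.2))) ∈ D := Iff.rfl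

lemma tens_inv [AddCommGroup P] [AddCommGroup Q] {C : Submodule L (P → L)}
    {D : Submodule L (J × Q → L)} (hC : ∀ f ∈ C, ∀ g : P, (fun x : P => f (x + g)) ∈ C)
    (hD : ∀ f ∈ D, ∀ g : Q, (fun x : J × Q => f (x.1, x.2 + g)) ∈ D) :
    ∀ f ∈ tens C D, ∀ g : P × Q, (fun x : J × (P × Q) => f (x.1, x.2 + g)) ∈ tens C D := by
  rintro f ⟨h1, h2⟩ ⟨g, h⟩
  refine ⟨fun j q => ?_, fun x => ?_⟩
  · exact hC _ (h1 j (q + h)) g
  · exact hD _ (h2 (x + g)) h

variable [Fintype J] [Fintype P] [Fintype Q] [DecidableEq L]

lemma tens_weight {C : Submodule L (P → L)} {D : Submodule L (J × Q → L)} {δ ε : ℝ}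
    (hδ : 0 ≤ δ)
    (hC : ∀ f ∈ C, f ≠ 0 → δ * Fintype.card P ≤ (univ.filter fun a => f a ≠ 0).card)
    (hD : ∀ f ∈ D, f ≠ 0 →
      ε * Fintype.card Q ≤ (univ.filter fun a : Q => ∃ j, f (j, a) ≠ 0).card) :
    ∀ f ∈ tens C D, f ≠ 0 → δ * ε * Fintype.card (P × Q) ≤
      (univ.filter fun a : P × Q => ∃ j, f (j, a) ≠ 0).card := by
  classical
  rintro f ⟨h1, h2⟩ hne
  obtain ⟨⟨j0, x0, q0⟩, h0⟩ := Function.ne_iff.1 hne
  set S := univ.filter fun q : Q => ∃ j, f (j, (x0, q)) ≠ 0 with hS
  have hSc : ε * Fintype.card Q ≤ S.card := by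
    apply hD _ (h2 x0)
    intro h
    exact h0 (congrFun h (j0, q0))
  have h3 : ∀ q ∈ S, δ * Fintype.card P ≤
      (univ.filter fun x : P => ∃ j, f (j, (x, q)) ≠ 0).card := by
    intro q hq
    obtain ⟨j, hj⟩ := (mem_filter.1 hq).2
    refine (hC _ (h1 j q) (fun h => hj (congrFun h x0))).trans ?_
    norm_cast
    apply card_le_card
    intro x hx
    exact mem_filter.2 ⟨mem_univ _, j, (mem_filter.1 hx).2⟩
  have h4 : ((univ.filter fun a : P × Q => ∃ j, f (j, a) ≠ 0).card : ℝ) =
      ∑ q : Q, ((univ.filter fun x : P => ∃ j, f (j, (x, q)) ≠ 0).card : ℝ) := by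
    have : (univ.filter fun a : P × Q => ∃ j, f (j, a) ≠ 0).card =
        ∑ q : Q, (univ.filter fun x : P => ∃ j, f (j, (x, q)) ≠ 0).card := by
      simp_rw [card_filter]
      rw [Fintype.sum_prod_type_right]
    rw [this]
    push_cast
    rfl
  rw [h4, Fintype.card_prod]
  calc δ * ε * ((Fintype.card P * Fintype.card Q : ℕ) : ℝ)
      = (ε * Fintype.card Q) * (δ * Fintype.card P) := by push_cast; ring
    _ ≤ S.card * (δ * Fintype.card P) := mul_le_mul_of_nonneg_right hSc (by positivity)
    _ = ∑ q ∈ S, δ * Fintype.card P := by rw [sum_const, nsmul_eq_mul]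
    _ ≤ ∑ q ∈ S, ((univ.filter fun x : P => ∃ j, f (j, (x, q)) ≠ 0).card : ℝ) :=
        sum_le_sum h3
    _ ≤ _ := sum_le_sum_of_subset_of_nonneg (subset_univ _) fun q _ _ => by positivity

omit [DecidableEq L] in
lemma tens_finrank (C : Submodule L (P → L)) (D : Submodule L (J × Q → L)) :
    finrank L C * finrank L D ≤ finrank L (tens C D) := by
  classical
  let u := Module.finBasis L C
  let v := Module.finBasis L D
  let Φ : (Fin (finrank L C) × Fin (finrank L D) → L) →ₗ[L] tens C D :=
    { toFun := fun c => ⟨fun x => ∑ i, ∑ k, c (i, k) * ((u i : P → L) x.2.1 *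
          (v k : J × Q → L) (x.1, x.2.2)), by
        refine ⟨fun j q => ?_, fun x => ?_⟩
        · have : (fun x => ∑ i, ∑ k, c (i, k) * ((u i : P → L) x *
              (v k : J × Q → L) (j, q))) =
              ∑ i, (∑ k, c (i, k) * (v k : J × Q → L) (j, q)) • (u i : P → L) := by
            funext x
            rw [Finset.sum_apply]
            apply sum_congr rfl
            intro i _
            rw [Pi.smul_apply, smul_eq_mul, sum_mul]
            apply sum_congr rfl
            intro k _
            ring
          rw [this]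
          exact Submodule.sum_mem _ fun i _ => C.smul_mem _ (u i).2
        · have : (fun y : J × Q => ∑ i, ∑ k, c (i, k) * ((u i : P → L) x *
              (v k : J × Q → L) (y.1, y.2))) =
              ∑ k, (∑ i, c (i, k) * (u i : P → L) x) • (v k : J × Q → L) := by
            funext y
            rw [Finset.sum_apply, sum_comm]
            apply sum_congr rfl
            intro k _
            rw [Pi.smul_apply, smul_eq_mul, sum_mul]
            apply sum_congr rfl
            intro i _
            ring
          rw [this]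
          exact Submodule.sum_mem _ fun k _ => D.smul_mem _ (v k).2⟩
      map_add' := by
        intro c c'
        apply Subtype.ext
        funext x
        simp only [Pi.add_apply, add_mul, sum_add_distrib, Submodule.coe_add]
      map_smul' := by
        intro a c
        apply Subtype.ext
        funext x
        simp only [Pi.smul_apply, smul_eq_mul, RingHom.id_apply, Submodule.coe_smul, mul_sum,
          mul_assoc] }
  have hΦ : Function.Injective Φ := by
    rw [injective_iff_map_eq_zero]
    intro c hc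
    have h1 : ∀ x : J × (P × Q), ∑ i, ∑ k, c (i, k) * ((u i : P → L) x.2.1 *
          (v k : J × Q → L) (x.1, x.2.2)) = 0 := fun x =>
      congrFun (congrArg Subtype.val hc) x
    have h2 : ∀ (j : J) (q : Q) (i : Fin (finrank L C)),
        ∑ k, c (i, k) * (v k : J × Q → L) (j, q) = 0 := by
      intro j q i
      have h3 : ∑ i, (∑ k, c (i, k) * (v k : J × Q → L) (j, q)) • u i = 0 := by
        apply Subtype.ext
        funext x
        have := h1 (j, (x, q))
        simp only [AddSubmonoidClass.coe_finsetSum, Submodule.coe_smul, Finset.sum_apply,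
          Pi.smul_apply, smul_eq_mul, Submodule.coe_zero, Pi.zero_apply]
        rw [← this]
        apply sum_congr rfl
        intro i _
        rw [sum_mul]
        apply sum_congr rfl
        intro k _
        ring
      exact Fintype.linearIndependent_iff.1 u.linearIndependent _ h3 i
    funext ⟨i, k⟩
    have h3 : ∑ k, c (i, k) • v k = 0 := by
      apply Subtype.ext
      funext y
      simp only [AddSubmonoidClass.coe_finsetSum, Submodule.coe_smul, Finset.sum_apply,
        Pi.smul_apply, smul_eq_mul, Submodule.coe_zero, Pi.zero_apply]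
      exact h2 y.1 y.2 i
    exact Fintype.linearIndependent_iff.1 v.linearIndependent _ h3 k
  have h := LinearMap.finrank_le_finrank_of_injective hΦ
  rw [Module.finrank_fintype_fun_eq_card, Fintype.card_prod, Fintype.card_fin,
    Fintype.card_fin] at h
  exact h

end product

end Pool.Agent.Helper479_gq
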