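import Pool.Agent.Helper479_gq.Four
import Pool.Agent.Helper479_mod.Inv

/-!
Random invariant codes over large fields, for groups of order prime to the characteristic.
-/

set_option autoImplicit false

open Finset Module

namespace Pool.Agent.Helper479_gq

open Helper479_mod (exists_infoK)

section

variable {L : Type} [Field L] [Fintype L] [DecidableEq L]

/-- functions with few nonzero symbols -/
lemma card_sparse (I : Type) [Fintype I] [DecidableEq I] :
    (univ.filter fun h : Fin 2 × I → L =>
      4 * (univ.filter fun i => ∃ j, h (j, i) ≠ 0).card ≤ Fintype.card I).card ≤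
      2 ^ Fintype.card I * Fintype.card L ^ (2 * (Fintype.card I / 4)) := by
  classical
  have h1 : (univ.filter fun h : Fin 2 × I → L =>
      4 * (univ.filter fun i => ∃ j, h (j, i) ≠ 0).card ≤ Fintype.card I) ⊆
      (univ.filter fun S : Finset I => 4 * S.card ≤ Fintype.card I).biUnion fun S =>
        Fintype.piFinset fun x : Fin 2 × I => if x.2 ∈ S then univ else {0} := by
    intro h hh
    refine mem_biUnion.2 ⟨univ.filter fun i => ∃ j, h (j, i) ≠ 0, ?_, ?_⟩
    · exact mem_filter.2 ⟨mem_univ _, (mem_filter.1 hh).2⟩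
    · rw [Fintype.mem_piFinset]
      intro x
      split_ifs with hx
      · exact mem_univ _
      · rw [mem_singleton]
        by_contra h2
        exact hx (mem_filter.2 ⟨mem_univ _, x.1, h2⟩)
  refine (card_le_card h1).trans (card_biUnion_le.trans ?_)
  calc ∑ S ∈ (univ.filter fun S : Finset I => 4 * S.card ≤ Fintype.card I),
        (Fintype.piFinset fun x : Fin 2 × I =>
          if x.2 ∈ S then (univ : Finset L) else {0}).card
      ≤ ∑ S ∈ (univ.filter fun S : Finset I => 4 * S.card ≤ Fintype.card I),
          Fintype.card L ^ (2 * (Fintype.card I / 4)) := by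
        apply sum_le_sum
        intro S hS
        have hS' := (mem_filter.1 hS).2
        rw [Fintype.card_piFinset, Fintype.prod_prod_type]
        have h2 : ∀ j : Fin 2, ∏ i : I, (if i ∈ S then (univ : Finset L) else {0}).card =
            Fintype.card L ^ S.card := by
          intro _
          have h3 : ∏ i : I, (if i ∈ S then (univ : Finset L) else {0}).card =
              ∏ i : I, if i ∈ S then Fintype.card L else 1 := by
            apply prod_congr rfl
            intro i _
            split_ifs
            · rw [card_univ]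
            · rw [card_singleton]
          rw [h3, prod_ite_mem, univ_inter, prod_const]
        rw [prod_congr rfl fun j _ => h2 j, prod_const, card_univ, Fintype.card_fin, ← pow_mul,
          mul_comm S.card 2]
        apply Nat.pow_le_pow_right Fintype.card_pos
        omega
    _ = (univ.filter fun S : Finset I => 4 * S.card ≤ Fintype.card I).card *
          Fintype.card L ^ (2 * (Fintype.card I / 4)) := by rw [sum_const, smul_eq_mul]
    _ ≤ _ := by
        apply Nat.mul_le_mul_right
        refine (card_le_card (filter_subset _ _)).trans ?_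
        rw [card_univ, Fintype.card_finset]

end

section

variable {L : Type} [Field L] {Q : Type} [AddCommGroup Q] [Fintype Q]

lemma hat_shift (F : Q → L) (g : Q) (χ : AddChar Q L) :
    hat (fun x => F (x + g)) χ = χ g * hat F χ := by
  rw [← hat_translate F χ g]
  unfold hat
  apply sum_congr rfl
  intro y _
  change χ (-y) * F (y + g) = χ (-y) * F (g + y)
  rw [add_comm y g]

/-- the code with multipliers `c` -/
def mcode (c : AddChar Q L → L) : Submodule L (Fin 2 × Q → L) where
  carrier := {f | ∀ χ, hat (fun x => f (1, x)) χ = c χ * hat (fun x => f (0, x)) χ}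
  add_mem' := by
    intro f g hf hg χ
    have h1 := hf χ
    have h2 := hg χ
    simp only [hat, Pi.add_apply, mul_add, sum_add_distrib] at h1 h2 ⊢
    rw [h1, h2]
  zero_mem' := by
    intro χ
    simp [hat]
  smul_mem' := by
    intro a f hf χ
    have h1 := hf χ
    simp only [hat, Pi.smul_apply, smul_eq_mul] at h1 ⊢
    have h2 : ∀ j : Fin 2, ∑ x, χ (-x) * (a * f (j, x)) = a * ∑ x, χ (-x) * f (j, x) := by
      intro j
      rw [mul_sum]
      apply sum_congr rfl
      intro x _
      ring
    rw [h2, h2, h1]
    ring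

lemma mem_mcode (c : AddChar Q L → L) (f : Fin 2 × Q → L) : f ∈ mcode c ↔
    ∀ χ, hat (fun x => f (1, x)) χ = c χ * hat (fun x => f (0, x)) χ := Iff.rfl

lemma mcode_inv (c : AddChar Q L → L) :
    ∀ f ∈ mcode c, ∀ g : Q, (fun x : Fin 2 × Q => f (x.1, x.2 + g)) ∈ mcode c := by
  intro f hf g χ
  have h1 := hat_shift (fun x => f (1, x)) g χ
  have h0 := hat_shift (fun x => f (0, x)) g χ
  rw [h1, h0, hf χ]
  ring

lemma mcode_finrank [Fintype (AddChar Q L)] (hcard : Fintype.card (AddChar Q L) = Fintype.card Q)
    (c : AddChar Q L → L) : Fintype.card Q ≤ finrank L (mcode c) := by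
  classical
  let Φ : (Fin 2 × Q → L) →ₗ[L] (AddChar Q L → L) :=
    { toFun := fun f χ => hat (fun x => f (1, x)) χ - c χ * hat (fun x => f (0, x)) χ
      map_add' := by
        intro f g
        funext χ
        simp only [hat, Pi.add_apply, mul_add, sum_add_distrib]
        ring
      map_smul' := by
        intro a f
        funext χ
        simp only [hat, Pi.smul_apply, smul_eq_mul, RingHom.id_apply]
        have h2 : ∀ j : Fin 2, ∑ x, χ (-x) * (a * f (j, x)) = a * ∑ x, χ (-x) * f (j, x) := by
          intro j
          rw [mul_sum]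
          apply sum_congr rfl
          intro x _
          ring
        rw [h2, h2]
        ring }
  have hker : LinearMap.ker Φ = mcode c := by
    ext f
    rw [LinearMap.mem_ker, mem_mcode]
    constructor
    · intro h χ
      exact sub_eq_zero.1 (congrFun h χ)
    · intro h
      funext χ
      exact sub_eq_zero.2 (h χ)
  have h1 := LinearMap.finrank_range_add_finrank_ker Φ
  have h2 := Submodule.finrank_le (LinearMap.range Φ)
  rw [Module.finrank_fintype_fun_eq_card, hcard] at h2
  rw [hker, Module.finrank_fintype_fun_eq_card, Fintype.card_prod, Fintype.card_fin] at h1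
  omega

/-- the frequencies of a function -/
noncomputable def fr [Fintype (AddChar Q L)] (f : Fin 2 × Q → L) : Finset (AddChar Q L) := by
  classical
  exact univ.filter fun χ => ∃ j, hat (fun x => f (j, x)) χ ≠ 0

lemma mem_fr [Fintype (AddChar Q L)] (f : Fin 2 × Q → L) (χ : AddChar Q L) :
    χ ∈ fr f ↔ ∃ j, hat (fun x => f (j, x)) χ ≠ 0 := by
  classical
  simp [fr]

open Classical in
lemma card_mcode [Fintype L] [Fintype (AddChar Q L)] (f : Fin 2 × Q → L) :
    (univ.filter fun c : AddChar Q L → L => f ∈ mcode c).card * Fintype.card L ^ (fr f).card ≤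
      Fintype.card L ^ Fintype.card (AddChar Q L) := by
  have h1 : (univ.filter fun c : AddChar Q L → L => f ∈ mcode c) ⊆
      Fintype.piFinset fun χ => if χ ∈ fr f then
        (univ.filter fun a : L => hat (fun x => f (1, x)) χ = a * hat (fun x => f (0, x)) χ)
        else univ := by
    intro c hc
    rw [Fintype.mem_piFinset]
    intro χ
    split_ifs
    · exact mem_filter.2 ⟨mem_univ _, (mem_filter.1 hc).2 χ⟩
    · exact mem_univ _
  have h2 := card_le_card h1
  rw [Fintype.card_piFinset] at h2
  have h3 : ∏ χ : AddChar Q L, (if χ ∈ fr f then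
        (univ.filter fun a : L => hat (fun x => f (1, x)) χ = a * hat (fun x => f (0, x)) χ)
        else univ).card ≤ ∏ χ : AddChar Q L, if χ ∈ fr f then 1 else Fintype.card L := by
    apply prod_le_prod'
    intro χ _
    split_ifs with hχ
    · rw [card_le_one]
      intro a ha b hb
      have ha' := (mem_filter.1 ha).2
      have hb' := (mem_filter.1 hb).2
      by_cases h0 : hat (fun x => f (0, x)) χ = 0
      · exfalso
        rw [h0, mul_zero] at ha'
        obtain ⟨j, hj⟩ := (mem_fr f χ).1 hχ
        fin_cases j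
        · exact hj h0
        · exact hj ha'
      · rw [ha'] at hb'
        exact mul_right_cancel₀ h0 hb'
    · rw [card_univ]
  have h4 : Fintype.card L ^ (fr f).card =
      ∏ χ : AddChar Q L, if χ ∈ fr f then Fintype.card L else 1 := by
    rw [prod_ite_mem, univ_inter, prod_const]
  calc _ ≤ (∏ χ : AddChar Q L, if χ ∈ fr f then 1 else Fintype.card L) *
        ∏ χ : AddChar Q L, (if χ ∈ fr f then Fintype.card L else 1) := by
        rw [h4]
        exact Nat.mul_le_mul_right _ (h2.trans h3)
    _ = ∏ χ : AddChar Q L, Fintype.card L := by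
        rw [← prod_mul_distrib]
        apply prod_congr rfl
        intro χ _
        split_ifs
        · rw [one_mul]
        · rw [mul_one]
    _ = _ := by rw [prod_const, card_univ]

/-- functions with frequencies in `T` -/
def frs (T : Finset (AddChar Q L)) : Submodule L (Q → L) where
  carrier := {g | ∀ χ ∉ T, hat g χ = 0}
  add_mem' := by
    intro g h hg hh χ hχ
    have h1 := hg χ hχ
    have h2 := hh χ hχ
    simp only [hat, Pi.add_apply, mul_add, sum_add_distrib] at h1 h2 ⊢
    rw [h1, h2, add_zero]
  zero_mem' := by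
    intro χ _
    simp [hat]
  smul_mem' := by
    intro a g hg χ hχ
    have h1 := hg χ hχ
    simp only [hat, Pi.smul_apply, smul_eq_mul] at h1 ⊢
    have h2 : ∑ x, χ (-x) * (a * g x) = a * ∑ x, χ (-x) * g x := by
      rw [mul_sum]
      apply sum_congr rfl
      intro x _
      ring
    rw [h2, h1, mul_zero]

lemma frs_shift {T : Finset (AddChar Q L)} {w : Q → L} (hw : w ∈ frs T) (y : Q) :
    (fun x => w (x + y)) ∈ frs T := by
  intro χ hχ
  rw [hat_shift, hw χ hχ, mul_zero]

lemma frs_finrank {n : ℕ} [NeZero n] [HasEnoughRootsOfUnity L n] [Fintype (AddChar Q L)]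
    [DecidableEq Q]
    (hn : (n : L) ≠ 0) (hQ : ∀ g : Q, n • g = 0) (T : Finset (AddChar Q L)) :
    finrank L (frs T) ≤ T.card := by
  classical
  let Φ : frs T →ₗ[L] (T → L) :=
    { toFun := fun g χ => hat (g : Q → L) χ
      map_add' := by
        intro g h
        funext χ
        simp only [hat, Submodule.coe_add, Pi.add_apply, mul_add, sum_add_distrib]
      map_smul' := by
        intro a g
        funext χ
        simp only [hat, Submodule.coe_smul, Pi.smul_apply, smul_eq_mul, RingHom.id_apply, mul_sum]
        apply sum_congr rfl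
        intro x _
        ring }
  have hΦ : Function.Injective Φ := by
    rw [injective_iff_map_eq_zero]
    intro g hg
    apply Subtype.ext
    apply hat_eq_zero (n := n) hn hQ
    intro χ
    by_cases hχ : χ ∈ T
    · exact congrFun hg ⟨χ, hχ⟩
    · exact g.2 χ hχ
  have := LinearMap.finrank_le_finrank_of_injective hΦ
  simpa using this

open Classical in
/-- the symbol weight -/
noncomputable def sw (f : Fin 2 × Q → L) : ℕ :=
  (univ.filter fun a : Q => ∃ j, f (j, a) ≠ 0).card

open Classical in
lemma count_low [Fintype L] {n : ℕ} [NeZero n] [HasEnoughRootsOfUnity L n]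
    [Fintype (AddChar Q L)] (hn : (n : L) ≠ 0) (hQ : ∀ g : Q, n • g = 0)
    (T : Finset (AddChar Q L)) :
    (univ.filter fun f : Fin 2 × Q → L => fr f ⊆ T ∧ 4 * sw f < Fintype.card Q).card ≤
      Fintype.card Q * (2 ^ T.card * Fintype.card L ^ (2 * (T.card / 4))) := by
  obtain ⟨I, hI, hIcard⟩ := exists_infoK (frs T)
  have hIT : I.card ≤ T.card := by rw [hIcard]; exact frs_finrank hn hQ T
  have hQpos : 0 < Fintype.card Q := Fintype.card_pos_iff.2 ⟨0⟩
  -- a good shift
  have hshift : ∀ f : Fin 2 × Q → L, 4 * sw f < Fintype.card Q →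
      ∃ y : Q, 4 * (univ.filter fun i : I => ∃ j, f (j, (i : Q) + y) ≠ 0).card ≤
        Fintype.card I := by
    intro f hf
    by_contra hcon
    push Not at hcon
    have h1 : ∑ y : Q, (univ.filter fun i : I => ∃ j, f (j, (i : Q) + y) ≠ 0).card =
        Fintype.card I * sw f := by
      simp_rw [card_filter]
      rw [sum_comm]
      have h2 : ∀ i : I, ∑ y : Q, (if ∃ j, f (j, (i : Q) + y) ≠ 0 then 1 else 0) = sw f := by
        intro i
        unfold sw
        rw [card_filter]
        exact Equiv.sum_comp (Equiv.addLeft (i : Q))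
          (fun y => if ∃ j, f (j, y) ≠ 0 then 1 else 0)
      rw [sum_congr rfl fun i _ => h2 i, sum_const, card_univ, smul_eq_mul]
    have h2 : ∑ y : Q, Fintype.card I <
        ∑ y : Q, 4 * (univ.filter fun i : I => ∃ j, f (j, (i : Q) + y) ≠ 0).card :=
      sum_lt_sum_of_nonempty ⟨0, mem_univ _⟩ fun y _ => hcon y
    rw [← mul_sum, h1, sum_const, card_univ, smul_eq_mul] at h2
    have h3 : 4 * (Fintype.card I * sw f) ≤ Fintype.card Q * Fintype.card I := by
      calc 4 * (Fintype.card I * sw f) = (4 * sw f) * Fintype.card I := by ring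
        _ ≤ _ := Nat.mul_le_mul_right _ hf.le
    omega
  have hs' : ∀ f : Fin 2 × Q → L, ∃ y : Q, 4 * sw f < Fintype.card Q →
      4 * (univ.filter fun i : I => ∃ j, f (j, (i : Q) + y) ≠ 0).card ≤ Fintype.card I := by
    intro f
    by_cases hf : 4 * sw f < Fintype.card Q
    · obtain ⟨y, hy⟩ := hshift f hf
      exact ⟨y, fun _ => hy⟩
    · exact ⟨0, fun h => absurd h hf⟩
  choose sh hsh using hs'
  have h1 := card_sparse (L := L) I
  set 𝒮 := univ.filter fun h : Fin 2 × I → L =>
      4 * (univ.filter fun i => ∃ j, h (j, i) ≠ 0).card ≤ Fintype.card I with h𝒮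
  have h2 : (univ.filter fun f : Fin 2 × Q → L => fr f ⊆ T ∧
      4 * sw f < Fintype.card Q).card ≤ ((univ : Finset Q) ×ˢ 𝒮).card := by
    apply card_le_card_of_injOn (fun f => (sh f, fun x : Fin 2 × I => f (x.1, (x.2 : Q) + sh f)))
    · intro f hf
      have hf' := (mem_filter.1 (mem_coe.1 hf)).2
      exact mem_coe.2 (mem_product.2 ⟨mem_univ _, mem_filter.2 ⟨mem_univ _, hsh f hf'.2⟩⟩)
    · intro f hf f' hf' heq
      have h3 := (mem_filter.1 (mem_coe.1 hf)).2.1
      have h3' := (mem_filter.1 (mem_coe.1 hf')).2.1
      have h4 : sh f = sh f' := (Prod.mk.inj heq).1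
      have h5 := (Prod.mk.inj heq).2
      have hmem : ∀ (f : Fin 2 × Q → L) (j : Fin 2), fr f ⊆ T →
          (fun x => f (j, x)) ∈ frs T := by
        intro f j hfT χ hχ
        by_contra h
        exact hχ (hfT ((mem_fr f χ).2 ⟨j, h⟩))
      funext x
      obtain ⟨j, x⟩ := x
      have h6 : (fun x => f (j, x + sh f)) - (fun x => f' (j, x + sh f)) = 0 := by
        apply hI
        · exact (frs T).sub_mem (frs_shift (hmem f j h3) _) (frs_shift (hmem f' j h3') _)
        · intro i hi
          have := congrFun h5 (j, ⟨i, hi⟩)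
          simp only at this
          rw [Pi.sub_apply, this, h4, sub_self]
      have h7 := congrFun h6 (x - sh f)
      simp only [Pi.sub_apply, sub_add_cancel, Pi.zero_apply] at h7
      exact sub_eq_zero.1 h7
  rw [card_product, card_univ] at h2
  refine h2.trans (Nat.mul_le_mul_left _ (h1.trans ?_))
  rw [Fintype.card_coe]
  apply Nat.mul_le_mul
  · exact Nat.pow_le_pow_right (by norm_num) hIT
  · apply Nat.pow_le_pow_right Fintype.card_pos
    have : I.card / 4 ≤ T.card / 4 := Nat.div_le_div_right hIT
    omega

/-- good invariant codes of index two over large fields -/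
theorem rand_code [Fintype L] [DecidableEq L] {n : ℕ} [NeZero n] [HasEnoughRootsOfUnity L n]
    (hn : (n : L) ≠ 0) (hQ : ∀ g : Q, n • g = 0)
    (hL : (4 * Fintype.card Q ^ 2) ^ 2 ≤ Fintype.card L) :
    ∃ D : Submodule L (Fin 2 × Q → L),
      (∀ f ∈ D, ∀ g : Q, (fun x : Fin 2 × Q => f (x.1, x.2 + g)) ∈ D) ∧
      Fintype.card Q ≤ finrank L D ∧
      ∀ f ∈ D, f ≠ 0 →
        Fintype.card Q ≤ 4 * (univ.filter fun a : Q => ∃ j, f (j, a) ≠ 0).card := by
  classical
  let _ : Fintype (AddChar Q L) :=
    Fintype.ofInjective (fun χ => (χ : Q → L)) DFunLike.coe_injective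
  have hcard := card_char (K := L) (n := n) hQ
  suffices h : ∃ c : AddChar Q L → L, ∀ f ∈ mcode c, f ≠ 0 → Fintype.card Q ≤ 4 * sw f by
    obtain ⟨c, hc⟩ := h
    refine ⟨mcode c, mcode_inv c, mcode_finrank hcard c, fun f hf hne => ?_⟩
    have h1 := hc f hf hne
    unfold sw at h1
    convert h1
  by_contra hcon
  push Not at hcon
  have hQpos : 0 < Fintype.card Q := Fintype.card_pos_iff.2 ⟨0⟩
  set N : ℝ := (Fintype.card Q : ℝ) with hN
  have hN1 : 1 ≤ N := by rw [hN]; exact_mod_cast hQpos
  set q : ℝ := (Fintype.card L : ℝ) with hq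
  have hqpos : 0 < q := by
    rw [hq]; exact_mod_cast Fintype.card_pos
  set low := univ.filter fun f : Fin 2 × Q → L => f ≠ 0 ∧ 4 * sw f < Fintype.card Q with hlow
  -- union bound
  have hU : (univ : Finset (AddChar Q L → L)) ⊆
      low.biUnion fun f => univ.filter fun c => f ∈ mcode c := by
    intro c _
    obtain ⟨f, hf, hne, hw⟩ := hcon c
    exact mem_biUnion.2 ⟨f, mem_filter.2 ⟨mem_univ _, hne, hw⟩, mem_filter.2 ⟨mem_univ _, hf⟩⟩
  have hU2 := (card_le_card hU).trans card_biUnion_le
  rw [card_univ, Fintype.card_fun, hcard] at hU2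
  have hone : 1 ≤ ∑ f ∈ low, (1 / q) ^ (fr f).card := by
    have h1 : q ^ Fintype.card Q ≤ ∑ f ∈ low, q ^ Fintype.card Q * (1 / q) ^ (fr f).card := by
      calc q ^ Fintype.card Q = ((Fintype.card L ^ Fintype.card Q : ℕ) : ℝ) := by
            rw [hq]; push_cast; rfl
        _ ≤ ((∑ f ∈ low, (univ.filter fun c => f ∈ mcode c).card : ℕ) : ℝ) := by
            exact_mod_cast hU2
        _ = ∑ f ∈ low, ((univ.filter fun c => f ∈ mcode c).card : ℝ) := by push_cast; rfl
        _ ≤ _ := by
            apply sum_le_sum
            intro f _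
            have h2 := card_mcode f
            rw [hcard] at h2
            have h3 : ((univ.filter fun c => f ∈ mcode c).card : ℝ) * q ^ (fr f).card ≤
                q ^ Fintype.card Q := by
              rw [hq]; exact_mod_cast h2
            rw [one_div, inv_pow, ← div_eq_mul_inv, le_div_iff₀ (by positivity)]
            exact h3
    rw [← mul_sum] at h1
    have h2 : (0 : ℝ) < q ^ Fintype.card Q := by positivity
    exact le_of_mul_le_mul_left (by linarith) h2
  -- group by the frequencies
  set x : ℝ := 1 / (2 * N) with hx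
  have hx0 : 0 < x := by positivity
  have hgroup : ∑ f ∈ low, (1 / q) ^ (fr f).card ≤
      ∑ T ∈ (univ : Finset (Finset (AddChar Q L))).erase ∅, x ^ T.card := by
    rw [← sum_fiberwise low (fun f => fr f) (fun f => (1 / q) ^ (fr f).card)]
    rw [← add_sum_erase univ _ (mem_univ (∅ : Finset (AddChar Q L)))]
    have hz : ∑ f ∈ low with fr f = ∅, (1 / q) ^ (fr f).card = 0 := by
      apply sum_eq_zero
      intro f hf
      exfalso
      rw [mem_filter, hlow, mem_filter] at hf
      apply hf.1.2.1
      funext y
      obtain ⟨j, y⟩ := y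
      have : (fun y => f (j, y)) = 0 := by
        apply hat_eq_zero (n := n) hn hQ
        intro χ
        by_contra hne
        have h1 : χ ∈ fr f := (mem_fr f χ).2 ⟨j, hne⟩
        rw [hf.2] at h1
        simp at h1
      exact congrFun this y
    rw [hz, zero_add]
    apply sum_le_sum
    intro T hT
    have hT0 : T ≠ ∅ := (mem_erase.1 hT).1
    have hT1 : 1 ≤ T.card := card_pos.2 (nonempty_iff_ne_empty.2 hT0)
    have h2 : ∑ f ∈ low with fr f = T, (1 / q) ^ (fr f).card =
        ((low.filter fun f => fr f = T).card : ℝ) * (1 / q) ^ T.card := by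
      rw [← nsmul_eq_mul, ← sum_const]
      apply sum_congr rfl
      intro f hf
      rw [(mem_filter.1 hf).2]
    rw [h2]
    have h3 : (low.filter fun f => fr f = T).card ≤
        Fintype.card Q * (2 ^ T.card * Fintype.card L ^ (2 * (T.card / 4))) := by
      refine le_trans (card_le_card ?_) (count_low hn hQ T)
      intro f hf
      rw [mem_filter, hlow, mem_filter] at hf
      exact mem_filter.2 ⟨mem_univ _, hf.2.le, hf.1.2.2⟩
    have h4 : ((low.filter fun f => fr f = T).card : ℝ) ≤
        N * (2 ^ T.card * q ^ (2 * (T.card / 4))) := by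
      rw [hN, hq]; exact_mod_cast h3
    -- the power of `q`
    have h5 : q ^ (2 * (T.card / 4)) * (4 * N ^ 2) ^ T.card ≤ q ^ T.card := by
      have h6 : (4 * N ^ 2) ^ 2 ≤ q := by
        rw [hN, hq]; exact_mod_cast hL
      have hq1 : 1 ≤ q := by
        rw [hq]
        exact_mod_cast Fintype.card_pos
      have h7 : (q ^ (2 * (T.card / 4)) * (4 * N ^ 2) ^ T.card) ^ 2 ≤ (q ^ T.card) ^ 2 := by
        calc (q ^ (2 * (T.card / 4)) * (4 * N ^ 2) ^ T.card) ^ 2 =
              q ^ (2 * (2 * (T.card / 4))) * ((4 * N ^ 2) ^ 2) ^ T.card := by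
              rw [mul_pow, ← pow_mul, ← pow_mul, ← pow_mul, mul_comm (2 * (T.card / 4)) 2,
                mul_comm T.card 2]
          _ ≤ q ^ T.card * q ^ T.card := by
              apply mul_le_mul _ _ (by positivity) (by positivity)
              · apply pow_le_pow_right₀ hq1
                omega
              · exact pow_le_pow_left₀ (by positivity) h6 _
          _ = _ := by ring
      exact le_of_sq_le_sq h7 (by positivity)
    have h8 : (0 : ℝ) < (4 * N ^ 2) ^ T.card := by positivity
    have h9 : q ^ (2 * (T.card / 4)) * (1 / q) ^ T.card ≤ (1 / (4 * N ^ 2)) ^ T.card := by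
      rw [one_div, one_div, inv_pow, inv_pow, ← div_eq_mul_inv, div_le_iff₀ (by positivity),
        inv_mul_eq_div, le_div_iff₀ h8]
      exact h5
    calc ((low.filter fun f => fr f = T).card : ℝ) * (1 / q) ^ T.card
        ≤ N * (2 ^ T.card * q ^ (2 * (T.card / 4))) * (1 / q) ^ T.card :=
          mul_le_mul_of_nonneg_right h4 (by positivity)
      _ = N * (2 ^ T.card * (q ^ (2 * (T.card / 4)) * (1 / q) ^ T.card)) := by ring
      _ ≤ N * (2 ^ T.card * (1 / (4 * N ^ 2)) ^ T.card) := by
          apply mul_le_mul_of_nonneg_left _ (by positivity)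
          exact mul_le_mul_of_nonneg_left h9 (by positivity)
      _ ≤ N ^ T.card * (2 ^ T.card * (1 / (4 * N ^ 2)) ^ T.card) := by
          apply mul_le_mul_of_nonneg_right _ (by positivity)
          exact le_self_pow₀ hN1 (by omega)
      _ = x ^ T.card := by
          rw [← mul_pow, ← mul_pow, hx]
          congr 1
          field_simp
          norm_num
  have hall : ∑ T : Finset (AddChar Q L), x ^ T.card = (x + 1) ^ (Fintype.card Q) := by
    have h2 := Finset.sum_pow_mul_eq_add_pow x 1 (univ : Finset (AddChar Q L))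
    simp only [one_pow, mul_one, powerset_univ] at h2
    rw [h2, card_univ, hcard]
  have herase : ∑ T ∈ (univ : Finset (Finset (AddChar Q L))).erase ∅, x ^ T.card =
      (x + 1) ^ (Fintype.card Q) - 1 := by
    rw [← hall, ← add_sum_erase univ _ (mem_univ (∅ : Finset (AddChar Q L)))]
    simp
  have hexp : (x + 1) ^ (Fintype.card Q) < 2 := by
    have h2 : (x + 1) ^ (Fintype.card Q) ≤ Real.exp (x * N) := by
      calc (x + 1) ^ (Fintype.card Q) ≤ (Real.exp x) ^ (Fintype.card Q) :=
            pow_le_pow_left₀ (by positivity) (Real.add_one_le_exp x) _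
        _ = Real.exp (x * N) := by
            rw [← Real.exp_nat_mul, hN, mul_comm]
    have h3 : Real.exp (x * N) ≤ Real.exp (1 / 2) := by
      apply Real.exp_le_exp.2
      rw [hx]
      apply le_of_eq
      field_simp
    have h4 : Real.exp (1 / 2) < 2 := by
      have h5 : Real.exp (1 / 2) ^ 2 = Real.exp 1 := by
        rw [← Real.exp_nat_mul]; norm_num
      have h6 := Real.exp_one_lt_d9
      have h7 := Real.exp_pos (1 / 2 : ℝ)
      nlinarith
    linarith
  linarith

end

end Pool.Agent.Helper479_gq
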