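import Pool.Agent.Helper479_gq.Modular
import Pool.Agent.Helper479_gq.Four

/-!
Translation invariant spaces of functions on few copies of a finite abelian group of bounded
exponent prime to the characteristic contain nonzero functions of small support.
-/

set_option autoImplicit false

open Finset Module Matrix

namespace Pool.Agent.Helper479_gq

open Helper479_mod (pull pull_apply card_preimage_pull)

section

variable {K : Type} [Field K] {l : ℕ} {G : Type} [AddCommGroup G] [Fintype G]

/-- the function attached to a character and a vector -/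
def wd (χ : AddChar G K) (w : Fin l → K) : Fin l × G → K := fun x => χ x.2 * w x.1

lemma wd_hat_mem {M : Submodule K (Fin l × G → K)}
    (hM : ∀ F ∈ M, ∀ g : G, (fun x : Fin l × G => F (x.1, x.2 + g)) ∈ M)
    {F : Fin l × G → K} (hF : F ∈ M) (χ : AddChar G K) :
    wd χ (fun j => hat (fun y => F (j, y)) χ) ∈ M := by
  have h1 : wd χ (fun j => hat (fun y => F (j, y)) χ) =
      ∑ g : G, χ (-g) • (fun x : Fin l × G => F (x.1, x.2 + g)) := by
    funext x
    rw [Finset.sum_apply]
    change χ x.2 * hat (fun y => F (x.1, y)) χ = ∑ g : G, χ (-g) * F (x.1, x.2 + g)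
    rw [← hat_translate (fun y => F (x.1, y)) χ x.2]
  rw [h1]
  exact Submodule.sum_mem _ fun g _ => M.smul_mem _ (hM F hF g)

/-- the number of characters that occur -/
lemma finrank_le_char {n : ℕ} [NeZero n] [HasEnoughRootsOfUnity K n] [Fintype (AddChar G K)]
    (hn : (n : K) ≠ 0) (hG : ∀ g : G, n • g = 0) {M : Submodule K (Fin l × G → K)}
    (hM : ∀ F ∈ M, ∀ g : G, (fun x : Fin l × G => F (x.1, x.2 + g)) ∈ M)
    (T : Finset (AddChar G K))
    (hT : ∀ χ : AddChar G K, (∃ w : Fin l → K, w ≠ 0 ∧ wd χ w ∈ M) → χ ∈ T) :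
    finrank K M ≤ T.card * l := by
  classical
  let Φ : M →ₗ[K] (T → Fin l → K) :=
    { toFun := fun F χ j => hat (fun y => F.1 (j, y)) χ.1
      map_add' := by
        intro F F'
        funext χ j
        simp [hat, mul_add, Finset.sum_add_distrib]
      map_smul' := by
        intro c F
        funext χ j
        simp only [hat, SetLike.val_smul, Pi.smul_apply, smul_eq_mul, RingHom.id_apply,
          Finset.mul_sum]
        refine Finset.sum_congr rfl fun a _ => ?_
        ring }
  have hinj : Function.Injective Φ := by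
    rw [injective_iff_map_eq_zero]
    intro F hF
    apply Subtype.ext
    funext x
    obtain ⟨j, x⟩ := x
    have h1 : (fun y => F.1 (j, y)) = 0 := by
      apply hat_eq_zero (n := n) hn hG
      intro χ
      have h2 : (fun j => hat (fun y => F.1 (j, y)) χ) = 0 := by
        by_contra hne
        have hχ : χ ∈ T := hT χ ⟨_, hne, wd_hat_mem hM F.2 χ⟩
        exact hne (congrFun hF ⟨χ, hχ⟩)
      exact congrFun h2 j
    exact congrFun h1 x
  have h1 := LinearMap.finrank_le_finrank_of_injective hinj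
  rw [Module.finrank_pi_fintype] at h1
  simpa using h1

end

/-! ### The characters that come from an elementary abelian quotient -/

section quotient

variable {K : Type} [Field K] {r ℓ : ℕ} [hℓ : Fact ℓ.Prime] {G : Type} [AddCommGroup G]
  {ζ : K} (hζ : IsPrimitiveRoot ζ ℓ) (π : G →+ (Fin r → ZMod ℓ))

/-- the additive character of `ZMod ℓ` -/
noncomputable def psi : AddChar (ZMod ℓ) K := AddChar.zmodChar ℓ hζ.pow_eq_one

lemma psi_inj {t t' : ZMod ℓ} (h : psi hζ t = psi hζ t') : t = t' := by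
  have h1 : psi hζ (t - t') = 1 := by
    rw [AddChar.map_sub_eq_div, h, div_self]
    exact char_ne_zero _ _
  unfold psi at h1
  rw [AddChar.zmodChar_apply, hζ.pow_eq_one_iff_dvd] at h1
  have h2 : (t - t').val = 0 := Nat.eq_zero_of_dvd_of_lt h1 (ZMod.val_lt _)
  exact sub_eq_zero.1 ((ZMod.val_eq_zero _).1 h2)

/-- the character given by a vector -/
noncomputable def om (y : Fin r → ZMod ℓ) : AddChar G K :=
  (psi hζ).compAddMonoidHom
    { toFun := fun a => y ⬝ᵥ π a
      map_zero' := by rw [map_zero, dotProduct_zero]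
      map_add' := fun a b => by rw [map_add, dotProduct_add] }

lemma om_apply (y : Fin r → ZMod ℓ) (a : G) : om hζ π y a = psi hζ (y ⬝ᵥ π a) := rfl

lemma om_add (y y' : Fin r → ZMod ℓ) (a : G) :
    om hζ π (y + y') a = om hζ π y a * om hζ π y' a := by
  rw [om_apply, om_apply, om_apply, add_dotProduct, AddChar.map_add_eq_mul]

lemma om_sum {d : ℕ} (e : Fin d → (Fin r → ZMod ℓ)) (a : G) :
    om hζ π (∑ i, e i) a = ∏ i, om hζ π (e i) a := by
  have h : ∀ s : Finset (Fin d), om hζ π (∑ i ∈ s, e i) a = ∏ i ∈ s, om hζ π (e i) a := by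
    intro s
    induction s using Finset.induction_on with
    | empty => rw [sum_empty, prod_empty, om_apply, zero_dotProduct, AddChar.map_zero_eq_one]
    | insert i s hi ih => rw [sum_insert hi, prod_insert hi, om_add, ih]
  exact h univ

end quotient

theorem semi_part (K : Type) [Field K] [Fintype K] [DecidableEq K] (n : ℕ) [NeZero n]
    [HasEnoughRootsOfUnity K n] (hn : (n : K) ≠ 0) (d : ℕ) {R : ℝ} (hR : 0 < R) :
    ∃ C0 : ℕ, ∀ (l r ℓ : ℕ) [Fact ℓ.Prime] (G : Type) [AddCommGroup G] [Fintype G]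
      (π : G →+ (Fin r → ZMod ℓ)), 0 < l → ℓ ∣ n → Function.Surjective π →
      (∀ g : G, n • g = 0) →
      ∀ M : Submodule K (Fin l × G → K),
      (∀ F ∈ M, ∀ g : G, (fun x : Fin l × G => F (x.1, x.2 + g)) ∈ M) →
      R * (l * Fintype.card G) ≤ finrank K M → C0 * l < r →
      ∃ F ∈ M, F ≠ 0 ∧ (univ.filter fun x => F x ≠ 0).card * ℓ ^ (d + 1) ≤
        (ℓ - 1) ^ (d + 1) * (l * Fintype.card G) := by
  classical
  obtain ⟨c, hc⟩ : ∃ c : ℕ, 1 / R ≤ 2 ^ c := by
    obtain ⟨c, hc⟩ := pow_unbounded_of_one_lt (1 / R) (one_lt_two)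
    exact ⟨c, hc.le⟩
  set κ := Fintype.card K with hκ
  refine ⟨(2 * n + 1) * (d + 1) + 2 ^ (d + 1) * (κ + c + 1), ?_⟩
  intro l r ℓ hℓ G _ _ π hl hℓn hπ hG M hM hdim hr
  have hn0 : 0 < n := Nat.pos_of_ne_zero (NeZero.ne n)
  have hℓle : ℓ ≤ n := Nat.le_of_dvd hn0 hℓn
  have hr1 : (2 * ℓ + 1) * (d + 1) + 2 ^ (d + 1) * (κ * l + c + 1) ≤ r := by
    have h1 : (2 * ℓ + 1) * (d + 1) ≤ (2 * n + 1) * (d + 1) * l := by
      calc (2 * ℓ + 1) * (d + 1) ≤ (2 * n + 1) * (d + 1) := Nat.mul_le_mul_right _ (by omega)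
        _ ≤ _ := Nat.le_mul_of_pos_right _ hl
    have h2 : 2 ^ (d + 1) * (κ * l + c + 1) ≤ 2 ^ (d + 1) * (κ + c + 1) * l := by
      have h3 : κ * l + c + 1 ≤ (κ + c + 1) * l := by nlinarith
      calc 2 ^ (d + 1) * (κ * l + c + 1) ≤ 2 ^ (d + 1) * ((κ + c + 1) * l) :=
            Nat.mul_le_mul_left _ h3
        _ = _ := by ring
    have h4 : ((2 * n + 1) * (d + 1) + 2 ^ (d + 1) * (κ + c + 1)) * l =
        (2 * n + 1) * (d + 1) * l + 2 ^ (d + 1) * (κ + c + 1) * l := by ring
    rw [h4] at hr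
    omega
  have hcard : ∀ n : ℕ, Fintype.card (Fin n → ZMod ℓ) = ℓ ^ n := by
    intro n
    rw [Fintype.card_fun, Fintype.card_fin, ZMod.card]
  let Y := Fin r → ZMod ℓ
  have hYpos : (0 : ℝ) < Fintype.card Y := by
    have : 0 < Fintype.card Y := Fintype.card_pos
    exact_mod_cast this
  have hGpos : (0 : ℝ) < Fintype.card G := by
    have : 0 < Fintype.card G := Fintype.card_pos_iff.2 ⟨0⟩
    exact_mod_cast this
  have hl' : (0 : ℝ) < l := by exact_mod_cast hl
  let _ : Fintype (AddChar G K) :=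
    Fintype.ofInjective (fun χ => (χ : G → K)) DFunLike.coe_injective
  obtain ⟨ζ, hζ⟩ := (HasEnoughRootsOfUnity.of_dvd K hℓn).prim
  -- the characters that occur
  let T : Finset (AddChar G K) := univ.filter fun χ => ∃ w : Fin l → K, w ≠ 0 ∧ wd χ w ∈ M
  have hTc : finrank K M ≤ T.card * l :=
    finrank_le_char hn hG hM T fun χ hχ => mem_filter.2 ⟨mem_univ _, hχ⟩
  have hwex : ∀ χ : AddChar G K, ∃ w : Fin l → K, χ ∈ T → w ≠ 0 ∧ wd χ w ∈ M := by
    intro χ
    by_cases hχ : χ ∈ T
    · obtain ⟨w, hw⟩ := (mem_filter.1 hχ).2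
      exact ⟨w, fun _ => hw⟩
    · exact ⟨0, fun h => (hχ h).elim⟩
  choose wf hwf using hwex
  obtain ⟨w, hw⟩ := exists_popular T wf
  set Tw := T.filter fun χ => wf χ = w with hTw
  have hTwmem : ∀ χ ∈ Tw, w ≠ 0 ∧ wd χ w ∈ M := by
    intro χ hχ
    rw [hTw, mem_filter] at hχ
    have := hwf χ hχ.1
    rwa [hχ.2] at this
  -- averaging over the cosets
  obtain ⟨x0, hx0⟩ : ∃ x0 : AddChar G K, Fintype.card Y * Tw.card ≤
      Fintype.card G * (univ.filter fun y : Y => x0 * om hζ π y ∈ Tw).card := by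
    by_contra hcon
    push Not at hcon
    have h1 : ∑ x0 : AddChar G K,
        Fintype.card G * (univ.filter fun y : Y => x0 * om hζ π y ∈ Tw).card <
        ∑ x0 : AddChar G K, Fintype.card Y * Tw.card :=
      sum_lt_sum_of_nonempty univ_nonempty fun x0 _ => hcon x0
    rw [sum_const, card_univ, smul_eq_mul, card_char (n := n) hG, ← mul_sum] at h1
    have h2 : ∑ x0 : AddChar G K, (univ.filter fun y : Y => x0 * om hζ π y ∈ Tw).card =
        Fintype.card Y * Tw.card := by
      simp_rw [card_filter]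
      rw [sum_comm]
      have h3 : ∀ y : Y, ∑ x0 : AddChar G K, (if x0 * om hζ π y ∈ Tw then 1 else 0) =
          Tw.card := by
        intro y
        rw [← Equiv.sum_comp (Equiv.mulRight (om hζ π y)⁻¹)
          (fun x0 => if x0 * om hζ π y ∈ Tw then 1 else 0)]
        simp only [Equiv.coe_mulRight, inv_mul_cancel_right]
        rw [sum_ite_mem, univ_inter, card_eq_sum_ones]
      rw [sum_congr rfl fun y _ => h3 y, sum_const, card_univ, smul_eq_mul]
    rw [h2] at h1
    exact lt_irrefl _ h1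
  set S := univ.filter fun y : Y => x0 * om hζ π y ∈ Tw with hS
  have hScard : Fintype.card Y ≤ 2 ^ (κ * l + c) * S.card := by
    have h1 : R * Fintype.card G ≤ T.card := by
      have h2 : (finrank K M : ℝ) ≤ T.card * l := by exact_mod_cast hTc
      have h3 : (R * Fintype.card G) * l ≤ T.card * l := by
        calc _ = R * (l * Fintype.card G) := by ring
          _ ≤ _ := hdim.trans h2
      exact le_of_mul_le_mul_right h3 hl'
    have h2 : (T.card : ℝ) ≤ 2 ^ (κ * l) * Tw.card := by
      have h3 : T.card ≤ 2 ^ (κ * l) * Tw.card := by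
        refine hw.trans (Nat.mul_le_mul_right _ ?_)
        rw [Fintype.card_fun, Fintype.card_fin, ← hκ, pow_mul]
        exact Nat.pow_le_pow_left (Nat.lt_two_pow_self).le _
      exact_mod_cast h3
    have h3 : (Fintype.card Y : ℝ) * Tw.card ≤ Fintype.card G * S.card := by exact_mod_cast hx0
    have h4 : R * Fintype.card Y ≤ 2 ^ (κ * l) * S.card := by
      have h5 : Fintype.card G * (R * Fintype.card Y) ≤
          Fintype.card G * (2 ^ (κ * l) * (S.card : ℝ)) := by
        calc Fintype.card G * (R * Fintype.card Y) = Fintype.card Y * (R * Fintype.card G) := by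
              ring
          _ ≤ Fintype.card Y * (2 ^ (κ * l) * Tw.card) :=
              mul_le_mul_of_nonneg_left (h1.trans h2) hYpos.le
          _ = 2 ^ (κ * l) * (Fintype.card Y * Tw.card) := by ring
          _ ≤ 2 ^ (κ * l) * (Fintype.card G * S.card) :=
              mul_le_mul_of_nonneg_left h3 (by positivity)
          _ = _ := by ring
      exact le_of_mul_le_mul_left h5 hGpos
    have h6 : (Fintype.card Y : ℝ) ≤ 2 ^ (κ * l + c) * S.card := by
      calc (Fintype.card Y : ℝ) = 1 / R * (R * Fintype.card Y) := by field_simp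
        _ ≤ 2 ^ c * (R * Fintype.card Y) := mul_le_mul_of_nonneg_right hc (by positivity)
        _ ≤ 2 ^ c * (2 ^ (κ * l) * S.card) := mul_le_mul_of_nonneg_left h4 (by positivity)
        _ = _ := by rw [pow_add]; ring
    exact_mod_cast h6
  -- the tuples
  let E : Finset (Fin (d + 1) → Y) := univ.filter fun e => ∑ i, e i ∈ S
  have hEcard : E.card = Fintype.card Y ^ d * S.card := by
    have h1 : E.card = ∑ e : Fin (d + 1) → Y, if ∑ i, e i ∈ S then 1 else 0 := by
      rw [card_filter]
    rw [h1, ← (Fin.consEquiv (fun _ : Fin (d + 1) => Y)).sum_comp, Fintype.sum_prod_type,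
      sum_comm]
    have h2 : ∀ e : Fin d → Y, ∑ y : Y,
        (if ∑ i, (Fin.consEquiv (fun _ : Fin (d + 1) => Y)) (y, e) i ∈ S then 1 else 0) =
          S.card := by
      intro e
      have h3 : ∀ y : Y, ∑ i, (Fin.consEquiv (fun _ : Fin (d + 1) => Y)) (y, e) i =
          y + ∑ i, e i := by
        intro y
        rw [Fin.sum_univ_succ]
        rfl
      simp_rw [h3]
      rw [← Equiv.sum_comp (Equiv.subRight (∑ i, e i))
        (fun y => if y + ∑ i, e i ∈ S then 1 else 0)]
      simp only [Equiv.subRight_apply, sub_add_cancel]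
      rw [sum_ite_mem, univ_inter, card_eq_sum_ones]
    rw [sum_congr rfl fun e _ => h2 e, sum_const, card_univ, smul_eq_mul, Fintype.card_fun,
      Fintype.card_fin]
  obtain ⟨u, v, huv, hind⟩ := exists_box (p := ℓ) (d + 1) {0} E (κ * l + c)
    (by
      rw [hEcard, pow_succ]
      calc Fintype.card Y ^ d * Fintype.card Y ≤
            Fintype.card Y ^ d * (2 ^ (κ * l + c) * S.card) := Nat.mul_le_mul_left _ hScard
        _ = _ := by ring)
    (by
      rw [card_singleton, mul_one, hcard]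
      calc (2 * ℓ ^ 2) ^ (d + 1) * 2 ^ (2 ^ (d + 1) * (κ * l + c + 1))
          ≤ (2 ^ (2 * ℓ + 1)) ^ (d + 1) * 2 ^ (2 ^ (d + 1) * (κ * l + c + 1)) := by
            apply Nat.mul_le_mul_right
            apply Nat.pow_le_pow_left
            calc 2 * ℓ ^ 2 ≤ 2 * (2 ^ ℓ) ^ 2 :=
                  Nat.mul_le_mul_left _ (Nat.pow_le_pow_left (Nat.lt_two_pow_self).le 2)
              _ = 2 ^ (2 * ℓ + 1) := by rw [← pow_mul, pow_succ, mul_comm ℓ 2, mul_comm]
        _ = 2 ^ ((2 * ℓ + 1) * (d + 1) + 2 ^ (d + 1) * (κ * l + c + 1)) := by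
            rw [← pow_mul, ← pow_add]
        _ ≤ 2 ^ r := Nat.pow_le_pow_right (by norm_num) hr1
        _ ≤ ℓ ^ r := Nat.pow_le_pow_left hℓ.out.two_le r)
  have hdiff := diff_indep hind
  -- the word
  have hmem : ∀ t : Finset (Fin (d + 1)),
      x0 * om hζ π (∑ i, if i ∈ t then v i else u i) ∈ Tw := by
    intro t
    have h1 := (mem_filter.1 (huv t)).2
    exact (mem_filter.1 h1).2
  let F : Fin l × G → K := ∑ t ∈ (univ : Finset (Fin (d + 1))).powerset, ((-1 : K) ^ t.card) •
    wd (x0 * om hζ π (∑ i, if i ∈ t then v i else u i)) w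
  have hFval : ∀ x : Fin l × G, F x = x0 x.2 * w x.1 *
      ∏ i, (om hζ π (u i) x.2 - om hζ π (v i) x.2) := by
    intro x
    have h1 : ∏ i, (om hζ π (u i) x.2 - om hζ π (v i) x.2) =
        ∏ i, (- om hζ π (v i) x.2 + om hζ π (u i) x.2) := by
      apply prod_congr rfl
      intro i _
      ring
    rw [h1, Finset.prod_add, mul_sum]
    simp only [F, Finset.sum_apply]
    apply sum_congr rfl
    intro t _
    rw [Pi.smul_apply, smul_eq_mul]
    change (-1 : K) ^ t.card * ((x0 * om hζ π (∑ i, if i ∈ t then v i else u i)) x.2 * w x.1) = _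
    rw [AddChar.mul_apply, om_sum]
    have h2 : ∏ i, om hζ π (if i ∈ t then v i else u i) x.2 =
        (∏ i ∈ t, om hζ π (v i) x.2) * ∏ i ∈ univ \ t, om hζ π (u i) x.2 := by
      rw [← Finset.prod_sdiff (subset_univ t), mul_comm]
      congr 1
      · apply prod_congr rfl
        intro i hi
        rw [if_pos hi]
      · apply prod_congr rfl
        intro i hi
        rw [if_neg (mem_sdiff.1 hi).2]
    have h3 : ∏ i ∈ t, (- om hζ π (v i) x.2) = (-1) ^ t.card * ∏ i ∈ t, om hζ π (v i) x.2 := by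
      rw [Finset.prod_neg]
    rw [h2, h3]
    ring
  have hvan : ∀ x, F x ≠ 0 → ∀ i, (v i - u i) ⬝ᵥ π x.2 ≠ 0 := by
    intro x hx i h0
    apply hx
    rw [hFval]
    rw [prod_eq_zero (mem_univ i), mul_zero]
    rw [sub_dotProduct, sub_eq_zero] at h0
    rw [om_apply, om_apply, h0, sub_self]
  refine ⟨F, ?_, ?_, ?_⟩
  · exact Submodule.sum_mem _ fun t _ => Submodule.smul_mem _ _ (hTwmem _ (hmem t)).2
  · have hw0 : w ≠ 0 := (hTwmem _ (hmem ∅)).1
    obtain ⟨j, hj⟩ := Function.ne_iff.1 hw0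
    obtain ⟨z, hz⟩ := Helper479_codes.exists_dot hdiff (fun _ => 1)
    obtain ⟨a, ha⟩ := hπ z
    intro h0
    have h1 : F (j, a) = 0 := by rw [h0]; rfl
    rw [hFval] at h1
    rcases mul_eq_zero.1 h1 with h2 | h2
    · rcases mul_eq_zero.1 h2 with h3 | h3
      · exact char_ne_zero _ _ h3
      · exact hj h3
    · obtain ⟨i, -, hi⟩ := prod_eq_zero_iff.1 h2
      rw [sub_eq_zero, om_apply, om_apply] at hi
      have h3 := psi_inj hζ hi
      have h4 := hz i
      rw [sub_dotProduct, ← ha, h3, sub_self] at h4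
      exact zero_ne_one h4
  · have h1 := card_nonvanish hdiff univ
    rw [card_univ, Fintype.card_fin] at h1
    set B := (univ.filter fun x : Y => ∀ i ∈ (univ : Finset (Fin (d + 1))),
      (v i - u i) ⬝ᵥ x ≠ 0) with hB
    have h2 := card_preimage_pull (J := Fin l) π hπ (univ ×ˢ B)
    rw [card_product, card_univ, Fintype.card_fin, hcard] at h2
    have h3 : (univ.filter fun x => F x ≠ 0).card ≤
        (univ.filter fun x : Fin l × G => (x.1, π x.2) ∈ univ ×ˢ B).card := by
      apply card_le_card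
      intro x hx
      refine mem_filter.2 ⟨mem_univ _, mem_product.2 ⟨mem_univ _, ?_⟩⟩
      exact mem_filter.2 ⟨mem_univ _, fun i _ => hvan x (mem_filter.1 hx).2 i⟩
    have h4 : ℓ ^ r * ((univ.filter fun x => F x ≠ 0).card * ℓ ^ (d + 1)) ≤
        ℓ ^ r * ((ℓ - 1) ^ (d + 1) * (l * Fintype.card G)) := by
      calc ℓ ^ r * ((univ.filter fun x => F x ≠ 0).card * ℓ ^ (d + 1))
          ≤ ℓ ^ r * ((univ.filter fun x : Fin l × G => (x.1, π x.2) ∈ univ ×ˢ B).card *
            ℓ ^ (d + 1)) := Nat.mul_le_mul_left _ (Nat.mul_le_mul_right _ h3)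
        _ = ((univ.filter fun x : Fin l × G => (x.1, π x.2) ∈ univ ×ˢ B).card * ℓ ^ r) *
            ℓ ^ (d + 1) := by ring
        _ = l * (B.card * ℓ ^ (d + 1)) * Fintype.card G := by rw [h2]; ring
        _ = _ := by rw [h1]; ring
    exact Nat.le_of_mul_le_mul_left h4 (pow_pos hℓ.out.pos _)

end Pool.Agent.Helper479_gq
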