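import Pool.Agent.Helper479_gq.Unip

/-!
Every finite abelian group of exponent dividing `p ^ (e + 1)` is a quotient of the group of
truncated power series with constant term one over a large field of characteristic `p`.
-/

set_option autoImplicit false

open Finset Module Polynomial

namespace Pool.Agent.Helper479_gq

/-! ### Duality -/

/-- a subgroup of a finite abelian group is a quotient of it -/
lemma exists_surj_of_inj (U B : Type) [CommGroup U] [Finite U] [CommGroup B]
    (i : B →* U) (hi : Function.Injective i) : ∃ π : U →* B, Function.Surjective π := by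
  have h0 : Monoid.exponent U ≠ 0 := Monoid.exponent_ne_zero_of_finite
  have : NeZero (Monoid.exponent U) := ⟨h0⟩
  have : NeZero ((Monoid.exponent U : ℕ) : ℂ) := ⟨by exact_mod_cast h0⟩
  have h1 : HasEnoughRootsOfUnity ℂ (Monoid.exponent U) := inferInstance
  let H : Subgroup U := i.range
  have h2 : HasEnoughRootsOfUnity ℂ (Monoid.exponent H) :=
    h1.of_dvd ℂ (Monoid.exponent_submonoid_dvd H.toSubmonoid)
  obtain ⟨e1⟩ := CommGroup.monoidHom_mulEquiv_of_hasEnoughRootsOfUnity U ℂ
  obtain ⟨e2⟩ := CommGroup.monoidHom_mulEquiv_of_hasEnoughRootsOfUnity H ℂ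
  let e3 : B ≃* H := MonoidHom.ofInjective hi
  have h3 := MonoidHom.domRestrict_surjective ℂ H
  refine ⟨e3.symm.toMonoidHom.comp (e2.toMonoidHom.comp
    ((MonoidHom.domRestrictHom H ℂˣ).comp e1.symm.toMonoidHom)), ?_⟩
  intro b
  obtain ⟨χ, hχ⟩ := e2.surjective (e3 b)
  obtain ⟨ψ, hψ⟩ := h3 χ
  refine ⟨e1 ψ, ?_⟩
  change e3.symm (e2 (MonoidHom.domRestrictHom H ℂˣ (e1.symm (e1 ψ)))) = b
  rw [e1.symm_apply_apply, hψ, hχ, e3.symm_apply_apply]

/-! ### The embedding -/

section emb

variable {L : Type} [Field L]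

/-- the elements of the last layer -/
noncomputable def gg (w : ℕ) (a : L) : TR L w := AdjoinRoot.mk ((X : L[X]) ^ (w + 1)) (1 + C a * X ^ w)

lemma gg_mul {w : ℕ} (hw : 0 < w) (a b : L) : gg w a * gg w b = gg w (a + b) := by
  unfold gg
  rw [← map_mul, AdjoinRoot.mk_eq_mk]
  refine ⟨C (a * b) * X ^ (w - 1), ?_⟩
  have h : (X : L[X]) ^ w * X ^ w = X ^ (w + 1) * X ^ (w - 1) := by
    rw [← pow_add, ← pow_add]
    congr 1
    omega
  calc (1 + C a * X ^ w) * (1 + C b * X ^ w) - (1 + C (a + b) * X ^ w) =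
        C (a * b) * ((X : L[X]) ^ w * X ^ w) := by
        rw [map_add, map_mul]; ring
    _ = X ^ (w + 1) * (C (a * b) * X ^ (w - 1)) := by rw [h]; ring

lemma gg_zero (w : ℕ) : gg w (0 : L) = 1 := by
  unfold gg
  rw [map_zero, zero_mul, add_zero, map_one]

lemma gg_pow {w : ℕ} (hw : 0 < w) (a : L) (n : ℕ) : gg w a ^ n = gg w (n • a) := by
  induction n with
  | zero => rw [pow_zero, zero_smul, gg_zero]
  | succ n ih => rw [pow_succ, ih, gg_mul hw, succ_nsmul]

lemma gg_prod {w : ℕ} (hw : 0 < w) {ι : Type} (s : Finset ι) (a : ι → L) :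
    ∏ i ∈ s, gg w (a i) = gg w (∑ i ∈ s, a i) := by
  classical
  induction s using Finset.induction_on with
  | empty => rw [prod_empty, sum_empty, gg_zero]
  | insert i s hi ih => rw [prod_insert hi, sum_insert hi, ih, gg_mul hw]

lemma gg_cf {w : ℕ} (hw : 0 < w) (a : L) : cf w w (gg w a) = a := by
  unfold gg
  rw [cf_mk w (by omega)]
  simp only [coeff_add, coeff_one, coeff_C_mul, coeff_X_pow]
  rw [if_neg (by omega)]
  simp

/-- the elements of the first layer -/
noncomputable def ua (w : ℕ) (a : L) : UG L w := un w (C a)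

lemma ua_pow {p : ℕ} [hp : Fact p.Prime] [CharP L p] (e : ℕ) (a : L) :
    (((ua (p ^ e) a : UG L (p ^ e)) : (TR L (p ^ e))ˣ) : TR L (p ^ e)) ^ p ^ e =
      gg (p ^ e) (a ^ p ^ e) := by
  unfold ua gg
  rw [un_val, ← map_pow]
  congr 1
  have h := add_pow_char_pow (R := L[X]) (p := p) (n := e) 1 (X * C a)
  rw [h, one_pow, mul_pow, ← C_pow]
  ring

end emb

section main

variable {L : Type} [Field L] [Fintype L] (p : ℕ) [hp : Fact p.Prime] [CharP L p]

instance finite_UG (w : ℕ) : Finite (UG L w) := Finite.of_equiv _ (xeq w).symm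

/-- the value in the ring -/
noncomputable def nu (w : ℕ) : UG L w →* TR L w := (Units.coeHom _).comp (UG L w).subtype

omit [Fintype L] in
lemma nu_inj (w : ℕ) : Function.Injective (nu (L := L) w) := by
  intro u v h
  exact Subtype.ext (Units.ext h)

omit [Fintype L] in
lemma ua_order (e : ℕ) (a : L) : (ua (p ^ e) a) ^ p ^ (e + 1) = 1 := by
  apply nu_inj
  have hw : 0 < p ^ e := pow_pos hp.out.pos _
  rw [map_pow, map_one]
  have h := ua_pow (p := p) e a
  have h0 : nu (p ^ e) (ua (p ^ e) a) ^ p ^ (e + 1) =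
      (nu (p ^ e) (ua (p ^ e) a) ^ p ^ e) ^ p := by
    rw [← pow_mul (nu (p ^ e) (ua (p ^ e) a)) (p ^ e) p]
    exact congrArg (fun n : ℕ => nu (p ^ e) (ua (p ^ e) a) ^ n) (pow_succ p e)
  rw [h0]
  change ((((ua (p ^ e) a : UG L (p ^ e)) : (TR L (p ^ e))ˣ) : TR L (p ^ e)) ^ p ^ e) ^ p = 1
  rw [h, gg_pow hw]
  have h2 : (p : ℕ) • a ^ p ^ e = 0 := by
    rw [nsmul_eq_mul, CharP.cast_eq_zero, zero_mul]
  rw [h2, gg_zero]

/-- the homomorphism given by an element of the first layer -/
noncomputable def lay (e : ℕ) (a : L) : ZMod (p ^ (e + 1)) →+ Additive (UG L (p ^ e)) :=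
  ZMod.lift (p ^ (e + 1)) ⟨zmultiplesHom _ (Additive.ofMul (ua (p ^ e) a)), by
    rw [zmultiplesHom_apply, natCast_zsmul, ← ofMul_pow, ua_order]
    rfl⟩

omit [Fintype L] in
lemma lay_apply (e : ℕ) (a : L) (k : ℕ) : lay p e a (k : ZMod (p ^ (e + 1))) =
    Additive.ofMul ((ua (p ^ e) a) ^ k) := by
  unfold lay
  have h := ZMod.lift_coe (p ^ (e + 1)) (A := Additive (UG L (p ^ e)))
    ⟨zmultiplesHom _ (Additive.ofMul (ua (p ^ e) a)), by
      rw [zmultiplesHom_apply, natCast_zsmul, ← ofMul_pow, ua_order]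
      rfl⟩ (k : ℤ)
  rw [Int.cast_natCast] at h
  rw [h]
  change zmultiplesHom _ (Additive.ofMul (ua (p ^ e) a)) (k : ℤ) = _
  rw [zmultiplesHom_apply, natCast_zsmul, ← ofMul_pow]

/-- the embedding -/
noncomputable def embd {ι : Type} [Fintype ι] (e : ℕ) (ω : ι → L) :
    (ι → ZMod (p ^ (e + 1))) →+ Additive (UG L (p ^ e)) :=
  ∑ i, (lay p e (ω i)).comp (Pi.evalAddMonoidHom (fun _ => ZMod (p ^ (e + 1))) i)

omit [Fintype L] in
lemma embd_injective {ι : Type} [Fintype ι] (e : ℕ) [Algebra (ZMod p) L] {ω : ι → L}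
    (hω : LinearIndependent (ZMod p) fun i => ω i ^ p ^ e) :
    Function.Injective (embd p e ω) := by
  classical
  have hw : 0 < p ^ e := pow_pos hp.out.pos _
  have hN : NeZero (p ^ (e + 1)) := ⟨(pow_pos hp.out.pos _).ne'⟩
  rw [injective_iff_map_eq_zero]
  intro b hb
  by_contra hne
  -- an element of order `p`
  have hex : ∃ j : ℕ, p ^ j • b = 0 := by
    refine ⟨e + 1, ?_⟩
    funext i
    rw [Pi.smul_apply, nsmul_eq_mul]
    have : ((p ^ (e + 1) : ℕ) : ZMod (p ^ (e + 1))) = 0 := ZMod.natCast_self _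
    rw [this, zero_mul]
    rfl
  obtain ⟨j, hj⟩ : ∃ j, Nat.find hex = j := ⟨_, rfl⟩
  have hj0 : j ≠ 0 := by
    rintro rfl
    have := Nat.find_spec hex
    rw [hj, pow_zero, one_smul] at this
    exact hne this
  set c := p ^ (j - 1) • b with hc
  have hc0 : c ≠ 0 := by
    intro h
    have := Nat.find_min' hex h
    omega
  have hpc : p • c = 0 := by
    rw [hc, ← mul_smul, ← pow_succ', Nat.sub_add_cancel (Nat.pos_of_ne_zero hj0), ← hj]
    exact Nat.find_spec hex
  have hΦc : embd p e ω c = 0 := by rw [hc, map_nsmul, hb, smul_zero]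
  -- the digits
  have hdig : ∀ i, ∃ k : ℕ, k < p ∧ c i = ((p ^ e * k : ℕ) : ZMod (p ^ (e + 1))) := by
    intro i
    have h1 : ((p * (c i).val : ℕ) : ZMod (p ^ (e + 1))) = 0 := by
      push_cast
      rw [ZMod.natCast_val, ZMod.cast_id', id]
      have := congrFun hpc i
      rw [Pi.smul_apply, nsmul_eq_mul] at this
      exact this
    rw [ZMod.natCast_eq_zero_iff] at h1
    have h1' : p * p ^ e ∣ p * (c i).val := (dvd_of_eq (pow_succ' p e).symm).trans h1
    rw [Nat.mul_dvd_mul_iff_left hp.out.pos] at h1'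
    obtain ⟨k, hk⟩ := h1'
    refine ⟨k, ?_, ?_⟩
    · have h2 := ZMod.val_lt (c i)
      rw [hk, pow_succ] at h2
      exact lt_of_mul_lt_mul_left h2 (Nat.zero_le _)
    · rw [← hk, ZMod.natCast_val, ZMod.cast_id', id]
  choose k hkp hk using hdig
  -- the image
  have h1 : embd p e ω c = Additive.ofMul (∏ i, (ua (p ^ e) (ω i)) ^ (p ^ e * k i)) := by
    unfold embd
    rw [AddMonoidHom.finsetSum_apply, ofMul_prod]
    apply sum_congr rfl
    intro i _
    rw [AddMonoidHom.comp_apply]
    change lay p e (ω i) (c i) = _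
    rw [hk i, lay_apply]
  rw [h1] at hΦc
  have h2 : ∏ i, (ua (p ^ e) (ω i)) ^ (p ^ e * k i) = 1 := hΦc
  have h3 := congrArg (nu (p ^ e)) h2
  rw [map_prod, map_one] at h3
  have h4 : ∀ i, nu (p ^ e) ((ua (p ^ e) (ω i)) ^ (p ^ e * k i)) =
      gg (p ^ e) (k i • ω i ^ p ^ e) := by
    intro i
    rw [map_pow, pow_mul, ← gg_pow hw, ← ua_pow (p := p) e (ω i)]
    rfl
  rw [prod_congr rfl fun i _ => h4 i, gg_prod hw] at h3
  have h5 := congrArg (cf (p ^ e) (p ^ e)) h3
  rw [gg_cf hw, ← gg_zero, gg_cf hw] at h5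
  have h6 : ∑ i, ((k i : ℕ) : ZMod p) • ω i ^ p ^ e = 0 := by
    rw [← h5]
    apply sum_congr rfl
    intro i _
    rw [Nat.cast_smul_eq_nsmul]
  have h7 := Fintype.linearIndependent_iff.1 hω _ h6
  apply hc0
  funext i
  have h8 := h7 i
  rw [ZMod.natCast_eq_zero_iff] at h8
  have h9 : k i = 0 := Nat.eq_zero_of_dvd_of_lt h8 (hkp i)
  rw [hk i, h9, mul_zero, Nat.cast_zero]
  rfl

/-- small groups of bounded exponent are quotients -/
theorem exists_surj (e : ℕ) (A : Type) [AddCommGroup A] [Fintype A]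
    (hA : ∀ a : A, p ^ (e + 1) • a = 0) (hcard : Fintype.card A ≤ Fintype.card L) :
    ∃ π : Additive (UG L (p ^ e)) →+ A, Function.Surjective π := by
  classical
  let _ : Algebra (ZMod p) L := ZMod.algebra L p
  obtain ⟨ι, _, n, hn, ⟨E⟩⟩ := AddCommGroup.equiv_directSum_zmod_of_finite' A
  let E' : A ≃+ ((i : ι) → ZMod (n i)) := E.trans (DirectSum.addEquivProd _)
  have hn0 : ∀ i, NeZero (n i) := fun i => ⟨by have := hn i; omega⟩
  have hdvd : ∀ i, n i ∣ p ^ (e + 1) := by
    intro i
    have h1 := hA (E'.symm (Pi.single i 1))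
    have h2 := congrArg E' h1
    rw [map_nsmul, map_zero, E'.apply_symm_apply] at h2
    have h3 := congrFun h2 i
    rw [Pi.smul_apply, Pi.single_eq_same, nsmul_eq_mul, mul_one] at h3
    exact (ZMod.natCast_eq_zero_iff _ _).1 h3
  have hpn : ∀ i, p ≤ n i := by
    intro i
    obtain ⟨k, _, hk⟩ := (Nat.dvd_prime_pow hp.out).1 (hdvd i)
    have h1 := hn i
    rcases k with _ | k
    · rw [hk, pow_zero] at h1
      omega
    · rw [hk, pow_succ]
      exact Nat.le_mul_of_pos_left _ (pow_pos hp.out.pos _)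
  have hι : Fintype.card ι ≤ finrank (ZMod p) L := by
    have h1 : p ^ Fintype.card ι ≤ Fintype.card A := by
      rw [Fintype.card_congr E'.toEquiv, Fintype.card_pi]
      calc p ^ Fintype.card ι = ∏ i : ι, p := by rw [prod_const, card_univ]
        _ ≤ ∏ i : ι, n i := prod_le_prod' fun i _ => hpn i
        _ = _ := by
            apply prod_congr rfl
            intro i _
            rw [ZMod.card]
    have h2 : Fintype.card L = p ^ finrank (ZMod p) L := by
      rw [Module.card_eq_pow_finrank (K := ZMod p) (V := L), ZMod.card]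
    have h3 := h1.trans hcard
    rw [h2] at h3
    exact (Nat.pow_le_pow_iff_right hp.out.one_lt).1 h3
  -- independent elements
  obtain ⟨η, hη⟩ : ∃ η : ι → L, LinearIndependent (ZMod p) η := by
    have h1 : Fintype.card ι ≤ Fintype.card (Fin (finrank (ZMod p) L)) := by
      rw [Fintype.card_fin]; exact hι
    obtain ⟨f⟩ := Function.Embedding.nonempty_of_card_le h1
    exact ⟨_, (Module.finBasis (ZMod p) L).linearIndependent.comp f f.injective⟩
  have hfrob : Function.Surjective fun x : L => x ^ p ^ e := by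
    apply Finite.surjective_of_injective
    intro x y hxy
    exact iterateFrobenius_inj L p e hxy
  choose ω hω using fun i => hfrob (η i)
  have hind : LinearIndependent (ZMod p) fun i => ω i ^ p ^ e := by
    have : (fun i => ω i ^ p ^ e) = η := by
      funext i
      exact hω i
    rw [this]
    exact hη
  have hinj := embd_injective p e hind
  obtain ⟨π, hπ⟩ := exists_surj_of_inj (UG L (p ^ e)) (Multiplicative (ι → ZMod (p ^ (e + 1))))
    (AddMonoidHom.toMultiplicativeLeft (embd p e ω)) hinj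
  -- the projection onto `A`
  let ρ : (ι → ZMod (p ^ (e + 1))) →+ ((i : ι) → ZMod (n i)) :=
    { toFun := fun b i => ZMod.castHom (hdvd i) (ZMod (n i)) (b i)
      map_zero' := by
        funext i
        exact map_zero _
      map_add' := fun b b' => by
        funext i
        exact map_add _ _ _ }
  have hρ : Function.Surjective ρ := by
    intro y
    have h1 : ∀ i, ∃ x : ZMod (p ^ (e + 1)), ZMod.castHom (hdvd i) (ZMod (n i)) x = y i :=
      fun i => ZMod.castHom_surjective (hdvd i) (y i)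
    choose x hx using h1
    exact ⟨x, funext hx⟩
  refine ⟨(E'.symm.toAddMonoidHom.comp ρ).comp (AddMonoidHom.toMultiplicativeRight.symm π), ?_⟩
  intro a
  obtain ⟨b, hb⟩ := hρ (E' a)
  obtain ⟨u, hu⟩ := hπ (Multiplicative.ofAdd b)
  refine ⟨Additive.ofMul u, ?_⟩
  change E'.symm (ρ (Multiplicative.toAdd (π u))) = a
  rw [hu, toAdd_ofAdd, hb, E'.symm_apply_apply]

end main

end Pool.Agent.Helper479_gq
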