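import Pool.Agent.Helper479_gq.Conc
import Pool.Agent.Helper479_gq.Out
import Pool.Agent.Helper479_gq.Rand
import Pool.Agent.Helper479_gq.Surj

/-!
Good quasi-abelian codes whose index is a constant times the logarithm of the order of the group.
-/

set_option autoImplicit false

open Finset Module

namespace Pool.Agent.Helper479_gq

open Helper479_mod (pull pull_apply card_preimage_pull)

/-- a finite field whose multiplicative group has order divisible by `n` has enough roots -/
lemma enough_roots (L : Type) [Field L] [Fintype L] {n : ℕ} (hn : n ≠ 0)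
    (h : n ∣ Fintype.card L - 1) : HasEnoughRootsOfUnity L n := by
  classical
  have : NeZero n := ⟨hn⟩
  have hunits : Fintype.card Lˣ = Fintype.card L - 1 := Fintype.card_units L
  obtain ⟨g, hg⟩ := IsCyclic.exists_generator (α := Lˣ)
  have hg' : orderOf g = Fintype.card L - 1 := by
    rw [← hunits, ← Nat.card_eq_fintype_card]; exact orderOf_eq_card_of_forall_mem_zpowers hg
  obtain ⟨t, ht⟩ := h
  have hpos : 0 < Fintype.card L - 1 := by
    have := Fintype.one_lt_card (α := L)
    omega
  have ht0 : t ≠ 0 := by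
    rintro rfl
    omega
  have hord : orderOf (g ^ t) = n := by
    rw [orderOf_pow' g ht0, hg', ht, Nat.gcd_eq_right (Dvd.intro_left n rfl)]
    exact Nat.mul_div_cancel _ (Nat.pos_of_ne_zero ht0)
  have hζ : IsPrimitiveRoot ((g ^ t : Lˣ) : L) n := by
    have h := IsPrimitiveRoot.orderOf (g ^ t)
    rw [hord] at h
    exact h.map_of_injective (f := Units.coeHom L) Units.val_injective
  exact { prim := ⟨_, hζ⟩, cyc := rootsOfUnity.isCyclic L n }

/-- good codes for a group give good codes for its quotients by `p`-groups -/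
lemma pull_good {F : Type} [Field F] [Fintype F] [DecidableEq F] (p : ℕ) [Fact p.Prime]
    [CharP F p] {G A : Type} [AddCommGroup G] [Fintype G] [AddCommGroup A] [Fintype A]
    (π : G →+ A) (hπ : Function.Surjective π) (hker : ∀ g, π g = 0 → ∃ k : ℕ, p ^ k • g = 0)
    {l : ℕ} {ρ δ : ℝ} (C : Submodule F (Fin l × G → F)) (hC : InvT C)
    (hdim : ρ * (l * Fintype.card G) ≤ finrank F C)
    (hdist : ∀ w ∈ C, w ≠ 0 → δ * (l * Fintype.card G) ≤ hammingNorm w) :
    ∃ C' : Submodule F (Fin l × A → F), InvT C' ∧ ρ * (l * Fintype.card A) ≤ finrank F C' ∧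
      ∀ w ∈ C', w ≠ 0 → δ * (l * Fintype.card A) ≤ hammingNorm w := by
  classical
  have hGpos : (0 : ℝ) < Fintype.card G := by
    exact_mod_cast Fintype.card_pos_iff.2 ⟨(0 : G)⟩
  have hApos : (0 : ℝ) < Fintype.card A := by
    exact_mod_cast Fintype.card_pos_iff.2 ⟨(0 : A)⟩
  have h1 := finrank_pull (K := F) (J := Fin l) π hπ p hker C (fun F hF g _ => hC F hF g)
  refine ⟨C.comap (pull F (Fin l) π), ?_, ?_, ?_⟩
  · intro f hf g
    obtain ⟨g', rfl⟩ := hπ g
    have h3 := hC _ hf g'
    have h4 : pull F (Fin l) π (fun x : Fin l × A => f (x.1, x.2 + π g')) =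
        fun x : Fin l × G => pull F (Fin l) π f (x.1, x.2 + g') := by
      funext x
      rw [pull_apply, pull_apply, map_add]
    rw [Submodule.mem_comap, h4]
    exact h3
  · have h3 : (finrank F C : ℝ) * Fintype.card A ≤
        Fintype.card G * finrank F (C.comap (pull F (Fin l) π)) := by exact_mod_cast h1
    have h5 : (Fintype.card G : ℝ) * (ρ * (l * Fintype.card A)) ≤
        Fintype.card G * finrank F (C.comap (pull F (Fin l) π)) := by
      calc _ = ρ * (l * Fintype.card G) * Fintype.card A := by ring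
        _ ≤ finrank F C * Fintype.card A := mul_le_mul_of_nonneg_right hdim hApos.le
        _ ≤ _ := h3
    exact le_of_mul_le_mul_left h5 hGpos
  · intro f hf hne
    have hne' : pull F (Fin l) π f ≠ 0 := by
      intro h0
      apply hne
      funext x
      obtain ⟨g, hg⟩ := hπ x.2
      have := congrFun h0 (x.1, g)
      rw [pull_apply] at this
      simp only [hg] at this
      exact this
    have h3 := hdist _ hf hne'
    have h4 := card_preimage_pull (J := Fin l) π hπ (univ.filter fun x => f x ≠ 0)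
    have h5 : hammingNorm (pull F (Fin l) π f) =
        (univ.filter fun x : Fin l × G => (x.1, π x.2) ∈ univ.filter fun x => f x ≠ 0).card := by
      unfold hammingNorm
      congr 1
      ext x
      simp only [mem_filter, mem_univ, true_and]
      rfl
    rw [← h5] at h4
    have h6 : (hammingNorm (pull F (Fin l) π f) : ℝ) * Fintype.card A =
        hammingNorm f * Fintype.card G := by
      have : hammingNorm f = (univ.filter fun x => f x ≠ 0).card := rfl
      rw [this]
      exact_mod_cast h4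
    have h7 : δ * (l * Fintype.card G) * Fintype.card A ≤ hammingNorm f * Fintype.card G := by
      rw [← h6]
      exact mul_le_mul_of_nonneg_right h3 hApos.le
    have h8 : (δ * (l * Fintype.card A)) * Fintype.card G ≤ hammingNorm f * Fintype.card G := by
      calc _ = δ * (l * Fintype.card G) * Fintype.card A := by ring
        _ ≤ _ := h7
    exact le_of_mul_le_mul_right h8 hGpos

/-- the outer code on truncated units -/
lemma unip_code (L : Type) [Field L] [Fintype L] [DecidableEq L] (w : ℕ) (hw : 0 < w)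
    [Fintype (Additive (UG L w))] :
    ∃ C : Submodule L (Additive (UG L w) → L),
      (∀ f ∈ C, ∀ g, (fun x => f (x + g)) ∈ C) ∧
      (1 / (2 * (w : ℝ) ^ 2) ^ w * Fintype.card (Additive (UG L w)) : ℝ) ≤ finrank L C ∧
      ∀ f ∈ C, f ≠ 0 → (1 / 2 * Fintype.card (Additive (UG L w)) : ℝ) ≤
        (univ.filter fun a => f a ≠ 0).card := by
  classical
  let _ : Fintype (UG L w) := Fintype.ofFinite _
  have hcardA : Fintype.card (Additive (UG L w)) = Fintype.card (UG L w) :=
    Fintype.card_congr Additive.toMul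
  set D := Fintype.card L / 2 with hD
  set d := D / w ^ 2 with hd
  have hw2 : 0 < w ^ 2 := by positivity
  have hD2 : 2 * D ≤ Fintype.card L := Nat.mul_div_le _ _
  have hd2 : w ^ 2 * d ≤ D := Nat.mul_div_le _ _
  have hcard : Fintype.card L ≤ 2 * w ^ 2 * (d + 1) := by
    have h1 : D < w ^ 2 * (d + 1) := by
      have := Nat.lt_mul_div_succ D hw2
      rw [hd]; exact this
    have h2 : Fintype.card L < 2 * (D + 1) := by omega
    have h3 : 2 * (D + 1) ≤ 2 * (w ^ 2 * (d + 1)) := Nat.mul_le_mul_left _ h1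
    calc Fintype.card L ≤ 2 * (w ^ 2 * (d + 1)) := (h2.trans_le h3).le
      _ = _ := by ring
  let E : (UG L w → L) ≃ₗ[L] (Additive (UG L w) → L) :=
    LinearEquiv.funCongrLeft L L Additive.toMul
  have hE : ∀ g a, E g a = g (Additive.toMul a) := fun g a => rfl
  refine ⟨(wdeg w D).map E.toLinearMap, ?_, ?_, ?_⟩
  · rintro _ ⟨g, hg, rfl⟩ v
    refine ⟨fun u => g (u * Additive.toMul v), wdeg_inv w hg _, ?_⟩
    funext x
    rfl
  · have h1 : finrank L ((wdeg (L := L) w D).map E.toLinearMap) =
        finrank L (wdeg (L := L) w D) := LinearEquiv.finrank_map_eq E _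
    rw [h1]
    have h2 := wdeg_finrank w hD2 hd2
    have h3 : Fintype.card (Additive (UG L w)) = Fintype.card L ^ w := by
      rw [hcardA, Fintype.card_congr (xeq w), Fintype.card_fun, Fintype.card_fin]
    have h4 : Fintype.card L ^ w ≤ (2 * w ^ 2) ^ w * (d + 1) ^ w := by
      rw [← mul_pow]
      exact Nat.pow_le_pow_left hcard w
    have h5 : (Fintype.card (Additive (UG L w)) : ℝ) ≤ (2 * (w : ℝ) ^ 2) ^ w * (d + 1) ^ w := by
      rw [h3]
      exact_mod_cast h4
    have hwr : (0 : ℝ) < (2 * (w : ℝ) ^ 2) ^ w := by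
      have : (0 : ℝ) < w := by exact_mod_cast hw
      positivity
    rw [one_div, inv_mul_le_iff₀ hwr]
    refine h5.trans (mul_le_mul_of_nonneg_left ?_ hwr.le)
    exact_mod_cast h2
  · rintro _ ⟨g, hg, rfl⟩ hne
    have hne' : g ≠ 0 := by
      rintro rfl
      exact hne (map_zero _)
    have h1 := weight_ge w hD2 hg hne'
    have h2 : (univ.filter fun a => E.toLinearMap g a ≠ 0).card =
        (univ.filter fun u => g u ≠ 0).card := by
      apply Finset.card_equiv Additive.toMul
      intro x
      simp only [mem_filter, mem_univ, true_and]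
      rfl
    rw [h2, hcardA]
    have h3 : (Fintype.card (UG L w) : ℝ) ≤ 2 * (univ.filter fun u => g u ≠ 0).card := by
      exact_mod_cast h1
    linarith

/-- the construction for a given large field -/
lemma assemble (F L : Type) [Field F] [Fintype F] [DecidableEq F] [Field L] [Fintype L]
    [DecidableEq L] [Algebra F L] [Module.Finite F L] (p : ℕ) [hp : Fact p.Prime] [CharP F p]
    [CharP L p] (s n : ℕ) [NeZero n] [HasEnoughRootsOfUnity L n] (hn : (n : L) ≠ 0)
    (P Q : Type) [AddCommGroup P] [Fintype P] [AddCommGroup Q] [Fintype Q]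
    (hP : ∀ g : P, p ^ (s + 1) • g = 0) (hQ : ∀ g : Q, n • g = 0)
    (hPL : Fintype.card P ≤ Fintype.card L)
    (hQL : (4 * Fintype.card Q ^ 2) ^ 2 ≤ Fintype.card L)
    (l : ℕ) (hl : 4 * finrank F L ≤ l) :
    ∃ C : Submodule F (Fin l × (P × Q) → F), InvT C ∧
      (1 / (2 * ((p ^ s : ℕ) : ℝ) ^ 2) ^ p ^ s / 8) * (l * Fintype.card (P × Q)) ≤ finrank F C ∧
      ∀ w ∈ C, w ≠ 0 → 1 / 128 * (l * Fintype.card (P × Q) : ℝ) ≤ hammingNorm w := by
  classical
  have hwpos : 0 < p ^ s := pow_pos hp.out.pos _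
  obtain ⟨π, hπ⟩ := exists_surj (L := L) p s P hP hPL
  have hfinU : Finite (Additive (UG L (p ^ s))) :=
    Finite.of_equiv (UG L (p ^ s)) Additive.ofMul
  let _ : Fintype (Additive (UG L (p ^ s))) := Fintype.ofFinite _
  obtain ⟨C1, h1inv, h1dim, h1dist⟩ := unip_code L (p ^ s) hwpos
  obtain ⟨C2, h2inv, h2dim, h2dist⟩ := rand_code (L := L) (Q := Q) (n := n) hn hQ hQL
  set r1 : ℝ := 1 / (2 * ((p ^ s : ℕ) : ℝ) ^ 2) ^ p ^ s with hr1
  have hr1pos : 0 ≤ r1 := by rw [hr1]; positivity
  have h2dist' : ∀ f ∈ C2, f ≠ 0 → (1 / 4 : ℝ) * Fintype.card Q ≤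
      (univ.filter fun a : Q => ∃ j, f (j, a) ≠ 0).card := by
    intro f hf hne
    have := h2dist f hf hne
    have h3 : (Fintype.card Q : ℝ) ≤ 4 * (univ.filter fun a : Q => ∃ j, f (j, a) ≠ 0).card := by
      exact_mod_cast this
    linarith
  have hT := tens_weight (C := C1) (D := C2) (δ := 1 / 2) (ε := 1 / 4) (by norm_num)
    (fun f hf hne => by convert h1dist f hf hne) (fun f hf hne => by convert h2dist' f hf hne)
  have hTdim : (r1 / 2) * (Fintype.card (Fin 2) *
      Fintype.card (Additive (UG L (p ^ s)) × Q)) ≤ finrank L (tens C1 C2) := by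
    have h3 : (finrank L C1 : ℝ) * finrank L C2 ≤ finrank L (tens C1 C2) := by
      exact_mod_cast tens_finrank C1 C2
    refine le_trans ?_ h3
    have h4 : (Fintype.card Q : ℝ) ≤ finrank L C2 := by exact_mod_cast h2dim
    have h5 : (r1 / 2) * (Fintype.card (Fin 2) *
      Fintype.card (Additive (UG L (p ^ s)) × Q)) =
        (r1 * Fintype.card (Additive (UG L (p ^ s)))) * Fintype.card Q := by
      rw [Fintype.card_fin, Fintype.card_prod]
      push_cast
      ring
    rw [h5]
    exact mul_le_mul h1dim h4 (by positivity) (by positivity)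
  have hl' : 2 * (Fintype.card (Fin 2) * finrank F L) ≤ l := by
    rw [Fintype.card_fin]
    omega
  obtain ⟨C3, h3inv, h3dim, h3dist⟩ := conc (F := F) (J := Fin 2) (tens C1 C2)
    (ρ := r1 / 2) (δ := 1 / 2 * (1 / 4)) (by norm_num)
    (tens_inv h1inv h2inv) hTdim (fun f hf hne => by convert hT f hf hne) l hl'
  -- the quotient
  let pr : Additive (UG L (p ^ s)) × Q →+ P × Q := AddMonoidHom.prodMap π (AddMonoidHom.id Q)
  have hpr : Function.Surjective pr := by
    rintro ⟨y, z⟩
    obtain ⟨u, rfl⟩ := hπ y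
    exact ⟨(u, z), rfl⟩
  have hker : ∀ g, pr g = 0 → ∃ k : ℕ, p ^ k • g = 0 := by
    rintro ⟨u, z⟩ hg
    have h5 : ((π u, z) : P × Q) = 0 := hg
    have h6 : z = 0 := (Prod.mk.inj h5).2
    obtain ⟨⟨k, _⟩, _, hk⟩ := FiniteField.card L p
    have hk' : Fintype.card L = p ^ k := hk
    have h7 : Fintype.card (Additive (UG L (p ^ s))) = p ^ (k * p ^ s) := by
      rw [Fintype.card_congr (Additive.toMul.trans (xeq (p ^ s))), Fintype.card_fun,
        Fintype.card_fin, hk', pow_mul]
    refine ⟨k * p ^ s, ?_⟩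
    rw [h6, Prod.smul_mk, smul_zero, ← h7, card_nsmul_eq_zero]
    rfl
  have h3dim' : (r1 / 8) *
      (l * Fintype.card (Additive (UG L (p ^ s)) × Q)) ≤ finrank F C3 := by
    refine le_trans (le_of_eq ?_) h3dim
    ring
  have h3dist' : ∀ v ∈ C3, v ≠ 0 → 1 / 128 *
      (l * Fintype.card (Additive (UG L (p ^ s)) × Q) : ℝ) ≤ hammingNorm v := by
    intro v hv hne
    refine le_trans (le_of_eq ?_) (h3dist v hv hne)
    ring
  exact pull_good p pr hpr hker C3 h3inv h3dim' h3dist'

/-- good quasi-abelian codes of small index exist for every abelian group of bounded exponent -/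
theorem index_upper (F : Type) [Field F] [Fintype F] [DecidableEq F] (m : ℕ) (hm : 0 < m) :
    ∃ ρ K : ℝ, 0 < ρ ∧ 0 < K ∧ ∀ (A : Type) [AddCommGroup A] [Fintype A] (l : ℕ),
      (∀ g : A, m • g = 0) → 1 < Fintype.card A → K * Real.logb 2 (Fintype.card A) ≤ l →
      ∃ C : Submodule F (Fin l × A → F), InvT C ∧
        ρ * (l * Fintype.card A) ≤ finrank F C ∧
        ∀ w ∈ C, w ≠ 0 → 1 / 128 * (l * Fintype.card A : ℝ) ≤ hammingNorm w := by
  classical
  obtain ⟨p, hchar⟩ := CharP.exists F
  have hp : p.Prime := CharP.char_is_prime F p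
  have : Fact p.Prime := ⟨hp⟩
  obtain ⟨s, n, hpn, hen⟩ := Nat.exists_eq_pow_mul_and_not_dvd hm.ne' p hp.ne_one
  have hn0 : n ≠ 0 := by
    rintro rfl
    simp at hpn
  have hnpos : 0 < n := Nat.pos_of_ne_zero hn0
  have : NeZero n := ⟨hn0⟩
  have hwr : (0 : ℝ) < ((p ^ s : ℕ) : ℝ) := by exact_mod_cast pow_pos hp.pos s
  refine ⟨1 / (2 * ((p ^ s : ℕ) : ℝ) ^ 2) ^ p ^ s / 8, 48 * n, by positivity, by positivity, ?_⟩
  intro A _ _ l hA hA1 hl
  -- the big field
  set a := Nat.clog 2 (Fintype.card A) with ha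
  have ha2 : Fintype.card A ≤ 2 ^ a := Nat.le_pow_clog (by norm_num) _
  have ha1 : 1 ≤ a := Nat.clog_pos (by norm_num) (by omega)
  set D := n.totient * (4 + 4 * a) with hD
  have htot : 0 < n.totient := Nat.totient_pos.2 hnpos
  have hDpos : 0 < D := Nat.mul_pos htot (by omega)
  have : NeZero D := ⟨hDpos.ne'⟩
  let L := FiniteField.Extension F p D
  let _ : Fintype L := Fintype.ofFinite L
  let _ : DecidableEq L := Classical.decEq L
  have hLcard : Fintype.card L = Fintype.card F ^ D := by
    rw [← Nat.card_eq_fintype_card, ← Nat.card_eq_fintype_card]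
    exact FiniteField.natCard_extension F p D
  have hLrank : finrank F L = D := FiniteField.finrank_extension F p D
  have hcharL : CharP L p := charP_of_injective_algebraMap (algebraMap F L).injective p
  have hnL : (n : L) ≠ 0 := by
    rw [Ne, CharP.cast_eq_zero_iff L p]
    exact hpn
  have hq2 : 2 ≤ Fintype.card F := Fintype.one_lt_card
  have hcop : Nat.Coprime (Fintype.card F) n := by
    obtain ⟨⟨k, _⟩, _, hk⟩ := FiniteField.card F p
    rw [hk]
    exact Nat.Coprime.pow_left _ ((Nat.Prime.coprime_iff_not_dvd hp).2 hpn)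
  have hdvd : n ∣ Fintype.card L - 1 := by
    have h1 := Nat.ModEq.pow_totient hcop
    have h2 : Fintype.card F ^ D ≡ 1 [MOD n] := by
      rw [hD, pow_mul]
      have := h1.pow (4 + 4 * a)
      rwa [one_pow] at this
    rw [hLcard]
    exact (Nat.modEq_iff_dvd' (Nat.one_le_pow _ _ (by omega))).1 h2.symm
  have hroots : HasEnoughRootsOfUnity L n := enough_roots L hn0 hdvd
  have hLbig : 16 * Fintype.card A ^ 4 ≤ Fintype.card L := by
    rw [hLcard]
    calc 16 * Fintype.card A ^ 4 ≤ 16 * (2 ^ a) ^ 4 :=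
          Nat.mul_le_mul_left _ (Nat.pow_le_pow_left ha2 4)
      _ = 2 ^ (4 + 4 * a) := by rw [pow_add, ← pow_mul, mul_comm a 4]; norm_num
      _ ≤ 2 ^ D := Nat.pow_le_pow_right (by norm_num) (Nat.le_mul_of_pos_left _ htot)
      _ ≤ Fintype.card F ^ D := Nat.pow_le_pow_left hq2 D
  have hAL : Fintype.card A ≤ Fintype.card L := by
    refine le_trans ?_ hLbig
    have h1 : Fintype.card A ≤ Fintype.card A ^ 4 := Nat.le_self_pow (by norm_num) _
    omega
  -- the condition on the index
  have hlD : 4 * finrank F L ≤ l := by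
    rw [hLrank]
    have hlog : (a : ℝ) ≤ Real.logb 2 (Fintype.card A) + 1 := by
      have h1 : 2 ^ (a - 1) < Fintype.card A := by
        have := Nat.pow_pred_clog_lt_self (b := 2) (by norm_num) (x := Fintype.card A) hA1
        rwa [Nat.pred_eq_sub_one] at this
      have h2 : ((2 : ℝ) ^ (a - 1)) ≤ Fintype.card A := by exact_mod_cast h1.le
      have h3 := Real.logb_le_logb_of_le (b := 2) (by norm_num) (by positivity) h2
      rw [Real.logb_pow, Real.logb_self_eq_one (by norm_num), mul_one, Nat.cast_sub ha1] at h3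
      push_cast at h3
      linarith
    have hlog1 : 1 ≤ Real.logb 2 (Fintype.card A) := by
      have h2 : (2 : ℝ) ≤ Fintype.card A := by exact_mod_cast hA1
      have h3 := Real.logb_le_logb_of_le (b := 2) (by norm_num) (by norm_num) h2
      rwa [Real.logb_self_eq_one (by norm_num)] at h3
    have htn : (n.totient : ℝ) ≤ n := by exact_mod_cast Nat.totient_le n
    have hnr : (0 : ℝ) < n := by exact_mod_cast hnpos
    have h4 : (D : ℝ) ≤ n * (12 * Real.logb 2 (Fintype.card A)) := by
      rw [hD]
      push_cast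
      apply mul_le_mul htn _ (by positivity) hnr.le
      linarith
    have h5 : ((4 * D : ℕ) : ℝ) ≤ l := by
      push_cast
      refine le_trans ?_ hl
      calc (4 : ℝ) * D ≤ 4 * (n * (12 * Real.logb 2 (Fintype.card A))) := by linarith
        _ = _ := by ring
    exact_mod_cast h5
  -- the groups
  have hcop2 : Nat.Coprime (p ^ s) n :=
    Nat.Coprime.pow_left s ((Nat.Prime.coprime_iff_not_dvd hp).2 hpn)
  obtain ⟨P, Q, hP, hQ, ⟨f⟩⟩ := exists_split A hcop2 (fun g => by rw [← hen]; exact hA g)
  let _ : Fintype P := Fintype.ofFinite P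
  let _ : Fintype Q := Fintype.ofFinite Q
  have hPA : Fintype.card P ≤ Fintype.card A :=
    Fintype.card_le_of_injective _ P.subtype_injective
  have hQA : Fintype.card Q ≤ Fintype.card A :=
    Fintype.card_le_of_injective _ Q.subtype_injective
  obtain ⟨C, hCinv, hCdim, hCdist⟩ := assemble F L p s n hnL P Q
    (fun g => by
      apply Subtype.ext
      have := hP g g.2
      rw [AddSubgroup.coe_nsmul, pow_succ, mul_comm, mul_smul, this, smul_zero]
      rfl)
    (fun g => Subtype.ext (hQ g g.2)) (hPA.trans hAL) (by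
      calc (4 * Fintype.card Q ^ 2) ^ 2 = 16 * Fintype.card Q ^ 4 := by ring
        _ ≤ 16 * Fintype.card A ^ 4 := Nat.mul_le_mul_left _ (Nat.pow_le_pow_left hQA 4)
        _ ≤ _ := hLbig) l hlD
  exact pull_good p f.toAddMonoidHom f.surjective (fun g hg => ⟨0, by
    have : g = 0 := f.injective (by rw [map_zero]; exact hg)
    rw [this, smul_zero]⟩) C hCinv hCdim hCdist

end Pool.Agent.Helper479_gq
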