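import Mathlib

/-!
The group of truncated power series with constant term one over a finite field, and invariant
codes of weighted degree on it.
-/

set_option autoImplicit false

open Finset Module Polynomial

namespace Pool.Agent.Helper479_gq

/-! ### Truncated polynomials -/

section trunc

variable {L : Type} [Field L] (w : ℕ)

/-- truncated polynomials -/
abbrev TR (L : Type) [Field L] (w : ℕ) : Type := AdjoinRoot ((X : L[X]) ^ (w + 1))

/-- the coefficients -/
noncomputable def cf (k : ℕ) (u : TR L w) : L :=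
  (AdjoinRoot.modByMonicHom (monic_X_pow (R := L) (w + 1)) u).coeff k

lemma cf_mk {k : ℕ} (hk : k < w + 1) (f : L[X]) :
    cf w k (AdjoinRoot.mk ((X : L[X]) ^ (w + 1)) f) = f.coeff k := by
  unfold cf
  rw [AdjoinRoot.modByMonicHom_mk]
  have h := modByMonic_add_div f (X ^ (w + 1) : L[X])
  conv_rhs => rw [← h]
  rw [coeff_add, coeff_X_pow_mul', if_neg (by omega), add_zero]

lemma cf_mul {k : ℕ} (hk : k < w + 1) (u v : TR L w) :
    cf w k (u * v) = ∑ x ∈ antidiagonal k, cf w x.1 u * cf w x.2 v := by
  obtain ⟨f, rfl⟩ := AdjoinRoot.mk_surjective u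
  obtain ⟨g, rfl⟩ := AdjoinRoot.mk_surjective v
  rw [← map_mul, cf_mk w hk, coeff_mul]
  apply sum_congr rfl
  intro x hx
  have h := mem_antidiagonal.1 hx
  rw [cf_mk w (by omega), cf_mk w (by omega)]

lemma cf_one_zero : cf w 0 (1 : TR L w) = 1 := by
  rw [← map_one (AdjoinRoot.mk ((X : L[X]) ^ (w + 1))), cf_mk w (by omega)]
  simp

lemma cf_mul_zero (u v : TR L w) : cf w 0 (u * v) = cf w 0 u * cf w 0 v := by
  rw [cf_mul w (by omega)]
  simp

lemma cf_ext {u v : TR L w} (h : ∀ k < w + 1, cf w k u = cf w k v) : u = v := by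
  obtain ⟨f, rfl⟩ := AdjoinRoot.mk_surjective u
  obtain ⟨g, rfl⟩ := AdjoinRoot.mk_surjective v
  rw [AdjoinRoot.mk_eq_mk, X_pow_dvd_iff]
  intro d hd
  have := h d hd
  rw [cf_mk w hd, cf_mk w hd] at this
  rw [coeff_sub, this, sub_self]

/-- the group of units with constant term one -/
def UG (L : Type) [Field L] (w : ℕ) : Subgroup (TR L w)ˣ where
  carrier := {u | cf w 0 (u : TR L w) = 1}
  mul_mem' := by
    intro u v hu hv
    change cf w 0 ((u : TR L w) * (v : TR L w)) = 1
    rw [cf_mul_zero, (hu : cf w 0 (u : TR L w) = 1), (hv : cf w 0 (v : TR L w) = 1), mul_one]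
  one_mem' := cf_one_zero w
  inv_mem' := by
    intro u hu
    change cf w 0 ((u⁻¹ : (TR L w)ˣ) : TR L w) = 1
    have h := cf_mul_zero w (u : TR L w) ((u⁻¹ : (TR L w)ˣ) : TR L w)
    rw [Units.mul_inv, cf_one_zero, (hu : cf w 0 (u : TR L w) = 1), one_mul] at h
    exact h.symm

/-- the coordinates -/
noncomputable def xc (u : UG L w) (k : Fin w) : L := cf w (k + 1) ((u : (TR L w)ˣ) : TR L w)

lemma xc_injective : Function.Injective (xc (L := L) w) := by
  intro u v h
  apply Subtype.ext
  apply Units.ext
  apply cf_ext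
  intro k hk
  rcases k with _ | k
  · rw [(u.2 : cf w 0 ((u : (TR L w)ˣ) : TR L w) = 1), (v.2 : cf w 0 ((v : (TR L w)ˣ) : TR L w) = 1)]
  · exact congrFun h ⟨k, by omega⟩

lemma exists_unit (g : L[X]) : IsUnit (AdjoinRoot.mk ((X : L[X]) ^ (w + 1)) (1 + X * g)) := by
  rw [map_add, map_one, map_mul]
  apply IsNilpotent.isUnit_one_add
  refine ⟨w + 1, ?_⟩
  rw [mul_pow, ← map_pow, AdjoinRoot.mk_self, zero_mul]

/-- the unit of a polynomial -/
noncomputable def un (g : L[X]) : UG L w :=
  ⟨(exists_unit w g).unit, by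
    change cf w 0 (((exists_unit w g).unit : (TR L w)ˣ) : TR L w) = 1
    rw [IsUnit.unit_spec, cf_mk w (by omega)]
    simp⟩

lemma un_val (g : L[X]) : (((un w g : UG L w) : (TR L w)ˣ) : TR L w) =
    AdjoinRoot.mk ((X : L[X]) ^ (w + 1)) (1 + X * g) := IsUnit.unit_spec _

lemma xc_surjective : Function.Surjective (xc (L := L) w) := by
  intro z
  refine ⟨un w (∑ k : Fin w, C (z k) * X ^ (k : ℕ)), ?_⟩
  funext k
  unfold xc
  rw [un_val, cf_mk w (by have := k.2; omega), coeff_add, coeff_one, if_neg (by omega), zero_add,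
    coeff_X_mul, finsetSum_coeff]
  simp_rw [coeff_C_mul_X_pow]
  rw [Finset.sum_eq_single k]
  · simp
  · intro i _ hi
    rw [if_neg]
    intro h
    exact hi (Fin.ext h.symm)
  · intro h
    exact absurd (mem_univ _) h

/-- the group as an affine space -/
noncomputable def xeq : UG L w ≃ (Fin w → L) :=
  Equiv.ofBijective (xc w) ⟨xc_injective w, xc_surjective w⟩

lemma xeq_apply (u : UG L w) : xeq w u = xc w u := rfl

end trunc

/-! ### Codes of weighted degree -/

section weighted

variable {L : Type} [Field L] (w : ℕ)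

/-- the functions of weighted degree at most `D` -/
def wdeg (D : ℕ) : Submodule L (UG L w → L) :=
  Submodule.span L {g | ∃ m : Fin w → ℕ, ∑ k : Fin w, (k + 1 : ℕ) * m k ≤ D ∧
    g = fun u => ∏ k, xc w u k ^ m k}

lemma wdeg_mono {a b : ℕ} (h : a ≤ b) : wdeg (L := L) w a ≤ wdeg w b := by
  apply Submodule.span_mono
  rintro g ⟨m, hm, rfl⟩
  exact ⟨m, hm.trans h, rfl⟩

lemma wdeg_one : (1 : UG L w → L) ∈ wdeg w 0 := by
  apply Submodule.subset_span
  refine ⟨0, by simp, ?_⟩
  funext u
  simp

lemma wdeg_mul {a b : ℕ} {g h : UG L w → L} (hg : g ∈ wdeg w a) (hh : h ∈ wdeg w b) :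
    g * h ∈ wdeg w (a + b) := by
  unfold wdeg at hg
  induction hg using Submodule.span_induction with
  | mem g hg =>
    unfold wdeg at hh
    induction hh using Submodule.span_induction with
    | mem h hh =>
      obtain ⟨m, hm, rfl⟩ := hg
      obtain ⟨m', hm', rfl⟩ := hh
      apply Submodule.subset_span
      refine ⟨m + m', ?_, ?_⟩
      · simp only [Pi.add_apply, mul_add, sum_add_distrib]
        omega
      · funext u
        simp only [Pi.mul_apply, Pi.add_apply, pow_add, prod_mul_distrib]
    | zero => rw [mul_zero]; exact Submodule.zero_mem _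
    | add h h' _ _ h1 h2 => rw [mul_add]; exact Submodule.add_mem _ h1 h2
    | smul c h _ h1 => rw [mul_smul_comm]; exact Submodule.smul_mem _ c h1
  | zero => rw [zero_mul]; exact Submodule.zero_mem _
  | add g g' _ _ h1 h2 => rw [add_mul]; exact Submodule.add_mem _ h1 h2
  | smul c g _ h1 => rw [smul_mul_assoc]; exact Submodule.smul_mem _ c h1

lemma wdeg_pow {a : ℕ} {g : UG L w → L} (hg : g ∈ wdeg w a) (n : ℕ) : g ^ n ∈ wdeg w (a * n) := by
  induction n with
  | zero => rw [pow_zero, mul_zero]; exact wdeg_one w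
  | succ n ih => rw [pow_succ g n, Nat.mul_succ]; exact wdeg_mul w ih hg

lemma wdeg_prod (a m : Fin w → ℕ) (g : Fin w → (UG L w → L)) (hg : ∀ k, g k ∈ wdeg w (a k))
    (s : Finset (Fin w)) : ∏ k ∈ s, g k ^ m k ∈ wdeg w (∑ k ∈ s, a k * m k) := by
  classical
  induction s using Finset.induction_on with
  | empty => rw [prod_empty, sum_empty]; exact wdeg_one w
  | insert k s hk ih =>
    rw [prod_insert hk, sum_insert hk]
    exact wdeg_mul w (wdeg_pow w (hg k) _) ih

lemma wdeg_cf {i : ℕ} (hi : i < w + 1) :
    (fun u : UG L w => cf w i ((u : (TR L w)ˣ) : TR L w)) ∈ wdeg w i := by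
  rcases i with _ | i
  · have : (fun u : UG L w => cf w 0 ((u : (TR L w)ˣ) : TR L w)) = 1 := by
      funext u
      exact u.2
    rw [this]
    exact wdeg_one w
  · apply Submodule.subset_span
    refine ⟨Pi.single ⟨i, by omega⟩ 1, ?_, ?_⟩
    · rw [Finset.sum_eq_single (⟨i, by omega⟩ : Fin w)]
      · simp
      · intro k _ hk
        rw [Pi.single_eq_of_ne hk, mul_zero]
      · intro h; exact absurd (mem_univ _) h
    · funext u
      rw [Finset.prod_eq_single (⟨i, by omega⟩ : Fin w)]
      · simp only [Pi.single_eq_same, pow_one]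
        rfl
      · intro k _ hk
        rw [Pi.single_eq_of_ne hk, pow_zero]
      · intro h; exact absurd (mem_univ _) h

lemma wdeg_coord (v : UG L w) (k : Fin w) :
    (fun u : UG L w => xc w (u * v) k) ∈ wdeg w (k + 1) := by
  have hk : (k : ℕ) + 1 < w + 1 := by have := k.2; omega
  have h : (fun u : UG L w => xc w (u * v) k) =
      ∑ x ∈ antidiagonal ((k : ℕ) + 1), (cf w x.2 ((v : (TR L w)ˣ) : TR L w)) •
        (fun u : UG L w => cf w x.1 ((u : (TR L w)ˣ) : TR L w)) := by
    funext u
    rw [Finset.sum_apply]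
    unfold xc
    rw [Subgroup.coe_mul, Units.val_mul, cf_mul w hk]
    apply sum_congr rfl
    intro x _
    rw [Pi.smul_apply, smul_eq_mul, mul_comm]
  rw [h]
  apply Submodule.sum_mem
  intro x hx
  have h1 := mem_antidiagonal.1 hx
  apply Submodule.smul_mem
  exact wdeg_mono w (by omega) (wdeg_cf w (by omega))

lemma wdeg_inv {D : ℕ} {g : UG L w → L} (hg : g ∈ wdeg w D) (v : UG L w) :
    (fun u => g (u * v)) ∈ wdeg w D := by
  unfold wdeg at hg
  induction hg using Submodule.span_induction with
  | mem g hg =>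
    obtain ⟨m, hm, rfl⟩ := hg
    have h1 := wdeg_prod w (fun k => (k : ℕ) + 1) m (fun k => fun u : UG L w => xc w (u * v) k)
      (fun k => wdeg_coord w v k) univ
    refine wdeg_mono w hm ?_
    convert h1 using 1
    funext u
    simp only [Finset.prod_apply, Pi.pow_apply]
  | zero => exact Submodule.zero_mem _
  | add g g' _ _ h1 h2 => exact Submodule.add_mem _ h1 h2
  | smul c g _ h1 => exact Submodule.smul_mem _ c h1

lemma wdeg_poly {D : ℕ} {g : UG L w → L} (hg : g ∈ wdeg w D) :
    ∃ P : MvPolynomial (Fin w) L, P.totalDegree ≤ D ∧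
      ∀ u, g u = MvPolynomial.eval (xc w u) P := by
  unfold wdeg at hg
  induction hg using Submodule.span_induction with
  | mem g hg =>
    obtain ⟨m, hm, rfl⟩ := hg
    refine ⟨∏ k, MvPolynomial.X k ^ m k, ?_, ?_⟩
    · refine (MvPolynomial.totalDegree_finsetProd _ _).trans ?_
      refine le_trans (sum_le_sum fun k _ => ?_) hm
      refine (MvPolynomial.totalDegree_pow _ _).trans ?_
      rw [MvPolynomial.totalDegree_X, mul_one]
      exact Nat.le_mul_of_pos_left _ (Nat.succ_pos _)
    · intro u
      simp
  | zero => exact ⟨0, by simp, fun u => by simp⟩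
  | add g g' _ _ h1 h2 =>
    obtain ⟨P, hP, hP'⟩ := h1
    obtain ⟨P', hQ, hQ'⟩ := h2
    refine ⟨P + P', (MvPolynomial.totalDegree_add _ _).trans (max_le hP hQ), fun u => ?_⟩
    rw [Pi.add_apply, hP', hQ', map_add]
  | smul c g _ h1 =>
    obtain ⟨P, hP, hP'⟩ := h1
    refine ⟨c • P, (MvPolynomial.totalDegree_smul_le _ _).trans hP, fun u => ?_⟩
    rw [Pi.smul_apply, hP', MvPolynomial.smul_eval, smul_eq_mul]

variable [Fintype L] [DecidableEq L]

/-- the number of zeros -/
lemma zeros_le [Fintype (UG L w)] {P : MvPolynomial (Fin w) L} (hP : P ≠ 0) :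
    (univ.filter fun u : UG L w => MvPolynomial.eval (xc w u) P = 0).card * Fintype.card L ≤
      P.totalDegree * Fintype.card (UG L w) := by
  have h1 := MvPolynomial.schwartz_zippel_totalDegree hP (univ : Finset L)
  have h2 : (univ.filter fun u : UG L w => MvPolynomial.eval (xc w u) P = 0).card =
      (Finset.filter (fun f => MvPolynomial.eval f P = 0)
        (Fintype.piFinset fun _ : Fin w => (univ : Finset L))).card := by
    apply Finset.card_equiv (xeq w)
    intro u
    simp only [mem_filter, mem_univ, true_and, Fintype.mem_piFinset, xeq_apply]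
    simp
  have h3 : Fintype.card (UG L w) = Fintype.card L ^ w := by
    rw [Fintype.card_congr (xeq w), Fintype.card_fun, Fintype.card_fin]
  rw [card_univ, ← h2] at h1
  have hL : (0 : ℚ≥0) < (Fintype.card L : ℚ≥0) := by
    exact_mod_cast Fintype.card_pos
  rw [div_le_div_iff₀ (by positivity) hL] at h1
  rw [h3]
  exact_mod_cast h1

lemma weight_ge [Fintype (UG L w)] {D : ℕ} (hD : 2 * D ≤ Fintype.card L) {g : UG L w → L}
    (hg : g ∈ wdeg w D) (hne : g ≠ 0) :
    Fintype.card (UG L w) ≤ 2 * (univ.filter fun u => g u ≠ 0).card := by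
  obtain ⟨P, hP, hgP⟩ := wdeg_poly w hg
  have hP0 : P ≠ 0 := by
    rintro rfl
    apply hne
    funext u
    rw [hgP, map_zero]; rfl
  have h1 := zeros_le w hP0
  have h2 : (univ.filter fun u : UG L w => g u = 0) =
      univ.filter fun u : UG L w => MvPolynomial.eval (xc w u) P = 0 := by
    ext u
    rw [mem_filter, mem_filter, hgP]
  rw [← h2] at h1
  have h3 : (univ.filter fun u : UG L w => g u = 0).card +
      (univ.filter fun u => g u ≠ 0).card = Fintype.card (UG L w) := by
    rw [← card_univ (α := UG L w)]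
    exact card_filter_add_card_filter_not _
  have hL : 0 < Fintype.card L := Fintype.card_pos
  have h4 : 2 * (univ.filter fun u : UG L w => g u = 0).card ≤ Fintype.card (UG L w) := by
    have h5 : (2 * (univ.filter fun u : UG L w => g u = 0).card) * Fintype.card L ≤
        Fintype.card (UG L w) * Fintype.card L := by
      calc (2 * (univ.filter fun u : UG L w => g u = 0).card) * Fintype.card L
          = 2 * ((univ.filter fun u : UG L w => g u = 0).card * Fintype.card L) := by ring
        _ ≤ 2 * (P.totalDegree * Fintype.card (UG L w)) := Nat.mul_le_mul_left _ h1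
        _ ≤ 2 * (D * Fintype.card (UG L w)) :=
            Nat.mul_le_mul_left _ (Nat.mul_le_mul_right _ hP)
        _ = (2 * D) * Fintype.card (UG L w) := by ring
        _ ≤ Fintype.card L * Fintype.card (UG L w) := Nat.mul_le_mul_right _ hD
        _ = _ := by ring
    exact Nat.le_of_mul_le_mul_right h5 hL
  omega

lemma wdeg_finrank [Fintype (UG L w)] {D d : ℕ} (hD : 2 * D ≤ Fintype.card L)
    (hd : w ^ 2 * d ≤ D) : (d + 1) ^ w ≤ finrank L (wdeg (L := L) w D) := by
  classical
  have hL : 0 < Fintype.card L := Fintype.card_pos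
  let mon : (Fin w → Fin (d + 1)) → (UG L w → L) := fun m u => ∏ k, xc w u k ^ (m k : ℕ)
  have hmon : ∀ m, mon m ∈ wdeg w D := by
    intro m
    apply Submodule.subset_span
    refine ⟨fun k => (m k : ℕ), ?_, rfl⟩
    refine le_trans ?_ hd
    calc ∑ k : Fin w, ((k : ℕ) + 1) * (m k : ℕ) ≤ ∑ k : Fin w, w * d := by
          apply sum_le_sum
          intro k _
          apply Nat.mul_le_mul
          · exact k.2
          · have := (m k).2
            omega
      _ = w ^ 2 * d := by
          rw [sum_const, card_univ, Fintype.card_fin, smul_eq_mul]; ring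
  let Φ : ((Fin w → Fin (d + 1)) → L) →ₗ[L] wdeg (L := L) w D :=
    { toFun := fun c => ⟨∑ m, c m • mon m, Submodule.sum_mem _ fun m _ =>
        Submodule.smul_mem _ _ (hmon m)⟩
      map_add' := by
        intro c c'
        apply Subtype.ext
        simp only [Pi.add_apply, add_smul, sum_add_distrib, Submodule.coe_add]
      map_smul' := by
        intro a c
        apply Subtype.ext
        simp only [Pi.smul_apply, smul_eq_mul, RingHom.id_apply, Submodule.coe_smul, smul_sum,
          mul_smul] }
  have hΦ : Function.Injective Φ := by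
    rw [injective_iff_map_eq_zero]
    intro c hc
    let P : MvPolynomial (Fin w) L := ∑ m : Fin w → Fin (d + 1),
      MvPolynomial.monomial (Finsupp.equivFunOnFinite.symm fun k => (m k : ℕ)) (c m)
    have hPdeg : P.totalDegree ≤ D := by
      apply MvPolynomial.totalDegree_finsetSum_le
      intro m _
      refine (MvPolynomial.totalDegree_monomial_le _ _).trans ?_
      rw [Finsupp.sum_fintype _ _ (fun _ => rfl)]
      refine le_trans ?_ hd
      calc ∑ k : Fin w, (Finsupp.equivFunOnFinite.symm fun k => (m k : ℕ)) k ≤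
            ∑ k : Fin w, w * d := by
            apply sum_le_sum
            intro k _
            change (m k : ℕ) ≤ w * d
            have h1 := (m k).2
            have h2 : d ≤ w * d := Nat.le_mul_of_pos_left _ (by have := k.2; omega)
            omega
        _ = w ^ 2 * d := by
            rw [sum_const, card_univ, Fintype.card_fin, smul_eq_mul]; ring
    have hPev : ∀ u : UG L w, MvPolynomial.eval (xc w u) P = 0 := by
      intro u
      have h1 : ∑ m, c m • mon m = 0 := congrArg Subtype.val hc
      have h2 := congrFun h1 u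
      rw [Finset.sum_apply] at h2
      simp only [P, map_sum, MvPolynomial.eval_monomial]
      rw [Pi.zero_apply] at h2
      rw [← h2]
      apply sum_congr rfl
      intro m _
      rw [Pi.smul_apply, smul_eq_mul, Finsupp.prod_fintype _ _ (fun _ => pow_zero _)]
      rfl
    have hP0 : P = 0 := by
      by_contra hne
      have h1 := zeros_le w hne
      have h2 : (univ.filter fun u : UG L w => MvPolynomial.eval (xc w u) P = 0).card =
          Fintype.card (UG L w) := by
        rw [filter_true_of_mem fun u _ => hPev u, card_univ]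
      rw [h2] at h1
      have h3 : 0 < Fintype.card (UG L w) := Fintype.card_pos
      have h4 : Fintype.card L ≤ P.totalDegree := by
        rw [mul_comm] at h1
        exact Nat.le_of_mul_le_mul_right h1 h3
      omega
    funext m
    have h1 : MvPolynomial.coeff (Finsupp.equivFunOnFinite.symm fun k => (m k : ℕ)) P = 0 := by
      rw [hP0]; rfl
    simp only [P, MvPolynomial.coeff_sum, MvPolynomial.coeff_monomial] at h1
    rw [Finset.sum_eq_single m] at h1
    · rw [if_pos rfl] at h1
      exact h1
    · intro m' _ hne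
      rw [if_neg]
      intro h
      apply hne
      funext k
      apply Fin.ext
      have := congrArg (fun f : Fin w →₀ ℕ => f k) h
      exact this
    · intro h
      exact absurd (mem_univ _) h
  have h := LinearMap.finrank_le_finrank_of_injective hΦ
  rw [Module.finrank_fintype_fun_eq_card, Fintype.card_fun, Fintype.card_fin,
    Fintype.card_fin] at h
  exact h

end weighted

end Pool.Agent.Helper479_gq
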